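import Pool.Agent.Lib.MT.Defs
import Pool.Agent.Lib.HLB.Defs

/-!
# Maynard's sieve for arbitrary shifts: definitions

The shifts `h i` are arbitrary integers in `[0, N]`. The primes `p ≤ D` (a constant) are treated by a
residue class modulo `primorial D`, the primes `D < p ≤ z = ⌊log N⌋` by the Brun-Hooley sieve (both
bounds, `Pool.Agent.Lib.HLB.Hooley`), and the Maynard weights of `Pool.Agent.Lib.MT` are supported on
the primes `z < p ≤ R` dividing no difference of the shifts.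
-/

open Finset
open scoped Classical

namespace Pool.Agent.Lib.MP

open Pool.Agent.Lib.MT Pool.Agent.HLB

variable {k : ℕ}

/-- No prime `p ≤ z` which does not divide `W` divides some `n + h i`. -/
def Avoid (z W : ℕ) (h : Fin k → ℕ) (n : ℕ) : Prop :=
  ∀ p : ℕ, p.Prime → p ≤ z → ¬ p ∣ W → ∀ i, ¬ p ∣ n + h i

/-- All primes dividing some `n + h i` are larger than `y`. -/
def Rough (y : ℝ) (h : Fin k → ℕ) (n : ℕ) : Prop :=
  ∀ i, ∀ p : ℕ, p.Prime → p ∣ n + h i → y < p

/-- The density of the integers with `Avoid z W h`. -/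
noncomputable def GG (z W : ℕ) (h : Fin k → ℕ) : ℝ :=
  ∏ p ∈ (Nat.primesLE z).filter (fun p => ¬ p ∣ W), (1 - (nuI h p : ℝ) / p)

/-- The same density when one component is prime. -/
noncomputable def GP (z W : ℕ) (h : Fin k → ℕ) : ℝ :=
  ∏ p ∈ (Nat.primesLE z).filter (fun p => ¬ p ∣ W), (1 - ((nuI h p : ℝ) - 1) / ((p:ℝ) - 1))

/-- The product of the differences. -/
def Dl (h : Fin k → ℕ) : ℕ := ∏ i, ∏ j, if i = j then 1 else ((h i : ℤ) - h j).natAbs

/-- The range of the preliminary sieve. -/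
noncomputable def zN (N : ℕ) : ℕ := ⌊Real.log N⌋₊

/-- The modulus made of the primes avoided by the Maynard weights. -/
noncomputable def WN (N : ℕ) (h : Fin k → ℕ) : ℕ := primorial (zN N) * Dl h

/-- The corresponding density. -/
noncomputable def nuN (N : ℕ) (h : Fin k → ℕ) : ℝ := dens (WN N h)

/-- `∏_{D < p ≤ z, p ∣ d} (1 - 1/p)⁻¹`. -/
noncomputable def ggd (z D d : ℕ) : ℝ :=
  ∏ p ∈ (Nat.primesLE z).filter (fun p => D < p ∧ p ∣ d), (1 - 1 / (p:ℝ))⁻¹

/-- The properties of the set of sieving primes used by the Maynard weights. In the landed files of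
`Pool.Agent.Lib.MT` one has `P = Pr W R`, `ν = dens W`, `ℓ = 1 + log W`. -/
structure PD (C : ℝ) (P : Finset ℕ) (R : ℕ) (ν ℓ : ℝ) : Prop where
  prime : ∀ p ∈ P, p.Prime
  le : ∀ p ∈ P, p ≤ R
  νpos : 0 < ν
  νle : ν ≤ 1
  ℓge : 1 ≤ ℓ
  low : ∀ u : ℕ, 1 ≤ u → u ≤ R →
    ν * Real.log u ≤ sum1 P κ₁ (fun a => if a ≤ u then 1 else 0)
  win : ∀ u' u : ℝ, 0 < u' → u' ≤ u → 1 ≤ u → u ≤ R →
    sum1 P κ₂ (fun a => if u' < a ∧ a ≤ u then 1 else 0) ≤ C * ν * (Real.log (u / u') + ℓ)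

end Pool.Agent.Lib.MP
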