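import Pool.Agent.Lib.MP.Fund

/-!
# Integers without prime factors up to z in an interval of length z

PROOF SKETCH. K from `fund 1 (1/2)`, z' = floor(z^(1/(2K+2))) (so (z'+1)^K ≤ 2^K z^(1/2)). Upper
property with h p = 1[p ∣ a]: the count over a ∈ (y, y+z] of the a without prime factor ≤ z' is at most
∑_s U s #{a : ∏ s ∣ a} ≤ z ∑_s U s ∏ 1/p + #{s : ∏ s ≤ (z'+1)^K} ≤ (3/2) z ∏_{p ≤ z'} (1 - 1/p) +
(z'+1)^K, and ∏_{p ≤ z'} (1-1/p) ≤ 1/log(z'+1) ≤ (2K+2)/log z (Sieve4.prod_one_sub_inv_le).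
-/

open Finset
open scoped Classical

namespace Pool.Agent.Lib.MP

open Pool.Agent.HLB

namespace ShortAux

theorem card_dvd (y z d : ℕ) :
    ((Finset.Ioc y (y + z)).filter (fun a => d ∣ a)).card = (y + z) / d - y / d := by
  have h1 : ((Finset.Ioc 0 (y + z)).filter (fun a => d ∣ a)).card = (y + z) / d :=
    Nat.Ioc_filter_dvd_card_eq_div _ _
  have h2 : ((Finset.Ioc 0 y).filter (fun a => d ∣ a)).card = y / d :=
    Nat.Ioc_filter_dvd_card_eq_div _ _
  have h3 : (Finset.Ioc 0 (y + z)).filter (fun a => d ∣ a) =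
      (Finset.Ioc 0 y).filter (fun a => d ∣ a) ∪ (Finset.Ioc y (y + z)).filter (fun a => d ∣ a) := by
    rw [← Finset.filter_union, Finset.Ioc_union_Ioc_eq_Ioc (Nat.zero_le _) (Nat.le_add_right _ _)]
  have h4 : Disjoint ((Finset.Ioc 0 y).filter (fun a => d ∣ a))
      ((Finset.Ioc y (y + z)).filter (fun a => d ∣ a)) := by
    refine Finset.disjoint_filter_filter ?_
    rw [Finset.disjoint_left]
    intro a ha hb
    rw [Finset.mem_Ioc] at ha hb
    omega
  rw [h3, Finset.card_union_of_disjoint h4, h2] at h1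
  omega

theorem card_dvd_abs (y z d : ℕ) (hd : 0 < d) :
    |(((Finset.Ioc y (y + z)).filter (fun a => d ∣ a)).card : ℝ) - (z : ℝ) / d| ≤ 1 := by
  rw [card_dvd]
  have hle : y / d ≤ (y + z) / d := Nat.div_le_div_right (Nat.le_add_right _ _)
  rw [Nat.cast_sub hle]
  have hd0 : (0:ℝ) < d := by exact_mod_cast hd
  have h1 : (((y + z) / d : ℕ) : ℝ) ≤ ((y:ℝ) + z) / d := by
    have := @Nat.cast_div_le ℝ _ _ _ (y + z) d
    push_cast at this
    exact this
  have h2 : ((y / d : ℕ) : ℝ) ≤ (y:ℝ) / d := Nat.cast_div_le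
  have h3 : ((y:ℝ) + z) / d < (((y + z) / d : ℕ) : ℝ) + 1 := by
    rw [div_lt_iff₀ hd0]
    have h5 : y + z < ((y + z) / d + 1) * d := by
      have := Nat.lt_mul_div_succ (y + z) hd
      rw [Nat.mul_comm] at this
      exact this
    exact_mod_cast h5
  have h4 : (y:ℝ) / d < ((y / d : ℕ) : ℝ) + 1 := by
    rw [div_lt_iff₀ hd0]
    have h5 : y < (y / d + 1) * d := by
      have := Nat.lt_mul_div_succ y hd
      rw [Nat.mul_comm] at this
      exact this
    exact_mod_cast h5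
  rw [add_div] at h1 h3
  rw [abs_le]
  constructor <;> linarith

theorem prod_ind (s : Finset ℕ) (hs : ∀ p ∈ s, p.Prime) (a : ℕ) :
    ∏ p ∈ s, (if p ∣ a then (1:ℝ) else 0) = if (∏ p ∈ s, p) ∣ a then 1 else 0 := by
  by_cases h : (∏ p ∈ s, p) ∣ a
  · rw [if_pos h]
    refine Finset.prod_eq_one fun p hp => ?_
    rw [if_pos ((Finset.dvd_prod_of_mem _ hp).trans h)]
  · rw [if_neg h]
    have : ∃ p ∈ s, ¬ p ∣ a := by
      by_contra hcon
      push Not at hcon
      exact h (Finset.prod_primes_dvd a (fun p hp => (hs p hp).prime) hcon)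
    obtain ⟨p, hp, hpa⟩ := this
    exact Finset.prod_eq_zero hp (if_neg hpa)

theorem card_level (z N : ℕ) (U : Finset ℕ → ℝ)
    (hU : ∀ s ∈ (Nat.primesLE z).powerset, U s ≠ 0 → ∏ p ∈ s, p ≤ N) :
    ((((Nat.primesLE z).powerset.filter (fun s => U s ≠ 0)).card : ℝ)) ≤ N := by
  have h1 : ((Nat.primesLE z).powerset.filter (fun s => U s ≠ 0)).card ≤ (Finset.Icc 1 N).card := by
    refine Finset.card_le_card_of_injOn (fun s => ∏ p ∈ s, p) ?_ ?_
    · intro s hs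
      rw [Finset.mem_coe, Finset.mem_filter] at hs
      rw [Finset.mem_coe, Finset.mem_Icc]
      refine ⟨?_, hU s hs.1 hs.2⟩
      refine Nat.one_le_iff_ne_zero.mpr ?_
      refine Finset.prod_ne_zero_iff.mpr fun p hp => ?_
      have := Nat.prime_of_mem_primesLE (Finset.mem_powerset.mp hs.1 hp)
      exact this.ne_zero
    · intro s hs t ht hst
      rw [Finset.mem_coe, Finset.mem_filter, Finset.mem_powerset] at hs ht
      have h2 := Nat.primeFactors_prod (s := s) (fun p hp => Nat.prime_of_mem_primesLE (hs.1 hp))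
      have h3 := Nat.primeFactors_prod (s := t) (fun p hp => Nat.prime_of_mem_primesLE (ht.1 hp))
      rw [← h2, ← h3]
      exact congrArg _ hst
  rw [Nat.card_Icc, Nat.add_sub_cancel] at h1
  exact_mod_cast h1

/-- Sieve upper bound for an interval. -/
theorem count_le (z' y z N : ℕ) (U : Finset ℕ → ℝ) (hU1 : ∀ s, |U s| ≤ 1)
    (hlev : ∀ s ∈ (Nat.primesLE z').powerset, U s ≠ 0 → ∏ p ∈ s, p ≤ N)
    (hup : ∀ h : ℕ → ℝ, (∀ p, 0 ≤ h p ∧ h p ≤ 1) → ∏ p ∈ Nat.primesLE z', (1 - h p) ≤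
        ∑ s ∈ (Nat.primesLE z').powerset, U s * ∏ p ∈ s, h p) :
    (((Finset.Ioc y (y + z)).filter (fun a => ∀ p : ℕ, p.Prime → p ≤ z' → ¬ p ∣ a)).card : ℝ) ≤
      z * (∑ s ∈ (Nat.primesLE z').powerset, U s * ∏ p ∈ s, (1 / (p:ℝ))) + N := by
  have h1 : (((Finset.Ioc y (y + z)).filter (fun a => ∀ p : ℕ, p.Prime → p ≤ z' → ¬ p ∣ a)).card : ℝ)
      ≤ ∑ a ∈ Finset.Ioc y (y + z), ∑ s ∈ (Nat.primesLE z').powerset,
        U s * ∏ p ∈ s, (if p ∣ a then (1:ℝ) else 0) := by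
    rw [Finset.card_filter]
    push_cast
    refine Finset.sum_le_sum fun a _ => ?_
    have h2 := hup (fun p => if p ∣ a then (1:ℝ) else 0)
      (fun p => by by_cases hp : p ∣ a <;> simp [hp])
    refine le_trans ?_ h2
    by_cases hc : ∀ p : ℕ, p.Prime → p ≤ z' → ¬ p ∣ a
    · rw [if_pos hc]
      refine le_of_eq ?_
      symm
      refine Finset.prod_eq_one fun p hp => ?_
      rw [Nat.mem_primesLE] at hp
      rw [if_neg (hc p hp.2 hp.1), sub_zero]
    · rw [if_neg hc]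
      refine Finset.prod_nonneg fun p _ => ?_
      by_cases hp : p ∣ a <;> simp [hp]
  refine h1.trans ?_
  rw [Finset.sum_comm]
  have h3 : ∀ s ∈ (Nat.primesLE z').powerset, ∑ a ∈ Finset.Ioc y (y + z),
      U s * ∏ p ∈ s, (if p ∣ a then (1:ℝ) else 0) ≤
      z * (U s * ∏ p ∈ s, (1 / (p:ℝ))) + if U s ≠ 0 then 1 else 0 := by
    intro s hs
    have hsp : ∀ p ∈ s, p.Prime := fun p hp =>
      Nat.prime_of_mem_primesLE (Finset.mem_powerset.mp hs hp)
    have e1 : ∑ a ∈ Finset.Ioc y (y + z), U s * ∏ p ∈ s, (if p ∣ a then (1:ℝ) else 0) =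
        U s * (((Finset.Ioc y (y + z)).filter (fun a => (∏ p ∈ s, p) ∣ a)).card : ℝ) := by
      rw [Finset.card_filter]
      push_cast
      rw [Finset.mul_sum]
      refine Finset.sum_congr rfl fun a _ => ?_
      rw [prod_ind s hsp a]
    rw [e1]
    by_cases hUs : U s = 0
    · rw [hUs]; simp
    · rw [if_pos hUs]
      have hd : 0 < ∏ p ∈ s, p := Finset.prod_pos fun p hp => (hsp p hp).pos
      have h4 := card_dvd_abs y z (∏ p ∈ s, p) hd
      have e2 : ∏ p ∈ s, (1 / (p:ℝ)) = 1 / ((∏ p ∈ s, p : ℕ) : ℝ) := by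
        push_cast
        rw [Finset.prod_div_distrib, Finset.prod_const_one]
      rw [e2]
      have h5 : U s * ((((Finset.Ioc y (y + z)).filter (fun a => (∏ p ∈ s, p) ∣ a)).card : ℝ) -
          (z:ℝ) / ((∏ p ∈ s, p : ℕ) : ℝ)) ≤ 1 := by
        refine (le_abs_self _).trans ?_
        rw [abs_mul]
        calc |U s| * _ ≤ 1 * 1 := mul_le_mul (hU1 s) h4 (abs_nonneg _) zero_le_one
          _ = 1 := one_mul 1
      have e3 : (z:ℝ) * (U s * (1 / ((∏ p ∈ s, p : ℕ) : ℝ))) =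
          U s * ((z:ℝ) / ((∏ p ∈ s, p : ℕ) : ℝ)) := by ring
      rw [e3]
      linarith
  refine (Finset.sum_le_sum h3).trans ?_
  rw [Finset.sum_add_distrib, ← Finset.mul_sum]
  refine add_le_add_right ?_ _
  have h6 := card_level z' N U hlev
  rw [Finset.card_filter] at h6
  push_cast at h6
  exact h6

end ShortAux

open ShortAux

theorem rough_short : ∃ C : ℝ, 0 < C ∧ ∀ z y : ℕ, 2 ≤ z →
    (((Finset.Ioc y (y + z)).filter (fun a => ∀ p : ℕ, p.Prime → p ≤ z → ¬ p ∣ a)).card : ℝ) ≤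
      C * z / Real.log z := by
  obtain ⟨K, hK⟩ := fund 1 (ε := 1 / 2) (by norm_num)
  refine ⟨3 / 2 * (2 * K + 2) + 2 ^ K * 2, by positivity, ?_⟩
  intro z y hz
  have hz1 : (1:ℝ) < z := by exact_mod_cast (by omega : 1 < z)
  have hz0 : (0:ℝ) < z := by linarith
  have hlog : 0 < Real.log z := Real.log_pos hz1
  set t : ℝ := (z:ℝ) ^ ((1:ℝ) / (2 * K + 2)) with ht
  have hK2 : (0:ℝ) < 2 * K + 2 := by positivity
  have ht1 : 1 ≤ t := Real.one_le_rpow hz1.le (by positivity)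
  have ht0 : 0 < t := by linarith
  set z' : ℕ := ⌊t⌋₊ with hz'
  have hz't : (z':ℝ) ≤ t := Nat.floor_le ht0.le
  have htz' : t < z' + 1 := Nat.lt_floor_add_one t
  have hz'1 : 1 ≤ z' := by
    rw [hz', Nat.one_le_floor_iff]; exact ht1
  have hz'z : z' ≤ z := by
    have h1 : t ≤ z := by
      calc t ≤ (z:ℝ) ^ (1:ℝ) := by
            refine Real.rpow_le_rpow_of_exponent_le hz1.le ?_
            rw [div_le_one hK2]
            have : (0:ℝ) ≤ K := by positivity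
            linarith
        _ = z := Real.rpow_one _
    exact_mod_cast hz't.trans h1
  obtain ⟨L, U, _, hU1, hlev, hlu, hrat⟩ := hK z'
  have hcount := count_le z' y z ((z' + 1) ^ K) U hU1 (fun s hs hne => hlev s hs (Or.inr hne))
    (fun h hh => (hlu h hh).2)
  have hsub : (Finset.Ioc y (y + z)).filter (fun a => ∀ p : ℕ, p.Prime → p ≤ z → ¬ p ∣ a) ⊆
      (Finset.Ioc y (y + z)).filter (fun a => ∀ p : ℕ, p.Prime → p ≤ z' → ¬ p ∣ a) := by
    intro a ha
    rw [Finset.mem_filter] at ha ⊢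
    exact ⟨ha.1, fun p hp hpz => ha.2 p hp (hpz.trans hz'z)⟩
  have hcard : (((Finset.Ioc y (y + z)).filter (fun a => ∀ p : ℕ, p.Prime → p ≤ z → ¬ p ∣ a)).card : ℝ)
      ≤ (((Finset.Ioc y (y + z)).filter (fun a => ∀ p : ℕ, p.Prime → p ≤ z' → ¬ p ∣ a)).card : ℝ) := by
    exact_mod_cast Finset.card_le_card hsub
  have hmain := (hrat (fun p => 1 / (p:ℝ)) (by
    intro p hp
    have hp1 : (1:ℝ) < p := by exact_mod_cast Nat.one_lt_of_mem_primesLE hp
    have hp0 : (0:ℝ) < p := by linarith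
    refine ⟨by positivity, ?_, ?_⟩
    · rw [div_le_one hp0]; exact hp1.le
    · push_cast
      rw [div_mul_eq_mul_div, one_mul, div_le_one hp0]
      linarith)).2
  have hmert := Pool.Agent.Lib.Sieve4.prod_one_sub_inv_le z' hz'1
  have hlogt : Real.log z / (2 * K + 2) ≤ Real.log (z' + 1) := by
    have h1 : Real.log t = Real.log z / (2 * K + 2) := by
      rw [ht, Real.log_rpow hz0]; ring
    rw [← h1]
    exact Real.log_le_log ht0 htz'.le
  have hinv : 1 / Real.log ((z':ℝ) + 1) ≤ (2 * K + 2) / Real.log z := by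
    calc 1 / Real.log ((z':ℝ) + 1) ≤ 1 / (Real.log z / (2 * K + 2)) :=
          one_div_le_one_div_of_le (by positivity) hlogt
      _ = _ := by rw [one_div_div]
  have hA : (z:ℝ) * (∑ s ∈ (Nat.primesLE z').powerset, U s * ∏ p ∈ s, (1 / (p:ℝ))) ≤
      3 / 2 * (2 * K + 2) * (z / Real.log z) := by
    calc (z:ℝ) * (∑ s ∈ (Nat.primesLE z').powerset, U s * ∏ p ∈ s, (1 / (p:ℝ)))
        ≤ z * ((1 + 1 / 2) * ∏ p ∈ Nat.primesLE z', (1 - 1 / (p:ℝ))) :=
          mul_le_mul_of_nonneg_left hmain hz0.le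
      _ ≤ z * ((1 + 1 / 2) * ((2 * K + 2) / Real.log z)) := by
          refine mul_le_mul_of_nonneg_left ?_ hz0.le
          refine mul_le_mul_of_nonneg_left ?_ (by norm_num)
          exact hmert.trans hinv
      _ = _ := by ring
  have hB : ((((z' + 1) ^ K : ℕ)) : ℝ) ≤ 2 ^ K * 2 * (z / Real.log z) := by
    have h1 : ((z':ℝ) + 1) ≤ 2 * t := by linarith
    have h2 : ((((z' + 1) ^ K : ℕ)) : ℝ) ≤ 2 ^ K * t ^ K := by
      push_cast
      rw [← mul_pow]
      exact pow_le_pow_left₀ (by positivity) h1 K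
    have h3 : t ^ K ≤ (z:ℝ) ^ ((1:ℝ)/2) := by
      rw [ht, ← Real.rpow_natCast, ← Real.rpow_mul hz0.le]
      refine Real.rpow_le_rpow_of_exponent_le hz1.le ?_
      rw [div_mul_eq_mul_div, one_mul, div_le_div_iff₀ hK2 (by norm_num)]
      linarith
    have h4 : (z:ℝ) ^ ((1:ℝ)/2) ≤ 2 * (z / Real.log z) := by
      have h5 : Real.log z ≤ (z:ℝ) ^ ((1:ℝ)/2) / (1/2) := Real.log_le_rpow_div hz0.le (by norm_num)
      have h6 : (z:ℝ) ^ ((1:ℝ)/2) * (z:ℝ) ^ ((1:ℝ)/2) = z := by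
        rw [← Real.rpow_add hz0]; norm_num
      rw [← mul_div_assoc, le_div_iff₀ hlog]
      have h7 : 0 ≤ (z:ℝ) ^ ((1:ℝ)/2) := Real.rpow_nonneg hz0.le _
      calc (z:ℝ) ^ ((1:ℝ)/2) * Real.log z ≤ (z:ℝ) ^ ((1:ℝ)/2) * ((z:ℝ) ^ ((1:ℝ)/2) / (1/2)) :=
            mul_le_mul_of_nonneg_left h5 h7
        _ = 2 * ((z:ℝ) ^ ((1:ℝ)/2) * (z:ℝ) ^ ((1:ℝ)/2)) := by ring
        _ = 2 * z := by rw [h6]
    calc ((((z' + 1) ^ K : ℕ)) : ℝ) ≤ 2 ^ K * t ^ K := h2
      _ ≤ 2 ^ K * (2 * (z / Real.log z)) := by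
          refine mul_le_mul_of_nonneg_left (h3.trans h4) (by positivity)
      _ = _ := by ring
  calc _ ≤ _ := hcard
    _ ≤ _ := hcount
    _ ≤ 3 / 2 * (2 * K + 2) * (z / Real.log z) + 2 ^ K * 2 * (z / Real.log z) := add_le_add hA hB
    _ = _ := by ring

end Pool.Agent.Lib.MP
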