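import Pool.Agent.Lib.HL.ExtremeAux
import Pool.Agent.Lib.MP.Defs
import Pool.Agent.Lib.MP.Short
import Pool.Agent.Lib.MT.DensPrim
import Pool.Agent.Lib.MT.OneDim

/-!
# The sieving primes of arbitrary shifts

z = zN N = floor(log N), W = WN N h = primorial z * Dl h ≥ 1 (h injective), P = Pr W R: the primes
z < p ≤ R dividing no difference h i - h j.

PROOF SKETCH. Dl h ≤ N^(k²), so it has at most k² log N/log z prime factors > z and
∑_{p ∣ Dl h, p > z} 1/p ≤ k² log N/(z log z) → 0: this is bad_sum. dens W = ∏_{p ∣ W} (1-1/p) =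
DZ z ∏_{p ∣ Dl h, p > z} (1-1/p) lies in [DZ z/2, DZ z] (MT.dens_eq; DZ = the product over primesLE).
DZ z ≥ exp(-7)/log z: MT.Sing.dens_primorial_ge and dens_primorial. low: MT.sum1_lower.
win, with ℓ = 1 + log z and ν = dens W ≥ c/log z: for a = product of a subset of P, a ≤ u ≤ R ≤ N, the
number of prime factors is ≤ log N/log z ≤ z (N large) and each is > z, so
κ₂(a) = (1/a) ∏ (p/(p-1))² ≤ e³/a. The subsets with product in (u', u] inject into the integers a in
(u', u] without prime factor ≤ z; a = 1 (only if u' < 1) contributes 1 ≤ C ν ℓ; the others are > z: cut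
into blocks (jz, (j+1)z], j ≥ 1, each with at most C z/log z such a (rough_short) and 1/a ≤ 1/(jz):
the total is ≤ (C/log z) ∑_{j between max(u',z)/z - 1 and u/z} 1/j ≤ (C/log z)(log(u/u') + 3).
-/

open Finset
open scoped Classical

namespace Pool.Agent.Lib.MP

open Pool.Agent.Lib.MT Pool.Agent.HLB

namespace PDatAux

lemma Dl_pos {k : ℕ} (h : Fin k → ℕ) (hinj : Function.Injective h) : 0 < Dl h := by
  unfold Dl
  refine Finset.prod_pos fun i _ => Finset.prod_pos fun j _ => ?_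
  split_ifs with hij
  · exact Nat.one_pos
  · rw [Int.natAbs_pos, sub_ne_zero]
    intro hc
    exact hij (hinj (by exact_mod_cast hc))

lemma Dl_le {k N : ℕ} (h : Fin k → ℕ) (hN : 1 ≤ N) (hb : ∀ i, h i ≤ N) :
    Dl h ≤ N ^ (k * k) := by
  unfold Dl
  have h1 : ∀ i : Fin k, ∏ j, (if i = j then 1 else ((h i : ℤ) - h j).natAbs) ≤ N ^ k := by
    intro i
    have h2 : ∏ j : Fin k, (if i = j then 1 else ((h i : ℤ) - h j).natAbs) ≤ ∏ _j : Fin k, N := by
      refine Finset.prod_le_prod' fun j _ => ?_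
      split_ifs
      · exact hN
      · have := hb i
        have := hb j
        omega
    simpa using h2
  calc ∏ i, ∏ j, (if i = j then 1 else ((h i : ℤ) - h j).natAbs) ≤ ∏ _i : Fin k, N ^ k :=
        Finset.prod_le_prod' fun i _ => h1 i
    _ = N ^ (k * k) := by simp [pow_mul]

lemma zN_ge (Z : ℕ) : ∃ N₀ : ℕ, ∀ N ≥ N₀, Z ≤ zN N := by
  have h1 : Filter.Tendsto (fun N : ℕ => Real.log (N:ℝ)) Filter.atTop Filter.atTop :=
    Real.tendsto_log_atTop.comp tendsto_natCast_atTop_atTop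
  obtain ⟨N₀, hN₀⟩ := Filter.eventually_atTop.1 (h1.eventually_ge_atTop (Z:ℝ))
  exact ⟨N₀, fun N hN => Nat.le_floor (hN₀ N hN)⟩

lemma logN_lt (N : ℕ) : Real.log N < zN N + 1 := Nat.lt_floor_add_one _

lemma WN_pos {k : ℕ} (N : ℕ) (h : Fin k → ℕ) (hinj : Function.Injective h) : 1 ≤ WN N h :=
  Nat.mul_pos (primorial_pos _) (Dl_pos h hinj)

end PDatAux

open PDatAux


theorem mem_Pr_WN {k : ℕ} (N R : ℕ) (h : Fin k → ℕ) (hinj : Function.Injective h) (p : ℕ)
    (hp : p ∈ Pr (WN N h) R) : p.Prime ∧ zN N < p ∧ p ≤ R ∧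
      ∀ i j, i ≠ j → ¬ h i ≡ h j [MOD p] := by
  rw [Pr, Finset.mem_filter, Finset.mem_Icc] at hp
  obtain ⟨⟨h1, h2⟩, h3, h4⟩ := hp
  refine ⟨h3, ?_, h2, ?_⟩
  · by_contra hc
    push Not at hc
    exact h4 (((Nat.Prime.dvd_primorial_iff h3).2 hc).mul_right _)
  · intro i j hij hmod
    apply h4
    refine Dvd.dvd.mul_left ?_ _
    unfold Dl
    have h5 : p ∣ ((h i : ℤ) - h j).natAbs := by
      have h6 := (Nat.modEq_iff_dvd.1 hmod.symm)
      exact Int.natCast_dvd.1 h6
    have h7 : ((h i : ℤ) - h j).natAbs ∣ ∏ j', (if i = j' then 1 else ((h i : ℤ) - h j').natAbs) := by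
      have := Finset.dvd_prod_of_mem
        (fun j' => if i = j' then 1 else ((h i : ℤ) - h j').natAbs) (Finset.mem_univ j)
      simpa [hij] using this
    have h8 := Finset.dvd_prod_of_mem
      (fun i' => ∏ j', (if i' = j' then 1 else ((h i' : ℤ) - h j').natAbs)) (Finset.mem_univ i)
    exact h5.trans (h7.trans h8)

theorem bad_sum (k : ℕ) {ε : ℝ} (hε : 0 < ε) : ∃ N₀ : ℕ, ∀ N ≥ N₀, ∀ h : Fin k → ℕ,
    Function.Injective h → (∀ i, h i ≤ N ^ 2) →
    ∑ p ∈ (Dl h).primeFactors.filter (fun p => zN N < p), 1 / (p:ℝ) ≤ ε := by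
  obtain ⟨N₁, hN₁⟩ := zN_ge (3 + ⌈Real.exp (4 * (k:ℝ) ^ 2 / ε)⌉₊)
  refine ⟨max N₁ 1, fun N hN h hinj hb => ?_⟩
  have hz := hN₁ N (le_trans (le_max_left _ _) hN)
  have hN1 : 1 ≤ N := le_trans (le_max_right _ _) hN
  set z := zN N with hzdef
  have hz3 : 3 ≤ z := by omega
  have hz0 : (0:ℝ) < z := by
    have : 0 < z := by omega
    exact_mod_cast this
  have hz1 : (3:ℝ) ≤ z := by exact_mod_cast hz3
  have hlogz : 4 * (k:ℝ) ^ 2 / ε ≤ Real.log z := by
    rw [Real.le_log_iff_exp_le hz0]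
    refine (Nat.le_ceil _).trans ?_
    exact_mod_cast (by omega : ⌈Real.exp (4 * (k:ℝ) ^ 2 / ε)⌉₊ ≤ z)
  have hlogz1 : 1 ≤ Real.log z := by
    rw [Real.le_log_iff_exp_le hz0]
    have := Real.exp_one_lt_d9
    linarith
  set B := (Dl h).primeFactors.filter (fun p => z < p) with hB
  have hBp : ∀ p ∈ B, p.Prime ∧ z < p := by
    intro p hp
    rw [hB, Finset.mem_filter] at hp
    exact ⟨Nat.prime_of_mem_primeFactors hp.1, hp.2⟩
  have hcard : (B.card : ℝ) * Real.log z ≤ 2 * (k:ℝ) ^ 2 * (z + 1) := by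
    have h1 : z ^ B.card ≤ ∏ p ∈ B, p :=
      Finset.pow_card_le_prod _ _ _ fun p hp => (hBp p hp).2.le
    have h2 : ∏ p ∈ B, p ∣ Dl h :=
      (Finset.prod_dvd_prod_of_subset _ _ _ (Finset.filter_subset _ _)).trans
        (Nat.prod_primeFactors_dvd _)
    have h3 : ∏ p ∈ B, p ≤ Dl h := Nat.le_of_dvd (Dl_pos h hinj) h2
    have h4 : z ^ B.card ≤ (N ^ 2) ^ (k * k) := h1.trans (h3.trans (Dl_le h (Nat.one_le_pow _ _ hN1) hb))
    have h5 : Real.log ((z ^ B.card : ℕ) : ℝ) ≤ Real.log (((N ^ 2) ^ (k * k) : ℕ) : ℝ) := by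
      apply Real.log_le_log
      · push_cast
        positivity
      · exact_mod_cast h4
    push_cast at h5
    rw [Real.log_pow, Real.log_pow, Real.log_pow] at h5
    push_cast at h5
    have h6 := logN_lt N
    have h7 : (k:ℝ) * k * Real.log N ≤ (k:ℝ) * k * (z + 1) :=
      mul_le_mul_of_nonneg_left h6.le (by positivity)
    calc (B.card : ℝ) * Real.log z ≤ (k:ℝ) * k * (2 * Real.log N) := h5
      _ = 2 * ((k:ℝ) * k * Real.log N) := by ring
      _ ≤ 2 * ((k:ℝ) * k * (z + 1)) := by linarith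
      _ = 2 * (k:ℝ) ^ 2 * (z + 1) := by ring
  have hsum : ∑ p ∈ B, 1 / (p:ℝ) ≤ B.card / z := by
    calc ∑ p ∈ B, 1 / (p:ℝ) ≤ ∑ p ∈ B, 1 / (z:ℝ) := by
          refine Finset.sum_le_sum fun p hp => ?_
          apply one_div_le_one_div_of_le hz0
          exact_mod_cast (hBp p hp).2.le
      _ = B.card / z := by
          rw [Finset.sum_const, nsmul_eq_mul]
          ring
  refine hsum.trans ?_
  rw [div_le_iff₀ hz0]
  have h8 : 4 * (k:ℝ) ^ 2 ≤ Real.log z * ε := by
    rwa [div_le_iff₀ hε] at hlogz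
  have h9 : (B.card : ℝ) * Real.log z ≤ (ε * z) * Real.log z := by
    refine hcard.trans ?_
    have h10 : 2 * (k:ℝ) ^ 2 * (z + 1) ≤ (4 * (k:ℝ) ^ 2) * z := by
      have : (0:ℝ) ≤ (k:ℝ) ^ 2 := sq_nonneg _
      nlinarith
    refine h10.trans ?_
    calc (4 * (k:ℝ) ^ 2) * z ≤ (Real.log z * ε) * z := by gcongr
      _ = (ε * z) * Real.log z := by ring
  exact le_of_mul_le_mul_right h9 (by linarith)

theorem DZ_lower : ∃ c : ℝ, 0 < c ∧ ∀ z : ℕ, 2 ≤ z → c / Real.log z ≤ DZ z := by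
  refine ⟨Real.exp (-7), Real.exp_pos _, fun z hz => ?_⟩
  rcases Nat.lt_or_ge z 3 with h3 | h3
  · have hz2 : z = 2 := by omega
    subst hz2
    have h1 : DZ 2 = 1 / 2 := by
      unfold DZ
      have : Nat.primesLE 2 = {2} := by decide
      rw [this, Finset.prod_singleton]
      norm_num
    rw [h1]
    have h2 := Real.log_two_gt_d9
    push_cast
    rw [div_le_div_iff₀ (by linarith) (by norm_num), Real.exp_neg]
    have h4 : (8:ℝ) ≤ Real.exp 7 := by
      have := Real.add_one_le_exp (7:ℝ)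
      linarith
    have h5 : (Real.exp 7)⁻¹ ≤ (8:ℝ)⁻¹ := inv_anti₀ (by norm_num) h4
    linarith
  · have := Sing.dens_primorial_ge z h3
    rw [Sing.dens_primorial] at this
    exact this

namespace PDatAux

lemma dens_WN {k : ℕ} (N : ℕ) (h : Fin k → ℕ) (hinj : Function.Injective h) :
    nuN N h = DZ (zN N) *
      ∏ p ∈ (Dl h).primeFactors.filter (fun p => zN N < p), (1 - 1 / (p:ℝ)) := by
  unfold nuN
  rw [OneDim.dens_eq (WN_pos N h hinj)]
  have h1 : (WN N h).primeFactors =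
      Nat.primesLE (zN N) ∪ (Dl h).primeFactors.filter (fun p => zN N < p) := by
    unfold WN
    rw [Nat.primeFactors_mul (primorial_ne_zero _) (Dl_pos h hinj).ne', primeFactors_primorial]
    ext p
    simp only [Finset.mem_union, Finset.mem_filter]
    constructor
    · rintro (h1 | h1)
      · exact Or.inl h1
      · by_cases h2 : zN N < p
        · exact Or.inr ⟨h1, h2⟩
        · left
          rw [Nat.mem_primesLE]
          exact ⟨by omega, Nat.prime_of_mem_primeFactors h1⟩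
    · rintro (h1 | h1)
      · exact Or.inl h1
      · exact Or.inr h1.1
  rw [h1, Finset.prod_union]
  · rfl
  · rw [Finset.disjoint_left]
    intro p hp hp'
    rw [Nat.mem_primesLE] at hp
    rw [Finset.mem_filter] at hp'
    omega

end PDatAux

theorem nuN_bounds (k : ℕ) : ∃ N₀ : ℕ, ∀ N ≥ N₀, ∀ h : Fin k → ℕ,
    Function.Injective h → (∀ i, h i ≤ N ^ 2) →
    DZ (zN N) / 2 ≤ nuN N h ∧ nuN N h ≤ DZ (zN N) := by
  obtain ⟨N₀, hN₀⟩ := bad_sum k (ε := 1 / 2) (by norm_num)
  refine ⟨N₀, fun N hN h hinj hb => ?_⟩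
  have h1 := hN₀ N hN h hinj hb
  rw [dens_WN N h hinj]
  set B := (Dl h).primeFactors.filter (fun p => zN N < p) with hB
  have hDZ := DZ_pos (zN N)
  have hf : ∀ p ∈ B, 0 ≤ 1 / (p:ℝ) ∧ 1 / (p:ℝ) ≤ 1 := by
    intro p hp
    rw [hB, Finset.mem_filter] at hp
    have h2 := (Nat.prime_of_mem_primeFactors hp.1).one_le
    have h3 : (1:ℝ) ≤ p := by exact_mod_cast h2
    refine ⟨by positivity, ?_⟩
    rw [div_le_one (by linarith)]
    exact h3
  have h2 := Pool.Agent.HL.one_sub_sum_le B (fun p => 1 / (p:ℝ)) (fun p hp => (hf p hp).1)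
    (fun p hp => (hf p hp).2)
  have h3 : ∏ p ∈ B, (1 - 1 / (p:ℝ)) ≤ 1 :=
    Finset.prod_le_one (fun p hp => by linarith [(hf p hp).2]) fun p hp => by
      linarith [(hf p hp).1]
  constructor
  · have h4 : (1:ℝ) / 2 ≤ ∏ p ∈ B, (1 - 1 / (p:ℝ)) := by linarith
    calc DZ (zN N) / 2 = DZ (zN N) * (1 / 2) := by ring
      _ ≤ _ := mul_le_mul_of_nonneg_left h4 hDZ.le
  · calc DZ (zN N) * ∏ p ∈ B, (1 - 1 / (p:ℝ)) ≤ DZ (zN N) * 1 :=
          mul_le_mul_of_nonneg_left h3 hDZ.le
      _ = _ := mul_one _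

namespace PDatAux

lemma DZ_le_one (z : ℕ) : DZ z ≤ 1 := by
  unfold DZ
  refine Finset.prod_le_one (fun p hp => ?_) fun p hp => ?_
  · have h1 := (Nat.mem_primesLE.1 hp).2.one_le
    have h3 : (1:ℝ) ≤ p := by exact_mod_cast h1
    have : 1 / (p:ℝ) ≤ 1 := by
      rw [div_le_one (by linarith)]
      exact h3
    linarith
  · have : 0 ≤ 1 / (p:ℝ) := by positivity
    linarith

/-- The local factor for large primes. -/
lemma kap2_le {p z : ℕ} (hz : 1 ≤ z) (hp : z < p) :
    κ₂ p ≤ 1 / (p:ℝ) * Real.exp (2 / z) := by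
  have hz0 : (0:ℝ) < z := by exact_mod_cast hz
  have hp1 : (z:ℝ) + 1 ≤ p := by exact_mod_cast hp
  have hp0 : (0:ℝ) < p := by linarith
  have hp2 : (0:ℝ) < (p:ℝ) - 1 := by linarith
  have h1 : (p:ℝ) / (p - 1) ≤ Real.exp (1 / z) := by
    have h2 : (p:ℝ) / (p - 1) = 1 / (p - 1) + 1 := by
      field_simp
      ring
    rw [h2]
    have h3 : 1 / ((p:ℝ) - 1) ≤ 1 / z := one_div_le_one_div_of_le hz0 (by linarith)
    have := Real.add_one_le_exp (1 / (z:ℝ))
    linarith
  have h4 : κ₂ p = 1 / (p:ℝ) * ((p:ℝ) / (p - 1)) ^ 2 := by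
    unfold κ₂
    field_simp
  have h5 : Real.exp (2 / z) = Real.exp (1 / z) ^ 2 := by
    rw [← Real.exp_nat_mul]
    congr 1
    push_cast
    ring
  rw [h4, h5]
  have h6 : 0 ≤ (p:ℝ) / (p - 1) := by positivity
  gcongr

/-- Reciprocals of the rough integers in a window. -/
lemma rough_recip {C₁ : ℝ} (hC₁ : 0 < C₁)
    (hC : ∀ z y : ℕ, 2 ≤ z →
      (((Finset.Ioc y (y + z)).filter (fun a => ∀ p : ℕ, p.Prime → p ≤ z → ¬ p ∣ a)).card : ℝ) ≤
        C₁ * z / Real.log z) (z : ℕ) (hz : 2 ≤ z) (u' u : ℝ) (hu' : 0 < u') (hu : u' ≤ u)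
    (A : Finset ℕ) (hA : ∀ a ∈ A, z < a ∧ u' < a ∧ (a:ℝ) ≤ u ∧ ∀ p : ℕ, p.Prime → p ≤ z → ¬ p ∣ a) :
    ∑ a ∈ A, 1 / (a:ℝ) ≤ C₁ / Real.log z * (3 + Real.log (u / u')) := by
  have hz0 : (0:ℝ) < z := by
    have : 0 < z := by omega
    exact_mod_cast this
  have hlog : 0 < Real.log z := Real.log_pos (by exact_mod_cast (by omega : 1 < z))
  have hu0 : 0 < u := hu'.trans_le hu
  have hL : 0 ≤ Real.log (u / u') := Real.log_nonneg (by rwa [le_div_iff₀ hu', one_mul])
  set f : ℕ → ℕ := fun a => (a - 1) / z with hf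
  set J := A.image f with hJ
  have hpos : 0 < z := by omega
  have hspec : ∀ a ∈ A, 1 ≤ f a ∧ f a * z < a ∧ a ≤ f a * z + z := by
    intro a ha
    have h1 := (hA a ha).1
    have h2 : f a * z ≤ a - 1 := Nat.div_mul_le_self _ _
    have h3 : a - 1 < (f a + 1) * z := by
      have := Nat.lt_mul_div_succ (a - 1) hpos
      rw [mul_comm]
      exact this
    refine ⟨?_, by omega, ?_⟩
    · exact (Nat.one_le_div_iff hpos).2 (by omega)
    · have : (f a + 1) * z = f a * z + z := by ring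
      omega
  have h1 : ∑ a ∈ A, 1 / (a:ℝ) ≤ ∑ j ∈ J, C₁ / Real.log z * (1 / (j:ℝ)) := by
    rw [← Finset.sum_fiberwise_of_maps_to (g := f) (t := J)
      (fun a ha => Finset.mem_image_of_mem _ ha)]
    refine Finset.sum_le_sum fun j hj => ?_
    obtain ⟨a₀, ha₀, hja⟩ := Finset.mem_image.1 hj
    have hj1 : 1 ≤ j := hja ▸ (hspec a₀ ha₀).1
    have hj0 : (0:ℝ) < j := by exact_mod_cast hj1
    have h2 : ∀ a ∈ A.filter (fun a => f a = j), 1 / (a:ℝ) ≤ 1 / ((j:ℝ) * z) := by
      intro a ha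
      rw [Finset.mem_filter] at ha
      apply one_div_le_one_div_of_le (by positivity)
      have := (hspec a ha.1).2.1
      rw [ha.2] at this
      exact_mod_cast this.le
    have h3 : ((A.filter (fun a => f a = j)).card : ℝ) ≤ C₁ * z / Real.log z := by
      refine le_trans ?_ (hC z (j * z) hz)
      have : A.filter (fun a => f a = j) ⊆ (Finset.Ioc (j * z) (j * z + z)).filter
          (fun a => ∀ p : ℕ, p.Prime → p ≤ z → ¬ p ∣ a) := by
        intro a ha
        rw [Finset.mem_filter] at ha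
        rw [Finset.mem_filter, Finset.mem_Ioc]
        have h4 := hspec a ha.1
        rw [ha.2] at h4
        exact ⟨⟨h4.2.1, h4.2.2⟩, (hA a ha.1).2.2.2⟩
      exact_mod_cast Finset.card_le_card this
    calc ∑ a ∈ A.filter (fun a => f a = j), 1 / (a:ℝ)
        ≤ ∑ a ∈ A.filter (fun a => f a = j), 1 / ((j:ℝ) * z) := Finset.sum_le_sum h2
      _ = ((A.filter (fun a => f a = j)).card : ℝ) * (1 / ((j:ℝ) * z)) := by
          rw [Finset.sum_const, nsmul_eq_mul]
      _ ≤ (C₁ * z / Real.log z) * (1 / ((j:ℝ) * z)) :=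
          mul_le_mul_of_nonneg_right h3 (by positivity)
      _ = C₁ / Real.log z * (1 / (j:ℝ)) := by
          field_simp
  refine h1.trans ?_
  rw [← Finset.mul_sum]
  refine mul_le_mul_of_nonneg_left ?_ (by positivity)
  rcases J.eq_empty_or_nonempty with hJe | hJne
  · rw [hJe, Finset.sum_empty]
    linarith
  obtain ⟨j₀, hj₀⟩ := hJne
  have hJspec : ∀ j ∈ J, (1:ℝ) ≤ j ∧ (j:ℝ) ≤ u / z ∧ u' / z - 1 < j := by
    intro j hj
    obtain ⟨a, ha, rfl⟩ := Finset.mem_image.1 hj
    obtain ⟨h2, h3, h4⟩ := hspec a ha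
    obtain ⟨-, h5, h6, -⟩ := hA a ha
    have h3' : ((f a : ℕ) : ℝ) * z ≤ a := by exact_mod_cast h3.le
    have h4' : (a:ℝ) ≤ ((f a : ℕ) : ℝ) * z + z := by exact_mod_cast h4
    refine ⟨by exact_mod_cast h2, ?_, ?_⟩
    · rw [le_div_iff₀ hz0]
      linarith
    · rw [sub_lt_iff_lt_add, div_lt_iff₀ hz0]
      linarith
  have hlog4 : Real.log 4 ≤ 2 := by
    have h2 : Real.log 4 = 2 * Real.log 2 := by
      rw [show (4:ℝ) = 2 ^ 2 by norm_num, Real.log_pow]
      push_cast
      ring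
    have := Real.log_two_lt_d9
    rw [h2]
    linarith
  have hlog2 : Real.log 2 ≤ 2 := by
    have := Real.log_two_lt_d9
    linarith
  have hj₀' := hJspec j₀ hj₀
  rcases le_or_gt u' (2 * z) with hcase | hcase
  · have h2 := OneDim.harm_le (v' := 1 / 2) (x := u / z) (by norm_num) (by linarith [hj₀'.1, hj₀'.2.1])
      J (fun j hj => ⟨by linarith [(hJspec j hj).1], (hJspec j hj).2.1⟩)
    have h3 : Real.log (u / z / (1 / 2)) ≤ Real.log 4 + Real.log (u / u') := by
      rw [← Real.log_mul (by norm_num) (by positivity)]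
      apply Real.log_le_log (by positivity)
      have h5 : u / z ≤ 2 * (u / u') := by
        rw [mul_div_assoc', div_le_div_iff₀ hz0 hu']
        nlinarith
      calc u / z / (1 / 2) = 2 * (u / z) := by ring
        _ ≤ 2 * (2 * (u / u')) := by linarith
        _ = 4 * (u / u') := by ring
    linarith
  · have hzz : u' / (2 * z) ≤ u' / z - 1 := by
      have h4 : u' / z = 2 * (u' / (2 * z)) := by field_simp
      have h5 : 1 ≤ u' / (2 * z) := by
        rw [le_div_iff₀ (by positivity)]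
        linarith
      rw [h4]
      linarith
    have h2 := OneDim.harm_le (v' := u' / (2 * z)) (x := u / z) (by positivity)
      (by linarith [hj₀'.2.2, hj₀'.2.1]) J
      (fun j hj => ⟨by linarith [(hJspec j hj).2.2], (hJspec j hj).2.1⟩)
    have h3 : Real.log (u / z / (u' / (2 * z))) = Real.log 2 + Real.log (u / u') := by
      rw [← Real.log_mul (by norm_num) (by positivity)]
      congr 1
      field_simp
    linarith

end PDatAux

theorem pd_all : ∃ C : ℝ, 1 ≤ C ∧ ∀ k : ℕ, ∃ N₀ : ℕ, ∀ N ≥ N₀, ∀ h : Fin k → ℕ,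
    Function.Injective h → (∀ i, h i ≤ N ^ 2) → ∀ R : ℕ, 1 ≤ R → R ≤ N →
    PD C (Pr (WN N h) R) R (nuN N h) (1 + Real.log (zN N)) := by
  obtain ⟨C₁, hC₁, hrough⟩ := rough_short
  obtain ⟨c, hc, hDZ⟩ := DZ_lower
  refine ⟨max 1 (Real.exp 2 * ((2 + 6 * C₁) / c)), le_max_left _ _, fun k => ?_⟩
  obtain ⟨N₁, hN₁⟩ := zN_ge 8
  obtain ⟨N₂, hN₂⟩ := nuN_bounds k
  refine ⟨max (max N₁ N₂) 1, fun N hN h hinj hb R hR1 hRN => ?_⟩
  have hz8 := hN₁ N (le_trans (le_trans (le_max_left _ _) (le_max_left _ _)) hN)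
  have hν := hN₂ N (le_trans (le_trans (le_max_right _ _) (le_max_left _ _)) hN) h hinj hb
  have hN1 : 1 ≤ N := le_trans (le_max_right _ _) hN
  set z := zN N with hzdef
  set ν := nuN N h with hνdef
  have hz0 : (0:ℝ) < z := by
    have : 0 < z := by omega
    exact_mod_cast this
  have hz8' : (8:ℝ) ≤ z := by exact_mod_cast hz8
  have hlog2 : 2 ≤ Real.log z := by
    rw [Real.le_log_iff_exp_le hz0]
    have h1 : Real.exp 2 = Real.exp 1 * Real.exp 1 := by
      rw [← Real.exp_add]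
      norm_num
    have h2 := Real.exp_one_lt_d9
    have h3 := Real.exp_pos 1
    rw [h1]
    nlinarith
  have hlog0 : 0 < Real.log z := by linarith
  have hνpos : 0 < ν := lt_of_lt_of_le (by have := DZ_pos z; linarith) hν.1
  have hνc : c / 2 / Real.log z ≤ ν := by
    have h1 := hDZ z (by omega)
    calc c / 2 / Real.log z = c / Real.log z / 2 := by ring
      _ ≤ DZ z / 2 := by linarith
      _ ≤ ν := hν.1
  have hmem : ∀ p ∈ Pr (WN N h) R, p.Prime ∧ z < p ∧ p ≤ R := fun p hp =>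
    ⟨(mem_Pr_WN N R h hinj p hp).1, (mem_Pr_WN N R h hinj p hp).2.1,
      (mem_Pr_WN N R h hinj p hp).2.2.1⟩
  refine ⟨fun p hp => (hmem p hp).1, fun p hp => (hmem p hp).2.2, hνpos,
    hν.2.trans (DZ_le_one z), by linarith, ?_, ?_⟩
  · intro u hu1 hu2
    exact sum1_lower (WN N h) R u (WN_pos N h hinj) hu1 hu2
  · intro u' u hu' hu hu1 huR
    have hu0 : 0 < u := by linarith
    set P := Pr (WN N h) R with hP
    set A := P.powerset.filter (fun T => u' < ((∏ p ∈ T, p : ℕ) : ℝ) ∧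
      ((∏ p ∈ T, p : ℕ) : ℝ) ≤ u) with hA
    have hL : 0 ≤ Real.log (u / u') := Real.log_nonneg (by rwa [le_div_iff₀ hu', one_mul])
    have hTprime : ∀ T ∈ A, ∀ p ∈ T, p.Prime ∧ z < p := by
      intro T hT p hp
      rw [hA, Finset.mem_filter, Finset.mem_powerset] at hT
      exact ⟨(hmem p (hT.1 hp)).1, (hmem p (hT.1 hp)).2.1⟩
    have h1 : sum1 P κ₂ (fun a => if u' < (a:ℝ) ∧ (a:ℝ) ≤ u then 1 else 0) =
        ∑ T ∈ A, ∏ p ∈ T, κ₂ p := by
      unfold sum1
      rw [hA, Finset.sum_filter]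
      refine Finset.sum_congr rfl fun T _ => ?_
      show (if u' < ((∏ p ∈ T, p : ℕ) : ℝ) ∧ ((∏ p ∈ T, p : ℕ) : ℝ) ≤ u then (1:ℝ) else 0) *
        ∏ p ∈ T, κ₂ p = _
      split_ifs
      · rw [one_mul]
      · rw [zero_mul]
    have h2 : ∀ T ∈ A, ∏ p ∈ T, κ₂ p ≤ Real.exp 2 * (1 / ((∏ p ∈ T, p : ℕ) : ℝ)) := by
      intro T hT
      have hTp := hTprime T hT
      have hTle : ((∏ p ∈ T, p : ℕ) : ℝ) ≤ N := by
        rw [hA, Finset.mem_filter] at hT
        refine hT.2.2.trans (huR.trans ?_)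
        exact_mod_cast hRN
      have hcard : (T.card : ℝ) ≤ z := by
        have h3 : z ^ T.card ≤ ∏ p ∈ T, p :=
          Finset.pow_card_le_prod _ _ _ fun p hp => (hTp p hp).2.le
        have h4 : Real.log ((z ^ T.card : ℕ) : ℝ) ≤ Real.log N := by
          apply Real.log_le_log
          · push_cast
            positivity
          · refine le_trans ?_ hTle
            exact_mod_cast h3
        push_cast at h4
        rw [Real.log_pow] at h4
        have h5 := logN_lt N
        rw [← hzdef] at h5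
        have h6 : (T.card : ℝ) * 2 ≤ T.card * Real.log z :=
          mul_le_mul_of_nonneg_left hlog2 (Nat.cast_nonneg _)
        linarith
      calc ∏ p ∈ T, κ₂ p ≤ ∏ p ∈ T, (1 / (p:ℝ) * Real.exp (2 / z)) := by
            refine Finset.prod_le_prod ?_ ?_
            · intro p _
              unfold κ₂
              positivity
            · intro p hp
              exact kap2_le (by omega) (hTp p hp).2
        _ = (1 / ((∏ p ∈ T, p : ℕ) : ℝ)) * Real.exp (T.card * (2 / z)) := by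
            rw [Finset.prod_mul_distrib, Finset.prod_const, ← Real.exp_nat_mul]
            congr 1
            push_cast
            rw [Finset.prod_div_distrib, Finset.prod_const_one]
        _ ≤ (1 / ((∏ p ∈ T, p : ℕ) : ℝ)) * Real.exp 2 := by
            refine mul_le_mul_of_nonneg_left ?_ (by positivity)
            apply Real.exp_le_exp.2
            rw [mul_div_assoc', div_le_iff₀ hz0]
            linarith
        _ = Real.exp 2 * (1 / ((∏ p ∈ T, p : ℕ) : ℝ)) := mul_comm _ _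
    have hinjA : Set.InjOn (fun T : Finset ℕ => ∏ p ∈ T, p) (A : Set (Finset ℕ)) := by
      intro T hT T' hT' heq
      have h3 : ∀ S ∈ A, (∏ p ∈ S, p).primeFactors = S := fun S hS =>
        Nat.primeFactors_prod fun p hp => (hTprime S hS p hp).1
      have h4 := h3 T hT
      have h5 := h3 T' hT'
      have heq' : ∏ p ∈ T, p = ∏ p ∈ T', p := heq
      rw [← h4, heq', h5]
    set I := A.image (fun T : Finset ℕ => ∏ p ∈ T, p) with hI
    have h3 : ∑ T ∈ A, ∏ p ∈ T, κ₂ p ≤ Real.exp 2 * ∑ a ∈ I, 1 / (a:ℝ) := by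
      rw [hI, Finset.sum_image hinjA, Finset.mul_sum]
      exact Finset.sum_le_sum h2
    have hIspec : ∀ a ∈ I, u' < (a:ℝ) ∧ (a:ℝ) ≤ u ∧ (∀ p : ℕ, p.Prime → p ≤ z → ¬ p ∣ a) ∧
        (a = 1 ∨ z < a) := by
      intro a ha
      obtain ⟨T, hT, rfl⟩ := Finset.mem_image.1 ha
      have hTp := hTprime T hT
      rw [hA, Finset.mem_filter] at hT
      refine ⟨hT.2.1, hT.2.2, ?_, ?_⟩
      · intro p hp hpz hdvd
        obtain ⟨q, hq, hpq⟩ := (hp.prime.dvd_finsetProd_iff _).1 hdvd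
        have h4 : p = q := (Nat.prime_dvd_prime_iff_eq hp (hTp q hq).1).1 hpq
        have h5 := (hTp q hq).2
        omega
      · rcases T.eq_empty_or_nonempty with hTe | ⟨q, hq⟩
        · left
          simp [hTe]
        · right
          have h4 : q ∣ ∏ p ∈ T, p := Finset.dvd_prod_of_mem _ hq
          have h5 : 0 < ∏ p ∈ T, p := Finset.prod_pos fun p hp => (hTp p hp).1.pos
          have h6 := Nat.le_of_dvd h5 h4
          have h7 := (hTp q hq).2
          show z < ∏ p ∈ T, p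
          omega
    have h4 : ∑ a ∈ I, 1 / (a:ℝ) ≤ 1 + C₁ / Real.log z * (3 + Real.log (u / u')) := by
      have h5 : ∑ a ∈ I.filter (fun a => a = 1), 1 / (a:ℝ) ≤ 1 := by
        rw [Finset.filter_eq']
        split_ifs <;> simp
      have h6 := rough_recip hC₁ hrough z (by omega) u' u hu' hu (I.filter (fun a => ¬ a = 1))
        (fun a ha => by
          rw [Finset.mem_filter] at ha
          obtain ⟨h7, h8, h9, h10⟩ := hIspec a ha.1
          exact ⟨h10.resolve_left ha.2, h7, h8, h9⟩)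
      rw [← Finset.sum_filter_add_sum_filter_not I (fun a => a = 1)]
      linarith
    have h5 : 1 + C₁ / Real.log z * (3 + Real.log (u / u')) ≤
        ((2 + 6 * C₁) / c) * ν * (Real.log (u / u') + (1 + Real.log z)) := by
      have h6 : 1 / Real.log z ≤ 2 / c * ν := by
        have : 2 / c * (c / 2 / Real.log z) ≤ 2 / c * ν :=
          mul_le_mul_of_nonneg_left hνc (by positivity)
        calc 1 / Real.log z = 2 / c * (c / 2 / Real.log z) := by field_simp
          _ ≤ _ := this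
      have h7 : 1 ≤ 2 / c * ν * Real.log z := by
        rw [div_le_iff₀ hlog0] at h6
        exact h6
      have hcν : 0 ≤ 2 / c * ν := by positivity
      have h8 : C₁ / Real.log z * (3 + Real.log (u / u')) ≤
          C₁ * (2 / c * ν) * (3 * (Real.log (u / u') + (1 + Real.log z))) := by
        have h9 : C₁ / Real.log z = C₁ * (1 / Real.log z) := by ring
        rw [h9]
        have h10 : 3 + Real.log (u / u') ≤ 3 * (Real.log (u / u') + (1 + Real.log z)) := by
          linarith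
        have h11 : 0 ≤ 3 + Real.log (u / u') := by linarith
        gcongr
      have h12 : 2 / c * ν * Real.log z ≤
          2 / c * ν * (Real.log (u / u') + (1 + Real.log z)) :=
        mul_le_mul_of_nonneg_left (by linarith) hcν
      calc 1 + C₁ / Real.log z * (3 + Real.log (u / u'))
          ≤ 2 / c * ν * (Real.log (u / u') + (1 + Real.log z)) +
            C₁ * (2 / c * ν) * (3 * (Real.log (u / u') + (1 + Real.log z))) := by linarith
        _ = ((2 + 6 * C₁) / c) * ν * (Real.log (u / u') + (1 + Real.log z)) := by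
            field_simp
            ring
    rw [h1]
    have hfin : 0 ≤ ν * (Real.log (u / u') + (1 + Real.log z)) :=
      mul_nonneg hνpos.le (by linarith)
    calc ∑ T ∈ A, ∏ p ∈ T, κ₂ p ≤ Real.exp 2 * ∑ a ∈ I, 1 / (a:ℝ) := h3
      _ ≤ Real.exp 2 * (((2 + 6 * C₁) / c) * ν * (Real.log (u / u') + (1 + Real.log z))) :=
          mul_le_mul_of_nonneg_left (h4.trans h5) (Real.exp_pos _).le
      _ = (Real.exp 2 * ((2 + 6 * C₁) / c)) * (ν * (Real.log (u / u') + (1 + Real.log z))) := by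
          ring
      _ ≤ max 1 (Real.exp 2 * ((2 + 6 * C₁) / c)) *
            (ν * (Real.log (u / u') + (1 + Real.log z))) :=
          mul_le_mul_of_nonneg_right (le_max_right _ _) hfin
      _ = _ := by ring

end Pool.Agent.Lib.MP
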