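import Pool.Agent.Lib.MP.PrimeHits
import Pool.Agent.Lib.MT.Hits
import Pool.Agent.Lib.HLB.CLUpper

/-!
# Sums over the integers hit by a set of small primes

PROOF SKETCH. s is a finite set of primes outside P not dividing W. The n with n ≡ v [MOD W] and
(∀ p ∈ s, ∃ i, p ∣ n + h i) are the disjoint union, over the choices of one of the nuI h p classes
-h i mod p for every p ∈ s, of the n in one class v' modulo W ∏ s (Chinese remainder theorem; v' ≡ v
[MOD W]). Apply MT.sum_wn / MT.sum_wn_dvd with modulus W ∏ s to each of the ∏ nuI h p classes.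
For primes: n + h m is a prime > N ≥ p, so p ∤ n + h m and only the nuI h p - 1 classes -h i ≢ -h m
occur; in these v' + h m is coprime to W ∏ s; sum_wn_primes_abs with modulus W ∏ s, and
1/φ(W ∏ s) = 1/φ(W) ∏ 1/(p-1). An induction on s (adding one prime, replacing W by W p and v by v')
avoids the explicit Chinese remainder theorem: the statement for insert p s and (W, v) follows from
the statement for s and (W p, v'), summed over the classes v' modulo W p above v with p ∣ v' + h i for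
some i. In this induction Err is always used at the same moduli W ∏ s mpair.
-/

open Finset
open scoped Classical

namespace Pool.Agent.Lib.MP

open Pool.Agent.Lib.MT Pool.Agent.HLB

variable {P : Finset ℕ} {k : ℕ}

namespace PreHits

lemma mem_Omt {ι : Type} [Fintype ι] (t : ι → ℕ) (q c : ℕ) :
    c ∈ Omt t q ↔ c < q ∧ ∃ i, q ∣ c + t i := by
  unfold Omt
  rw [mem_filter, mem_range]

/-- splitting the integers hit by `q` into classes modulo `W q` -/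
lemma sum_insert (A : Finset ℕ) (f : ℕ → ℝ) (Q : ℕ → Prop) [DecidablePred Q] (h : Fin k → ℕ)
    (W v q : ℕ) (hq : q.Prime) (hqW : ¬ q ∣ W) (s : Finset ℕ) :
    ∃ d : ℕ → ℕ, (∀ c, d c ≡ v [MOD W]) ∧ (∀ c, d c ≡ c [MOD q]) ∧
      ∑ n ∈ A.filter (fun n => n ≡ v [MOD W] ∧ Q n ∧ ∀ p ∈ insert q s, ∃ i, p ∣ n + h i), f n =
      ∑ c ∈ Omt h q, ∑ n ∈ A.filter (fun n => n ≡ d c [MOD W * q] ∧ Q n ∧
        ∀ p ∈ s, ∃ i, p ∣ n + h i), f n := by
  have hco : Nat.Coprime W q := by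
    rw [Nat.coprime_comm]
    exact (hq.coprime_iff_not_dvd).mpr hqW
  have hex : ∀ c : ℕ, ∃ d : ℕ, d ≡ v [MOD W] ∧ d ≡ c [MOD q] := fun c => by
    obtain ⟨d, h1, h2⟩ := Nat.chineseRemainder hco v c
    exact ⟨d, h1, h2⟩
  choose d hd1 hd2 using hex
  refine ⟨d, hd1, hd2, ?_⟩
  have hmaps : ∀ n ∈ A.filter (fun n => n ≡ v [MOD W] ∧ Q n ∧
      ∀ p ∈ insert q s, ∃ i, p ∣ n + h i), n % q ∈ Omt h q := by
    intro n hn
    rw [mem_filter] at hn
    obtain ⟨i, hi⟩ := hn.2.2.2 q (mem_insert_self _ _)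
    rw [mem_Omt]
    refine ⟨Nat.mod_lt _ hq.pos, i, ?_⟩
    have h1 : n % q + h i ≡ n + h i [MOD q] := (Nat.mod_modEq n q).add_right _
    exact (Nat.modEq_zero_iff_dvd).1 (h1.trans ((Nat.modEq_zero_iff_dvd).2 hi))
  rw [← Finset.sum_fiberwise_of_maps_to hmaps]
  refine Finset.sum_congr rfl fun c hc => ?_
  rw [mem_Omt] at hc
  obtain ⟨hcq, i, hi⟩ := hc
  refine Finset.sum_congr ?_ fun _ _ => rfl
  ext n
  simp only [mem_filter]
  rw [← Nat.modEq_and_modEq_iff_modEq_mul hco]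
  constructor
  · rintro ⟨⟨hA, hv, hQ, hall⟩, hc⟩
    have h1 : n ≡ c [MOD q] := by
      rw [← hc]
      exact (Nat.mod_modEq n q).symm
    exact ⟨hA, ⟨hv.trans (hd1 c).symm, h1.trans (hd2 c).symm⟩, hQ,
      fun p hp => hall p (mem_insert_of_mem hp)⟩
  · rintro ⟨hA, ⟨h1, h2⟩, hQ, hall⟩
    have h3 : n ≡ c [MOD q] := h2.trans (hd2 c)
    refine ⟨⟨hA, h1.trans (hd1 c), hQ, ?_⟩, ?_⟩
    · intro p hp
      rcases mem_insert.1 hp with rfl | hp
      · refine ⟨i, ?_⟩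
        exact (Nat.modEq_zero_iff_dvd).1 ((h3.add_right _).trans
          ((Nat.modEq_zero_iff_dvd).2 hi))
      · exact hall p hp
    · have h4 : n % q = c % q := h3
      rwa [Nat.mod_eq_of_lt hcq] at h4

lemma not_dvd_mul_prime (hP : ∀ p ∈ P, p.Prime) {W q : ℕ} (hq : q.Prime) (hqP : q ∉ P)
    (hPW : ∀ p ∈ P, ¬ p ∣ W) : ∀ p ∈ P, ¬ p ∣ W * q := by
  intro p hp hdvd
  rcases (hP p hp).dvd_mul.1 hdvd with h1 | h1
  · exact hPW p hp h1
  · rw [Nat.prime_dvd_prime_iff_eq (hP p hp) hq] at h1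
    subst h1
    exact hqP hp

/-- the induction for the statements without primes -/
lemma generic (hP : ∀ p ∈ P, p.Prime) (A : Finset ℕ) (f : ℕ → ℝ) (Q : ℕ → Prop)
    [DecidablePred Q] (h : Fin k → ℕ) (K E : ℝ)
    (hbase : ∀ W v : ℕ, 1 ≤ W → (∀ p ∈ P, ¬ p ∣ W) →
      |∑ n ∈ A.filter (fun n => n ≡ v [MOD W] ∧ Q n), f n - K / W| ≤ E)
    (s : Finset ℕ) :
    ∀ W v : ℕ, 1 ≤ W → (∀ p ∈ P, ¬ p ∣ W) → (∀ p ∈ s, p.Prime ∧ ¬ p ∣ W ∧ p ∉ P) →
      |∑ n ∈ A.filter (fun n => n ≡ v [MOD W] ∧ Q n ∧ ∀ p ∈ s, ∃ i, p ∣ n + h i), f n -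
        K / W * ∏ p ∈ s, (nuI h p : ℝ) / p| ≤ (∏ p ∈ s, (nuI h p : ℝ)) * E := by
  induction s using Finset.induction_on with
  | empty =>
    intro W v hW hPW _
    have h1 := hbase W v hW hPW
    simpa using h1
  | insert q s hqs ih =>
    intro W v hW hPW hs
    obtain ⟨hq, hqW, hqP⟩ := hs q (mem_insert_self _ _)
    obtain ⟨d, hd1, hd2, hd3⟩ := sum_insert A f Q h W v q hq hqW s
    rw [hd3, Finset.prod_insert hqs, Finset.prod_insert hqs]
    have hq0 : (q:ℝ) ≠ 0 := by exact_mod_cast hq.ne_zero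
    have hW0 : (W:ℝ) ≠ 0 := by
      have : W ≠ 0 := by omega
      exact_mod_cast this
    have h1 : K / W * ((nuI h q : ℝ) / q * ∏ p ∈ s, (nuI h p : ℝ) / p) =
        ∑ c ∈ Omt h q, K / ((W * q : ℕ) : ℝ) * ∏ p ∈ s, (nuI h p : ℝ) / p := by
      rw [Finset.sum_const, card_Omt h hq, nsmul_eq_mul]
      push_cast
      field_simp
    rw [h1, ← Finset.sum_sub_distrib]
    refine (Finset.abs_sum_le_sum_abs _ _).trans ?_
    have h2 : (nuI h q : ℝ) * (∏ p ∈ s, (nuI h p : ℝ)) * E =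
        ∑ c ∈ Omt h q, (∏ p ∈ s, (nuI h p : ℝ)) * E := by
      rw [Finset.sum_const, card_Omt h hq, nsmul_eq_mul]
      ring
    rw [h2]
    refine Finset.sum_le_sum fun c _ => ?_
    apply ih (W * q) (d c) (Nat.mul_pos hW hq.pos) (not_dvd_mul_prime hP hq hqP hPW)
    intro p hp
    obtain ⟨h3, h4, h5⟩ := hs p (mem_insert_of_mem hp)
    refine ⟨h3, ?_, h5⟩
    intro hdvd
    rcases h3.dvd_mul.1 hdvd with h6 | h6
    · exact h4 h6
    · rw [Nat.prime_dvd_prime_iff_eq h3 hq] at h6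
      subst h6
      exact hqs hp

end PreHits

open PreHits

theorem pre_sum (hP : ∀ p ∈ P, p.Prime) (N W v : ℕ) (hW : 1 ≤ W) (hPW : ∀ p ∈ P, ¬ p ∣ W)
    (h : Fin k → ℕ) (hh : ∀ p ∈ P, ∀ i j, i ≠ j → ¬ h i ≡ h j [MOD p]) (lam : Asg P k → ℝ)
    (s : Finset ℕ) (hs : ∀ p ∈ s, p.Prime ∧ ¬ p ∣ W ∧ p ∉ P) :
    |∑ n ∈ (Finset.Ioc N (2*N)).filter (fun n => n ≡ v [MOD W] ∧ ∀ p ∈ s, ∃ i, p ∣ n + h i),
        wn h lam n -
      (N:ℝ) / W * (∏ p ∈ s, (nuI h p : ℝ) / p) * formK (fun p => (p:ℝ)) lam| ≤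
      (∏ p ∈ s, (nuI h p : ℝ)) * (∑ r, |lam r|) ^ 2 := by
  have key := generic hP (Finset.Ioc N (2*N)) (fun n => wn h lam n) (fun _ => True) h
    ((N:ℝ) * formK (fun p => (p:ℝ)) lam) ((∑ r, |lam r|) ^ 2) (by
      intro W v hW hPW
      have h1 := sum_wn hP N W v hW hPW h hh lam
      have h2 : (N:ℝ) / W * formK (fun p => (p:ℝ)) lam =
        (N:ℝ) * formK (fun p => (p:ℝ)) lam / W := by ring
      rw [h2] at h1
      simpa only [and_true] using h1) s W v hW hPW hs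
  have h3 : (N:ℝ) / W * (∏ p ∈ s, (nuI h p : ℝ) / p) * formK (fun p => (p:ℝ)) lam =
      (N:ℝ) * formK (fun p => (p:ℝ)) lam / W * ∏ p ∈ s, (nuI h p : ℝ) / p := by ring
  rw [h3]
  simpa only [true_and] using key

theorem pre_sum_dvd (hP : ∀ p ∈ P, p.Prime) (N W v : ℕ) (hW : 1 ≤ W) (hPW : ∀ p ∈ P, ¬ p ∣ W)
    (h : Fin k → ℕ) (hh : ∀ p ∈ P, ∀ i j, i ≠ j → ¬ h i ≡ h j [MOD p]) (lam : Asg P k → ℝ)
    (s : Finset ℕ) (hs : ∀ p ∈ s, p.Prime ∧ ¬ p ∣ W ∧ p ∉ P) (p₀ : P) (i₀ : Fin k) :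
    |∑ n ∈ (Finset.Ioc N (2*N)).filter (fun n => n ≡ v [MOD W] ∧ (p₀:ℕ) ∣ n + h i₀ ∧
          ∀ p ∈ s, ∃ i, p ∣ n + h i), wn h lam n -
      (N:ℝ) / (W * (p₀:ℕ)) * (∏ p ∈ s, (nuI h p : ℝ) / p) *
        formK (fun p => (p:ℝ)) (lamp p₀ i₀ lam)| ≤
      (∏ p ∈ s, (nuI h p : ℝ)) * (∑ r, |lam r|) ^ 2 := by
  have key := generic hP (Finset.Ioc N (2*N)) (fun n => wn h lam n)
    (fun n => (p₀:ℕ) ∣ n + h i₀) h
    ((N:ℝ) / (p₀:ℕ) * formK (fun p => (p:ℝ)) (lamp p₀ i₀ lam)) ((∑ r, |lam r|) ^ 2) (by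
      intro W v hW hPW
      have h1 := sum_wn_dvd hP N W v hW hPW h hh lam p₀ i₀
      have h2 : (N:ℝ) / (W * (p₀:ℕ)) * formK (fun p => (p:ℝ)) (lamp p₀ i₀ lam) =
        (N:ℝ) / (p₀:ℕ) * formK (fun p => (p:ℝ)) (lamp p₀ i₀ lam) / W := by
        rw [mul_comm (W:ℝ), ← div_div]
        ring
      rw [h2] at h1
      exact h1) s W v hW hPW hs
  have h3 : (N:ℝ) / (W * (p₀:ℕ)) * (∏ p ∈ s, (nuI h p : ℝ) / p) *
      formK (fun p => (p:ℝ)) (lamp p₀ i₀ lam) =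
      (N:ℝ) / (p₀:ℕ) * formK (fun p => (p:ℝ)) (lamp p₀ i₀ lam) / W *
        ∏ p ∈ s, (nuI h p : ℝ) / p := by
    rw [mul_comm (W:ℝ), ← div_div]
    ring
  rw [h3]
  exact key

theorem pre_sum_primes (hP : ∀ p ∈ P, p.Prime) (N W v : ℕ) (hN : 1 ≤ N) (hW : 1 ≤ W)
    (hPW : ∀ p ∈ P, ¬ p ∣ W) (hPN : ∀ p ∈ P, p ≤ N)
    (h : Fin k → ℕ) (hh : ∀ p ∈ P, ∀ i j, i ≠ j → ¬ h i ≡ h j [MOD p]) (m : Fin k)
    (Y : ℝ) (hm : ((2 * N + h m : ℕ) : ℝ) ≤ Y) (hcop : Nat.Coprime (v + h m) W) (lam : Asg P k → ℝ)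
    (s : Finset ℕ) (hs : ∀ p ∈ s, p.Prime ∧ ¬ p ∣ W ∧ p ∉ P ∧ p ≤ N) (Err : ℕ → ℝ)
    (hErr : ∀ r t, lam r ≠ 0 → lam t ≠ 0 → ∀ a : ℕ, a.Coprime (W * (∏ p ∈ s, p) * mpair r t) →
      ∀ y : ℝ, (N:ℝ) ≤ y → y ≤ Y →
      |SW.thetaAP y (W * (∏ p ∈ s, p) * mpair r t) a -
        y / ((W * (∏ p ∈ s, p) * mpair r t).totient : ℝ)| ≤ Err (W * (∏ p ∈ s, p) * mpair r t)) :
    |∑ n ∈ (Finset.Ioc N (2*N)).filter (fun n => n ≡ v [MOD W] ∧ (n + h m).Prime ∧
          ∀ p ∈ s, ∃ i, p ∣ n + h i), Real.log ((n + h m : ℕ) : ℝ) * wn h lam n -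
      (N:ℝ) / (W.totient : ℝ) * (∏ p ∈ s, ((nuI h p : ℝ) - 1) / ((p:ℝ) - 1)) *
        formK (fun p => (p:ℝ) - 1) (lamm m lam)| ≤
      2 * (∏ p ∈ s, (nuI h p : ℝ)) *
        ∑ r, ∑ t, |lam r| * |lam t| * Err (W * (∏ p ∈ s, p) * mpair r t) := by
  induction s using Finset.induction_on generalizing W v with
  | empty =>
    have h1 := sum_wn_primes_abs hP N W v hN hW hPW hPN h hh m Y hm hcop lam Err (by
      simpa only [Finset.prod_empty, mul_one] using hErr)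
    simp only [Finset.prod_empty, mul_one]
    simpa only [Finset.notMem_empty, false_implies, implies_true, and_true] using h1
  | insert q s hqs ih =>
    obtain ⟨hq, hqW, hqP, hqN⟩ := hs q (mem_insert_self _ _)
    obtain ⟨d, hd1, hd2, hd3⟩ := sum_insert (Finset.Ioc N (2*N))
      (fun n => Real.log ((n + h m : ℕ) : ℝ) * wn h lam n) (fun n => (n + h m).Prime) h W v q hq
      hqW s
    have hmod : W * (∏ p ∈ insert q s, p) = W * q * ∏ p ∈ s, p := by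
      rw [Finset.prod_insert hqs, mul_assoc]
    simp only [hmod] at hErr
    rw [hd3]
    -- the class on which `n + h m` is divisible by `q` is empty
    obtain ⟨c₀, hc₀, hc₀'⟩ : ∃ c₀ ∈ Omt h q, q ∣ c₀ + h m := by
      have hneg : q ∣ (q - 1) * h m % q + h m := by
        have h1 : (q - 1) * h m % q + h m ≡ (q - 1) * h m + h m [MOD q] :=
          (Nat.mod_modEq _ q).add_right _
        have h2 : (q - 1) * h m + h m = q * h m := by
          obtain ⟨w, hw⟩ : ∃ w, q = w + 1 := ⟨q - 1, by have := hq.pos; omega⟩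
          rw [hw, Nat.add_sub_cancel]
          ring
        rw [h2] at h1
        exact (Nat.modEq_zero_iff_dvd).1 (h1.trans ((Nat.modEq_zero_iff_dvd).2 (dvd_mul_right _ _)))
      refine ⟨(q - 1) * h m % q, ?_, hneg⟩
      rw [mem_Omt]
      exact ⟨Nat.mod_lt _ hq.pos, m, hneg⟩
    have hempty : ∑ n ∈ (Finset.Ioc N (2*N)).filter (fun n => n ≡ d c₀ [MOD W * q] ∧
        (n + h m).Prime ∧ ∀ p ∈ s, ∃ i, p ∣ n + h i),
        Real.log ((n + h m : ℕ) : ℝ) * wn h lam n = 0 := by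
      apply Finset.sum_eq_zero
      intro n hn
      exfalso
      rw [mem_filter, mem_Ioc] at hn
      obtain ⟨⟨hn1, _⟩, hn2, hn3, _⟩ := hn
      have h1 : n ≡ c₀ [MOD q] :=
        (Nat.ModEq.of_mul_left W hn2).trans (hd2 c₀)
      have h2 : q ∣ n + h m := (Nat.modEq_zero_iff_dvd).1 ((h1.add_right _).trans
        ((Nat.modEq_zero_iff_dvd).2 hc₀'))
      rw [Nat.prime_dvd_prime_iff_eq hq hn3] at h2
      omega
    rw [← Finset.add_sum_erase _ _ hc₀, hempty, zero_add]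
    have hcard : (((Omt h q).erase c₀).card : ℝ) = (nuI h q : ℝ) - 1 := by
      rw [Finset.card_erase_of_mem hc₀, card_Omt h hq, Nat.cast_sub, Nat.cast_one]
      rw [← card_Omt h hq]
      exact Finset.card_pos.2 ⟨c₀, hc₀⟩
    have hphi : (((W * q).totient : ℕ) : ℝ) = (W.totient : ℝ) * ((q:ℝ) - 1) := by
      have hco : Nat.Coprime W q := by
        rw [Nat.coprime_comm]
        exact (hq.coprime_iff_not_dvd).mpr hqW
      rw [Nat.totient_mul hco, Nat.totient_prime hq, Nat.cast_mul, Nat.cast_sub hq.one_lt.le,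
        Nat.cast_one]
    have hq1 : (q:ℝ) - 1 ≠ 0 := by
      have : (1:ℝ) < q := by exact_mod_cast hq.one_lt
      linarith
    have hphi0 : (W.totient : ℝ) ≠ 0 := by
      have := Nat.totient_pos.2 hW
      positivity
    rw [Finset.prod_insert hqs, Finset.prod_insert hqs]
    have h1 : (N:ℝ) / (W.totient : ℝ) * (((nuI h q : ℝ) - 1) / ((q:ℝ) - 1) *
        ∏ p ∈ s, ((nuI h p : ℝ) - 1) / ((p:ℝ) - 1)) *
        formK (fun p => (p:ℝ) - 1) (lamm m lam) =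
        ∑ c ∈ (Omt h q).erase c₀, (N:ℝ) / ((W * q).totient : ℝ) *
          (∏ p ∈ s, ((nuI h p : ℝ) - 1) / ((p:ℝ) - 1)) *
          formK (fun p => (p:ℝ) - 1) (lamm m lam) := by
      rw [Finset.sum_const, nsmul_eq_mul, hcard, hphi]
      field_simp
    rw [h1, ← Finset.sum_sub_distrib]
    refine (Finset.abs_sum_le_sum_abs _ _).trans ?_
    simp only [hmod]
    have hB : ∀ c ∈ (Omt h q).erase c₀,
        |∑ n ∈ (Finset.Ioc N (2*N)).filter (fun n => n ≡ d c [MOD W * q] ∧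
          (n + h m).Prime ∧ ∀ p ∈ s, ∃ i, p ∣ n + h i),
          Real.log ((n + h m : ℕ) : ℝ) * wn h lam n -
        (N:ℝ) / ((W * q).totient : ℝ) *
          (∏ p ∈ s, ((nuI h p : ℝ) - 1) / ((p:ℝ) - 1)) *
          formK (fun p => (p:ℝ) - 1) (lamm m lam)| ≤
        2 * (∏ p ∈ s, (nuI h p : ℝ)) *
          ∑ r, ∑ t, |lam r| * |lam t| * Err (W * q * (∏ p ∈ s, p) * mpair r t) := by
      intro c hc
      rw [mem_erase] at hc
      obtain ⟨hcc, hc⟩ := hc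
      rw [mem_Omt] at hc hc₀
      apply ih (W * q) (d c) (Nat.mul_pos hW hq.pos) (not_dvd_mul_prime hP hq hqP hPW)
      · apply Nat.Coprime.mul_right
        · have h2 : d c + h m ≡ v + h m [MOD W] := (hd1 c).add_right _
          have h3 : Nat.gcd (d c + h m) W = Nat.gcd (v + h m) W := h2.gcd_eq
          rw [Nat.Coprime, h3]
          exact hcop
        · rw [Nat.coprime_comm, hq.coprime_iff_not_dvd]
          intro hdvd
          apply hcc
          have h2 : d c + h m ≡ c₀ + h m [MOD q] :=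
            ((Nat.modEq_zero_iff_dvd).2 hdvd).trans ((Nat.modEq_zero_iff_dvd).2 hc₀').symm
          have h3 : c ≡ c₀ [MOD q] := (hd2 c).symm.trans (Nat.ModEq.add_right_cancel' _ h2)
          exact Nat.ModEq.eq_of_lt_of_lt h3 hc.1 hc₀.1
      · intro p hp
        obtain ⟨h3, h4, h5, h6⟩ := hs p (mem_insert_of_mem hp)
        refine ⟨h3, ?_, h5, h6⟩
        intro hdvd
        rcases h3.dvd_mul.1 hdvd with h7 | h7
        · exact h4 h7
        · rw [Nat.prime_dvd_prime_iff_eq h3 hq] at h7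
          subst h7
          exact hqs hp
      · exact hErr
    refine (Finset.sum_le_sum hB).trans ?_
    rw [Finset.sum_const, nsmul_eq_mul, hcard]
    have hnn : 0 ≤ 2 * (∏ p ∈ s, (nuI h p : ℝ)) *
        ∑ r, ∑ t, |lam r| * |lam t| * Err (W * q * (∏ p ∈ s, p) * mpair r t) := by
      apply mul_nonneg
      · exact mul_nonneg (by norm_num) (Finset.prod_nonneg fun _ _ => Nat.cast_nonneg _)
      · refine Finset.sum_nonneg fun r _ => Finset.sum_nonneg fun t _ => ?_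
        by_cases hr : lam r = 0
        · rw [hr, abs_zero, zero_mul, zero_mul]
        by_cases ht : lam t = 0
        · rw [ht, abs_zero, mul_zero, zero_mul]
        · apply mul_nonneg (mul_nonneg (abs_nonneg _) (abs_nonneg _))
          have h2 := hErr r t hr ht 1 (Nat.coprime_one_left _) N le_rfl (by
            have e1 : (0:ℝ) ≤ N := Nat.cast_nonneg _
            have e2 : (0:ℝ) ≤ h m := Nat.cast_nonneg _
            push_cast at hm
            linarith)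
          exact (abs_nonneg _).trans h2
    calc ((nuI h q : ℝ) - 1) * (2 * (∏ p ∈ s, (nuI h p : ℝ)) *
          ∑ r, ∑ t, |lam r| * |lam t| * Err (W * q * (∏ p ∈ s, p) * mpair r t))
        ≤ (nuI h q : ℝ) * (2 * (∏ p ∈ s, (nuI h p : ℝ)) *
          ∑ r, ∑ t, |lam r| * |lam t| * Err (W * q * (∏ p ∈ s, p) * mpair r t)) := by
          apply mul_le_mul_of_nonneg_right _ hnn
          linarith
      _ = 2 * ((nuI h q : ℝ) * ∏ p ∈ s, (nuI h p : ℝ)) *
          ∑ r, ∑ t, |lam r| * |lam t| * Err (W * q * (∏ p ∈ s, p) * mpair r t) := by ring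

end Pool.Agent.Lib.MP
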