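import Pool.Agent.Lib.HLB.T1Lower
import Pool.Agent.Lib.MP.Defs

/-!
# Selection of a regular set of shifts

PROOF SKETCH. |A|^r ≤ GW r (posdef with w = 1) ≤ C₃ (log x)^r, so |A| ≤ C₃^(1/r) log x. gw_two:
GW 2 z A 1 ≤ C₃^(2/r) (log x)². Let A₁ be the elements of A in the most popular class modulo
W = primorial D: |A₁| ≥ |A|/W ≥ (κ/W) log x. pair_lower: ∑_{a ≠ b ∈ A₁} ggd (zz r x) D (dist a b) ≤
2 GW 2 ≤ 2 C₃^(2/r) (log x)² (GW 2 is a sum over all pairs of A, SZ ≥ 0). Let A' be the b ∈ A₁ with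
∑_{a ∈ A₁, a ≠ b} ggd ≤ C₅ log x, C₅ = 4 C₃^(2/r) W/κ: the others are at most
2 C₃^(2/r) log x/C₅ ≤ |A₁|/2 many. So |A'| ≥ |A₁|/2. ggd_compare (dist a b ≤ x, ≠ 0): factor 2 for
arbitrary z'.
-/

open Finset Filter

namespace Pool.Agent.Lib.MP

open Pool.Agent.HL Pool.Agent.HLB Pool.Agent.Lib.Sieve4

namespace SelectAux

lemma ggd_nonneg (z D d : ℕ) : 0 ≤ ggd z D d := by
  unfold ggd
  refine Finset.prod_nonneg fun p hp => ?_
  have hp' : p.Prime := (Nat.mem_primesLE.1 (Finset.mem_filter.1 hp).1).2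
  exact (inv_pos.2 (one_sub_inv_pos hp')).le

lemma pair_sum_le (z : ℕ) (A A₁ : Finset ℕ) (h : A₁ ⊆ A) :
    ∑ b ∈ A₁, ∑ a ∈ A₁, SZ z ![a, b] ≤ GW 2 z A (fun _ => 1) := by
  classical
  have h1 : ∑ b ∈ A₁, ∑ a ∈ A₁, SZ z ![a, b]
      = ∑ q ∈ A₁ ×ˢ A₁, SZ z ![q.2, q.1] := by
    rw [Finset.sum_product]
  have hinj : Set.InjOn (fun q : ℕ × ℕ => (![q.2, q.1] : Fin 2 → ℕ)) (A₁ ×ˢ A₁ : Finset (ℕ × ℕ)) := by
    intro p _ q _ hpq
    have h0 := congrFun hpq 0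
    have h1 := congrFun hpq 1
    simp at h0 h1
    exact Prod.ext h1 h0
  have h2 : ∑ q ∈ A₁ ×ˢ A₁, SZ z ![q.2, q.1]
      = ∑ f ∈ (A₁ ×ˢ A₁).image (fun q : ℕ × ℕ => (![q.2, q.1] : Fin 2 → ℕ)), SZ z f := by
    rw [Finset.sum_image hinj]
  have h3 : (A₁ ×ˢ A₁).image (fun q : ℕ × ℕ => (![q.2, q.1] : Fin 2 → ℕ))
      ⊆ Fintype.piFinset (fun _ : Fin 2 => A) := by
    intro f hf
    obtain ⟨q, hq, rfl⟩ := Finset.mem_image.1 hf
    rw [Finset.mem_product] at hq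
    rw [Fintype.mem_piFinset]
    intro i
    fin_cases i
    · simpa using h hq.2
    · simpa using h hq.1
  unfold GW
  rw [h1, h2]
  calc ∑ f ∈ (A₁ ×ˢ A₁).image (fun q : ℕ × ℕ => (![q.2, q.1] : Fin 2 → ℕ)), SZ z f
      ≤ ∑ f ∈ Fintype.piFinset (fun _ : Fin 2 => A), SZ z f :=
        Finset.sum_le_sum_of_subset_of_nonneg h3 fun f _ _ => SZ_nonneg _ _
    _ = _ := by
        refine Finset.sum_congr rfl fun f _ => ?_
        simp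

end SelectAux

end Pool.Agent.Lib.MP
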