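import Pool.Agent.Lib.MP.Pairs
import Pool.Agent.Lib.MP.Select

/-!
# Selection of a regular set of shifts: explicit dependence on the size of the set
-/

open Finset Filter

namespace Pool.Agent.Lib.MP

open Pool.Agent.HL Pool.Agent.HLB Pool.Agent.Lib.Sieve4

open SelectAux in
/-- `select` with polynomial dependence on `κ`. -/
theorem select_poly (r : ℕ) (hr : 2 ≤ r) (D : ℕ) (hD : 2 ≤ D) (C₃ : ℝ) (hC₃ : 0 < C₃) :
    ∃ c₁ C' : ℝ, 0 < c₁ ∧ c₁ ≤ 1 ∧ 1 ≤ C' ∧ ∀ᶠ x : ℕ in atTop, ∀ A : Finset ℕ, A.Nonempty →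
      (∀ a ∈ A, a ≤ x ^ 2) → ∀ κ : ℝ, 0 < κ → κ ≤ 1 → κ * Real.log x ≤ A.card →
      GW r (zz r x) A (fun _ => 1) ≤ C₃ * Real.log x ^ r →
      ∃ A' ⊆ A, (∀ a ∈ A', ∀ b ∈ A', a ≡ b [MOD primorial D]) ∧
        c₁ * A.card ≤ A'.card ∧ (A'.card : ℝ) ≤ C' * Real.log x ∧
        ∀ z' : ℕ, ∀ b ∈ A', ∑ a ∈ A'.erase b, ggd z' D (Nat.dist a b) ≤
          C' / κ * Real.log x := by
  classical
  set c : ℝ := C₃ ^ ((r : ℝ)⁻¹) with hc
  have hr0 : r ≠ 0 := by omega
  have hcpos : 0 < c := Real.rpow_pos_of_pos hC₃ _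
  have hcr : c ^ r = C₃ := Real.rpow_inv_natCast_pow hC₃.le hr0
  set W : ℕ := primorial D with hW
  have hWpos : 0 < W := primorial_pos D
  have hWR : (0 : ℝ) < W := by exact_mod_cast hWpos
  have hW1 : (1 : ℝ) ≤ W := by exact_mod_cast hWpos
  set C' : ℝ := 1 + c + 8 * c ^ 2 * W with hC'
  have hC'1 : 1 ≤ C' := by
    have : 0 ≤ c + 8 * c ^ 2 * W := by positivity
    rw [hC']; linarith
  refine ⟨1 / (2 * W), C', by positivity, ?_, hC'1, ?_⟩
  · rw [div_le_one (by positivity)]; linarith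
  filter_upwards [ggd_compare r D, Filter.eventually_ge_atTop 3] with x hcmp hx3 A hAne hAx κ hκ
    hκ1 hAc hGW
  set L : ℝ := Real.log x with hL
  have hLpos : 0 < L := by
    rw [hL]
    apply Real.log_pos
    exact_mod_cast (by omega : 1 < x)
  set z := zz r x with hz
  set C₅ : ℝ := 4 * c ^ 2 * W / κ with hC₅
  have hC₅pos : 0 < C₅ := by positivity
  -- the size of `A`
  have hcard : (A.card : ℝ) ≤ c * L := by
    have h1 := posdef r z (by omega) A (fun _ => 1) (fun _ _ => zero_le_one)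
    have h2 : ((A.card : ℝ)) ^ r ≤ (c * L) ^ r := by
      calc ((A.card : ℝ)) ^ r = (∑ a ∈ A, (1 : ℝ)) ^ r := by simp
        _ ≤ GW r z A (fun _ => 1) := h1
        _ ≤ C₃ * L ^ r := hGW
        _ = (c * L) ^ r := by rw [mul_pow, hcr]
    exact le_of_pow_le_pow_left₀ hr0 (by positivity) h2
  have hGW2 : GW 2 z A (fun _ => 1) ≤ c ^ 2 * L ^ 2 := by
    have h1 := gw_two r z hr A
    have h2 : (GW 2 z A (fun _ => 1)) ^ r ≤ (c ^ 2 * L ^ 2) ^ r := by
      calc (GW 2 z A (fun _ => 1)) ^ r ≤ (GW r z A (fun _ => 1)) ^ 2 := h1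
        _ ≤ (C₃ * L ^ r) ^ 2 :=
            pow_le_pow_left₀ (GW_nonneg _ _ _ _ (fun _ _ => zero_le_one)) hGW 2
        _ = (c ^ 2 * L ^ 2) ^ r := by
            rw [← hcr]; ring
    exact le_of_pow_le_pow_left₀ hr0 (by positivity) h2
  -- the most popular class
  obtain ⟨u, hu, hucard⟩ : ∃ u ∈ range W, A.card ≤ W * (A.filter (fun a => a % W = u)).card := by
    by_contra hcon
    push Not at hcon
    have h1 : A.card = ∑ u ∈ range W, (A.filter (fun a => a % W = u)).card :=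
      Finset.card_eq_sum_card_fiberwise (fun a _ => by
        simpa using Nat.mod_lt a hWpos)
    have h2 : W * A.card = ∑ u ∈ range W, W * (A.filter (fun a => a % W = u)).card := by
      conv_lhs => rw [h1]
      rw [Finset.mul_sum]
    have h3 : ∑ u ∈ range W, W * (A.filter (fun a => a % W = u)).card < ∑ _u ∈ range W, A.card :=
      Finset.sum_lt_sum_of_nonempty ⟨0, by simpa using hWpos⟩ fun u hu => hcon u hu
    rw [← h2] at h3
    simp at h3
  set A₁ := A.filter (fun a => a % W = u) with hA₁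
  have hA₁A : A₁ ⊆ A := Finset.filter_subset _ _
  have hmod : ∀ a ∈ A₁, ∀ b ∈ A₁, a ≡ b [MOD W] := by
    intro a ha b hb
    unfold Nat.ModEq
    rw [(Finset.mem_filter.1 ha).2, (Finset.mem_filter.1 hb).2]
  have hA₁card : (A.card : ℝ) / W ≤ A₁.card := by
    have h1 : (A.card : ℝ) ≤ W * A₁.card := by exact_mod_cast hucard
    rw [div_le_iff₀ hWR]
    linarith
  -- the sum over pairs
  set G : ℕ → ℝ := fun b => ∑ a ∈ A₁.erase b, ggd z D (Nat.dist a b) with hG
  have hG0 : ∀ b, 0 ≤ G b := fun b => Finset.sum_nonneg fun a _ => ggd_nonneg _ _ _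
  have hsum : ∑ b ∈ A₁, G b ≤ 2 * (c ^ 2 * L ^ 2) := by
    have h1 : ∀ b ∈ A₁, G b ≤ ∑ a ∈ A₁, 2 * SZ z ![a, b] := by
      intro b hb
      calc G b ≤ ∑ a ∈ A₁.erase b, 2 * SZ z ![a, b] := by
            refine Finset.sum_le_sum fun a ha => ?_
            have := pair_lower D z hD a b (hmod a (Finset.mem_of_mem_erase ha) b hb)
            linarith
        _ ≤ ∑ a ∈ A₁, 2 * SZ z ![a, b] :=
            Finset.sum_le_sum_of_subset_of_nonneg (Finset.erase_subset _ _)
              fun a _ _ => mul_nonneg zero_le_two (SZ_nonneg _ _)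
    calc ∑ b ∈ A₁, G b ≤ ∑ b ∈ A₁, ∑ a ∈ A₁, 2 * SZ z ![a, b] := Finset.sum_le_sum h1
      _ = 2 * ∑ b ∈ A₁, ∑ a ∈ A₁, SZ z ![a, b] := by
          rw [Finset.mul_sum]
          refine Finset.sum_congr rfl fun b _ => ?_
          rw [Finset.mul_sum]
      _ ≤ 2 * GW 2 z A (fun _ => 1) :=
          mul_le_mul_of_nonneg_left (pair_sum_le z A A₁ hA₁A) zero_le_two
      _ ≤ _ := mul_le_mul_of_nonneg_left hGW2 zero_le_two
  set A' := A₁.filter (fun b => G b ≤ C₅ * L) with hA'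
  have hA'A₁ : A' ⊆ A₁ := Finset.filter_subset _ _
  have hbad : ((A₁.filter (fun b => ¬ G b ≤ C₅ * L)).card : ℝ) * (C₅ * L) ≤ 2 * (c ^ 2 * L ^ 2) := by
    calc ((A₁.filter (fun b => ¬ G b ≤ C₅ * L)).card : ℝ) * (C₅ * L)
        = ∑ _b ∈ A₁.filter (fun b => ¬ G b ≤ C₅ * L), (C₅ * L) := by
          rw [Finset.sum_const, nsmul_eq_mul]
      _ ≤ ∑ b ∈ A₁.filter (fun b => ¬ G b ≤ C₅ * L), G b :=
          Finset.sum_le_sum fun b hb => (not_le.1 (Finset.mem_filter.1 hb).2).le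
      _ ≤ ∑ b ∈ A₁, G b :=
          Finset.sum_le_sum_of_subset_of_nonneg (Finset.filter_subset _ _) fun b _ _ => hG0 b
      _ ≤ _ := hsum
  have hbad' : ((A₁.filter (fun b => ¬ G b ≤ C₅ * L)).card : ℝ) ≤ (A.card : ℝ) / (2 * W) := by
    have h1 : (0 : ℝ) < C₅ * L := by positivity
    rw [← le_div_iff₀ h1] at hbad
    have h2 : 2 * (c ^ 2 * L ^ 2) / (C₅ * L) = κ * L / (2 * W) := by
      rw [hC₅]
      field_simp
      ring
    rw [h2] at hbad
    exact hbad.trans (div_le_div_of_nonneg_right hAc (by positivity))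
  have hA'card : 1 / (2 * W) * (A.card : ℝ) ≤ A'.card := by
    have h1 : (A'.card : ℝ) + ((A₁.filter (fun b => ¬ G b ≤ C₅ * L)).card : ℝ) = A₁.card := by
      have := Finset.card_filter_add_card_filter_not (s := A₁) (fun b => G b ≤ C₅ * L)
      rw [hA']
      exact_mod_cast this
    have h2 : (A.card : ℝ) / W = 1 / (2 * W) * (A.card : ℝ) + (A.card : ℝ) / (2 * W) := by
      field_simp
      ring
    linarith
  refine ⟨A', hA'A₁.trans hA₁A, fun a ha b hb => hmod a (hA'A₁ ha) b (hA'A₁ hb), hA'card, ?_, ?_⟩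
  · calc (A'.card : ℝ) ≤ A.card := by exact_mod_cast Finset.card_le_card (hA'A₁.trans hA₁A)
      _ ≤ c * L := hcard
      _ ≤ C' * L := by
          apply mul_le_mul_of_nonneg_right _ hLpos.le
          have : 0 ≤ 8 * c ^ 2 * (W : ℝ) := by positivity
          rw [hC']; linarith
  · intro z' b hb
    have hbA₁ := hA'A₁ hb
    have hGb : G b ≤ C₅ * L := (Finset.mem_filter.1 hb).2
    calc ∑ a ∈ A'.erase b, ggd z' D (Nat.dist a b)
        ≤ ∑ a ∈ A'.erase b, 2 * ggd z D (Nat.dist a b) := by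
          refine Finset.sum_le_sum fun a ha => ?_
          have hne : a ≠ b := Finset.ne_of_mem_erase ha
          have hax : a ≤ x ^ 2 := hAx a (hA₁A (hA'A₁ (Finset.mem_of_mem_erase ha)))
          have hbx : b ≤ x ^ 2 := hAx b (hA₁A hbA₁)
          have hd0 : 0 < Nat.dist a b := Nat.dist_pos_of_ne hne
          have hdx : Nat.dist a b ≤ x ^ 2 := by
            unfold Nat.dist
            omega
          exact hcmp _ hd0 hdx z'
      _ ≤ ∑ a ∈ A₁.erase b, 2 * ggd z D (Nat.dist a b) :=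
          Finset.sum_le_sum_of_subset_of_nonneg (Finset.erase_subset_erase _ hA'A₁)
            fun a _ _ => mul_nonneg zero_le_two (ggd_nonneg _ _ _)
      _ = 2 * G b := by
          rw [hG, ← Finset.mul_sum]
      _ ≤ 2 * (C₅ * L) := mul_le_mul_of_nonneg_left hGb zero_le_two
      _ = 8 * c ^ 2 * W / κ * L := by rw [hC₅]; ring
      _ ≤ C' / κ * L := by
          apply mul_le_mul_of_nonneg_right _ hLpos.le
          apply div_le_div_of_nonneg_right _ hκ.le
          rw [hC']; linarith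

end Pool.Agent.Lib.MP
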