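import Pool.Agent.Lib.HLB.Hooley

/-!
# The fundamental lemma (both bounds) from the Brun-Hooley weights

PROOF SKETCH. hwt_exists κ z kk gives L, U with `HWt κ z kk W L U`, W = ∏ p ∈ primesLE ((2κ+5)²), p
(see the proof of `hooley` at the end of HLB/Hooley.lean, which does the lower bound; copy it). Choose
kk with htl κ kk ≤ min(ε, ε/(1+ε)) and < 1. Lower: as in hooley. Upper: `rat` gives
(1 - htl) ∑ U ∏ g ≤ ∑ L ∏ g ≤ ∏ (1 - g) (`lo` for h = g), so ∑ U ∏ g ≤ (1 - htl)⁻¹ ∏ (1 - g) ≤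
(1 + ε) ∏ (1 - g). The level of U is bounded as that of L in `lev`.
-/

open Finset

namespace Pool.Agent.Lib.MP

open Pool.Agent.HLB

theorem fund (κ : ℕ) {ε : ℝ} (hε : 0 < ε) : ∃ K : ℕ, ∀ z : ℕ, ∃ L U : Finset ℕ → ℝ,
    (∀ s, |L s| ≤ 1) ∧ (∀ s, |U s| ≤ 1) ∧
    (∀ s ∈ (Nat.primesLE z).powerset, (L s ≠ 0 ∨ U s ≠ 0) → ∏ p ∈ s, p ≤ (z + 1) ^ K) ∧
    (∀ h : ℕ → ℝ, (∀ p, 0 ≤ h p ∧ h p ≤ 1) →
      ∑ s ∈ (Nat.primesLE z).powerset, L s * ∏ p ∈ s, h p ≤ ∏ p ∈ Nat.primesLE z, (1 - h p) ∧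
      ∏ p ∈ Nat.primesLE z, (1 - h p) ≤
        ∑ s ∈ (Nat.primesLE z).powerset, U s * ∏ p ∈ s, h p) ∧
    (∀ g : ℕ → ℝ, (∀ p ∈ Nat.primesLE z, 0 ≤ g p ∧ g p ≤ 1 ∧ g p * ((p : ℝ) - 1) ≤ κ) →
      (1 - ε) * ∏ p ∈ Nat.primesLE z, (1 - g p) ≤
        ∑ s ∈ (Nat.primesLE z).powerset, L s * ∏ p ∈ s, g p ∧
      ∑ s ∈ (Nat.primesLE z).powerset, U s * ∏ p ∈ s, g p ≤
        (1 + ε) * ∏ p ∈ Nat.primesLE z, (1 - g p)) := by
  have hε' : 0 < ε / (1 + ε) := by positivity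
  obtain ⟨k, hk, hk1, hk2⟩ := (((htl_tendsto κ).eventually (eventually_lt_nhds hε)).and
    (((htl_tendsto κ).eventually (eventually_lt_nhds one_pos)).and
      ((htl_tendsto κ).eventually (eventually_lt_nhds hε')))).exists
  set W := ∏ p ∈ Nat.primesLE ((2 * κ + 5) ^ 2), p with hW
  refine ⟨W + (4 * k + 8), fun z => ?_⟩
  obtain ⟨L, U, H⟩ := hwt_exists κ z k
  refine ⟨L, U, H.bL, H.bU, ?_, fun h hh => ⟨H.lo h (fun p _ => hh p), H.up h (fun p _ => hh p)⟩, ?_⟩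
  · intro s hs hne
    rw [Finset.mem_powerset] at hs
    rcases Nat.eq_zero_or_pos z with rfl | hz
    · have : s = ∅ := by
        rw [Finset.eq_empty_iff_forall_notMem]
        intro p hp
        have := Nat.mem_primesLE.mp (hs hp)
        have := this.2.two_le
        omega
      rw [this, Finset.prod_empty]
      exact Nat.one_le_pow _ _ (by omega)
    · refine (H.lev hz s hs hne).trans ?_
      rw [pow_add (z + 1)]
      apply Nat.mul_le_mul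
      · calc W ≤ 2 ^ W := (Nat.lt_two_pow_self).le
          _ ≤ (z + 1) ^ W := Nat.pow_le_pow_left (show 2 ≤ z + 1 by omega) _
      · exact Nat.pow_le_pow_left (show z ≤ z + 1 by omega) _
  · intro g hg
    have hg1 : ∀ p ∈ Nat.primesLE z, 0 ≤ g p ∧ g p ≤ 1 := fun p hp => ⟨(hg p hp).1, (hg p hp).2.1⟩
    have h1 := H.rat g hg
    have h2 := H.up g hg1
    have h2' := H.lo g hg1
    have h3 := prod_one_sub_nonneg (Nat.primesLE z) g hg1
    refine ⟨?_, ?_⟩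
    · have h4 : (1 - ε) * ∏ p ∈ Nat.primesLE z, (1 - g p) ≤
          (1 - htl κ k) * ∏ p ∈ Nat.primesLE z, (1 - g p) :=
        mul_le_mul_of_nonneg_right (by linarith) h3
      exact (h4.trans (mul_le_mul_of_nonneg_left h2 (by linarith))).trans h1
    · have h5 : 0 < 1 - htl κ k := by linarith
      have h6 : 1 ≤ (1 + ε) * (1 - htl κ k) := by
        rw [lt_div_iff₀ (by linarith)] at hk2
        nlinarith
      have h7 : ∏ p ∈ Nat.primesLE z, (1 - g p) ≤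
          (1 - htl κ k) * ((1 + ε) * ∏ p ∈ Nat.primesLE z, (1 - g p)) := by
        nlinarith
      exact le_of_mul_le_mul_left ((h1.trans h2').trans h7) h5

end Pool.Agent.Lib.MP
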