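import Pool.Agent.Lib.MP.Defs
import Pool.Agent.Lib.MP.Fund
import Pool.Agent.Lib.MP.PreHits

/-!
# Upper bounds for the weights over the integers without small prime factors
-/

open Finset
open scoped Classical

namespace Pool.Agent.Lib.MP

open Pool.Agent.Lib.MT Pool.Agent.HLB Pool.Agent.Lib.Sieve4

/-- Indicator of a hit at a prime not dividing `W`. -/
noncomputable def hitW {k : ℕ} (W : ℕ) (h : Fin k → ℕ) (n p : ℕ) : ℝ :=
  if ¬ p ∣ W ∧ ∃ i, p ∣ n + h i then 1 else 0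

lemma hitW_mem {k : ℕ} (W : ℕ) (h : Fin k → ℕ) (n p : ℕ) :
    0 ≤ hitW W h n p ∧ hitW W h n p ≤ 1 := by
  unfold hitW
  split_ifs <;> norm_num

lemma prod_hitW {k : ℕ} (W : ℕ) (h : Fin k → ℕ) (n : ℕ) (s : Finset ℕ) :
    ∏ p ∈ s, hitW W h n p = if ∀ p ∈ s, ¬ p ∣ W ∧ ∃ i, p ∣ n + h i then 1 else 0 := by
  unfold hitW
  rw [Finset.prod_ite_zero, Finset.prod_const_one]

lemma prod_one_sub_hitW {k : ℕ} (W : ℕ) (h : Fin k → ℕ) (n z : ℕ) :
    ∏ p ∈ Nat.primesLE z, (1 - hitW W h n p) = if Avoid z W h n then 1 else 0 := by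
  have h1 : ∀ p ∈ Nat.primesLE z, (1 - hitW W h n p) =
      if ¬ (¬ p ∣ W ∧ ∃ i, p ∣ n + h i) then (1 : ℝ) else 0 := by
    intro p _
    unfold hitW
    by_cases h : ¬ p ∣ W ∧ ∃ i, p ∣ n + h i
    · simp [h]
    · simp [h]
  rw [Finset.prod_congr rfl h1, Finset.prod_ite_zero, Finset.prod_const_one]
  have h2 : (∀ p ∈ Nat.primesLE z, ¬ (¬ p ∣ W ∧ ∃ i, p ∣ n + h i)) ↔ Avoid z W h n := by
    unfold Avoid
    constructor
    · intro H p hp hpz hpW i hi
      exact H p (Nat.mem_primesLE.2 ⟨hpz, hp⟩) ⟨hpW, i, hi⟩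
    · rintro H p hp ⟨hpW, i, hi⟩
      exact H p (Nat.mem_primesLE.1 hp).2 (Nat.mem_primesLE.1 hp).1 hpW i hi
  simp only [h2]

/-- The general form: the upper bound sieve for nonnegative weights on a finite set. -/
theorem pre_general (k : ℕ) {ε : ℝ} (hε : 0 < ε) : ∃ K : ℕ, ∀ (z W : ℕ) (h : Fin k → ℕ)
    (T : Finset ℕ) (w : ℕ → ℝ), (∀ n ∈ T, 0 ≤ w n) → ∀ A Λ : ℝ, 0 ≤ A → 0 ≤ Λ →
    (∀ s ⊆ Nat.primesLE z, (∀ p ∈ s, ¬ p ∣ W) →
      |∑ n ∈ T.filter (fun n => ∀ p ∈ s, ∃ i, p ∣ n + h i), w n -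
        A * ∏ p ∈ s, (nuI h p : ℝ) / p| ≤ (∏ p ∈ s, (nuI h p : ℝ)) * Λ) →
    ∑ n ∈ T.filter (fun n => Avoid z W h n), w n ≤
      (1 + ε) * A * GG z W h + ((z:ℝ) + 1) ^ K * Λ := by
  obtain ⟨K₀, hK⟩ := fund k hε
  refine ⟨K₀ * (k + 1), ?_⟩
  intro z W h T w hw A Λ hA hΛ hmain
  obtain ⟨L, U, -, hU1, hlev, hup, hfl⟩ := hK z
  set g : ℕ → ℝ := fun p => if p ∣ W then 0 else (nuI h p : ℝ) / p with hg
  have hgadm : ∀ p ∈ Nat.primesLE z, 0 ≤ g p ∧ g p ≤ 1 ∧ g p * ((p : ℝ) - 1) ≤ k := by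
    intro p hp
    have hpp := (Nat.mem_primesLE.mp hp).2
    have hp0 : (0 : ℝ) < p := by exact_mod_cast hpp.pos
    have hnp : (nuI h p : ℝ) ≤ p := by exact_mod_cast nuI_le_prime h hpp
    have hnk : (nuI h p : ℝ) ≤ k := by
      have := nuI_le h p
      rw [Fintype.card_fin] at this
      exact_mod_cast this
    by_cases hW : p ∣ W
    · simp [hg, hW]
    · simp only [hg, hW, if_false]
      have h1 : (nuI h p : ℝ) / p ≤ 1 := by rw [div_le_one hp0]; exact hnp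
      have h0 : 0 ≤ (nuI h p : ℝ) / p := by positivity
      refine ⟨h0, h1, ?_⟩
      have h2 : (nuI h p : ℝ) / p * ((p : ℝ) - 1) = nuI h p - (nuI h p : ℝ) / p := by
        field_simp
      rw [h2]
      linarith
  have hGG : ∏ p ∈ Nat.primesLE z, (1 - g p) = GG z W h := by
    unfold GG
    rw [Finset.prod_filter]
    apply Finset.prod_congr rfl
    intro p _
    by_cases hW : p ∣ W <;> simp [hg, hW]
  set S : Finset ℕ → ℝ := fun s => ∑ n ∈ T, (∏ p ∈ s, hitW W h n p) * w n with hS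
  -- the sieve inequality
  have hcomb : ∑ n ∈ T.filter (fun n => Avoid z W h n), w n ≤
      ∑ s ∈ (Nat.primesLE z).powerset, U s * S s := by
    have h2 : ∑ n ∈ T.filter (fun n => Avoid z W h n), w n =
        ∑ n ∈ T, (∏ p ∈ Nat.primesLE z, (1 - hitW W h n p)) * w n := by
      rw [Finset.sum_filter]
      apply Finset.sum_congr rfl
      intro n _
      rw [prod_one_sub_hitW]
      split_ifs <;> ring
    rw [h2]
    calc ∑ n ∈ T, (∏ p ∈ Nat.primesLE z, (1 - hitW W h n p)) * w n ≤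
        ∑ n ∈ T, (∑ s ∈ (Nat.primesLE z).powerset, U s * ∏ p ∈ s, hitW W h n p) * w n := by
          apply Finset.sum_le_sum
          intro n hn
          exact mul_le_mul_of_nonneg_right (hup _ (hitW_mem W h n)).2 (hw n hn)
      _ = _ := by
          simp only [hS, Finset.mul_sum, Finset.sum_mul]
          rw [Finset.sum_comm]
          apply Finset.sum_congr rfl
          intro s _
          apply Finset.sum_congr rfl
          intro n _
          ring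
  -- the main term and the error for one set of primes
  have hSs : ∀ s ∈ (Nat.primesLE z).powerset, U s ≠ 0 →
      |S s - A * ∏ p ∈ s, g p| ≤ ((z:ℝ) + 1) ^ (K₀ * k) * Λ := by
    intro s hs hne
    have hd := hlev s hs (Or.inr hne)
    rw [Finset.mem_powerset] at hs
    have hsp : ∀ p ∈ s, p.Prime := fun p hp => (Nat.mem_primesLE.mp (hs hp)).2
    by_cases hW : ∀ p ∈ s, ¬ p ∣ W
    · have h1 : S s = ∑ n ∈ T.filter (fun n => ∀ p ∈ s, ∃ i, p ∣ n + h i), w n := by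
        simp only [hS]
        rw [Finset.sum_filter]
        apply Finset.sum_congr rfl
        intro n _
        rw [prod_hitW]
        have h3 : (∀ p ∈ s, ¬ p ∣ W ∧ ∃ i, p ∣ n + h i) ↔ ∀ p ∈ s, ∃ i, p ∣ n + h i :=
          ⟨fun H p hp => (H p hp).2, fun H p hp => ⟨hW p hp, H p hp⟩⟩
        simp only [h3]
        split_ifs <;> ring
      have h2 : ∏ p ∈ s, g p = ∏ p ∈ s, (nuI h p : ℝ) / p := by
        apply Finset.prod_congr rfl
        intro p hp
        simp [hg, hW p hp]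
      rw [h1, h2]
      refine (hmain s hs hW).trans ?_
      apply mul_le_mul_of_nonneg_right _ hΛ
      calc ∏ p ∈ s, (nuI h p : ℝ) ≤ ∏ p ∈ s, ((p:ℝ) ^ k) := by
            apply Finset.prod_le_prod
            · intro p _
              positivity
            · intro p hp
              have h4 := nuI_le h p
              rw [Fintype.card_fin] at h4
              have h5 : k ≤ 2 ^ k := Nat.lt_two_pow_self.le
              have h6 : 2 ^ k ≤ p ^ k := Nat.pow_le_pow_left (hsp p hp).two_le k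
              exact_mod_cast h4.trans (h5.trans h6)
        _ = ((∏ p ∈ s, p : ℕ) : ℝ) ^ k := by
            rw [Finset.prod_pow]
            push_cast
            rfl
        _ ≤ (((z + 1) ^ K₀ : ℕ) : ℝ) ^ k := by
            apply pow_le_pow_left₀ (by positivity)
            exact_mod_cast hd
        _ = ((z:ℝ) + 1) ^ (K₀ * k) := by
            push_cast
            rw [← pow_mul]
    · push Not at hW
      obtain ⟨p, hp, hpW⟩ := hW
      have h1 : S s = 0 := by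
        simp only [hS]
        apply Finset.sum_eq_zero
        intro n _
        have : ∏ p ∈ s, hitW W h n p = 0 := by
          apply Finset.prod_eq_zero hp
          simp [hitW, hpW]
        rw [this, zero_mul]
      have h2 : ∏ p ∈ s, g p = 0 := by
        apply Finset.prod_eq_zero hp
        simp [hg, hpW]
      rw [h1, h2]
      simp only [mul_zero, sub_zero, abs_zero]
      positivity
  -- the total
  have hlow : ∑ s ∈ (Nat.primesLE z).powerset, U s * S s -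
      A * ∑ s ∈ (Nat.primesLE z).powerset, U s * ∏ p ∈ s, g p ≤
      ((z:ℝ) + 1) ^ K₀ * (((z:ℝ) + 1) ^ (K₀ * k) * Λ) := by
    rw [Finset.mul_sum, ← Finset.sum_sub_distrib]
    have h1 : ∀ s ∈ (Nat.primesLE z).powerset,
        U s * S s - A * (U s * ∏ p ∈ s, g p) ≤
          if ∏ p ∈ s, p ≤ (z + 1) ^ K₀ then ((z:ℝ) + 1) ^ (K₀ * k) * Λ else 0 := by
      intro s hs
      by_cases hne : U s = 0
      · rw [hne]
        simp only [zero_mul, mul_zero, sub_zero]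
        split_ifs <;> positivity
      · rw [if_pos (hlev s hs (Or.inr hne))]
        have h2 := hSs s hs hne
        have h3 : U s * S s - A * (U s * ∏ p ∈ s, g p) =
            U s * (S s - A * ∏ p ∈ s, g p) := by ring
        rw [h3]
        refine (le_abs_self _).trans ?_
        rw [abs_mul]
        calc |U s| * |S s - A * ∏ p ∈ s, g p| ≤
            1 * |S s - A * ∏ p ∈ s, g p| :=
              mul_le_mul_of_nonneg_right (hU1 s) (abs_nonneg _)
          _ ≤ _ := by rw [one_mul]; exact h2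
    refine (Finset.sum_le_sum h1).trans ?_
    rw [← Finset.sum_filter, Finset.sum_const, nsmul_eq_mul]
    apply mul_le_mul_of_nonneg_right _ (by positivity)
    have h4 := card_DD_le (Nat.primesLE z) (fun p hp => (Nat.mem_primesLE.mp hp).2) ((z + 1) ^ K₀)
    have h5 : ((((Nat.primesLE z).powerset.filter
        (fun s => ∏ p ∈ s, p ≤ (z + 1) ^ K₀)).card : ℕ) : ℝ) ≤ (((z + 1) ^ K₀ : ℕ) : ℝ) := by
      exact_mod_cast h4
    refine h5.trans (le_of_eq ?_)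
    push_cast
    rfl
  have hm := (hfl g hgadm).2
  rw [hGG] at hm
  have hm2 := mul_le_mul_of_nonneg_left hm hA
  have hpow : ((z:ℝ) + 1) ^ K₀ * (((z:ℝ) + 1) ^ (K₀ * k) * Λ) =
      ((z:ℝ) + 1) ^ (K₀ * (k + 1)) * Λ := by
    rw [← mul_assoc, ← pow_add]
    congr 2
    ring
  rw [hpow] at hlow
  calc _ ≤ _ := hcomb
    _ ≤ A * ((1 + ε) * GG z W h) + ((z:ℝ) + 1) ^ (K₀ * (k + 1)) * Λ := by linarith
    _ = _ := by ring

lemma notMem_of_lt {z : ℕ} {P : Finset ℕ} (hP : ∀ p ∈ P, z < p) {p : ℕ}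
    (hp : p ∈ Nat.primesLE z) : p ∉ P := by
  intro h1
  have := hP p h1
  have := (Nat.mem_primesLE.1 hp).1
  omega

theorem s1_pre (k : ℕ) {ε : ℝ} (hε : 0 < ε) : ∃ K : ℕ, ∀ (z N W v : ℕ) (P : Finset ℕ), 1 ≤ W →
    (∀ p ∈ P, p.Prime ∧ z < p ∧ ¬ p ∣ W) → ∀ h : Fin k → ℕ,
    (∀ p ∈ P, ∀ i j, i ≠ j → ¬ h i ≡ h j [MOD p]) → ∀ lam : Asg P k → ℝ,
    0 ≤ formK (fun p => (p:ℝ)) lam →
    ∑ n ∈ (Finset.Ioc N (2*N)).filter (fun n => n ≡ v [MOD W] ∧ Avoid z W h n), wn h lam n ≤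
      (1 + ε) * ((N:ℝ) / W) * GG z W h * formK (fun p => (p:ℝ)) lam +
        ((z:ℝ) + 1) ^ K * (∑ r, |lam r|) ^ 2 := by
  obtain ⟨K, hK⟩ := pre_general k hε
  refine ⟨K, ?_⟩
  intro z N W v P hW hP h hh lam hf
  have key := hK z W h ((Finset.Ioc N (2*N)).filter (fun n => n ≡ v [MOD W])) (wn h lam)
    (fun n _ => sq_nonneg _) ((N:ℝ) / W * formK (fun p => (p:ℝ)) lam) ((∑ r, |lam r|) ^ 2)
    (mul_nonneg (by positivity) hf) (sq_nonneg _) (by
      intro s hs hsW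
      have h1 := pre_sum (fun p hp => (hP p hp).1) N W v hW (fun p hp => (hP p hp).2.2) h hh lam s
        (fun p hp => ⟨(Nat.mem_primesLE.1 (hs hp)).2, hsW p hp,
          notMem_of_lt (fun p hp => (hP p hp).2.1) (hs hp)⟩)
      rw [Finset.filter_filter]
      have h2 : (N:ℝ) / W * formK (fun p => (p:ℝ)) lam * ∏ p ∈ s, (nuI h p : ℝ) / p =
        (N:ℝ) / W * (∏ p ∈ s, (nuI h p : ℝ) / p) * formK (fun p => (p:ℝ)) lam := by ring
      rw [h2]
      exact h1)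
  rw [Finset.filter_filter] at key
  refine key.trans (le_of_eq ?_)
  ring

theorem s1_pre_dvd (k : ℕ) {ε : ℝ} (hε : 0 < ε) : ∃ K : ℕ, ∀ (z N W v : ℕ) (P : Finset ℕ), 1 ≤ W →
    (∀ p ∈ P, p.Prime ∧ z < p ∧ ¬ p ∣ W) → ∀ h : Fin k → ℕ,
    (∀ p ∈ P, ∀ i j, i ≠ j → ¬ h i ≡ h j [MOD p]) → ∀ lam : Asg P k → ℝ, ∀ (p₀ : P) (i₀ : Fin k),
    0 ≤ formK (fun p => (p:ℝ)) (lamp p₀ i₀ lam) →
    ∑ n ∈ (Finset.Ioc N (2*N)).filter (fun n => n ≡ v [MOD W] ∧ Avoid z W h n ∧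
        (p₀:ℕ) ∣ n + h i₀), wn h lam n ≤
      (1 + ε) * ((N:ℝ) / (W * (p₀:ℕ))) * GG z W h * formK (fun p => (p:ℝ)) (lamp p₀ i₀ lam) +
        ((z:ℝ) + 1) ^ K * (∑ r, |lam r|) ^ 2 := by
  obtain ⟨K, hK⟩ := pre_general k hε
  refine ⟨K, ?_⟩
  intro z N W v P hW hP h hh lam p₀ i₀ hf
  have key := hK z W h ((Finset.Ioc N (2*N)).filter (fun n => n ≡ v [MOD W] ∧ (p₀:ℕ) ∣ n + h i₀))
    (wn h lam) (fun n _ => sq_nonneg _)
    ((N:ℝ) / (W * (p₀:ℕ)) * formK (fun p => (p:ℝ)) (lamp p₀ i₀ lam)) ((∑ r, |lam r|) ^ 2)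
    (mul_nonneg (by positivity) hf) (sq_nonneg _) (by
      intro s hs hsW
      have h1 := pre_sum_dvd (fun p hp => (hP p hp).1) N W v hW (fun p hp => (hP p hp).2.2) h hh lam
        s (fun p hp => ⟨(Nat.mem_primesLE.1 (hs hp)).2, hsW p hp,
          notMem_of_lt (fun p hp => (hP p hp).2.1) (hs hp)⟩) p₀ i₀
      rw [Finset.filter_filter]
      have h2 : (N:ℝ) / (W * (p₀:ℕ)) * formK (fun p => (p:ℝ)) (lamp p₀ i₀ lam) *
          ∏ p ∈ s, (nuI h p : ℝ) / p =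
        (N:ℝ) / (W * (p₀:ℕ)) * (∏ p ∈ s, (nuI h p : ℝ) / p) *
          formK (fun p => (p:ℝ)) (lamp p₀ i₀ lam) := by ring
      rw [h2]
      simpa only [and_assoc] using h1)
  rw [Finset.filter_filter] at key
  have h3 : (Finset.Ioc N (2*N)).filter (fun n => n ≡ v [MOD W] ∧ Avoid z W h n ∧
        (p₀:ℕ) ∣ n + h i₀) = (Finset.Ioc N (2*N)).filter (fun n => (n ≡ v [MOD W] ∧
        (p₀:ℕ) ∣ n + h i₀) ∧ Avoid z W h n) := by
    apply Finset.filter_congr
    intro n _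
    tauto
  rw [h3]
  refine key.trans (le_of_eq ?_)
  ring

theorem s1_pre_ext (k : ℕ) {ε : ℝ} (hε : 0 < ε) : ∃ K : ℕ, ∀ (z N W v : ℕ) (P : Finset ℕ), 1 ≤ W →
    (∀ p ∈ P, p.Prime ∧ z < p ∧ ¬ p ∣ W) → ∀ h : Fin k → ℕ,
    (∀ p ∈ P, ∀ i j, i ≠ j → ¬ h i ≡ h j [MOD p]) → ∀ lam : Asg P k → ℝ,
    0 ≤ formK (fun p => (p:ℝ)) lam → ∀ q₀ : ℕ, q₀.Prime → z < q₀ → ¬ q₀ ∣ W → q₀ ∉ P →
    ∀ i₀ : Fin k,
    ∑ n ∈ (Finset.Ioc N (2*N)).filter (fun n => n ≡ v [MOD W] ∧ Avoid z W h n ∧ q₀ ∣ n + h i₀),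
        wn h lam n ≤
      (1 + ε) * ((N:ℝ) / (W * q₀)) * GG z W h * formK (fun p => (p:ℝ)) lam +
        ((z:ℝ) + 1) ^ K * (∑ r, |lam r|) ^ 2 := by
  obtain ⟨K, hK⟩ := s1_pre k hε
  refine ⟨K, ?_⟩
  intro z N W v P hW hP h hh lam hf q₀ hq hzq hqW hqP i₀
  have hcop : Nat.Coprime W q₀ := ((Nat.Prime.coprime_iff_not_dvd hq).2 hqW).symm
  obtain ⟨v', hv1, hv2⟩ := Nat.chineseRemainder hcop v ((q₀ - 1) * h i₀)
  have key := hK z N (W * q₀) v' P (by nlinarith [hq.pos]) (by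
    intro p hp
    refine ⟨(hP p hp).1, (hP p hp).2.1, ?_⟩
    intro hd
    rcases ((hP p hp).1.dvd_mul).1 hd with h1 | h1
    · exact (hP p hp).2.2 h1
    · have : p = q₀ := (Nat.prime_dvd_prime_iff_eq (hP p hp).1 hq).1 h1
      exact hqP (this ▸ hp)) h hh lam hf
  have hdvd : ∀ p : ℕ, p.Prime → p ≤ z → (p ∣ W * q₀ ↔ p ∣ W) := by
    intro p hp hpz
    constructor
    · intro hd
      rcases (hp.dvd_mul).1 hd with h1 | h1
      · exact h1
      · have : p = q₀ := (Nat.prime_dvd_prime_iff_eq hp hq).1 h1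
        omega
    · intro hd
      exact hd.mul_right _
  have hAv : ∀ n, Avoid z (W * q₀) h n ↔ Avoid z W h n := by
    intro n
    unfold Avoid
    constructor
    · intro H p hp hpz hpW
      exact H p hp hpz (fun hd => hpW ((hdvd p hp hpz).1 hd))
    · intro H p hp hpz hpW
      exact H p hp hpz (fun hd => hpW ((hdvd p hp hpz).2 hd))
  have hGG : GG z (W * q₀) h = GG z W h := by
    unfold GG
    congr 1
    apply Finset.filter_congr
    intro p hp
    rw [hdvd p (Nat.mem_primesLE.1 hp).2 (Nat.mem_primesLE.1 hp).1]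
  have hset : (Finset.Ioc N (2*N)).filter (fun n => n ≡ v [MOD W] ∧ Avoid z W h n ∧
      q₀ ∣ n + h i₀) = (Finset.Ioc N (2*N)).filter
        (fun n => n ≡ v' [MOD (W * q₀)] ∧ Avoid z (W * q₀) h n) := by
    apply Finset.filter_congr
    intro n _
    rw [hAv, Hits.dvd_iff q₀ n (h i₀) hq.pos, ← Nat.modEq_and_modEq_iff_modEq_mul hcop]
    constructor
    · rintro ⟨h1, h2, h3⟩
      exact ⟨⟨h1.trans hv1.symm, h3.trans hv2.symm⟩, h2⟩
    · rintro ⟨⟨h1, h3⟩, h2⟩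
      exact ⟨h1.trans hv1, h2, h3.trans hv2⟩
  rw [hset]
  rw [hGG] at key
  push_cast at key
  exact key

end Pool.Agent.Lib.MP
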