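import Pool.Agent.Lib.MP.Defs

/-!
# Adding one shift

PROOF SKETCH. p ∤ primorial D iff p > D (p prime). (GG_snoc) For D < p ≤ z let ν = nuI h p ≤ k < p. If b
is congruent to some h i modulo p (iff p ∣ dist (h i) b), nuI of the longer tuple is ν and
1 - ν/p ≤ (1 - ν/p)(1 - 1/p) ∏_i (factor (1-1/p)⁻¹ if p ∣ dist (h i) b). Otherwise it is ν + 1 and
1 - (ν+1)/p ≤ (1 - ν/p)(1 - 1/p). Multiply; ∏_{D < p ≤ z} (1 - 1/p) = DZ z/DZ D.
(GG_lower) nuI ≤ k and 1 - k/p ≥ (1 - 1/p)^k (1 - 2k²/p²)... for p > D ≥ 2k: precisely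
(1 - k/p) ≥ (1 - 1/p)^k - k²/p² and (1-1/p)^k ≥ 1/4 or so; the product over p of 1 - 4k²/p² over
p > 4k² is ≥ a positive constant, the finitely many p ≤ 4k² contribute a constant ((1 - k/p) ≥ 1/2 for
p ≥ 2k). Finally ∏_{D < p ≤ z} (1-1/p)^k ≥ (DZ z)^k.
-/

open Finset
open scoped Classical

namespace Pool.Agent.Lib.MP

open Pool.Agent.Lib.MT Pool.Agent.HLB

namespace RatioAux

lemma nuI_le_p {k : ℕ} (h : Fin k → ℕ) {p : ℕ} (hp : p.Prime) : nuI h p ≤ p := by
  have : NeZero p := ⟨hp.ne_zero⟩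
  unfold nuI
  calc _ ≤ (Finset.univ : Finset (ZMod p)).card := Finset.card_le_card (Finset.subset_univ _)
    _ = p := by rw [Finset.card_univ, ZMod.card]

lemma nuI_le_k {k : ℕ} (h : Fin k → ℕ) (p : ℕ) : nuI h p ≤ k := by
  unfold nuI
  calc _ ≤ (Finset.univ : Finset (Fin k)).card := Finset.card_image_le
    _ = k := by simp

lemma fac_nonneg {k : ℕ} (h : Fin k → ℕ) {p : ℕ} (hp : p.Prime) :
    0 ≤ 1 - (nuI h p : ℝ) / p := by
  have h1 : (nuI h p : ℝ) ≤ p := by exact_mod_cast nuI_le_p h hp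
  have h2 : (0:ℝ) < p := by exact_mod_cast hp.pos
  rw [sub_nonneg, div_le_one h2]
  exact h1

lemma fac_le_one {k : ℕ} (h : Fin k → ℕ) (p : ℕ) : 1 - (nuI h p : ℝ) / p ≤ 1 := by
  have : 0 ≤ (nuI h p : ℝ) / p := by positivity
  linarith

/-- the range of primes -/
lemma filt_eq (z D : ℕ) : (Nat.primesLE z).filter (fun p => ¬ p ∣ primorial D) =
    (Nat.primesLE z).filter (fun p => D < p) := by
  refine Finset.filter_congr fun p hp => ?_
  have hp' := (Nat.mem_primesLE.1 hp).2
  constructor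
  · intro h
    by_contra h1
    exact h (hp'.dvd_primorial.trans (primorial_dvd_primorial (not_lt.1 h1)))
  · intro h h1
    have := hp'.dvd_primorial_iff.1 h1
    omega

/-- Bonferroni: `(1-x)^k ≤ 1 - kx + k²x²/2`. -/
lemma bonf (k : ℕ) {x : ℝ} (h0 : 0 ≤ x) (h1 : x ≤ 1) :
    (1 - x) ^ k ≤ 1 - k * x + (k:ℝ) ^ 2 * x ^ 2 / 2 := by
  induction k with
  | zero => simp
  | succ k ih =>
    have h2 : 0 ≤ 1 - x := by linarith
    have h3 : (1 - x) ^ (k + 1) ≤ (1 - k * x + (k:ℝ) ^ 2 * x ^ 2 / 2) * (1 - x) := by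
      rw [pow_succ]
      exact mul_le_mul_of_nonneg_right ih h2
    have h4 : 0 ≤ (k:ℝ) ^ 2 * x ^ 3 := by positivity
    have h5 : 0 ≤ x ^ 2 := by positivity
    push_cast
    nlinarith [h3, h4, h5]

end RatioAux

open RatioAux
open Pool.Agent.HL (one_sub_inv_pos)

theorem GG_snoc (k D z : ℕ) (hD : k + 1 ≤ D) (hz : D ≤ z) (h : Fin k → ℕ) (b : ℕ) :
    GG z (primorial D) (Fin.snoc (α := fun _ => ℕ) h b) ≤
      GG z (primorial D) h * (DZ z / DZ D) * ∏ i, ggd z D (Nat.dist (h i) b) := by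
  have hDZ : DZ z = DZ D * ∏ p ∈ (Nat.primesLE z).filter (fun p => D < p), (1 - 1 / (p:ℝ)) := by
    unfold DZ
    rw [← Finset.prod_filter_mul_prod_filter_not (Nat.primesLE z) (fun p => D < p), mul_comm]
    congr 1
    refine Finset.prod_congr ?_ fun _ _ => rfl
    ext p
    simp only [Finset.mem_filter, Nat.mem_primesLE]
    constructor
    · rintro ⟨⟨h1, h2⟩, h3⟩
      exact ⟨by omega, h2⟩
    · rintro ⟨h1, h2⟩
      exact ⟨⟨by omega, h2⟩, by omega⟩
  have hDZ' : DZ z / DZ D = ∏ p ∈ (Nat.primesLE z).filter (fun p => D < p), (1 - 1 / (p:ℝ)) := by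
    rw [hDZ, mul_div_cancel_left₀ _ (DZ_pos D).ne']
  have hgg : ∏ i, ggd z D (Nat.dist (h i) b) =
      ∏ p ∈ (Nat.primesLE z).filter (fun p => D < p), ∏ i,
        (if p ∣ Nat.dist (h i) b then (1 - 1 / (p:ℝ))⁻¹ else 1) := by
    rw [Finset.prod_comm]
    refine Finset.prod_congr rfl fun i _ => ?_
    unfold ggd
    rw [← Finset.prod_filter, Finset.filter_filter]
  unfold GG
  rw [filt_eq, hDZ', hgg, ← Finset.prod_mul_distrib, ← Finset.prod_mul_distrib]
  refine Finset.prod_le_prod (fun p hp => ?_) fun p hp => ?_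
  · exact fac_nonneg _ (Nat.mem_primesLE.1 (Finset.mem_filter.1 hp).1).2
  · obtain ⟨hp1, hDp⟩ := Finset.mem_filter.1 hp
    have hpp := (Nat.mem_primesLE.1 hp1).2
    have hp0 : (0:ℝ) < p := by exact_mod_cast hpp.pos
    have hp1' : (1:ℝ) < p := by exact_mod_cast hpp.one_lt
    have hq : 0 < 1 - 1 / (p:ℝ) := by
      rw [sub_pos, div_lt_one hp0]
      exact hp1'
    have hq1 : 1 ≤ (1 - 1 / (p:ℝ))⁻¹ := by
      apply (one_le_inv₀ hq).2
      have : 0 ≤ 1 / (p:ℝ) := by positivity
      linarith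
    have hf := fac_nonneg h hpp
    have hset : nuI (Fin.snoc (α := fun _ => ℕ) h b) p =
        (insert ((b : ℕ) : ZMod p) (univ.image (fun i => ((h i : ℕ) : ZMod p)))).card := by
      unfold nuI
      congr 1
      ext x
      simp only [Finset.mem_image, Finset.mem_univ, true_and, Finset.mem_insert]
      constructor
      · rintro ⟨i, rfl⟩
        refine Fin.lastCases ?_ (fun i => ?_) i
        · left; simp
        · right; exact ⟨i, by simp⟩
      · rintro (rfl | ⟨i, rfl⟩)
        · exact ⟨Fin.last k, by simp⟩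
        · exact ⟨Fin.castSucc i, by simp⟩
    have hdvd : ∀ i, ((h i : ℕ) : ZMod p) = ((b : ℕ) : ZMod p) ↔ p ∣ Nat.dist (h i) b := by
      intro i
      rw [ZMod.natCast_eq_natCast_iff]
      rcases le_total (h i) b with hle | hle
      · rw [Nat.dist_eq_sub_of_le hle, Nat.modEq_iff_dvd' hle]
      · rw [Nat.dist_eq_sub_of_le_right hle, Nat.ModEq.comm, Nat.modEq_iff_dvd' hle]
    by_cases hex : ∃ i, p ∣ Nat.dist (h i) b
    · obtain ⟨i0, hi0⟩ := hex
      have hν : nuI (Fin.snoc (α := fun _ => ℕ) h b) p = nuI h p := by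
        rw [hset, Finset.insert_eq_of_mem]
        · rfl
        · exact Finset.mem_image.2 ⟨i0, Finset.mem_univ _, (hdvd i0).2 hi0⟩
      rw [hν]
      have hprod : (1 - 1 / (p:ℝ))⁻¹ ≤
          ∏ i, (if p ∣ Nat.dist (h i) b then (1 - 1 / (p:ℝ))⁻¹ else 1) := by
        rw [← Finset.mul_prod_erase _ _ (Finset.mem_univ i0), if_pos hi0]
        have : 1 ≤ ∏ i ∈ Finset.univ.erase i0,
            (if p ∣ Nat.dist (h i) b then (1 - 1 / (p:ℝ))⁻¹ else 1) := by
          refine le_of_eq_of_le (Finset.prod_const_one (s := Finset.univ.erase i0)).symm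
            (Finset.prod_le_prod (fun _ _ => zero_le_one) fun i _ => ?_)
          split_ifs
          · exact hq1
          · exact le_rfl
        exact le_mul_of_one_le_right (inv_pos.2 hq).le this
      calc 1 - (nuI h p : ℝ) / p
          = (1 - (nuI h p : ℝ) / p) * (1 - 1 / (p:ℝ)) * (1 - 1 / (p:ℝ))⁻¹ := by
            rw [mul_assoc, mul_inv_cancel₀ hq.ne', mul_one]
        _ ≤ _ := mul_le_mul_of_nonneg_left hprod (mul_nonneg hf hq.le)
    · push Not at hex
      have hν : nuI (Fin.snoc (α := fun _ => ℕ) h b) p = nuI h p + 1 := by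
        rw [hset, Finset.card_insert_of_notMem]
        · rfl
        · intro hmem
          obtain ⟨i, -, hi⟩ := Finset.mem_image.1 hmem
          exact hex i ((hdvd i).1 hi)
      have hone : ∏ i, (if p ∣ Nat.dist (h i) b then (1 - 1 / (p:ℝ))⁻¹ else 1) = 1 :=
        Finset.prod_eq_one fun i _ => if_neg (hex i)
      rw [hν, hone, mul_one]
      push_cast
      have : 0 ≤ (nuI h p : ℝ) / p * (1 / p) := by positivity
      have e : ((nuI h p : ℝ) + 1) / p = (nuI h p : ℝ) / p + 1 / p := by ring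
      rw [e]
      nlinarith

theorem GG_lower (k : ℕ) : ∃ c : ℝ, 0 < c ∧ ∀ D z : ℕ, 2 * k ≤ D → D ≤ z → ∀ h : Fin k → ℕ,
    c * (DZ z) ^ k ≤ GG z (primorial D) h := by
  refine ⟨Real.exp (-(4 * (k:ℝ) ^ 2)), Real.exp_pos _, fun D z hD hz h => ?_⟩
  have h1 : DZ z ≤ ∏ p ∈ (Nat.primesLE z).filter (fun p => D < p), (1 - 1 / (p:ℝ)) := by
    unfold DZ
    rw [← Finset.prod_filter_mul_prod_filter_not (Nat.primesLE z) (fun p => D < p)]
    refine mul_le_of_le_one_right ?_ ?_
    · exact Finset.prod_nonneg fun p hp =>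
        (one_sub_inv_pos (Nat.mem_primesLE.1 (Finset.mem_filter.1 hp).1).2).le
    · refine Finset.prod_le_one (fun p hp =>
        (one_sub_inv_pos (Nat.mem_primesLE.1 (Finset.mem_filter.1 hp).1).2).le) fun p _ => ?_
      have : 0 ≤ 1 / (p:ℝ) := by positivity
      linarith
  have h2 : (DZ z) ^ k ≤
      ∏ p ∈ (Nat.primesLE z).filter (fun p => D < p), (1 - 1 / (p:ℝ)) ^ k := by
    rw [Finset.prod_pow]
    exact pow_le_pow_left₀ (DZ_pos z).le h1 k
  have h3 : Real.exp (-(4 * (k:ℝ) ^ 2)) ≤ ∏ p ∈ (Nat.primesLE z).filter (fun p => D < p),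
      Real.exp (-(2 * (k:ℝ) ^ 2 * (1 / (p:ℝ) ^ 2))) := by
    rw [← Real.exp_sum, Real.exp_le_exp, Finset.sum_neg_distrib, neg_le_neg_iff, ← Finset.mul_sum]
    have h4 : ∑ p ∈ (Nat.primesLE z).filter (fun p => D < p), 1 / (p:ℝ) ^ 2 ≤ 2 := by
      calc ∑ p ∈ (Nat.primesLE z).filter (fun p => D < p), 1 / (p:ℝ) ^ 2
          ≤ ∑ n ∈ Finset.Icc 1 z, 1 / (n:ℝ) ^ 2 := by
            refine Finset.sum_le_sum_of_subset_of_nonneg ?_ fun _ _ _ => by positivity
            intro p hp
            obtain ⟨hp1, -⟩ := Finset.mem_filter.1 hp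
            obtain ⟨hp2, hp3⟩ := Nat.mem_primesLE.1 hp1
            exact Finset.mem_Icc.2 ⟨hp3.one_lt.le, hp2⟩
        _ ≤ 2 := by
            have key : ∀ n : ℕ, 1 ≤ n → ∑ m ∈ Finset.Icc 1 n, 1 / (m:ℝ) ^ 2 ≤ 2 - 1 / (n:ℝ) := by
              intro n hn
              induction n, hn using Nat.le_induction with
              | base => simp; norm_num
              | succ n hn ih =>
                rw [Finset.sum_Icc_succ_top (by omega)]
                have hn0 : (0:ℝ) < n := by exact_mod_cast hn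
                have : 1 / ((n + 1 : ℕ) : ℝ) ^ 2 ≤ 1 / n - 1 / ((n + 1 : ℕ) : ℝ) := by
                  push_cast
                  rw [div_sub_div _ _ hn0.ne' (by positivity), div_le_div_iff₀ (by positivity)
                    (by positivity)]
                  nlinarith
                linarith
            rcases Nat.eq_zero_or_pos z with rfl | hz
            · simp
            · have := key z hz
              have h5 : 0 ≤ 1 / (z:ℝ) := by positivity
              linarith
    have : 0 ≤ 2 * (k:ℝ) ^ 2 := by positivity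
    nlinarith
  unfold GG
  rw [filt_eq]
  calc Real.exp (-(4 * (k:ℝ) ^ 2)) * (DZ z) ^ k
      ≤ (∏ p ∈ (Nat.primesLE z).filter (fun p => D < p),
          Real.exp (-(2 * (k:ℝ) ^ 2 * (1 / (p:ℝ) ^ 2)))) *
        ∏ p ∈ (Nat.primesLE z).filter (fun p => D < p), (1 - 1 / (p:ℝ)) ^ k :=
        mul_le_mul h3 h2 (pow_nonneg (DZ_pos z).le _)
          (Finset.prod_nonneg fun _ _ => (Real.exp_pos _).le)
    _ = ∏ p ∈ (Nat.primesLE z).filter (fun p => D < p),
          (Real.exp (-(2 * (k:ℝ) ^ 2 * (1 / (p:ℝ) ^ 2))) * (1 - 1 / (p:ℝ)) ^ k) := by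
        rw [Finset.prod_mul_distrib]
    _ ≤ _ := by
        refine Finset.prod_le_prod (fun p hp => ?_) fun p hp => ?_
        · have hpp := (Nat.mem_primesLE.1 (Finset.mem_filter.1 hp).1).2
          exact mul_nonneg (Real.exp_pos _).le (pow_nonneg (one_sub_inv_pos hpp).le _)
        · obtain ⟨hp1, hDp⟩ := Finset.mem_filter.1 hp
          have hpp := (Nat.mem_primesLE.1 hp1).2
          have hp0 : (0:ℝ) < p := by exact_mod_cast hpp.pos
          set x : ℝ := 1 / (p:ℝ) with hx
          have hx0 : 0 < x := by positivity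
          have hkx : (k:ℝ) * x ≤ 1 / 2 := by
            have : 2 * (k:ℝ) ≤ p := by exact_mod_cast (by omega : 2 * k ≤ p)
            rw [hx, mul_one_div, div_le_div_iff₀ hp0 (by norm_num)]
            linarith
          have hx1 : x ≤ 1 := by
            rw [hx, div_le_one hp0]
            exact_mod_cast hpp.one_lt.le
          have hb := bonf k hx0.le hx1
          have hbern : 1 - (k:ℝ) * x ≤ (1 - x) ^ k := by
            have := one_add_mul_le_pow (a := -x) (by linarith) k
            have e : 1 + (k:ℝ) * -x = 1 - k * x := by ring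
            rw [e, ← sub_eq_add_neg] at this
            exact this
          have hhalf : 1 / 2 ≤ (1 - x) ^ k := by linarith
          have hν : (nuI h p : ℝ) / p ≤ k * x := by
            rw [hx, mul_one_div]
            have : (nuI h p : ℝ) ≤ k := by exact_mod_cast nuI_le_k h p
            gcongr
          -- `exp (-2 k²x²) ≤ 1 - k²x²`
          set y : ℝ := (k:ℝ) ^ 2 * x ^ 2 with hy
          have hy0 : 0 ≤ y := by positivity
          have hy1 : y ≤ 1 / 4 := by
            have : y = (k * x) ^ 2 := by rw [hy]; ring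
            rw [this]
            nlinarith [mul_nonneg (Nat.cast_nonneg k : (0:ℝ) ≤ k) hx0.le]
          have hexp : Real.exp (-(2 * y)) ≤ 1 - y := by
            have h6 : 1 + 2 * y ≤ Real.exp (2 * y) := by
              have := Real.add_one_le_exp (2 * y)
              linarith
            rw [Real.exp_neg, inv_le_comm₀ (Real.exp_pos _) (by linarith)]
            refine le_trans ?_ h6
            rw [inv_le_iff_one_le_mul₀ (by linarith)]
            nlinarith
          have hxe : 2 * (k:ℝ) ^ 2 * (1 / (p:ℝ) ^ 2) = 2 * y := by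
            rw [hy, hx]; ring
          rw [hxe]
          calc Real.exp (-(2 * y)) * (1 - x) ^ k ≤ (1 - y) * (1 - x) ^ k :=
                mul_le_mul_of_nonneg_right hexp (by linarith)
            _ ≤ 1 - k * x := by nlinarith
            _ ≤ _ := by linarith

theorem GG_le_one {k : ℕ} (z W : ℕ) (h : Fin k → ℕ) : 0 ≤ GG z W h ∧ GG z W h ≤ 1 := by
  unfold GG
  constructor
  · exact Finset.prod_nonneg fun p hp =>
      fac_nonneg h (Nat.mem_primesLE.1 (Finset.mem_filter.1 hp).1).2
  · exact Finset.prod_le_one (fun p hp =>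
      fac_nonneg h (Nat.mem_primesLE.1 (Finset.mem_filter.1 hp).1).2) fun p _ => fac_le_one h p

end Pool.Agent.Lib.MP
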