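import Pool.Agent.Lib.MP.Defs
import Pool.Agent.Lib.MT.RoughForm

/-!
# The form seen by integers with p₀ dividing n + h i₀, abstract version

PROOF SKETCH. The proof of MT.rough_form (Pool/Agent/Lib/MT/RoughForm.lean) with sum1_upper replaced
by H.win (u = M ≤ R, u' = M/p₀), dens W by ν, 1 + log W by ℓ.
-/

open Finset
open scoped Classical

namespace Pool.Agent.Lib.MP

open Pool.Agent.Lib.MT

namespace RoughFormAux

open Pool.Agent.Lib.MT.RoughFormAux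

variable {C ν ℓ : ℝ} {P : Finset ℕ} {R : ℕ}

theorem p_one_le (H : PD C P R ν ℓ) {p : ℕ} (hp : p ∈ P) : 1 ≤ p := (H.prime p hp).one_lt.le

theorem p_two_le (H : PD C P R ν ℓ) {p : ℕ} (hp : p ∈ P) : 2 ≤ p := (H.prime p hp).two_le

theorem sum_II_le' (hC : 1 ≤ C) (H : PD C P R ν ℓ) (ρ J D : ℕ) (p₀ : ℕ) (hρ : 1 ≤ ρ) (hD : 1 ≤ D)
    (hp : 1 ≤ p₀) (hR : ρ ^ (2 ^ J) ≤ R) :
    ∑ A ∈ P.powerset, (∑ l ∈ Finset.range (J+1), wst J l * II ρ R p₀ D l (∏ p ∈ A, p)) *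
      ∏ p ∈ A, κ₂ p ≤ C * ν * (Real.log p₀ + ℓ) := by
  have hp0 : (0:ℝ) < p₀ := by exact_mod_cast hp
  have hp1 : (1:ℝ) ≤ p₀ := by exact_mod_cast hp
  have hlogp : 0 ≤ Real.log p₀ := Real.log_natCast_nonneg p₀
  have hℓ := H.ℓge
  have hν := H.νpos
  have hbound0 : 0 ≤ C * ν * (Real.log p₀ + ℓ) := by
    have h1 : 0 ≤ C * ν := mul_nonneg (by linarith) hν.le
    exact mul_nonneg h1 (by linarith)
  have hl : ∀ l ∈ Finset.range (J+1), ∑ A ∈ P.powerset,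
      II ρ R p₀ D l (∏ p ∈ A, p) * ∏ p ∈ A, κ₂ p ≤ C * ν * (Real.log p₀ + ℓ) := by
    intro l hl
    rw [Finset.mem_range] at hl
    set M := min ((ρ:ℝ) ^ (2 ^ l)) ((R:ℝ) / D) with hM
    have hMR : M ≤ R := by
      refine (min_le_left _ _).trans ?_
      have h1 : ρ ^ (2 ^ l) ≤ ρ ^ (2 ^ J) :=
        Nat.pow_le_pow_right hρ (Nat.pow_le_pow_right (by norm_num) (by omega))
      exact_mod_cast h1.trans hR
    by_cases hM1 : 1 ≤ M
    · have h := H.win (M / p₀) M (by positivity) (div_le_self (by linarith) hp1) hM1 hMR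
      have e : M / (M / p₀) = p₀ := by
        have : M ≠ 0 := by linarith
        field_simp
      rw [e] at h
      refine le_trans (le_of_eq ?_) h
      unfold sum1
      refine Finset.sum_congr rfl fun A _ => ?_
      rw [II_eq ρ R p₀ D l _ hp hD, ← hM]
    · refine le_trans (le_of_eq ?_) hbound0
      refine Finset.sum_eq_zero fun A hA => ?_
      rw [II_eq ρ R p₀ D l _ hp hD, ← hM, if_neg, zero_mul]
      rintro ⟨_, h2⟩
      have h3 : 1 ≤ ∏ p ∈ A, p := prod_one_le fun p hp' =>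
        p_one_le H (Finset.mem_powerset.1 hA hp')
      have h4 : (1:ℝ) ≤ ((∏ p ∈ A, p : ℕ) : ℝ) := by exact_mod_cast h3
      linarith
  calc ∑ A ∈ P.powerset, (∑ l ∈ Finset.range (J+1), wst J l * II ρ R p₀ D l (∏ p ∈ A, p)) *
      ∏ p ∈ A, κ₂ p
      = ∑ l ∈ Finset.range (J+1), wst J l * ∑ A ∈ P.powerset,
          II ρ R p₀ D l (∏ p ∈ A, p) * ∏ p ∈ A, κ₂ p := by
        simp_rw [Finset.sum_mul, Finset.mul_sum]
        rw [Finset.sum_comm]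
        refine Finset.sum_congr rfl fun l _ => Finset.sum_congr rfl fun A _ => ?_
        ring
    _ ≤ ∑ l ∈ Finset.range (J+1), wst J l * (C * ν * (Real.log p₀ + ℓ)) :=
        Finset.sum_le_sum fun l hl' => mul_le_mul_of_nonneg_left (hl l hl') (wst_nonneg _ _)
    _ = C * ν * (Real.log p₀ + ℓ) := by
        rw [← Finset.sum_mul, sum_wst, one_mul]

theorem sum_Fu_le' (hC : 1 ≤ C) (H : PD C P R ν ℓ) (n ρ J : ℕ) (p₀ : ℕ) (i₀ : Fin (n + 1))
    (hρ : 1 ≤ ρ) (hp : 1 ≤ p₀) (hR : ρ ^ (2 ^ J) ≤ R) :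
    ∑ r : Asg P (n + 1), Fu ρ R J p₀ n i₀ (part r) ≤
      C * ν * (Real.log p₀ + ℓ) * (sum1 P κ₂ (fun a => (gst ρ J a) ^ 2)) ^ n := by
  refine (sum_asg_le (P := P) (Fu ρ R J p₀ n i₀)
    (fun T _ => Fu_nonneg ρ R J p₀ n i₀ T)).trans ?_
  rw [sum_pi_insertNth n _ i₀]
  have hstep : ∀ T' ∈ Fintype.piFinset (fun _ : Fin n => P.powerset),
      ∑ A ∈ P.powerset, Fu ρ R J p₀ n i₀ (i₀.insertNth (α := fun _ => Finset ℕ) A T')
      ≤ (∏ j : Fin n, ((gst ρ J (∏ p ∈ T' j, p)) ^ 2 * ∏ p ∈ T' j, κ₂ p)) *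
        (C * ν * (Real.log p₀ + ℓ)) := by
    intro T' hT'
    rw [Fintype.mem_piFinset] at hT'
    have hD : 1 ≤ ∏ j : Fin n, ∏ p ∈ T' j, p := prod_one_le fun j _ =>
      prod_one_le fun p hp' => p_one_le H (Finset.mem_powerset.1 (hT' j) hp')
    have h := sum_II_le' hC H ρ J (∏ j : Fin n, ∏ p ∈ T' j, p) p₀ hρ hD hp hR
    have e : ∀ A, Fu ρ R J p₀ n i₀ (i₀.insertNth (α := fun _ => Finset ℕ) A T')
        = (∏ j : Fin n, ((gst ρ J (∏ p ∈ T' j, p)) ^ 2 * ∏ p ∈ T' j, κ₂ p)) *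
          ((∑ l ∈ Finset.range (J+1), wst J l *
            II ρ R p₀ (∏ j : Fin n, ∏ p ∈ T' j, p) l (∏ p ∈ A, p)) * ∏ p ∈ A, κ₂ p) := by
      intro A
      unfold Fu
      simp only [Fin.insertNth_apply_succAbove, Fin.insertNth_apply_same]
    simp_rw [e]
    rw [← Finset.mul_sum]
    refine mul_le_mul_of_nonneg_left h (Finset.prod_nonneg fun j _ => mul_nonneg (sq_nonneg _)
      (Finset.prod_nonneg fun p _ => kappa2_nonneg p))
  refine (Finset.sum_le_sum hstep).trans ?_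
  rw [← Finset.sum_mul, prod_sum1 (P := P) κ₂ (fun _ : Fin n => fun a => (gst ρ J a) ^ 2)]
  rw [Finset.prod_const, Finset.card_univ, Fintype.card_fin, mul_comm]

theorem u_sq_le' (H : PD C P R ν ℓ) {n ρ J : ℕ} (p₀ : P) (i₀ : Fin (n + 1)) (r : Asg P (n + 1))
    (h : r p₀ = none) :
    (yOf (gst ρ J) R r - yOf (gst ρ J) R (Function.update r p₀ (some i₀))) ^ 2 * wt κ₂ r
      ≤ Fu ρ R J p₀ n i₀ (part r) := by
  have hp0 : 1 ≤ (p₀ : ℕ) := p_one_le H p₀.2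
  set D := ∏ j : Fin n, dd r (i₀.succAbove j) with hD
  set G := ∏ j : Fin n, gst ρ J (dd r (i₀.succAbove j)) with hG
  have e1 : yOf (gst ρ J) R r = G * (if dd r i₀ * D ≤ R then gst ρ J (dd r i₀) else 0) := by
    unfold yOf
    rw [dtot_eq, Fin.prod_univ_succAbove _ i₀, ← hD, Fin.prod_univ_succAbove _ i₀, ← hG]
    split_ifs
    · ring
    · ring
  have e2 : yOf (gst ρ J) R (Function.update r p₀ (some i₀))
      = G * (if p₀ * dd r i₀ * D ≤ R then gst ρ J (p₀ * dd r i₀) else 0) := by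
    unfold yOf
    rw [dtot_eq, Fin.prod_univ_succAbove _ i₀, Fin.prod_univ_succAbove _ i₀,
      dd_update_self r p₀ h]
    have e3 : ∏ j : Fin n, dd (Function.update r p₀ (some i₀)) (i₀.succAbove j) = D := by
      refine Finset.prod_congr rfl fun j _ => ?_
      exact dd_update_ne r p₀ h i₀ _ (Fin.succAbove_ne i₀ j)
    have e4 : ∏ j : Fin n, gst ρ J (dd (Function.update r p₀ (some i₀)) (i₀.succAbove j)) = G := by
      refine Finset.prod_congr rfl fun j _ => ?_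
      rw [dd_update_ne r p₀ h i₀ _ (Fin.succAbove_ne i₀ j)]
    rw [e3, e4]
    split_ifs
    · ring
    · ring
  rw [e1, e2, ← mul_sub, gh_sub ρ R p₀ D J (dd r i₀) hp0, mul_pow, wt_eq,
    Fin.prod_univ_succAbove _ i₀]
  have hs := sum_II_sq_le ρ R p₀ D J (dd r i₀)
  have hκ : 0 ≤ ∏ p ∈ part r i₀, κ₂ p := Finset.prod_nonneg fun p _ => kappa2_nonneg p
  have hκ' : 0 ≤ ∏ j : Fin n, ∏ p ∈ part r (i₀.succAbove j), κ₂ p :=
    Finset.prod_nonneg fun j _ => Finset.prod_nonneg fun p _ => kappa2_nonneg p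
  have hFu : Fu ρ R J p₀ n i₀ (part r) = (G ^ 2 * ∏ j : Fin n, ∏ p ∈ part r (i₀.succAbove j), κ₂ p) *
      ((∑ l ∈ Finset.range (J+1), wst J l * II ρ R p₀ D l (dd r i₀)) *
        ∏ p ∈ part r i₀, κ₂ p) := by
    unfold Fu
    rw [Finset.prod_mul_distrib, Finset.prod_pow]
    rfl
  rw [hFu]
  calc G ^ 2 * (∑ l ∈ Finset.range (J+1), wst J l * II ρ R p₀ D l (dd r i₀)) ^ 2 *
      ((∏ p ∈ part r i₀, κ₂ p) * ∏ j : Fin n, ∏ p ∈ part r (i₀.succAbove j), κ₂ p)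
      = (G ^ 2 * ∏ j : Fin n, ∏ p ∈ part r (i₀.succAbove j), κ₂ p) *
        ((∑ l ∈ Finset.range (J+1), wst J l * II ρ R p₀ D l (dd r i₀)) ^ 2 *
          ∏ p ∈ part r i₀, κ₂ p) := by ring
    _ ≤ _ := mul_le_mul_of_nonneg_left (mul_le_mul_of_nonneg_right hs hκ)
        (mul_nonneg (sq_nonneg _) hκ')

theorem yOf_nonneg' {ρ J k : ℕ} (r : Asg P k) : 0 ≤ yOf (gst ρ J) R r := by
  unfold yOf
  split_ifs
  · exact Finset.prod_nonneg fun i _ => gst_nonneg _ _ _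
  · exact le_refl _

theorem yOf_update_le' (H : PD C P R ν ℓ) {ρ J k : ℕ} (p₀ : P) (r : Asg P k) (h : r p₀ = none)
    (b : Option (Fin k)) :
    yOf (gst ρ J) R (Function.update r p₀ b) ≤ ∏ i, gst ρ J (dd r i) := by
  unfold yOf
  split_ifs
  · refine Finset.prod_le_prod (fun i _ => gst_nonneg _ _ _) fun i _ => ?_
    exact gst_antitone ρ J (dd_le_update (fun p hp => p_one_le H hp) r p₀ h b i)
  · exact Finset.prod_nonneg fun i _ => gst_nonneg _ _ _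

theorem v_sq_le' (H : PD C P R ν ℓ) {ρ J k : ℕ} (p₀ : P) (i₀ : Fin k) (r : Asg P k)
    (h : r p₀ = none) :
    (κ₁ p₀ * ∑ j ∈ Finset.univ.erase i₀, yOf (gst ρ J) R (Function.update r p₀ (some j))) ^ 2
      ≤ (k * κ₁ p₀) ^ 2 * ∏ i, (gst ρ J (dd r i)) ^ 2 := by
  have hκ := kappa1_nonneg (p_one_le H p₀.2)
  have h0 : 0 ≤ ∑ j ∈ Finset.univ.erase i₀, yOf (gst ρ J) R (Function.update r p₀ (some j)) :=
    Finset.sum_nonneg fun j _ => yOf_nonneg' _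
  have hG : 0 ≤ ∏ i, gst ρ J (dd r i) := Finset.prod_nonneg fun i _ => gst_nonneg _ _ _
  have h1 : ∑ j ∈ Finset.univ.erase i₀, yOf (gst ρ J) R (Function.update r p₀ (some j))
      ≤ k * ∏ i, gst ρ J (dd r i) := by
    calc ∑ j ∈ Finset.univ.erase i₀, yOf (gst ρ J) R (Function.update r p₀ (some j))
        ≤ ∑ j : Fin k, yOf (gst ρ J) R (Function.update r p₀ (some j)) :=
          Finset.sum_le_sum_of_subset_of_nonneg (Finset.erase_subset _ _)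
            fun j _ _ => yOf_nonneg' _
      _ ≤ ∑ j : Fin k, ∏ i, gst ρ J (dd r i) :=
          Finset.sum_le_sum fun j _ => yOf_update_le' H p₀ r h _
      _ = k * ∏ i, gst ρ J (dd r i) := by
          rw [Finset.sum_const, Finset.card_univ, Fintype.card_fin, nsmul_eq_mul]
  rw [Finset.prod_pow, ← mul_pow]
  refine pow_le_pow_left₀ (mul_nonneg hκ h0) ?_ 2
  calc κ₁ p₀ * ∑ j ∈ Finset.univ.erase i₀, yOf (gst ρ J) R (Function.update r p₀ (some j))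
      ≤ κ₁ p₀ * (k * ∏ i, gst ρ J (dd r i)) := mul_le_mul_of_nonneg_left h1 hκ
    _ = _ := by ring

theorem wt_sq_mul' (H : PD C P R ν ℓ) {k : ℕ} (r : Asg P k) :
    (wt (fun p => - ((p:ℝ) / ((p:ℝ) - 1))) r) ^ 2 * wt (fun p => 1 / (p:ℝ)) r = wt κ₂ r := by
  unfold wt
  rw [← Finset.prod_pow, ← Finset.prod_mul_distrib]
  refine Finset.prod_congr rfl fun p _ => ?_
  by_cases h : r p = none
  · simp [h]
  · simp only [h, if_false]
    have h2 : (2:ℝ) ≤ ((p:ℕ):ℝ) := by exact_mod_cast p_two_le H p.2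
    have h3 : ((p:ℕ):ℝ) ≠ 0 := by linarith
    have h4 : ((p:ℕ):ℝ) - 1 ≠ 0 := by linarith
    unfold κ₂
    field_simp

end RoughFormAux

open RoughFormAux Pool.Agent.Lib.MT.RoughFormAux

theorem rough_form_two {C ν ℓ : ℝ} {P : Finset ℕ} {R : ℕ} (hC : 1 ≤ C) (H : PD C P R ν ℓ)
    (k ρ J : ℕ) (hk : 1 ≤ k) (hρ : 1 ≤ ρ) (hρR : ρ ^ (2 ^ J) ≤ R) (hPk : ∀ p ∈ P, k ≤ p)
    (p₀ : P) (i₀ : Fin k) :
    formK (fun p => (p:ℝ)) (lamp p₀ i₀ (lamOf (yOf (gst ρ J) R : Asg P k → ℝ))) ≤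
      2 * C * ν * (Real.log (p₀:ℕ) + ℓ) *
          (sum1 P κ₂ (fun a => (gst ρ J a) ^ 2)) ^ (k-1)
        + 2 * (k * κ₁ p₀) ^ 2 * (sum1 P κ₂ (fun a => (gst ρ J a) ^ 2)) ^ k := by
  obtain ⟨n, rfl⟩ : ∃ n, k = n + 1 := ⟨k - 1, by omega⟩
  have hform := formK_le (P := P) (k := n + 1) (fun p => (p:ℝ)) (fun p hp =>
    ⟨by exact_mod_cast hPk p hp, by exact_mod_cast p_one_le H hp⟩)
    (lamp p₀ i₀ (lamOf (yOf (gst ρ J) R : Asg P (n + 1) → ℝ)))
  refine hform.trans ?_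
  have hterm : ∀ r : Asg P (n + 1),
      (zOf (fun p => (p:ℝ)) (lamp p₀ i₀ (lamOf (yOf (gst ρ J) R))) r) ^ 2 *
        wt (fun p => 1 / (p:ℝ)) r
      ≤ 2 * Fu ρ R J p₀ n i₀ (part r) +
        2 * (((n + 1 : ℕ) : ℝ) * κ₁ p₀) ^ 2 * ((∏ i, (gst ρ J (dd r i)) ^ 2) * wt κ₂ r) := by
    intro r
    rw [zOf_lamp (fun p hp => p_two_le H hp) p₀ i₀]
    have hw := wt_kappa2_nonneg r
    have hFu := Fu_nonneg ρ R J p₀ n i₀ (part r)
    by_cases h : r p₀ = none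
    · rw [if_pos h, mul_pow, mul_assoc, wt_sq_mul' H]
      have h1 := u_sq_le' H (ρ := ρ) (J := J) p₀ i₀ r h
      have h2 := v_sq_le' H (ρ := ρ) (J := J) p₀ i₀ r h
      set u := yOf (gst ρ J) R r - yOf (gst ρ J) R (Function.update r p₀ (some i₀)) with hu
      have hk1 : (1 / (((p₀ : ℕ) : ℝ) - 1)) = κ₁ p₀ := rfl
      rw [hk1]
      set v := κ₁ p₀ * ∑ j ∈ Finset.univ.erase i₀, yOf (gst ρ J) R (Function.update r p₀ (some j))
        with hv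
      have h3 : (u + v) ^ 2 ≤ 2 * u ^ 2 + 2 * v ^ 2 := by nlinarith [sq_nonneg (u - v)]
      calc (u + v) ^ 2 * wt κ₂ r ≤ (2 * u ^ 2 + 2 * v ^ 2) * wt κ₂ r :=
            mul_le_mul_of_nonneg_right h3 hw
        _ = 2 * (u ^ 2 * wt κ₂ r) + 2 * (v ^ 2 * wt κ₂ r) := by ring
        _ ≤ 2 * Fu ρ R J p₀ n i₀ (part r) +
            2 * (((((n + 1 : ℕ) : ℝ) * κ₁ p₀) ^ 2 * ∏ i, (gst ρ J (dd r i)) ^ 2) * wt κ₂ r) := by
            have h4 := mul_le_mul_of_nonneg_right h2 hw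
            linarith
        _ = _ := by ring
    · rw [if_neg h]
      have hpr : 0 ≤ ∏ i, (gst ρ J (dd r i)) ^ 2 := Finset.prod_nonneg fun i _ => sq_nonneg _
      have : 0 ≤ 2 * Fu ρ R J p₀ n i₀ (part r) +
        2 * (((n + 1 : ℕ) : ℝ) * κ₁ p₀) ^ 2 * ((∏ i, (gst ρ J (dd r i)) ^ 2) * wt κ₂ r) := by
        positivity
      simpa using this
  refine (Finset.sum_le_sum fun r _ => hterm r).trans ?_
  rw [Finset.sum_add_distrib, ← Finset.mul_sum, ← Finset.mul_sum]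
  have h1 := sum_Fu_le' hC H n ρ J p₀ i₀ hρ (p_one_le H p₀.2) hρR
  have h2 := sum_asg_prod_le (P := P) (k := n + 1) κ₂ (fun p _ => kappa2_nonneg p)
    (fun _ a => (gst ρ J a) ^ 2) (fun _ _ => sq_nonneg _)
  rw [Finset.prod_const, Finset.card_univ, Fintype.card_fin] at h2
  have h3 : 0 ≤ 2 * (((n + 1 : ℕ) : ℝ) * κ₁ p₀) ^ 2 := by positivity
  have h4 := mul_le_mul_of_nonneg_left h2 h3
  simp only [Nat.add_sub_cancel]
  calc _ ≤ 2 * (C * ν * (Real.log p₀ + ℓ) *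
        (sum1 P κ₂ (fun a => (gst ρ J a) ^ 2)) ^ n) +
        2 * (((n + 1 : ℕ) : ℝ) * κ₁ p₀) ^ 2 *
          (sum1 P κ₂ (fun a => (gst ρ J a) ^ 2)) ^ (n + 1) := by
        linarith
    _ = _ := by ring

/-- The forms are nonnegative. -/
theorem formK_nonneg {P : Finset ℕ} {k : ℕ} (q : ℕ → ℝ) (hq : ∀ p ∈ P, (k:ℝ) ≤ q p ∧ 0 < q p)
    (lam : Asg P k → ℝ) : 0 ≤ formK q lam := by
  refine le_trans ?_ (le_formK q hq lam)
  refine Finset.sum_nonneg fun r _ => mul_nonneg (sq_nonneg _) ?_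
  unfold wt
  refine Finset.prod_nonneg fun p _ => ?_
  split_ifs
  · norm_num
  · obtain ⟨h1, h2⟩ := hq p p.2
    have h3 : (k:ℝ) / q p ≤ 1 := (div_le_one h2).2 h1
    exact mul_nonneg (by positivity) (by linarith)

end Pool.Agent.Lib.MP
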