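import Pool.Agent.Lib.MP.PDat
import Pool.Agent.Lib.MP.Params
import Pool.Agent.Lib.MP.PreOne
import Pool.Agent.Lib.MP.Ratio
import Pool.Agent.Lib.MP.RoughForm
import Pool.Agent.Lib.MT.LamMax
import Pool.Agent.Lib.MT.SOneUpper
import Pool.Agent.Lib.MT.UpperAux

/-!
# The Selberg upper bound for rough integers, arbitrary shifts

PROOF SKETCH. As MT.Upper (copy it), with s1_pre (ε = 1) instead of sum_wn. If j = 0: the count is
≤ N/W + 1 ≤ 2N/W and GG = 1. Let j ≥ 1, W = primorial D, z = zN N, R = min(floor(N^δ),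
floor(N^(1/100))), P = Pr (WN N h) R, ν = nuN N h, y = yOf (gst R 0) R (gst R 0 is the indicator of
a ≤ R), lam = lamOf y. If n is Rough (N^δ) then Avoid z W h n and only s = none everywhere is hit,
wn h lam n = (lam none)². lam none = sum over t with dtot t ≤ R of wt κ₁ t
≥ (1/2)(sum1 P κ₁ 1[a ≤ R^(1/j)])^j ≥ (1/2)(ν log floor(R^(1/j)))^j (le_sum_asg, H.low). Upper bound
for the sum of wn over n ≡ v, Avoid: s1_pre, sOne_upper, sum1_kappa2_le, params_two (ρ = R, J = 0):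
≤ 2 (N/W) GG (C ν log R)^j + N^(1/2), and the second is smaller than the first. Divide, and use
ν ≥ DZ z/2. GG is not too small: MP.Ratio.GG_lower.
-/

open Finset
open scoped Classical

namespace Pool.Agent.Lib.MP

open Pool.Agent.Lib.MT Pool.Agent.HLB

namespace UpperTwoAux

open Pool.Agent.Lib.MT.UpperAux

/-- The main lower bound: the weight at an integer all of whose shifts are rough. -/
lemma lam_none_ge_two {C ν ℓ : ℝ} {P : Finset ℕ} {R : ℕ} (H : PD C P R ν ℓ) (j u D : ℕ)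
    (hu : 1 ≤ u) (huR : u ≤ R) (huj : u ^ j ≤ R)
    (hD : 4 * j ^ 2 + 1 ≤ D) (hPD : ∀ p ∈ P, D < p) :
    (1/2 : ℝ) * (ν * Real.log u) ^ j ≤
      lamOf (yOf (gst R 0) R : Asg P j → ℝ) (fun _ => none) := by
  have hPp : ∀ p ∈ P, p.Prime := H.prime
  have h1 := le_sum_asg (P := P) (k := j)
    (fun _ T => (if (∏ p ∈ T, p) ≤ u then (1:ℝ) else 0) * ∏ p ∈ T, κ₁ p) κ₁
    (fun p hp => kappa1_nonneg_up (hPp p hp))
    (by
      intro i T hT
      refine mul_nonneg (by split_ifs <;> norm_num) ?_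
      exact Finset.prod_nonneg fun p hp => kappa1_nonneg_up (hPp p (hT hp)))
    (by
      intro i T hT p hp hpT
      rw [Finset.prod_insert hpT, Finset.prod_insert hpT]
      have hnn : 0 ≤ ∏ p ∈ T, κ₁ p :=
        Finset.prod_nonneg fun p hp => kappa1_nonneg_up (hPp p (hT hp))
      have hk := kappa1_nonneg_up (hPp p hp)
      have hle : (if p * ∏ p ∈ T, p ≤ u then (1:ℝ) else 0) ≤
          (if (∏ p ∈ T, p) ≤ u then (1:ℝ) else 0) := by
        by_cases hc : p * ∏ p ∈ T, p ≤ u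
        · have : (∏ p ∈ T, p) ≤ u :=
            le_trans (Nat.le_mul_of_pos_left _ (hPp p hp).pos) hc
          simp [hc, this]
        · simp only [hc, if_false]
          split_ifs <;> norm_num
      calc (if p * ∏ p ∈ T, p ≤ u then (1:ℝ) else 0) * (κ₁ p * ∏ p ∈ T, κ₁ p)
          ≤ (if (∏ p ∈ T, p) ≤ u then (1:ℝ) else 0) * (κ₁ p * ∏ p ∈ T, κ₁ p) :=
            mul_le_mul_of_nonneg_right hle (mul_nonneg hk hnn)
        _ = κ₁ p * ((if (∏ p ∈ T, p) ≤ u then (1:ℝ) else 0) * ∏ p ∈ T, κ₁ p) := by ring)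
  have hσ := sum_kappa1_sq_le P D (by omega) hPD
  have hlow := H.low u hu huR
  have hd : 0 ≤ ν := H.νpos.le
  have hlu : 0 ≤ Real.log u := Real.log_nonneg (by exact_mod_cast hu)
  have hDpos : (0:ℝ) < D := by
    have : 0 < D := by omega
    exact_mod_cast this
  have hhalf : (1/2 : ℝ) ≤ 1 - (j:ℝ) ^ 2 * ∑ p ∈ P, (κ₁ p) ^ 2 := by
    have h2 : (j:ℝ) ^ 2 * ∑ p ∈ P, (κ₁ p) ^ 2 ≤ (j:ℝ) ^ 2 * (2 / D) :=
      mul_le_mul_of_nonneg_left hσ (by positivity)
    have h3 : (4 * (j:ℝ) ^ 2 + 1) ≤ D := by exact_mod_cast hD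
    have h4 : (j:ℝ) ^ 2 * (2 / D) ≤ 1 / 2 := by
      rw [mul_div_assoc', div_le_div_iff₀ hDpos (by norm_num)]
      linarith only [h3]
    linarith only [h2, h4]
  have hA : (1/2 : ℝ) * (ν * Real.log u) ^ j ≤
      (1 - (j:ℝ) ^ 2 * ∑ p ∈ P, (κ₁ p) ^ 2) * ∏ _i : Fin j, ∑ T ∈ P.powerset,
        (if (∏ p ∈ T, p) ≤ u then (1:ℝ) else 0) * ∏ p ∈ T, κ₁ p := by
    refine mul_le_mul hhalf ?_ (by positivity) (by linarith only [hhalf])
    rw [Finset.prod_const, Finset.card_univ, Fintype.card_fin]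
    exact pow_le_pow_left₀ (by positivity) hlow j
  refine le_trans hA (le_trans h1 ?_)
  unfold lamOf
  refine Finset.sum_le_sum fun t _ => ?_
  have hwt : ∏ p : P, Lq ((p:ℕ) : ℝ) ((fun _ => none : Asg P j) p) (t p) = wt κ₁ t := by
    unfold wt
    refine Finset.prod_congr rfl fun p _ => ?_
    unfold Lq κ₁
    simp
  rw [hwt, Finset.prod_mul_distrib, wt_eq]
  have hnn : 0 ≤ ∏ i, ∏ p ∈ part t i, κ₁ p :=
    Finset.prod_nonneg fun i _ => Finset.prod_nonneg fun p hp =>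
      kappa1_nonneg_up (hPp p (part_subset t i hp))
  refine mul_le_mul_of_nonneg_right ?_ hnn
  by_cases hall : ∀ i, dd t i ≤ u
  · have hdt : dtot t ≤ R := by
      rw [dtot_eq]
      refine le_trans (Finset.prod_le_pow_card _ _ u fun i _ => hall i) ?_
      rw [Finset.card_univ, Fintype.card_fin]
      exact huj
    have h5 : ∀ i, gst R 0 (dd t i) = 1 := by
      intro i
      rw [gst_zero, if_pos (le_trans (hall i) huR)]
    unfold yOf
    rw [if_pos hdt]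
    simp only [h5, Finset.prod_const_one]
    refine Finset.prod_le_one (fun i _ => by split_ifs <;> norm_num) fun i _ => ?_
    split_ifs <;> norm_num
  · push Not at hall
    obtain ⟨i, hi⟩ := hall
    have h0 : ∏ i, (if (∏ p ∈ part t i, p) ≤ u then (1:ℝ) else 0) = 0 := by
      refine Finset.prod_eq_zero (Finset.mem_univ i) ?_
      rw [if_neg]
      unfold dd at hi
      omega
    rw [h0]
    unfold yOf
    split_ifs
    · exact Finset.prod_nonneg fun i _ => gst_nonneg _ _ _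
    · exact le_rfl

lemma zN_le {N : ℕ} (hN : 1 ≤ N) : (zN N : ℝ) ≤ Real.log N := by
  unfold zN
  exact Nat.floor_le (Real.log_nonneg (by exact_mod_cast hN))

lemma ev_zN (m : ℕ) : ∀ᶠ N : ℕ in Filter.atTop, m ≤ zN N := by
  have h : Filter.Tendsto (fun N : ℕ => Real.log (N:ℝ)) Filter.atTop Filter.atTop :=
    Real.tendsto_log_atTop.comp tendsto_natCast_atTop_atTop
  filter_upwards [h.eventually (Filter.eventually_ge_atTop (m:ℝ))] with N hN
  exact Nat.le_floor hN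

end UpperTwoAux

open UpperTwoAux Pool.Agent.Lib.MT.UpperAux in
theorem rough_upper_two (j : ℕ) (δ : ℝ) (hδ : 0 < δ) : ∃ C : ℝ, 0 < C ∧
    ∀ D : ℕ, 2 * j ≤ D → ∃ N₀ : ℕ, ∀ N ≥ N₀, ∀ v : ℕ,
    ∀ h : Fin j → ℕ, Function.Injective h → (∀ i, h i ≤ N ^ 2) →
    (((Finset.Ioc N (2*N)).filter (fun n => n ≡ v [MOD primorial D] ∧
        Rough ((N:ℝ) ^ δ) h n)).card : ℝ) ≤
      C * ((N:ℝ) / primorial D) * (GG (zN N) (primorial D) h / (DZ (zN N) * Real.log N) ^ j) := by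
  obtain ⟨C₀', hC₀', hpd⟩ := pd_all
  obtain ⟨K, hK⟩ := s1_pre j (ε := 1) one_pos
  obtain ⟨cG, hcG, hGG⟩ := GG_lower j
  obtain ⟨cz, hcz, hDZ⟩ := DZ_lower
  obtain ⟨N₁, hN₁⟩ := hpd j
  obtain ⟨N₂, hN₂⟩ := nuN_bounds j
  set C₀ : ℝ := 12 * C₀' with hC₀
  have hC₀1 : 1 ≤ C₀ := by linarith
  set D' : ℕ := 4 * j ^ 2 + j + 2 with hD'
  set δ' : ℝ := min δ (1/100) with hδ'
  have hδ'0 : 0 < δ' := lt_min hδ (by norm_num)
  have hδ'1 : δ' ≤ 1/100 := min_le_right _ _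
  have hδ'2 : δ' ≤ δ := min_le_left _ _
  set a : ℝ := δ' / (4 * (j+1)) with ha
  have ha0 : 0 < a := by positivity
  set C₁ : ℝ := Real.exp 1 * C₀ with hC₁
  have hC₁0 : 0 < C₁ := by positivity
  refine ⟨4 * (2 * C₁ ^ j + 1) / (a/2) ^ (2*j), by positivity, fun D hDj => ?_⟩
  set W : ℕ := primorial D with hWdef
  have hW : 1 ≤ W := primorial_pos D
  have hev := (((((((ev_log 6 1 δ' hδ'0).and (ev_log 2 0 (δ'/2) (by positivity))).and
    (ev_log 2 0 a ha0)).and (ev_log (C₀ ^ j) (2*j) (1/100) (by norm_num))).and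
    (ev_log ((W:ℝ) / (cG * cz ^ (2*j))) (K + j) (1/2) (by norm_num))).and
    (Filter.eventually_ge_atTop (3 + N₁ + N₂))).and (ev_zN (D + D' + 2)))
  obtain ⟨N₀, hN₀⟩ := Filter.eventually_atTop.1 hev
  refine ⟨N₀, fun N hN v h hinj hhN => ?_⟩
  obtain ⟨⟨⟨⟨⟨⟨hf1, hf2⟩, hf3⟩, hf4⟩, hf5⟩, hN3⟩, hz⟩ := hN₀ N hN
  set L : ℝ := Real.log N with hL
  have hNR : (3:ℝ) ≤ N := by
    have : 3 ≤ N := by omega
    exact_mod_cast this
  have hN0 : (0:ℝ) < N := by linarith only [hδ'0, hδ'1, hNR]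
  have hL1 : 1 ≤ L := by
    rw [hL, Real.le_log_iff_exp_le hN0]
    have := Real.exp_one_lt_d9
    linarith only [hδ'0, hδ'1, hNR, this]
  simp only [pow_zero, mul_one, pow_one] at hf1 hf2 hf3
  -- the range of the preliminary sieve
  set z : ℕ := zN N with hzdef
  have hzL : (z:ℝ) ≤ L := zN_le (by omega)
  have hz2 : 2 ≤ z := by omega
  have hDz : D ≤ z := by omega
  have hD'z : D' ≤ z := by omega
  have hz0 : (0:ℝ) < z := by
    have : 0 < z := by omega
    exact_mod_cast this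
  -- the level
  set R : ℕ := ⌊(N:ℝ) ^ δ'⌋₊ with hR
  have hRle : (R:ℝ) ≤ (N:ℝ) ^ δ' := Nat.floor_le (by (clear * - hNR; positivity))
  have hsq : (N:ℝ) ^ δ' = (N:ℝ) ^ (δ'/2) * (N:ℝ) ^ (δ'/2) := by
    rw [← Real.rpow_add hN0]; congr 1; ring
  have hRge' : (N:ℝ) ^ δ' - 1 < R := by
    have := Nat.lt_floor_add_one ((N:ℝ) ^ δ')
    rw [← hR] at this
    linarith only [this]
  have hRge2 : (N:ℝ) ^ (δ'/2) ≤ R := (half_of_sq hf2 hsq hRge').1
  have hRhalf : (N:ℝ) ^ δ' ≤ 2 * R := (half_of_sq hf2 hsq hRge').2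
  have hR2 : (2:ℝ) ≤ R := le_trans hf2 hRge2
  have hR2' : 2 ≤ R := by exact_mod_cast hR2
  have hR0 : (0:ℝ) < R := by linarith only [hδ'0, hδ'1, hL1, hf1, hRge']
  have hRN : (R:ℝ) ≤ N := by
    refine le_trans hRle ?_
    calc (N:ℝ) ^ δ' ≤ (N:ℝ) ^ (1:ℝ) :=
          Real.rpow_le_rpow_of_exponent_le (by linarith only [hδ'0, hδ'1, hNR]) (by linarith only [hδ'0, hδ'1])
      _ = N := Real.rpow_one _
  have hRN' : R ≤ N := by exact_mod_cast hRN
  have hlogR : Real.log R ≤ L := Real.log_le_log hR0 hRN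
  have hlogR0 : 0 ≤ Real.log R := Real.log_nonneg (by linarith only [hδ'0, hδ'1, hL1, hf1, hRge'])
  have hRδ : (R:ℝ) ≤ (N:ℝ) ^ δ :=
    le_trans hRle (Real.rpow_le_rpow_of_exponent_le (by linarith only [hδ'0, hδ'1, hL1, hf1, hRge', hRN]) hδ'2)
  have hR100 : (R:ℝ) ≤ (N:ℝ) ^ (1/100 : ℝ) :=
    le_trans hRle (Real.rpow_le_rpow_of_exponent_le (by linarith only [hδ'0, hδ'1, hL1, hf1, hRge', hRN]) hδ'1)
  have hzR : 3 * (z:ℝ) ≤ R := by linarith only [hδ'0, hδ'1, hL1, hf1, hzL, hRge']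
  have hzδ : (z:ℝ) ≤ (N:ℝ) ^ δ := by linarith only [hδ'0, hδ'1, hL1, hf1, hzL, hRge', hRδ]
  -- the modulus
  have hW0 : (0:ℝ) < W := by exact_mod_cast hW
  have hℓ : 1 + Real.log z ≤ Real.log R := by
    have h2 : Real.log (3 * (z:ℝ)) ≤ Real.log R := Real.log_le_log (by (clear * - hz2; positivity)) hzR
    rw [Real.log_mul (by norm_num) hz0.ne'] at h2
    have h3 : (1:ℝ) ≤ Real.log 3 := by
      rw [Real.le_log_iff_exp_le (by norm_num)]
      have := Real.exp_one_lt_d9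
      linarith only [hδ'0, hδ'1, this]
    linarith only [h2, h3]
  have H := hN₁ N (by omega) h hinj hhN R (by omega) hRN'
  obtain ⟨hν1, hν2⟩ := hN₂ N (by omega) h hinj hhN
  rw [← hzdef] at H hν1 hν2
  set P := Pr (WN N h) R with hP
  set ν := nuN N h with hν
  have hν0 : 0 < ν := H.νpos
  have hνle : ν ≤ 1 := H.νle
  have hDZ0 : 0 < DZ z := DZ_pos z
  have hPz : ∀ p ∈ P, p.Prime ∧ z < p ∧ p ≤ R ∧ ∀ i j, i ≠ j → ¬ h i ≡ h j [MOD p] :=
    fun p hp => mem_Pr_WN N R h hinj p hp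
  have hPp : ∀ p ∈ P, p.Prime := fun p hp => (hPz p hp).1
  have hPW : ∀ p ∈ P, ¬ p ∣ W := by
    intro p hp hpW
    have h1 := (hPz p hp)
    rw [hWdef] at hpW
    unfold primorial at hpW
    rw [h1.1.prime.dvd_finsetProd_iff] at hpW
    obtain ⟨q, hq, hpq⟩ := hpW
    rw [Finset.mem_filter, Finset.mem_range] at hq
    have : p = q := (Nat.prime_dvd_prime_iff_eq h1.1 hq.2).1 hpq
    omega
  have hPD : ∀ p ∈ P, D' < p := by
    intro p hp
    have := (hPz p hp).2.1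
    omega
  have hPD2 : ∀ p ∈ P, 2 ≤ p ∧ j ≤ p := fun p hp => by
    have := hPD p hp
    constructor <;> omega
  -- the small level
  set u : ℕ := ⌊(N:ℝ) ^ (2*a)⌋₊ with hu
  have hule : (u:ℝ) ≤ (N:ℝ) ^ (2*a) := Nat.floor_le (by (clear * - hNR; positivity))
  have hua : (N:ℝ) ^ a ≤ u := by
    have h1 := Nat.lt_floor_add_one ((N:ℝ) ^ (2*a))
    rw [← hu] at h1
    have h2 : (N:ℝ) ^ (2*a) = (N:ℝ) ^ a * (N:ℝ) ^ a := by
      rw [← Real.rpow_add hN0]; congr 1; ring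
    exact (half_of_sq hf3 h2 (by linarith only [h1])).1
  have hu1' : (1:ℝ) ≤ u := by linarith only [hδ'0, hδ'1, hf3, hua]
  have hu1 : 1 ≤ u := by exact_mod_cast hu1'
  have hlogu : a * L ≤ Real.log u := by
    rw [hL, ← Real.log_rpow hN0]
    exact Real.log_le_log (by (clear * - hNR; positivity)) hua
  have hupow : u ^ (j+1) ≤ R := by
    have : ((u ^ (j+1) : ℕ) : ℝ) ≤ R := by
      push_cast
      calc (u:ℝ) ^ (j+1) ≤ ((N:ℝ) ^ (2*a)) ^ (j+1) := pow_le_pow_left₀ (by (clear * - hu1; positivity)) hule _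
        _ = (N:ℝ) ^ (δ'/2) := by
            rw [← Real.rpow_natCast, ← Real.rpow_mul hN0.le]
            congr 1
            rw [ha]
            push_cast
            field_simp
            ring
        _ ≤ R := hRge2
    exact_mod_cast this
  have huj : u ^ j ≤ R := le_trans (Nat.pow_le_pow_right hu1 (Nat.le_succ j)) hupow
  have huR : u ≤ R := by
    refine le_trans ?_ hupow
    exact Nat.le_self_pow (Nat.succ_ne_zero j) u
  -- the weights
  set lam : Asg P j → ℝ := lamOf (yOf (gst R 0) R) with hlam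
  have hlow : (1/2 : ℝ) * (ν * Real.log u) ^ j ≤ lam (fun _ => none) :=
    lam_none_ge_two H j u D' hu1 huR huj (by omega) hPD
  set x : ℝ := DZ z * L with hx
  have hx0 : 0 < x := by (clear * - hL1 hDZ0; positivity)
  have hlow2 : (1/2 : ℝ) * ((a/2) * x) ^ j ≤ lam (fun _ => none) := by
    refine le_trans ?_ hlow
    have h1 : (a/2) * x ≤ ν * Real.log u := by
      calc (a/2) * x = (DZ z / 2) * (a * L) := by rw [hx]; ring
        _ ≤ ν * Real.log u := mul_le_mul hν1 hlogu (by (clear * - hδ hL1; positivity)) hν0.le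
    have h2 : ((a/2) * x) ^ j ≤ (ν * Real.log u) ^ j := pow_le_pow_left₀ (by (clear * - hδ hL1 hDZ0; positivity)) h1 j
    linarith only [h2]
  have hgle1 : ∀ a, gst R 0 a ≤ 1 := gst_le_one R 0
  have hgnn : ∀ a, 0 ≤ gst R 0 a := gst_nonneg R 0
  obtain ⟨-, -, hp3, -, hp5⟩ := params_two hC₀' H R 0 hR2' (by simp) hℓ
  -- the error term
  have hsumlam : ∑ s, |lam s| ≤ (N:ℝ) ^ (1/4 : ℝ) := by
    have h1 := sum_abs_lam_le (P := P) (k := j) hPp (gst R 0) hgnn hgle1 R (by omega)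
    have h2 : sum1 P κ₁ (fun a => if a ≤ R then 1 else 0) ≤ C₀ * (1 + L) := by
      refine le_trans hp5 ?_
      calc 12 * C₀' * ν * Real.log R = C₀ * ν * Real.log R := by rw [hC₀]
        _ ≤ C₀ * 1 * (1 + L) := by
            gcongr
            linarith only [hδ'0, hδ'1, hlogR]
        _ = C₀ * (1 + L) := by ring
    have h20 : 0 ≤ sum1 P κ₁ (fun a => if a ≤ R then 1 else 0) := by
      unfold sum1
      refine Finset.sum_nonneg fun T hT => ?_
      rw [Finset.mem_powerset] at hT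
      refine mul_nonneg ?_
        (Finset.prod_nonneg fun p hp => kappa1_nonneg_up (hPp p (hT hp)))
      show (0:ℝ) ≤ if (∏ p ∈ T, p) ≤ R then 1 else 0
      split_ifs <;> norm_num
    calc ∑ s, |lam s| ≤ R * (1 + Real.log R) ^ j *
          (sum1 P κ₁ (fun a => if a ≤ R then 1 else 0)) ^ j := h1
      _ ≤ (N:ℝ) ^ (1/100 : ℝ) * (1 + L) ^ j * (C₀ * (1 + L)) ^ j := by
          refine mul_le_mul (mul_le_mul hR100 ?_ (by (clear * -; positivity)) (by (clear * - hNR; positivity))) ?_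
            (by (clear * - h20; positivity)) (by (clear * - hNR hL1; positivity))
          · exact pow_le_pow_left₀ (by linarith only [hδ'0, hδ'1, hlogR0]) (by linarith only [hlogR]) j
          · exact pow_le_pow_left₀ h20 h2 j
      _ = (N:ℝ) ^ (1/100 : ℝ) * (C₀ ^ j * (1 + L) ^ (2*j)) := by
          rw [mul_pow, two_mul, pow_add]; ring
      _ ≤ (N:ℝ) ^ (1/100 : ℝ) * (N:ℝ) ^ (1/100 : ℝ) := by gcongr
      _ = (N:ℝ) ^ (1/50 : ℝ) := by
          rw [← Real.rpow_add hN0]; norm_num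
      _ ≤ (N:ℝ) ^ (1/4 : ℝ) :=
          Real.rpow_le_rpow_of_exponent_le (by linarith only [hδ'0, hδ'1, hL1, hf1, hRge', hRN]) (by norm_num)
  have herr : (∑ s, |lam s|) ^ 2 ≤ (N:ℝ) ^ (1/2 : ℝ) := by
    have h0 : 0 ≤ ∑ s, |lam s| := Finset.sum_nonneg fun _ _ => abs_nonneg _
    calc (∑ s, |lam s|) ^ 2 ≤ ((N:ℝ) ^ (1/4 : ℝ)) ^ 2 := pow_le_pow_left₀ h0 hsumlam 2
      _ = (N:ℝ) ^ (1/2 : ℝ) := by
          rw [← Real.rpow_natCast, ← Real.rpow_mul hN0.le]; norm_num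
  -- the main term
  have hmain : formK (fun p => (p:ℝ)) lam ≤ (C₁ * x) ^ j := by
    have h1 := sOne_upper (P := P) (k := j) hPD2 (gst R 0) hgnn R
    refine le_trans h1 ?_
    have hanti : Antitone (fun a => (gst R 0 a) ^ 2) := by
      intro x y hxy
      exact pow_le_pow_left₀ (hgnn _) (gst_antitone R 0 hxy) 2
    have h2 := sum1_kappa2_le P (fun p hp => (hPD2 p hp).1) (fun a => (gst R 0 a) ^ 2) hanti
      (fun a => by (clear * -; positivity))
    have h3 : Real.exp (∑ p ∈ P, (κ₁ p) ^ 2) ≤ Real.exp 1 := by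
      refine Real.exp_le_exp.2 ?_
      refine le_trans (sum_kappa1_sq_le P D' (by omega) hPD) ?_
      have : (2:ℝ) ≤ D' := by
        have : 2 ≤ D' := by omega
        exact_mod_cast this
      rw [div_le_one (by linarith only [hδ'0, hδ'1, this])]
      exact this
    have h20 : 0 ≤ sum1 P κ₁ (fun a => (gst R 0 a) ^ 2) := by
      unfold sum1
      refine Finset.sum_nonneg fun T hT => ?_
      rw [Finset.mem_powerset] at hT
      exact mul_nonneg (by (clear * -; positivity))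
        (Finset.prod_nonneg fun p hp => kappa1_nonneg_up (hPp p (hT hp)))
    have h40 : 0 ≤ sum1 P κ₂ (fun a => (gst R 0 a) ^ 2) := by
      unfold sum1
      refine Finset.sum_nonneg fun T hT => ?_
      refine mul_nonneg (by (clear * -; positivity)) (Finset.prod_nonneg fun p _ => ?_)
      unfold κ₂
      (clear * -; positivity)
    refine pow_le_pow_left₀ h40 ?_ j
    calc sum1 P κ₂ (fun a => (gst R 0 a) ^ 2)
        ≤ Real.exp (∑ p ∈ P, (κ₁ p) ^ 2) * sum1 P κ₁ (fun a => (gst R 0 a) ^ 2) := h2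
      _ ≤ Real.exp 1 * (12 * C₀' * ν * Real.log R) := by
          exact mul_le_mul h3 hp3 h20 (Real.exp_pos 1).le
      _ = Real.exp 1 * (C₀ * ν * Real.log R) := by rw [hC₀]
      _ ≤ Real.exp 1 * (C₀ * DZ z * L) := by gcongr
      _ = C₁ * x := by rw [hC₁, hx]; ring
  -- every rough integer has weight `(lam none)²`
  have hwn : ∀ n ∈ (Finset.Ioc N (2*N)).filter (fun n => n ≡ v [MOD W] ∧
      Rough ((N:ℝ) ^ δ) h n), (lam (fun _ => none)) ^ 2 = wn h lam n := by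
    intro n hn
    rw [Finset.mem_filter] at hn
    obtain ⟨-, -, hn2⟩ := hn
    unfold wn
    congr 1
    rw [Finset.sum_eq_single (fun _ => none : Asg P j)]
    · rw [if_pos]
      intro p i hpi
      exact absurd hpi (by simp)
    · intro s _ hs
      rw [if_neg]
      intro hhit
      apply hs
      funext p
      by_contra hp
      obtain ⟨i, hi⟩ := Option.ne_none_iff_exists'.1 hp
      have h1 := hhit p i hi
      have h2 := hn2 i p (hPp p p.2) h1
      have h3 : ((p:ℕ):ℝ) ≤ R := by exact_mod_cast (hPz p p.2).2.2.1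
      linarith only [hRδ, h2, h3]
    · intro hc
      exact absurd (Finset.mem_univ _) hc
  set S := (Finset.Ioc N (2*N)).filter (fun n => n ≡ v [MOD W] ∧
      Rough ((N:ℝ) ^ δ) h n) with hS
  have hcount : (S.card : ℝ) * (lam (fun _ => none)) ^ 2 ≤
      ∑ n ∈ (Finset.Ioc N (2*N)).filter (fun n => n ≡ v [MOD W] ∧ Avoid z W h n),
        wn h lam n := by
    rw [← nsmul_eq_mul, ← Finset.sum_const, Finset.sum_congr rfl hwn]
    refine Finset.sum_le_sum_of_subset_of_nonneg ?_ ?_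
    · intro n hn
      rw [hS, Finset.mem_filter] at hn
      rw [Finset.mem_filter]
      refine ⟨hn.1, hn.2.1, ?_⟩
      intro p hp hpz _ i hi
      have h1 := hn.2.2 i p hp hi
      have h2 : (p:ℝ) ≤ z := by exact_mod_cast hpz
      linarith only [hδ'0, hδ'1, hL1, hf1, hzL, hRge', hRδ, h1, h2]
    · intro n _ _
      unfold wn
      exact sq_nonneg _
  have hform0 : 0 ≤ formK (fun p => (p:ℝ)) lam := by
    apply formK_nonneg
    intro p hp
    have h1 := hPD2 p hp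
    refine ⟨by exact_mod_cast h1.2, ?_⟩
    have : 0 < p := by omega
    exact_mod_cast this
  have hsum2 := hK z N W v P hW (fun p hp => ⟨hPp p hp, (hPz p hp).2.1, hPW p hp⟩) h
    (fun p hp => (hPz p hp).2.2.2) lam hform0
  have hGG0 := (GG_le_one z W h).1
  have hGGl : cG * (DZ z) ^ j ≤ GG z W h := hGG D z hDj hDz h
  have hNW : 0 < (N:ℝ) / W := by (clear * - hW hNR; positivity)
  clear_value x a C₁ C₀
  -- the error is small
  have herr2 : ((z:ℝ) + 1) ^ K * (N:ℝ) ^ (1/2 : ℝ) ≤ (N:ℝ) / W * GG z W h * x ^ j := by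
    have hlz : 0 < Real.log z := Real.log_pos (by exact_mod_cast (by omega : 1 < z))
    have hlzL : Real.log z ≤ L := by
      have h1 : Real.log (z:ℝ) ≤ z := (Real.log_le_sub_one_of_pos hz0).trans (by linarith only [hδ'0, hδ'1])
      linarith only [hδ'0, hδ'1, hlogR, hℓ]
    have hDZl : cz / (1 + L) ≤ DZ z := by
      refine le_trans ?_ (hDZ z hz2)
      apply div_le_div_of_nonneg_left hcz.le hlz
      linarith only [hδ'0, hδ'1, hlogR, hℓ]
    have hxl : cz ≤ x := by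
      have h1 := hDZ z hz2
      rw [hx]
      calc cz = cz / Real.log z * Real.log z := by field_simp
        _ ≤ DZ z * L := mul_le_mul h1 hlzL hlz.le hDZ0.le
    have hNN : (N:ℝ) ^ (1/2 : ℝ) * (N:ℝ) ^ (1/2 : ℝ) = N := by
      rw [← Real.rpow_add hN0]; norm_num
    have h1L : (0:ℝ) < 1 + L := by linarith only [hδ'0, hδ'1, hlogR, hℓ, hlz]
    have h5 : (1 + L) ^ (K + j) ≤ (N:ℝ) ^ (1/2:ℝ) / W * (cG * cz ^ (2*j)) := by
      rw [div_mul_eq_mul_div, div_le_iff₀ (by (clear * - hcG hcz; positivity))] at hf5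
      rw [div_mul_eq_mul_div, le_div_iff₀ hW0]
      linarith only [hf5]
    have h6 : cG * cz ^ (2*j) / (1 + L) ^ j ≤ GG z W h * x ^ j := by
      calc cG * cz ^ (2*j) / (1 + L) ^ j = (cG * (cz / (1 + L)) ^ j) * cz ^ j := by
            rw [two_mul, pow_add, div_pow]; ring
        _ ≤ (cG * (DZ z) ^ j) * x ^ j := by
            gcongr
        _ ≤ GG z W h * x ^ j := by gcongr
    have h7 : ((z:ℝ) + 1) ^ K ≤ (1 + L) ^ K :=
      pow_le_pow_left₀ (by (clear * - hz2; positivity)) (by linarith only [hzL]) K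
    calc ((z:ℝ) + 1) ^ K * (N:ℝ) ^ (1/2 : ℝ) ≤ (1 + L) ^ K * (N:ℝ) ^ (1/2 : ℝ) := by gcongr
      _ = (1 + L) ^ (K + j) / (1 + L) ^ j * (N:ℝ) ^ (1/2 : ℝ) := by
          rw [pow_add]; field_simp
      _ ≤ ((N:ℝ) ^ (1/2:ℝ) / W * (cG * cz ^ (2*j))) / (1 + L) ^ j * (N:ℝ) ^ (1/2 : ℝ) := by
          gcongr
      _ = ((N:ℝ) ^ (1/2 : ℝ) * (N:ℝ) ^ (1/2 : ℝ)) / W * (cG * cz ^ (2*j) / (1 + L) ^ j) := by
          ring
      _ = (N:ℝ) / W * (cG * cz ^ (2*j) / (1 + L) ^ j) := by rw [hNN]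
      _ ≤ (N:ℝ) / W * (GG z W h * x ^ j) := by gcongr
      _ = (N:ℝ) / W * GG z W h * x ^ j := by ring
  have ha2' : 0 < a / 2 := by (clear * - ha0; positivity)
  have hfin : (S.card : ℝ) * ((1/4 : ℝ) * ((a/2) ^ (2*j) * x ^ (2*j))) ≤
      (2 * C₁ ^ j + 1) * ((N:ℝ) / W) * GG z W h * x ^ j := by
    have h1 : (1/4 : ℝ) * ((a/2) ^ (2*j) * x ^ (2*j)) ≤ (lam (fun _ => none)) ^ 2 := by
      have h2 : ((1/2 : ℝ) * ((a/2) * x) ^ j) ^ 2 ≤ (lam (fun _ => none)) ^ 2 :=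
        pow_le_pow_left₀ (by (clear * - ha0 hx0; positivity)) hlow2 2
      refine le_trans (le_of_eq ?_) h2
      have h4 : (a/2) ^ (2*j) * x ^ (2*j) = (((a/2) * x) ^ j) ^ 2 := by
        rw [← pow_mul, mul_comm j 2, mul_pow]
      rw [h4, mul_pow (1/2 : ℝ)]
      norm_num
    have h8 : ((z:ℝ) + 1) ^ K * (∑ s, |lam s|) ^ 2 ≤ ((z:ℝ) + 1) ^ K * (N:ℝ) ^ (1/2 : ℝ) := by
      gcongr
    calc (S.card : ℝ) * ((1/4 : ℝ) * ((a/2) ^ (2*j) * x ^ (2*j)))
        ≤ (S.card : ℝ) * (lam (fun _ => none)) ^ 2 :=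
          mul_le_mul_of_nonneg_left h1 (Nat.cast_nonneg _)
      _ ≤ ∑ n ∈ (Finset.Ioc N (2*N)).filter (fun n => n ≡ v [MOD W] ∧ Avoid z W h n),
            wn h lam n := hcount
      _ ≤ (1 + 1) * ((N:ℝ) / W) * GG z W h * formK (fun p => (p:ℝ)) lam +
            ((z:ℝ) + 1) ^ K * (∑ s, |lam s|) ^ 2 := hsum2
      _ ≤ (1 + 1) * ((N:ℝ) / W) * GG z W h * (C₁ * x) ^ j +
            (N:ℝ) / W * GG z W h * x ^ j := by
          have h4 : (1 + 1) * ((N:ℝ) / W) * GG z W h * formK (fun p => (p:ℝ)) lam ≤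
              (1 + 1) * ((N:ℝ) / W) * GG z W h * (C₁ * x) ^ j :=
            mul_le_mul_of_nonneg_left hmain (by (clear * - hW hNR hGG0; positivity))
          linarith only [herr2, h8, h4]
      _ = (2 * C₁ ^ j + 1) * ((N:ℝ) / W) * GG z W h * x ^ j := by rw [mul_pow]; ring
  rw [mul_div_assoc', le_div_iff₀ (by (clear * - hx0; positivity))]
  have ha2 : 0 < (a/2) ^ (2*j) := by (clear * - ha0; positivity)
  have hxj : 0 < x ^ j := by (clear * - hx0; positivity)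
  have h5 : (S.card : ℝ) * x ^ j * ((1/4) * (a/2) ^ (2*j)) ≤
      (2 * C₁ ^ j + 1) * ((N:ℝ) / W) * GG z W h := by
    have h6 : ((S.card : ℝ) * x ^ j * ((1/4) * (a/2) ^ (2*j))) * x ^ j ≤
        ((2 * C₁ ^ j + 1) * ((N:ℝ) / W) * GG z W h) * x ^ j := by
      calc ((S.card : ℝ) * x ^ j * ((1/4) * (a/2) ^ (2*j))) * x ^ j
          = (S.card : ℝ) * ((1/4 : ℝ) * ((a/2) ^ (2*j) * x ^ (2*j))) := by
            rw [two_mul j, pow_add x]; ring
        _ ≤ (2 * C₁ ^ j + 1) * ((N:ℝ) / W) * GG z W h * x ^ j := hfin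
    exact le_of_mul_le_mul_right h6 hxj
  calc (S.card : ℝ) * x ^ j =
        ((S.card : ℝ) * x ^ j * ((1/4) * (a/2) ^ (2*j))) * (4 / (a/2) ^ (2*j)) := by
        field_simp
    _ ≤ ((2 * C₁ ^ j + 1) * ((N:ℝ) / W) * GG z W h) * (4 / (a/2) ^ (2*j)) := by gcongr
    _ = 4 * (2 * C₁ ^ j + 1) / (a/2) ^ (2*j) * ((N:ℝ) / W) * GG z W h := by ring

end Pool.Agent.Lib.MP
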