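import Pool.Agent.Lib.HLB.Bridge
import Pool.Agent.Lib.HLB.T1Lower

/-!
# The r-th moment of the number of primes

`power_lower` is the inequality `hSN` inside the proof of HLB.t1_lower_aux (Lib/HLB/T1Lower.lean) for
the weight 1, with `sw_holds` for the hypothesis.

`case_one`: with ε = 1/2 and `N = N_n = #{a ∈ A : n + a prime}`, the number of injective r-tuples of
primes is at least `(N/2)^r - r^r`; sum over n ≤ x.
-/

open Finset Filter

namespace Pool.Agent.Lib.MP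

open Pool.Agent.HL Pool.Agent.HLB Pool.Agent.Lib.Sieve4

theorem power_lower (r : ℕ) (hr : 2 ≤ r) {ε : ℝ} (hε : 0 < ε) : ∃ η : ℝ, 0 < η ∧
    ∀ᶠ x : ℕ in atTop, ∀ A : Finset ℕ, (∀ a ∈ A, (a : ℝ) ≤ η * x) →
      (1 - ε) * ((x / Real.log x ^ r) * GW r (zz r x) A (fun _ => 1)) ≤
        ∑ n ∈ Icc 1 x, (∑ a ∈ A, ip (n + a)) ^ r := by
  obtain ⟨k, rfl⟩ : ∃ k, r = k + 1 := ⟨r - 1, by omega⟩
  have hk : 1 ≤ k := by omega
  have hrR : (2:ℝ) ≤ ((k + 1 : ℕ) : ℝ) := by exact_mod_cast hr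
  set R : ℝ := ((k + 1 : ℕ) : ℝ) with hR
  have hR0 : 0 < R := by linarith
  set ε1 : ℝ := min (ε / (8 * R)) (1 / 2) with hε1
  have hε1pos : 0 < ε1 := lt_min (by positivity) (by norm_num)
  have hε1le : ε1 ≤ ε / (8 * R) := min_le_left _ _
  have hε1lt : ε1 < 1 := lt_of_le_of_lt (min_le_right _ _) (by norm_num)
  refine ⟨ε1, hε1pos, ?_⟩
  have hL : ∀ᶠ x : ℕ in atTop, 8 * R / ε ≤ Real.log x :=
    (Real.tendsto_log_atTop.comp tendsto_natCast_atTop_atTop).eventually_ge_atTop _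
  filter_upwards [sum_NB_ge sw_holds k hε1pos hε1lt hε1pos (k + 2), sum_B_le (k + 1) (k + 2), hL,
    eventually_ge_atTop 2] with x hx1 hx2 hx3 hx4 A hA
  have hw0 : ∀ a ∈ A, (0:ℝ) ≤ (fun _ : ℕ => (1:ℝ)) a := fun a _ => zero_le_one
  have hxpos : (0:ℝ) < x := by exact_mod_cast (by omega : 0 < x)
  have hLpos : 0 < Real.log x := lt_of_lt_of_le (by positivity) hx3
  have h1 := hx1 A hA (fun _ => 1) hw0
  have h2 := hx2 A (fun _ => 1) hw0
  have hpd : (∑ a ∈ A, (fun _ : ℕ => (1:ℝ)) a) ^ (k + 1) ≤ GW (k + 1) (zz (k + 1) x) A (fun _ => 1) :=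
    posdef (k + 1) (zz (k + 1) x) (by omega) A (fun _ => 1) hw0
  simp only [one_mul] at h1 h2 hpd
  set z := zz (k + 1) x with hz
  set G := GW (k + 1) z A (fun _ => 1) with hG
  set X : ℝ := x / Real.log x ^ (k + 1) with hX
  set b := bb (k + 1) x with hb
  set N : ℕ → ℝ := fun n => ∑ a ∈ A, ip (n + a) with hN
  set Y : ℕ → ℝ := fun n => b * ∑ a ∈ A, ic z (n + a) with hY
  have hXpos : 0 < X := by positivity
  have hb0 : 0 ≤ b := by
    rw [hb]; unfold bb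
    exact inv_nonneg.mpr (mul_nonneg (DZ_pos _).le hLpos.le)
  have hN0 : ∀ n, 0 ≤ N n := fun n => Finset.sum_nonneg fun a ha => ip_nonneg _
  have hY0 : ∀ n, 0 ≤ Y n := fun n =>
    mul_nonneg hb0 (Finset.sum_nonneg fun a ha => ic_nonneg _ _)
  set Wt : ℝ := ∑ a ∈ A, (1:ℝ) with hWt
  have hWt0 : 0 ≤ Wt := Finset.sum_nonneg fun _ _ => zero_le_one
  have hG0 : 0 ≤ G := le_trans (by positivity) hpd
  -- pointwise tangent
  have htan : ∀ n, R * (N n * Y n ^ k) - (R - 1) * Y n ^ (k + 1) ≤ N n ^ (k + 1) := by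
    intro n
    have h := pow_tangent (k + 1) (by omega) (hN0 n) (hY0 n)
    simp only [Nat.add_sub_cancel] at h
    calc R * (N n * Y n ^ k) - (R - 1) * Y n ^ (k + 1)
        = ((k + 1 : ℕ) : ℝ) * Y n ^ k * N n - (((k + 1 : ℕ) : ℝ) - 1) * Y n ^ (k + 1) := by
          rw [← hR]; ring
      _ ≤ _ := h
  have hsumtan : R * (∑ n ∈ Icc 1 x, N n * Y n ^ k) - (R - 1) * ∑ n ∈ Icc 1 x, Y n ^ (k + 1)
      ≤ ∑ n ∈ Icc 1 x, N n ^ (k + 1) := by
    rw [Finset.mul_sum, Finset.mul_sum, ← Finset.sum_sub_distrib]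
    exact Finset.sum_le_sum fun n _ => htan n
  -- the error term
  have herr : x / Real.log x ^ (k + 2) * Wt ^ (k + 1) ≤ (1 / Real.log x) * (X * G) := by
    have e : (x:ℝ) / Real.log x ^ (k + 2) = (1 / Real.log x) * X := by
      rw [hX, pow_succ (Real.log x) (k + 1)]
      field_simp
    rw [e, mul_assoc]
    gcongr
  have hlogR : 2 * R * (1 / Real.log x) ≤ ε / 4 := by
    rw [mul_one_div, div_le_iff₀ hLpos]
    have := (div_le_iff₀ hε).mp hx3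
    nlinarith
  have hRε : R * (2 * ε1) ≤ ε / 4 := by
    have := mul_le_mul_of_nonneg_left hε1le (by positivity : 0 ≤ 2 * R)
    calc R * (2 * ε1) = 2 * R * ε1 := by ring
      _ ≤ 2 * R * (ε / (8 * R)) := this
      _ = ε / 4 := by field_simp; ring
  have hXG : 0 ≤ X * G := by positivity
  have h3 : R * ((1 - ε1 - ε1) * (X * G) - (1 / Real.log x) * (X * G))
      ≤ R * ∑ n ∈ Icc 1 x, N n * Y n ^ k := by
    refine mul_le_mul_of_nonneg_left ?_ hR0.le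
    refine le_trans ?_ h1
    have : (1 - ε1 - ε1) * X * G = (1 - ε1 - ε1) * (X * G) := by ring
    rw [this]
    linarith
  have h4 : (R - 1) * ∑ n ∈ Icc 1 x, Y n ^ (k + 1) ≤
      (R - 1) * (X * G + (1 / Real.log x) * (X * G)) := by
    refine mul_le_mul_of_nonneg_left ?_ (by linarith)
    exact h2.trans (by linarith)
  have h5 : (1 - ε / 2) * (X * G) ≤ R * ((1 - ε1 - ε1) * (X * G) - (1 / Real.log x) * (X * G))
      - (R - 1) * (X * G + (1 / Real.log x) * (X * G)) := by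
    have h6 : R * ((1 - ε1 - ε1) * (X * G) - (1 / Real.log x) * (X * G))
      - (R - 1) * (X * G + (1 / Real.log x) * (X * G))
      = (1 - R * (2 * ε1) - (2 * R - 1) * (1 / Real.log x)) * (X * G) := by ring
    rw [h6]
    refine mul_le_mul_of_nonneg_right ?_ hXG
    have h7 : (2 * R - 1) * (1 / Real.log x) ≤ 2 * R * (1 / Real.log x) := by
      have : 0 ≤ 1 / Real.log x := by positivity
      nlinarith
    linarith
  have h8 : (1 - ε) * (X * G) ≤ (1 - ε / 2) * (X * G) :=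
    mul_le_mul_of_nonneg_right (by linarith) hXG
  linarith

/-- `E_(r+1) ≥ (N - r) E_r`. -/
lemma inj_step' (r : ℕ) (A : Finset ℕ) (v : ℕ → ℝ) (hv : ∀ a ∈ A, 0 ≤ v a ∧ v a ≤ 1) :
    ((∑ a ∈ A, v a) - r) * (∑ b ∈ injTuples r A, ∏ i, v (b i)) ≤
      ∑ a ∈ injTuples (r+1) A, ∏ i, v (a i) := by
  rw [inj_sum_succ, mul_sum]
  apply sum_le_sum
  intro b hb
  rw [mem_injTuples] at hb
  rw [← sum_mul]
  apply mul_le_mul_of_nonneg_right _ (prod_nonneg fun i _ => (hv _ (hb.1 i)).1)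
  have h2 := sum_filter_add_sum_filter_not A (fun y => y ∈ Set.range b) v
  have h3 : ∑ y ∈ A.filter (fun y => y ∈ Set.range b), v y ≤ r := by
    have h4 : A.filter (fun y => y ∈ Set.range b) ⊆ univ.image b := by
      intro y hy
      obtain ⟨i, hi⟩ := (mem_filter.1 hy).2
      exact mem_image.2 ⟨i, mem_univ _, hi⟩
    have h5 : (A.filter (fun y => y ∈ Set.range b)).card ≤ r := by
      refine (card_le_card h4).trans (card_image_le.trans ?_)
      simp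
    calc ∑ y ∈ A.filter (fun y => y ∈ Set.range b), v y
        ≤ ∑ y ∈ A.filter (fun y => y ∈ Set.range b), (1:ℝ) :=
          sum_le_sum fun y hy => (hv y (mem_filter.1 hy).1).2
      _ = ((A.filter (fun y => y ∈ Set.range b)).card : ℝ) := by simp
      _ ≤ r := by exact_mod_cast h5
  linarith

lemma inj_half (r : ℕ) (A : Finset ℕ) (v : ℕ → ℝ) (hv : ∀ a ∈ A, 0 ≤ v a ∧ v a ≤ 1)
    (hN : 2 * (r:ℝ) ≤ ∑ a ∈ A, v a) :
    ((∑ a ∈ A, v a) / 2) ^ r ≤ ∑ a ∈ injTuples r A, ∏ i, v (a i) := by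
  induction r with
  | zero =>
    have h0 : ∑ a ∈ injTuples 0 A, ∏ i, v (a i) = 1 := by
      have : injTuples 0 A = {Fin.elim0} := by
        ext b
        rw [mem_injTuples, mem_singleton]
        constructor
        · intro _
          exact Subsingleton.elim _ _
        · intro _
          exact ⟨fun i => i.elim0, fun i => i.elim0⟩
      rw [this]
      simp
    rw [h0]
    simp
  | succ r ih =>
    have hN' : 2 * (r:ℝ) ≤ ∑ a ∈ A, v a := by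
      push_cast at hN
      linarith
    refine le_trans ?_ (inj_step' r A v hv)
    have h1 := ih hN'
    have hr0 : (0:ℝ) ≤ r := Nat.cast_nonneg r
    have h2 : (∑ a ∈ A, v a) / 2 ≤ (∑ a ∈ A, v a) - r := by linarith
    have h3 : 0 ≤ (∑ a ∈ A, v a) / 2 := by linarith
    calc ((∑ a ∈ A, v a) / 2) ^ (r + 1) = (∑ a ∈ A, v a) / 2 * ((∑ a ∈ A, v a) / 2) ^ r := by
          rw [pow_succ]; ring
      _ ≤ ((∑ a ∈ A, v a) - r) * (∑ b ∈ injTuples r A, ∏ i, v (b i)) :=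
          mul_le_mul h2 h1 (by positivity) (by linarith)

lemma inj_lower (r : ℕ) (A : Finset ℕ) (v : ℕ → ℝ) (hv : ∀ a ∈ A, 0 ≤ v a ∧ v a ≤ 1) :
    ((∑ a ∈ A, v a) / 2) ^ r - (r:ℝ) ^ r ≤ ∑ a ∈ injTuples r A, ∏ i, v (a i) := by
  have hr0 : (0:ℝ) ≤ (r:ℝ) ^ r := by positivity
  rcases le_or_gt (2 * (r:ℝ)) (∑ a ∈ A, v a) with h | h
  · have := inj_half r A v hv h
    linarith
  · have h0 : 0 ≤ ∑ a ∈ A, v a := sum_nonneg fun a ha => (hv a ha).1
    have h1 : ((∑ a ∈ A, v a) / 2) ^ r ≤ (r:ℝ) ^ r := by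
      gcongr
      linarith
    have h2 : 0 ≤ ∑ a ∈ injTuples r A, ∏ i, v (a i) :=
      sum_nonneg fun a ha => prod_nonneg fun i _ => (hv _ ((mem_injTuples.mp ha).1 i)).1
    linarith

theorem case_one (r : ℕ) (hr : 2 ≤ r) : ∃ C₃ c η : ℝ, 0 < C₃ ∧ 0 < c ∧ 0 < η ∧
    ∀ᶠ x : ℕ in atTop, ∀ A : Finset ℕ, (∀ a ∈ A, (a : ℝ) ≤ η * x) →
      C₃ * x ≤ (x / Real.log x ^ r) * GW r (zz r x) A (fun _ => 1) →
      c * ((x / Real.log x ^ r) * GW r (zz r x) A (fun _ => 1)) ≤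
        ∑ a ∈ injTuples r A, (cnt a x : ℝ) := by
  obtain ⟨η, hη, h⟩ := power_lower r hr (ε := 1 / 2) (by norm_num)
  have hr1 : (0:ℝ) < r := by exact_mod_cast (by omega : 0 < r)
  refine ⟨(r:ℝ) ^ r * 2 ^ (r + 2), (2 ^ (r + 2))⁻¹, η, by positivity, by positivity, hη, ?_⟩
  filter_upwards [h] with x hx A hA hC
  have h1 := hx A hA
  set S : ℝ := (x / Real.log x ^ r) * GW r (zz r x) A (fun _ => 1) with hS
  have e : ∑ a ∈ injTuples r A, (cnt a x : ℝ)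
      = ∑ n ∈ Icc 1 x, ∑ a ∈ injTuples r A, ∏ i, ip (n + a i) := by
    rw [Finset.sum_comm]
    refine Finset.sum_congr rfl fun a _ => ?_
    rw [cnt_eq]
  have h2 : ∑ n ∈ Icc 1 x, (((∑ a ∈ A, ip (n + a)) / 2) ^ r - (r:ℝ) ^ r) ≤
      ∑ n ∈ Icc 1 x, ∑ a ∈ injTuples r A, ∏ i, ip (n + a i) :=
    Finset.sum_le_sum fun n _ =>
      inj_lower r A (fun a => ip (n + a)) (fun a _ => ⟨ip_nonneg _, ip_le_one _⟩)
  rw [Finset.sum_sub_distrib, Finset.sum_const, Nat.card_Icc, Nat.add_sub_cancel, nsmul_eq_mul] at h2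
  have h3 : ∑ n ∈ Icc 1 x, ((∑ a ∈ A, ip (n + a)) / 2) ^ r
      = (2 ^ r)⁻¹ * ∑ n ∈ Icc 1 x, (∑ a ∈ A, ip (n + a)) ^ r := by
    rw [Finset.mul_sum]
    refine Finset.sum_congr rfl fun n _ => ?_
    rw [div_pow]
    ring
  rw [h3] at h2
  rw [e]
  refine le_trans ?_ h2
  have h4 : (2 ^ r : ℝ)⁻¹ * ((1 - 1 / 2) * S) ≤
      (2 ^ r : ℝ)⁻¹ * ∑ n ∈ Icc 1 x, (∑ a ∈ A, ip (n + a)) ^ r :=
    mul_le_mul_of_nonneg_left h1 (by positivity)
  have h5 : (x:ℝ) * (r:ℝ) ^ r ≤ (2 ^ (r + 2) : ℝ)⁻¹ * S := by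
    rw [inv_mul_eq_div, le_div_iff₀ (by positivity)]
    calc (x:ℝ) * (r:ℝ) ^ r * 2 ^ (r + 2) = (r:ℝ) ^ r * 2 ^ (r + 2) * x := by ring
      _ ≤ S := hC
  have h6 : (2 ^ r : ℝ)⁻¹ * ((1 - 1 / 2) * S) = 2 * ((2 ^ (r + 2) : ℝ)⁻¹ * S) := by
    rw [pow_add]
    field_simp
    ring
  linarith

end Pool.Agent.Lib.MP
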