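import Mathlib

/-!
# From k-tuples to many integers with r primes: the combinatorial part

PROOF. M = |A|, κ L ≤ M ≤ C₁ L. H ranges over the injective h : Fin k → A; their number is the
falling factorial ≥ (M/2)^k ≥ (κ L/2)^k for L large. Put s(h) = ∑_{b ∈ A, b ∉ h} ∏_i gg (h i) b. The
sum of s(h) over all injective h is ≤ ∑_{b ∈ A} (∑_{a ∈ A, a ≠ b} gg a b)^k ≤ C₁ L (C₁ L)^k (expand the
power). So all but (C₁^(k+1)/C₂) L^k of the h satisfy s(h) ≤ C₂ L. For a good h the sum over n with all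
Ro n (h i) of #{b ∈ A \ h : Ro n b} is ≤ C X Q(h) s(h)/L ≤ C C₂ X Q(h), so
#{n : all Ro n (h i), #{b ∈ A \ h : Ro n b} > R₀} ≤ C C₂ X Q(h)/R₀ ≤ (c/2) X Q(h) with
R₀ = 2 C C₂/c. Hence at least (c/2) X Q(h) ≥ (c c₂/2) X/L^k of the n satisfy: all Ro n (h i), at least
r of the Pm n (h i), #{b ∈ A : Ro n b} ≤ R₀ + k. Sum over the good h and note that every n is counted
at most (R₀ + k)^k times, and only if #{a ∈ A : Pm n a} ≥ r.
-/

open Finset
open scoped Classical

namespace Pool.Agent.Lib.MP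

namespace CombinAux

/-- The injective tuples with values in `A`. -/
noncomputable def inj (k : ℕ) (A : Finset ℕ) : Finset (Fin k → ℕ) :=
  (Fintype.piFinset (fun _ : Fin k => A)).filter (fun h => Function.Injective h)

theorem mem_inj {k : ℕ} {A : Finset ℕ} {h : Fin k → ℕ} :
    h ∈ inj k A ↔ (∀ i, h i ∈ A) ∧ Function.Injective h := by
  simp [inj]

theorem card_inj (k : ℕ) (A : Finset ℕ) : (inj k A).card = A.card.descFactorial k := by
  have h1 : Fintype.card (Fin k ↪ A) = A.card.descFactorial k := by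
    rw [Fintype.card_embedding_eq]; simp
  rw [← h1, ← Finset.card_univ]
  symm
  refine Finset.card_bij (fun (e : Fin k ↪ A) _ => fun i => ((e i : A) : ℕ)) ?_ ?_ ?_
  · intro e _
    rw [mem_inj]
    exact ⟨fun i => (e i).2, fun i j hij => e.injective (Subtype.ext hij)⟩
  · intro e _ e' _ hee
    ext i
    exact congrFun hee i
  · intro h hh
    rw [mem_inj] at hh
    exact ⟨⟨fun i => ⟨h i, hh.1 i⟩, fun i j hij => hh.2 (congrArg Subtype.val hij)⟩,
      Finset.mem_univ _, rfl⟩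

theorem inj_lower (k : ℕ) (A : Finset ℕ) (x : ℝ) (hx0 : 0 ≤ x) (hx : 2 * x ≤ A.card)
    (hk : 2 * k ≤ A.card) : x ^ k ≤ ((inj k A).card : ℝ) := by
  rw [card_inj]
  have h1 : (A.card + 1 - k) ^ k ≤ A.card.descFactorial k := Nat.pow_sub_le_descFactorial _ _
  have h2 : x ≤ ((A.card + 1 - k : ℕ) : ℝ) := by
    have h3 : A.card ≤ 2 * (A.card + 1 - k) := by omega
    have h4 : (A.card : ℝ) ≤ 2 * ((A.card + 1 - k : ℕ) : ℝ) := by exact_mod_cast h3
    linarith
  calc x ^ k ≤ ((A.card + 1 - k : ℕ) : ℝ) ^ k := pow_le_pow_left₀ hx0 h2 k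
    _ = (((A.card + 1 - k) ^ k : ℕ) : ℝ) := by push_cast; rfl
    _ ≤ _ := by exact_mod_cast h1

/-- The sum of the weights over the other elements. -/
noncomputable def sw {k : ℕ} (A : Finset ℕ) (gg : ℕ → ℕ → ℝ) (h : Fin k → ℕ) : ℝ :=
  ∑ b ∈ A.filter (fun b => ∀ i, h i ≠ b), ∏ i, gg (h i) b

theorem sum_sw_le (k : ℕ) (A : Finset ℕ) (gg : ℕ → ℕ → ℝ) (hgg : ∀ a b, 0 ≤ gg a b) (B : ℝ)
    (hB : ∀ b ∈ A, ∑ a ∈ A.erase b, gg a b ≤ B) :
    ∑ h ∈ inj k A, sw A gg h ≤ A.card * B ^ k := by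
  unfold sw
  have h1 : ∑ h ∈ inj k A, ∑ b ∈ A.filter (fun b => ∀ i, h i ≠ b), ∏ i, gg (h i) b
      ≤ ∑ b ∈ A, ∑ h ∈ Fintype.piFinset (fun _ : Fin k => A.erase b), ∏ i, gg (h i) b := by
    calc ∑ h ∈ inj k A, ∑ b ∈ A.filter (fun b => ∀ i, h i ≠ b), ∏ i, gg (h i) b
        = ∑ h ∈ inj k A, ∑ b ∈ A, if (∀ i, h i ≠ b) then ∏ i, gg (h i) b else 0 := by
          refine Finset.sum_congr rfl fun h _ => ?_
          rw [Finset.sum_filter]
      _ = ∑ b ∈ A, ∑ h ∈ inj k A, if (∀ i, h i ≠ b) then ∏ i, gg (h i) b else 0 :=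
          Finset.sum_comm
      _ ≤ _ := by
          refine Finset.sum_le_sum fun b hb => ?_
          rw [← Finset.sum_filter]
          refine Finset.sum_le_sum_of_subset_of_nonneg ?_ ?_
          · intro h hh
            rw [Finset.mem_filter, mem_inj] at hh
            rw [Fintype.mem_piFinset]
            intro i
            exact Finset.mem_erase.mpr ⟨hh.2 i, hh.1.1 i⟩
          · intro h _ _
            exact Finset.prod_nonneg fun i _ => hgg _ _
  refine h1.trans ?_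
  have h2 : ∀ b ∈ A, ∑ h ∈ Fintype.piFinset (fun _ : Fin k => A.erase b), ∏ i, gg (h i) b
      ≤ B ^ k := by
    intro b hb
    have h3 := Finset.prod_univ_sum (fun _ : Fin k => A.erase b) (fun (_ : Fin k) a => gg a b)
    rw [← h3, Finset.prod_const, Finset.card_univ, Fintype.card_fin]
    exact pow_le_pow_left₀ (Finset.sum_nonneg fun a _ => hgg _ _) (hB b hb) k
  calc _ ≤ ∑ b ∈ A, B ^ k := Finset.sum_le_sum h2
    _ = _ := by rw [Finset.sum_const, nsmul_eq_mul]

/-- Most injective tuples have a small sum of weights. -/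
theorem good_lower (k : ℕ) (A : Finset ℕ) (gg : ℕ → ℕ → ℝ) (hgg : ∀ a b, 0 ≤ gg a b)
    (κ C₁ L : ℝ) (hκ : 0 < κ) (hC₁ : 0 < C₁) (hL : 0 < L) (hk : 2 * k ≤ A.card)
    (h1 : κ * L ≤ A.card) (h2 : (A.card : ℝ) ≤ C₁ * L)
    (hB : ∀ b ∈ A, ∑ a ∈ A.erase b, gg a b ≤ C₁ * L) :
    (κ / 2) ^ k / 2 * L ^ k ≤ (((inj k A).filter
      (fun h => sw A gg h ≤ 2 * C₁ ^ (k + 1) / (κ / 2) ^ k * L)).card : ℝ) := by
  set C₂ : ℝ := 2 * C₁ ^ (k + 1) / (κ / 2) ^ k with hC₂
  have hκ2 : 0 < (κ / 2) ^ k := by positivity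
  have hC₂0 : 0 < C₂ := by positivity
  have ht : (κ / 2) ^ k * L ^ k ≤ ((inj k A).card : ℝ) := by
    rw [← mul_pow]
    refine inj_lower k A _ (by positivity) ?_ hk
    linarith
  have hsum := sum_sw_le k A gg hgg (C₁ * L) hB
  have hbad : ((((inj k A).filter (fun h => ¬ sw A gg h ≤ C₂ * L)).card : ℝ)) * (C₂ * L)
      ≤ C₁ ^ (k + 1) * L ^ (k + 1) := by
    calc ((((inj k A).filter (fun h => ¬ sw A gg h ≤ C₂ * L)).card : ℝ)) * (C₂ * L)
        = ∑ h ∈ (inj k A).filter (fun h => ¬ sw A gg h ≤ C₂ * L), C₂ * L := by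
          rw [Finset.sum_const, nsmul_eq_mul]
      _ ≤ ∑ h ∈ (inj k A).filter (fun h => ¬ sw A gg h ≤ C₂ * L), sw A gg h := by
          refine Finset.sum_le_sum fun h hh => ?_
          rw [Finset.mem_filter] at hh
          linarith [not_le.mp hh.2]
      _ ≤ ∑ h ∈ inj k A, sw A gg h := by
          refine Finset.sum_le_sum_of_subset_of_nonneg (Finset.filter_subset _ _) ?_
          intro h _ _
          exact Finset.sum_nonneg fun b _ => Finset.prod_nonneg fun i _ => hgg _ _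
      _ ≤ A.card * (C₁ * L) ^ k := hsum
      _ ≤ (C₁ * L) * (C₁ * L) ^ k := by
          refine mul_le_mul_of_nonneg_right h2 (by positivity)
      _ = _ := by rw [← pow_succ', mul_pow]
  have hbad2 : ((((inj k A).filter (fun h => ¬ sw A gg h ≤ C₂ * L)).card : ℝ))
      ≤ (κ / 2) ^ k / 2 * L ^ k := by
    have e1 : C₁ ^ (k + 1) * L ^ (k + 1) = ((κ / 2) ^ k / 2 * L ^ k) * (C₂ * L) := by
      rw [hC₂, pow_succ L k]; field_simp
    rw [e1] at hbad
    exact le_of_mul_le_mul_right hbad (by positivity)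
  have hsplit : (((inj k A).filter (fun h => sw A gg h ≤ C₂ * L)).card : ℝ) +
      (((inj k A).filter (fun h => ¬ sw A gg h ≤ C₂ * L)).card : ℝ) = ((inj k A).card : ℝ) := by
    exact_mod_cast Finset.card_filter_add_card_filter_not (s := inj k A) (fun h => sw A gg h ≤ C₂ * L)
  nlinarith

/-- The integers in `I` attached to the tuple `h`. -/
noncomputable def T {k : ℕ} (r : ℕ) (I : Finset ℕ) (Pm Ro : ℕ → ℕ → Prop) (h : Fin k → ℕ) :
    Finset ℕ :=
  I.filter (fun n => (∀ i, Ro n (h i)) ∧ r ≤ (Finset.univ.filter (fun i => Pm n (h i))).card)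

/-- The other elements of `A` which are rough. -/
noncomputable def other {k : ℕ} (A : Finset ℕ) (Ro : ℕ → ℕ → Prop) (h : Fin k → ℕ) (n : ℕ) : ℕ :=
  (A.filter (fun b => (∀ i, h i ≠ b) ∧ Ro n b)).card

theorem few_many {k : ℕ} (r : ℕ) (I A : Finset ℕ) (Pm Ro : ℕ → ℕ → Prop)
    (gg : ℕ → ℕ → ℝ) (h : Fin k → ℕ) (c C C₂ L X q : ℝ) (hc : 0 < c) (hC : 0 < C) (hC₂ : 0 < C₂)
    (hL : 0 < L) (hX : 0 < X) (hq : 0 ≤ q) (hs : sw A gg h ≤ C₂ * L)
    (hlow : c * X * q ≤ ((T r I Pm Ro h).card : ℝ))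
    (hup : ∀ b ∈ A, (∀ i, h i ≠ b) →
      ((I.filter (fun n => (∀ i, Ro n (h i)) ∧ Ro n b)).card : ℝ) ≤
        C * X * q * ((∏ i, gg (h i) b) / L)) :
    c / 2 * X * q ≤ (((T r I Pm Ro h).filter
      (fun n => (other A Ro h n : ℝ) ≤ 2 * C * C₂ / c)).card : ℝ) := by
  set R₀ : ℝ := 2 * C * C₂ / c with hR
  have hR0 : 0 < R₀ := by positivity
  set J : Finset ℕ := I.filter (fun n => ∀ i, Ro n (h i)) with hJ
  have hsum : ∑ n ∈ J, (other A Ro h n : ℝ) ≤ C * C₂ * X * q := by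
    have e1 : ∑ n ∈ J, other A Ro h n =
        ∑ b ∈ A.filter (fun b => ∀ i, h i ≠ b),
          (I.filter (fun n => (∀ i, Ro n (h i)) ∧ Ro n b)).card := by
      unfold other
      simp only [Finset.card_filter]
      rw [hJ, Finset.sum_filter, Finset.sum_filter]
      have e2 : ∀ n ∈ I, (if (∀ i, Ro n (h i)) then
            ∑ b ∈ A, (if ((∀ i, h i ≠ b) ∧ Ro n b) then 1 else 0) else 0)
          = ∑ b ∈ A, (if (∀ i, h i ≠ b) then
            (if ((∀ i, Ro n (h i)) ∧ Ro n b) then 1 else 0) else 0) := by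
        intro n _
        by_cases hn : ∀ i, Ro n (h i)
        · rw [if_pos hn]
          refine Finset.sum_congr rfl fun b _ => ?_
          by_cases hb : ∀ i, h i ≠ b
          · by_cases hr : Ro n b
            · rw [if_pos ⟨hb, hr⟩, if_pos hb, if_pos ⟨hn, hr⟩]
            · rw [if_neg (fun hh => hr hh.2), if_pos hb, if_neg (fun hh => hr hh.2)]
          · rw [if_neg (fun hh => hb hh.1), if_neg hb]
        · rw [if_neg hn]
          symm
          refine Finset.sum_eq_zero fun b _ => ?_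
          by_cases hb : ∀ i, h i ≠ b
          · rw [if_pos hb, if_neg (fun hh => hn hh.1)]
          · rw [if_neg hb]
      rw [Finset.sum_congr rfl e2, Finset.sum_comm]
      refine Finset.sum_congr rfl fun b _ => ?_
      by_cases hb : ∀ i, h i ≠ b
      · simp only [if_pos hb]
      · simp only [if_neg hb, Finset.sum_const_zero]
    have e3 : ∑ n ∈ J, (other A Ro h n : ℝ) =
        ∑ b ∈ A.filter (fun b => ∀ i, h i ≠ b),
          ((I.filter (fun n => (∀ i, Ro n (h i)) ∧ Ro n b)).card : ℝ) := by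
      exact_mod_cast e1
    rw [e3]
    calc ∑ b ∈ A.filter (fun b => ∀ i, h i ≠ b),
          ((I.filter (fun n => (∀ i, Ro n (h i)) ∧ Ro n b)).card : ℝ)
        ≤ ∑ b ∈ A.filter (fun b => ∀ i, h i ≠ b), C * X * q * ((∏ i, gg (h i) b) / L) := by
          refine Finset.sum_le_sum fun b hb => ?_
          rw [Finset.mem_filter] at hb
          exact hup b hb.1 hb.2
      _ = C * X * q * (sw A gg h / L) := by
          rw [← Finset.mul_sum, ← Finset.sum_div]; rfl
      _ ≤ C * X * q * C₂ := by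
          refine mul_le_mul_of_nonneg_left ?_ (by positivity)
          rw [div_le_iff₀ hL]; exact hs
      _ = _ := by ring
  have hTJ : T r I Pm Ro h ⊆ J := by
    intro n hn
    unfold T at hn
    rw [Finset.mem_filter] at hn
    rw [hJ, Finset.mem_filter]
    exact ⟨hn.1, hn.2.1⟩
  have hbad : ((((T r I Pm Ro h).filter (fun n => ¬ (other A Ro h n : ℝ) ≤ R₀)).card : ℝ)) * R₀
      ≤ C * C₂ * X * q := by
    calc ((((T r I Pm Ro h).filter (fun n => ¬ (other A Ro h n : ℝ) ≤ R₀)).card : ℝ)) * R₀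
        = ∑ n ∈ (T r I Pm Ro h).filter (fun n => ¬ (other A Ro h n : ℝ) ≤ R₀), R₀ := by
          rw [Finset.sum_const, nsmul_eq_mul]
      _ ≤ ∑ n ∈ (T r I Pm Ro h).filter (fun n => ¬ (other A Ro h n : ℝ) ≤ R₀),
            (other A Ro h n : ℝ) := by
          refine Finset.sum_le_sum fun n hn => ?_
          rw [Finset.mem_filter] at hn
          exact (not_le.mp hn.2).le
      _ ≤ ∑ n ∈ J, (other A Ro h n : ℝ) := by
          refine Finset.sum_le_sum_of_subset_of_nonneg ?_ ?_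
          · exact (Finset.filter_subset _ _).trans hTJ
          · intro n _ _; positivity
      _ ≤ _ := hsum
  have hbad2 : ((((T r I Pm Ro h).filter (fun n => ¬ (other A Ro h n : ℝ) ≤ R₀)).card : ℝ))
      ≤ c / 2 * X * q := by
    have e1 : C * C₂ * X * q = (c / 2 * X * q) * R₀ := by
      rw [hR]; field_simp
    rw [e1] at hbad
    exact le_of_mul_le_mul_right hbad hR0
  have hsplit : (((T r I Pm Ro h).filter (fun n => (other A Ro h n : ℝ) ≤ R₀)).card : ℝ) +
      (((T r I Pm Ro h).filter (fun n => ¬ (other A Ro h n : ℝ) ≤ R₀)).card : ℝ)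
        = ((T r I Pm Ro h).card : ℝ) := by
    exact_mod_cast Finset.card_filter_add_card_filter_not (s := T r I Pm Ro h)
      (fun n => (other A Ro h n : ℝ) ≤ R₀)
  nlinarith

/-- Every integer belongs to few of the sets. -/
theorem double (r k : ℕ) (I A : Finset ℕ) (Pm Ro : ℕ → ℕ → Prop)
    (R₀ : ℝ) (hR₀ : 0 < R₀) (H : Finset (Fin k → ℕ)) (hH : H ⊆ inj k A) :
    ∑ h ∈ H, (((T r I Pm Ro h).filter (fun n => (other A Ro h n : ℝ) ≤ R₀)).card : ℝ) ≤
      ((I.filter (fun n => r ≤ (A.filter (fun a => Pm n a)).card)).card : ℝ) * (R₀ + k) ^ k := by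
  set F := I.filter (fun n => r ≤ (A.filter (fun a => Pm n a)).card) with hF
  have e1 : ∑ h ∈ H, ((T r I Pm Ro h).filter (fun n => (other A Ro h n : ℝ) ≤ R₀)).card =
      ∑ n ∈ F, (H.filter (fun h => n ∈ T r I Pm Ro h ∧ (other A Ro h n : ℝ) ≤ R₀)).card := by
    rw [← Finset.card_sigma, ← Finset.card_sigma]
    refine Finset.card_bij (fun p _ => ⟨p.2, p.1⟩) ?_ ?_ ?_
    · rintro ⟨h, n⟩ hp
      simp only [Finset.mem_sigma, Finset.mem_filter] at hp ⊢
      refine ⟨?_, hp.1, hp.2⟩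
      have hT := hp.2.1
      unfold T at hT
      rw [Finset.mem_filter] at hT
      rw [hF, Finset.mem_filter]
      refine ⟨hT.1, hT.2.2.trans ?_⟩
      have hinj := mem_inj.mp (hH hp.1)
      refine Finset.card_le_card_of_injOn h ?_ (hinj.2.injOn)
      intro i hi
      simp only [Finset.coe_filter, Finset.mem_univ, true_and, Set.mem_ofPred_eq] at hi ⊢
      exact ⟨hinj.1 i, hi⟩
    · rintro ⟨h, n⟩ _ ⟨h', n'⟩ _ hee
      simp only [Sigma.mk.injEq, heq_eq_eq] at hee ⊢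
      exact ⟨hee.2, hee.1⟩
    · rintro ⟨n, h⟩ hp
      simp only [Finset.mem_sigma, Finset.mem_filter] at hp
      exact ⟨⟨h, n⟩, by simp only [Finset.mem_sigma, Finset.mem_filter]; exact ⟨hp.2.1, hp.2.2⟩, rfl⟩
  have e2 : ∀ n ∈ F, ((H.filter (fun h => n ∈ T r I Pm Ro h ∧ (other A Ro h n : ℝ) ≤ R₀)).card : ℝ)
      ≤ (R₀ + k) ^ k := by
    intro n _
    by_cases hne : (H.filter (fun h => n ∈ T r I Pm Ro h ∧ (other A Ro h n : ℝ) ≤ R₀)).Nonempty
    · obtain ⟨h0, hh0⟩ := hne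
      rw [Finset.mem_filter] at hh0
      set B := A.filter (fun b => Ro n b) with hB
      have hBcard : (B.card : ℝ) ≤ R₀ + k := by
        have h3 : B ⊆ (A.filter (fun b => (∀ i, h0 i ≠ b) ∧ Ro n b)) ∪
            Finset.univ.image h0 := by
          intro b hb
          rw [hB, Finset.mem_filter] at hb
          rw [Finset.mem_union, Finset.mem_filter, Finset.mem_image]
          by_cases hbi : ∀ i, h0 i ≠ b
          · exact Or.inl ⟨hb.1, hbi, hb.2⟩
          · right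
            obtain ⟨i, hi⟩ := not_forall_not.mp hbi
            exact ⟨i, Finset.mem_univ _, hi⟩
        have h4 : B.card ≤ other A Ro h0 n + k := by
          refine (Finset.card_le_card h3).trans ((Finset.card_union_le _ _).trans ?_)
          refine Nat.add_le_add_left ?_ _
          refine Finset.card_image_le.trans ?_
          simp
        have h5 : (B.card : ℝ) ≤ (other A Ro h0 n : ℝ) + k := by exact_mod_cast h4
        linarith [hh0.2.2]
      have h6 : H.filter (fun h => n ∈ T r I Pm Ro h ∧ (other A Ro h n : ℝ) ≤ R₀) ⊆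
          Fintype.piFinset (fun _ : Fin k => B) := by
        intro h hh
        rw [Finset.mem_filter] at hh
        rw [Fintype.mem_piFinset]
        intro i
        have hT := hh.2.1
        unfold T at hT
        rw [Finset.mem_filter] at hT
        rw [hB, Finset.mem_filter]
        exact ⟨(mem_inj.mp (hH hh.1)).1 i, hT.2.1 i⟩
      have h7 := Finset.card_le_card h6
      rw [Fintype.card_piFinset, Finset.prod_const, Finset.card_univ, Fintype.card_fin] at h7
      calc ((H.filter (fun h => n ∈ T r I Pm Ro h ∧ (other A Ro h n : ℝ) ≤ R₀)).card : ℝ)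
          ≤ ((B.card ^ k : ℕ) : ℝ) := by exact_mod_cast h7
        _ = (B.card : ℝ) ^ k := by push_cast; rfl
        _ ≤ _ := pow_le_pow_left₀ (by positivity) hBcard k
    · rw [Finset.not_nonempty_iff_eq_empty] at hne
      rw [hne]
      simp only [Finset.card_empty, Nat.cast_zero]
      positivity
  calc ∑ h ∈ H, (((T r I Pm Ro h).filter (fun n => (other A Ro h n : ℝ) ≤ R₀)).card : ℝ)
      = ∑ n ∈ F, ((H.filter (fun h => n ∈ T r I Pm Ro h ∧ (other A Ro h n : ℝ) ≤ R₀)).card : ℝ) := by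
        exact_mod_cast e1
    _ ≤ ∑ n ∈ F, (R₀ + k) ^ k := Finset.sum_le_sum e2
    _ = _ := by rw [Finset.sum_const, nsmul_eq_mul]

end CombinAux

open CombinAux

theorem combin_two (r k : ℕ) (c C C₁ κ c₂ : ℝ) (hc : 0 < c) (hC : 0 < C) (hC₁ : 0 < C₁)
    (hκ : 0 < κ) (hc₂ : 0 < c₂) : ∃ c' : ℝ, 0 < c' ∧ ∃ L₀ : ℝ, ∀ L ≥ L₀,
    ∀ (I A : Finset ℕ) (Pm Ro : ℕ → ℕ → Prop) (X : ℝ) (Q : (Fin k → ℕ) → ℝ) (gg : ℕ → ℕ → ℝ),
    0 < X → (∀ a b, 0 ≤ gg a b) → κ * L ≤ A.card → (A.card : ℝ) ≤ C₁ * L →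
    (∀ b ∈ A, ∑ a ∈ A.erase b, gg a b ≤ C₁ * L) →
    (∀ n b, Pm n b → Ro n b) →
    (∀ h : Fin k → ℕ, Function.Injective h → (∀ i, h i ∈ A) → c₂ / L ^ k ≤ Q h) →
    (∀ h : Fin k → ℕ, Function.Injective h → (∀ i, h i ∈ A) →
      c * X * Q h ≤ ((I.filter (fun n => (∀ i, Ro n (h i)) ∧
        r ≤ (Finset.univ.filter (fun i => Pm n (h i))).card)).card : ℝ)) →
    (∀ h : Fin k → ℕ, Function.Injective h → (∀ i, h i ∈ A) → ∀ b ∈ A, (∀ i, h i ≠ b) →
      ((I.filter (fun n => (∀ i, Ro n (h i)) ∧ Ro n b)).card : ℝ) ≤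
        C * X * Q h * ((∏ i, gg (h i) b) / L)) →
    c' * X ≤ ((I.filter (fun n => r ≤ (A.filter (fun a => Pm n a)).card)).card : ℝ) := by
  set C₂ : ℝ := 2 * C₁ ^ (k + 1) / (κ / 2) ^ k with hC₂
  have hC₂0 : 0 < C₂ := by positivity
  set R₀ : ℝ := 2 * C * C₂ / c with hR
  have hR0 : 0 < R₀ := by positivity
  refine ⟨(κ / 2) ^ k / 2 * (c / 2 * c₂) / (R₀ + k) ^ k, by positivity, max 1 (2 * k / κ), ?_⟩
  intro L hL I A Pm Ro X Q gg hX hgg h1 h2 hB hPR hQ hlow hup
  have hL1 : 1 ≤ L := (le_max_left _ _).trans hL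
  have hL0 : 0 < L := by linarith
  have hkL : 2 * (k:ℝ) ≤ κ * L := by
    have := (le_max_right _ _).trans hL
    rw [div_le_iff₀ hκ] at this
    linarith
  have hk : 2 * k ≤ A.card := by
    have : (2 * (k:ℝ)) ≤ A.card := hkL.trans h1
    exact_mod_cast this
  set H := (inj k A).filter (fun h => sw A gg h ≤ C₂ * L) with hH
  have hgood := good_lower k A gg hgg κ C₁ L hκ hC₁ hL0 hk h1 h2 hB
  rw [← hC₂, ← hH] at hgood
  have hdouble := double r k I A Pm Ro R₀ hR0 H (Finset.filter_subset _ _)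
  have hLk : 0 < L ^ k := by positivity
  have heach : ∀ h ∈ H, c / 2 * X * (c₂ / L ^ k) ≤
      (((T r I Pm Ro h).filter (fun n => (other A Ro h n : ℝ) ≤ R₀)).card : ℝ) := by
    intro h hh
    rw [hH, Finset.mem_filter, mem_inj] at hh
    have hq := hQ h hh.1.2 hh.1.1
    have hq0 : 0 ≤ Q h := le_trans (by positivity) hq
    refine le_trans ?_ (few_many r I A Pm Ro gg h c C C₂ L X (Q h) hc hC hC₂0 hL0 hX hq0 hh.2
      (hlow h hh.1.2 hh.1.1) (hup h hh.1.2 hh.1.1))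
    exact mul_le_mul_of_nonneg_left hq (by positivity)
  have hsum : (H.card : ℝ) * (c / 2 * X * (c₂ / L ^ k)) ≤
      ∑ h ∈ H, (((T r I Pm Ro h).filter (fun n => (other A Ro h n : ℝ) ≤ R₀)).card : ℝ) := by
    rw [← nsmul_eq_mul, ← Finset.sum_const]
    exact Finset.sum_le_sum heach
  have hfin : (κ / 2) ^ k / 2 * (c / 2 * c₂) * X ≤
      ((I.filter (fun n => r ≤ (A.filter (fun a => Pm n a)).card)).card : ℝ) * (R₀ + k) ^ k := by
    refine le_trans ?_ (hsum.trans hdouble)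
    calc (κ / 2) ^ k / 2 * (c / 2 * c₂) * X
        = ((κ / 2) ^ k / 2 * L ^ k) * (c / 2 * X * (c₂ / L ^ k)) := by field_simp
      _ ≤ _ := mul_le_mul_of_nonneg_right hgood (by positivity)
  rw [div_mul_eq_mul_div, div_le_iff₀ (by positivity)]
  exact hfin

end Pool.Agent.Lib.MP
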