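import Pool.Agent.Lib.MP.Combin

/-!
# From k-tuples to many integers with r primes: explicit dependence on the size of the set
-/

open Finset
open scoped Classical

namespace Pool.Agent.Lib.MP

open CombinAux

/-- `combin_two` with polynomial dependence on `κ` and `C₁`. -/
theorem combin_poly (r k : ℕ) (c C c₂ : ℝ) (hc : 0 < c) (hC : 0 < C) (hc₂ : 0 < c₂) :
    ∃ c' : ℝ, 0 < c' ∧ ∀ (L κ C₁ : ℝ), 0 < L → 0 < κ → κ ≤ 1 → 1 ≤ C₁ →
    ∀ (I A : Finset ℕ) (Pm Ro : ℕ → ℕ → Prop) (X : ℝ) (Q : (Fin k → ℕ) → ℝ) (gg : ℕ → ℕ → ℝ),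
    0 < X → (∀ a b, 0 ≤ gg a b) → 2 * k ≤ A.card → κ * L ≤ A.card → (A.card : ℝ) ≤ C₁ * L →
    (∀ b ∈ A, ∑ a ∈ A.erase b, gg a b ≤ C₁ * L) →
    (∀ n b, Pm n b → Ro n b) →
    (∀ h : Fin k → ℕ, Function.Injective h → (∀ i, h i ∈ A) → c₂ / L ^ k ≤ Q h) →
    (∀ h : Fin k → ℕ, Function.Injective h → (∀ i, h i ∈ A) →
      c * X * Q h ≤ ((I.filter (fun n => (∀ i, Ro n (h i)) ∧
        r ≤ (Finset.univ.filter (fun i => Pm n (h i))).card)).card : ℝ)) →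
    (∀ h : Fin k → ℕ, Function.Injective h → (∀ i, h i ∈ A) → ∀ b ∈ A, (∀ i, h i ≠ b) →
      ((I.filter (fun n => (∀ i, Ro n (h i)) ∧ Ro n b)).card : ℝ) ≤
        C * X * Q h * ((∏ i, gg (h i) b) / L)) →
    c' * (κ / C₁) ^ (k * (k + 2)) * X ≤
      ((I.filter (fun n => r ≤ (A.filter (fun a => Pm n a)).card)).card : ℝ) := by
  set c' : ℝ := (1 / 2) ^ k / 2 * (c / 2 * c₂) / (4 * C * 2 ^ k / c + k) ^ k with hc'
  have hc'0 : 0 < c' := by positivity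
  refine ⟨c', hc'0, ?_⟩
  intro L κ C₁ hL0 hκ hκ1 hC₁1 I A Pm Ro X Q gg hX hgg hk h1 h2 hB hPR hQ hlow hup
  have hC₁ : 0 < C₁ := by linarith
  set C₂ : ℝ := 2 * C₁ ^ (k + 1) / (κ / 2) ^ k with hC₂
  have hC₂0 : 0 < C₂ := by positivity
  set R₀ : ℝ := 2 * C * C₂ / c with hR
  have hR0 : 0 < R₀ := by positivity
  set H := (inj k A).filter (fun h => sw A gg h ≤ C₂ * L) with hH
  have hgood := good_lower k A gg hgg κ C₁ L hκ hC₁ hL0 hk h1 h2 hB
  rw [← hC₂, ← hH] at hgood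
  have hdouble := double r k I A Pm Ro R₀ hR0 H (Finset.filter_subset _ _)
  have hLk : 0 < L ^ k := by positivity
  have heach : ∀ h ∈ H, c / 2 * X * (c₂ / L ^ k) ≤
      (((T r I Pm Ro h).filter (fun n => (other A Ro h n : ℝ) ≤ R₀)).card : ℝ) := by
    intro h hh
    rw [hH, Finset.mem_filter, mem_inj] at hh
    have hq := hQ h hh.1.2 hh.1.1
    have hq0 : 0 ≤ Q h := le_trans (by positivity) hq
    refine le_trans ?_ (few_many r I A Pm Ro gg h c C C₂ L X (Q h) hc hC hC₂0 hL0 hX hq0 hh.2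
      (hlow h hh.1.2 hh.1.1) (hup h hh.1.2 hh.1.1))
    exact mul_le_mul_of_nonneg_left hq (by positivity)
  have hsum : (H.card : ℝ) * (c / 2 * X * (c₂ / L ^ k)) ≤
      ∑ h ∈ H, (((T r I Pm Ro h).filter (fun n => (other A Ro h n : ℝ) ≤ R₀)).card : ℝ) := by
    rw [← nsmul_eq_mul, ← Finset.sum_const]
    exact Finset.sum_le_sum heach
  have hfin : (κ / 2) ^ k / 2 * (c / 2 * c₂) * X ≤
      ((I.filter (fun n => r ≤ (A.filter (fun a => Pm n a)).card)).card : ℝ) * (R₀ + k) ^ k := by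
    refine le_trans ?_ (hsum.trans hdouble)
    calc (κ / 2) ^ k / 2 * (c / 2 * c₂) * X
        = ((κ / 2) ^ k / 2 * L ^ k) * (c / 2 * X * (c₂ / L ^ k)) := by field_simp
      _ ≤ _ := mul_le_mul_of_nonneg_right hgood (by positivity)
  set F : ℝ := ((I.filter (fun n => r ≤ (A.filter (fun a => Pm n a)).card)).card : ℝ) with hF
  have hF0 : 0 ≤ F := by positivity
  set t : ℝ := C₁ / κ with ht
  have ht1 : 1 ≤ t := by
    rw [ht, le_div_iff₀ hκ]; linarith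
  have ht0 : 0 < t := by linarith
  -- `R₀ + k ≤ (4 C 2^k / c + k) t^(k+1)`
  have hC₂t : C₂ ≤ 2 * 2 ^ k * t ^ (k + 1) := by
    have e1 : C₂ = 2 * 2 ^ k * (C₁ ^ (k + 1) / κ ^ k) := by
      rw [hC₂, div_pow]; field_simp
    have e2 : C₁ ^ (k + 1) / κ ^ k ≤ t ^ (k + 1) := by
      rw [ht, div_pow, pow_succ κ k]
      refine div_le_div_of_nonneg_left (by positivity) (by positivity) ?_
      calc κ ^ k * κ ≤ κ ^ k * 1 := mul_le_mul_of_nonneg_left hκ1 (by positivity)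
        _ = κ ^ k := mul_one _
    rw [e1]
    exact mul_le_mul_of_nonneg_left e2 (by positivity)
  have hR₀t : R₀ + k ≤ (4 * C * 2 ^ k / c + k) * t ^ (k + 1) := by
    have h3 : R₀ ≤ 4 * C * 2 ^ k / c * t ^ (k + 1) := by
      rw [hR]
      calc 2 * C * C₂ / c ≤ 2 * C * (2 * 2 ^ k * t ^ (k + 1)) / c := by
            refine div_le_div_of_nonneg_right ?_ hc.le
            exact mul_le_mul_of_nonneg_left hC₂t (by positivity)
        _ = _ := by ring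
    have h4 : (k:ℝ) ≤ k * t ^ (k + 1) := by
      have : 1 ≤ t ^ (k + 1) := one_le_pow₀ ht1
      nlinarith [(Nat.cast_nonneg k : (0:ℝ) ≤ k)]
    calc R₀ + k ≤ 4 * C * 2 ^ k / c * t ^ (k + 1) + k * t ^ (k + 1) := add_le_add h3 h4
      _ = _ := by ring
  have hκt : (1 / t) ^ k ≤ κ ^ k := by
    refine pow_le_pow_left₀ (by positivity) ?_ k
    rw [ht, one_div_div]
    rw [div_le_iff₀ hC₁]
    nlinarith
  have hpow : (R₀ + k) ^ k ≤ (4 * C * 2 ^ k / c + k) ^ k * t ^ ((k + 1) * k) := by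
    calc (R₀ + k) ^ k ≤ ((4 * C * 2 ^ k / c + k) * t ^ (k + 1)) ^ k :=
          pow_le_pow_left₀ (by positivity) hR₀t k
      _ = _ := by rw [mul_pow, ← pow_mul]
  have hmain : (1 / 2) ^ k / 2 * (c / 2 * c₂) * (1 / t) ^ k * X ≤
      F * ((4 * C * 2 ^ k / c + k) ^ k * t ^ ((k + 1) * k)) := by
    calc (1 / 2) ^ k / 2 * (c / 2 * c₂) * (1 / t) ^ k * X
        ≤ (1 / 2) ^ k / 2 * (c / 2 * c₂) * κ ^ k * X := by
          refine mul_le_mul_of_nonneg_right ?_ hX.le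
          exact mul_le_mul_of_nonneg_left hκt (by positivity)
      _ = (κ / 2) ^ k / 2 * (c / 2 * c₂) * X := by
          rw [div_pow κ 2 k, one_div, inv_pow]; ring
      _ ≤ F * (R₀ + k) ^ k := hfin
      _ ≤ _ := mul_le_mul_of_nonneg_left hpow hF0
  have hκC : κ / C₁ = 1 / t := by rw [ht, one_div_div]
  rw [hκC]
  have hexp : (1 / t) ^ (k * (k + 2)) = (1 / t) ^ k * (1 / t) ^ ((k + 1) * k) := by
    rw [← pow_add]; congr 1; ring
  rw [hexp]
  have hden : 0 < (4 * C * 2 ^ k / c + k) ^ k * t ^ ((k + 1) * k) := by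
    have : 0 < 4 * C * 2 ^ k / c + k := by positivity
    positivity
  have hgoal : c' * ((1 / t) ^ k * (1 / t) ^ ((k + 1) * k)) * X =
      ((1 / 2) ^ k / 2 * (c / 2 * c₂) * (1 / t) ^ k * X) /
        ((4 * C * 2 ^ k / c + k) ^ k * t ^ ((k + 1) * k)) := by
    rw [hc', one_div t, inv_pow, inv_pow]
    have h5 : 0 < (4 * C * 2 ^ k / c + (k:ℝ)) := by positivity
    field_simp
  rw [hgoal, div_le_iff₀ hden]
  exact hmain

end Pool.Agent.Lib.MP
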