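import Pool.Agent.Lib.MP.Weighted
import Pool.Agent.Lib.MT.WeightMax

/-!
# Maynard's theorem for arbitrary shifts in [0, N]

PROOF SKETCH. As MT.Main. In weighted_two the terms with fewer than r primes are ≤ 0, the others are
≤ k wn ≤ k (2^(2k/δ+k) C (ν log N)^k)² (MT.wn_le with P = Pr (WN N h) R; the shifts are distinct modulo
p ∈ P by mem_Pr_WN). So the number of n is ≥ c' (N/W) GG (ν log N)^(k-2k), and ν ≤ DZ z
(nuN_bounds). ν > 0.
-/

open Finset
open scoped Classical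

namespace Pool.Agent.Lib.MP

open Pool.Agent.Lib.MT Pool.Agent.HLB

lemma card_rough_le3 {P : Finset ℕ} (hP : ∀ p ∈ P, p.Prime) (N : ℕ) (hN : 4 ≤ N) (δ : ℝ)
    (hδ : 0 < δ) (m : ℕ) (hm : 1 ≤ m) (hm2 : m ≤ 2 * N + N ^ 2)
    (hr : ∀ p ∈ P, p ∣ m → (N:ℝ) ^ δ < p) :
    ((P.filter (fun p => p ∣ m)).card : ℝ) ≤ 3 / δ := by
  set M := P.filter (fun p => p ∣ m) with hM
  have hdvd : ∏ p ∈ M, p ∣ m := by
    refine Finset.prod_primes_dvd m ?_ ?_
    · intro p hp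
      exact (hP p (Finset.mem_filter.mp hp).1).prime
    · intro p hp
      exact (Finset.mem_filter.mp hp).2
  have hle : ∏ p ∈ M, p ≤ m := Nat.le_of_dvd hm hdvd
  have hN0 : (0:ℝ) < N := by
    have : (4:ℝ) ≤ N := by exact_mod_cast hN
    linarith
  have hN1 : (1:ℝ) < N := by
    have : (4:ℝ) ≤ N := by exact_mod_cast hN
    linarith
  have h1 : ((N:ℝ) ^ δ) ^ M.card ≤ ∏ p ∈ M, (p:ℝ) := by
    rw [← Finset.prod_const]
    refine Finset.prod_le_prod (fun p _ => by positivity) ?_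
    intro p hp
    exact (hr p (Finset.mem_filter.mp hp).1 (Finset.mem_filter.mp hp).2).le
  have h2 : (∏ p ∈ M, (p:ℝ)) ≤ (N:ℝ) ^ (3:ℝ) := by
    have h3 : (∏ p ∈ M, (p:ℝ)) = ((∏ p ∈ M, p : ℕ) : ℝ) := by push_cast; rfl
    rw [h3]
    have h4 : m ≤ N ^ 3 := by
      refine hm2.trans ?_
      have e1 : 2 * N ≤ N * N * 2 := by nlinarith only [hN]
      have e2 : N ^ 3 = N * N * N := by ring
      have e3 : N * N * 3 ≤ N * N * N := Nat.mul_le_mul_left _ (by omega)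
      have e4 : N ^ 2 = N * N := by ring
      omega
    have h5 : (N:ℝ) ^ (3:ℝ) = ((N ^ 3 : ℕ) : ℝ) := by
      push_cast
      exact_mod_cast Real.rpow_natCast (N:ℝ) 3
    rw [h5]
    exact_mod_cast hle.trans h4
  have h5 : (N:ℝ) ^ (δ * M.card) ≤ (N:ℝ) ^ (3:ℝ) := by
    rw [Real.rpow_mul hN0.le, Real.rpow_natCast]
    exact h1.trans h2
  have h6 : δ * M.card ≤ 3 := (Real.rpow_le_rpow_left_iff hN1).mp h5
  rw [le_div_iff₀ hδ]
  linarith only [h6]

theorem wn_le3 {P : Finset ℕ} {k : ℕ} (hP : ∀ p ∈ P, p.Prime) (N : ℕ) (hN : 4 ≤ N) (δ : ℝ)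
    (hδ : 0 < δ) (h : Fin k → ℕ) (hh : ∀ p ∈ P, ∀ i j, i ≠ j → ¬ h i ≡ h j [MOD p])
    (hN' : ∀ i, h i ≤ N ^ 2)
    (lam : Asg P k → ℝ) (L : ℝ) (hL : ∀ s, |lam s| ≤ L) (n : ℕ) (hn : 1 ≤ n) (hn2 : n ≤ 2 * N)
    (hr : ∀ p ∈ P, ∀ i, p ∣ n + h i → (N:ℝ) ^ δ < p) :
    wn h lam n ≤ ((2:ℝ) ^ (3 * k / δ + k) * L) ^ 2 := by
  have hL0 : 0 ≤ L := (abs_nonneg _).trans (hL (fun _ => none))
  unfold wn
  rw [← sq_abs]
  refine pow_le_pow_left₀ (abs_nonneg _) ?_ 2
  rw [← Finset.sum_filter]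
  refine (Finset.abs_sum_le_sum_abs _ _).trans ?_
  refine (Finset.sum_le_card_nsmul _ _ L (fun s _ => hL s)).trans ?_
  rw [nsmul_eq_mul]
  refine mul_le_mul_of_nonneg_right ?_ hL0
  have h1 := card_hits_le (P := P) h hh n
  set M := (Finset.univ : Finset (Fin k)).biUnion (fun i => P.filter (fun p => p ∣ n + h i))
    with hM
  have h2 : (M.card : ℝ) ≤ 3 * k / δ := by
    have h3 : M.card ≤ ∑ i : Fin k, (P.filter (fun p => p ∣ n + h i)).card :=
      Finset.card_biUnion_le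
    have h4 : (M.card : ℝ) ≤ ∑ i : Fin k, ((P.filter (fun p => p ∣ n + h i)).card : ℝ) := by
      exact_mod_cast h3
    refine h4.trans ?_
    have h5 : ∀ i : Fin k, ((P.filter (fun p => p ∣ n + h i)).card : ℝ) ≤ 3 / δ := by
      intro i
      refine card_rough_le3 hP N hN δ hδ (n + h i) (by omega) ?_ (fun p hp hpd => hr p hp i hpd)
      exact Nat.add_le_add hn2 (hN' i)
    refine (Finset.sum_le_card_nsmul _ _ (3/δ) (fun i _ => h5 i)).trans ?_
    rw [nsmul_eq_mul, Finset.card_univ, Fintype.card_fin]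
    apply le_of_eq
    ring
  calc ((Finset.univ.filter (fun s : Asg P k => hits h n s)).card : ℝ)
      ≤ (2:ℝ) ^ M.card := by exact_mod_cast h1
    _ = (2:ℝ) ^ (M.card : ℝ) := by rw [Real.rpow_natCast]
    _ ≤ (2:ℝ) ^ (3 * k / δ + k : ℝ) := by
        refine Real.rpow_le_rpow_of_exponent_le (by norm_num) ?_
        have : (0:ℝ) ≤ k := Nat.cast_nonneg k
        linarith only [h2]

theorem maynard_two : ∃ B : ℕ, ∀ r : ℕ, ∃ (k : ℕ) (c δ : ℝ), k ≤ B ^ (r + 1) ∧ r ≤ k ∧ 1 ≤ k ∧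
    0 < c ∧ 0 < δ ∧ δ ≤ 1 ∧
    ∀ K₀ D : ℕ, 2 * k ≤ D → ∃ N₀ : ℕ, ∀ N ≥ N₀, ∀ v : ℕ,
    ∀ h : Fin k → ℕ, Function.Injective h → (∀ i, (h i : ℝ) ≤ N * Real.log N ^ K₀) →
    (∀ i, Nat.Coprime (v + h i) (primorial D)) →
    c * ((N:ℝ) / primorial D) * (GG (zN N) (primorial D) h / (DZ (zN N) * Real.log N) ^ k) ≤
      (((Finset.Ioc N (2*N)).filter (fun n => n ≡ v [MOD primorial D] ∧
        Rough ((N:ℝ) ^ δ) h n ∧
        r ≤ (Finset.univ.filter (fun i => (n + h i).Prime)).card)).card : ℝ) := by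
  obtain ⟨B₀, hB₀⟩ := weighted_two
  refine ⟨B₀, fun r => ?_⟩
  obtain ⟨k, J, c, C, δ, hkB, hrk, hk, hc, hC, hδ, H⟩ := hB₀ r
  set E : ℝ := (2:ℝ) ^ (3 * k / δ + k : ℝ) with hE
  have hE0 : 0 < E := by positivity
  have hk1 : (0:ℝ) < (k:ℝ) + 1 := by positivity
  refine ⟨k, c / ((k + 1) * (E * C) ^ 2), min δ 1, hkB, hrk, hk, by positivity,
    lt_min hδ one_pos, min_le_right _ _, ?_⟩
  intro K₀ D hD
  obtain ⟨N₀, HN⟩ := H K₀ D hD
  obtain ⟨N₁, HN1⟩ := nuN_bounds k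
  obtain ⟨N₂, HN2⟩ := Filter.eventually_atTop.1 (PrimeSumTwoAux.shift_facts K₀)
  refine ⟨max (max N₀ N₁) (max N₂ 4), ?_⟩
  intro N hN v h hinj hhN' hcop
  have hN2 : N₂ ≤ N := (le_max_left _ _).trans ((le_max_right _ _).trans hN)
  have hhN : ∀ i, h i ≤ N ^ 2 := by
    intro i
    have e1 : (h i : ℝ) ≤ (N:ℝ) * N :=
      (hhN' i).trans (mul_le_mul_of_nonneg_left (HN2 N hN2).1 (Nat.cast_nonneg _))
    rw [pow_two]
    exact_mod_cast e1
  have hN0 : N₀ ≤ N := (le_max_left _ _).trans ((le_max_left _ _).trans hN)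
  have hN1 : N₁ ≤ N := (le_max_right _ _).trans ((le_max_left _ _).trans hN)
  have hN4 : 4 ≤ N := (le_max_right _ _).trans ((le_max_right _ _).trans hN)
  obtain ⟨R, ρ, hR1, hR2, hsum, hlam⟩ := HN N hN0 v h hinj hhN' hcop
  obtain ⟨hν1, hν2⟩ := HN1 N hN1 h hinj hhN
  set W : ℕ := primorial D with hWdef
  have hW1 : 0 < W := primorial_pos D
  have hWr : (0:ℝ) < W := by exact_mod_cast hW1
  set lam : Asg (Pr (WN N h) R) k → ℝ := lamOf (yOf (gst ρ J) R) with hlamdef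
  set T : ℝ := nuN N h * Real.log N with hT
  set G : ℝ := GG (zN N) W h with hG
  have hN4r : (4:ℝ) ≤ N := by exact_mod_cast hN4
  have hWN : 0 < WN N h := by
    unfold WN Dl
    refine Nat.mul_pos (primorial_pos _) ?_
    refine Finset.prod_pos fun i _ => Finset.prod_pos fun j _ => ?_
    split_ifs with hij
    · exact one_pos
    · refine Int.natAbs_pos.mpr ?_
      rw [sub_ne_zero]
      exact fun hh => hij (hinj (by exact_mod_cast hh))
  have hdens : 0 < nuN N h := by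
    unfold nuN Pool.Agent.Lib.MT.dens
    have h1 : 0 < (WN N h).totient := Nat.totient_pos.mpr hWN
    have h2 : (0:ℝ) < (WN N h).totient := by exact_mod_cast h1
    have h3 : (0:ℝ) < WN N h := by exact_mod_cast hWN
    (clear * - hWN; positivity)
  have hDZ : 0 < DZ (zN N) := hdens.trans_le hν2
  have hlog : 0 < Real.log N := Real.log_pos (by linarith only [hN4r])
  have hT0 : 0 < T := mul_pos hdens hlog
  set X : ℕ → ℕ := fun n => (Finset.univ.filter (fun i : Fin k => (n + h i).Prime)).card with hX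
  set A := (Finset.Ioc N (2*N)).filter (fun n => n ≡ v [MOD W] ∧
        Rough ((N:ℝ) ^ δ) h n) with hA
  set B := A.filter (fun n => r ≤ X n) with hB
  have hXk : ∀ n, X n ≤ k := by
    intro n
    calc X n ≤ (Finset.univ : Finset (Fin k)).card := Finset.card_filter_le _ _
      _ = k := by simp
  -- the bound of the terms
  have hwn : ∀ n ∈ A, wn h lam n ≤ (E * C) ^ 2 * T ^ (2 * k) := by
    intro n hn
    have hn' := Finset.mem_filter.mp hn
    have hn1 := Finset.mem_Ioc.mp hn'.1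
    have hpr := mem_Pr_WN N R h hinj
    have h1 := wn_le3 (P := Pr (WN N h) R) (k := k)
      (fun p hp => (hpr p hp).1) N hN4 δ hδ h
      (fun p hp i j hij => (hpr p hp).2.2.2 i j hij) hhN lam (C * T ^ k) hlam n
      (by omega) hn1.2 (fun p hp i hpd => hn'.2.2 i p (hpr p hp).1 hpd)
    refine h1.trans (le_of_eq ?_)
    rw [← hE, pow_mul']
    ring
  have hsumle : ∑ n ∈ A, (((X n : ℕ) : ℝ) - ((r:ℝ) - 1)) * wn h lam n ≤
      (B.card : ℝ) * ((k + 1) * ((E * C) ^ 2 * T ^ (2 * k))) := by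
    have hcardsum : (B.card : ℝ) * ((k + 1) * ((E * C) ^ 2 * T ^ (2 * k))) =
        ∑ n ∈ A, if r ≤ X n then ((k:ℝ) + 1) * ((E * C) ^ 2 * T ^ (2 * k)) else 0 := by
      rw [← Finset.sum_filter, Finset.sum_const, nsmul_eq_mul]
    rw [hcardsum]
    refine Finset.sum_le_sum ?_
    intro n hn
    have hw0 : 0 ≤ wn h lam n := by unfold wn; exact sq_nonneg _
    split_ifs with hr
    · refine mul_le_mul ?_ (hwn n hn) hw0 hk1.le
      have h1 : ((X n : ℕ):ℝ) ≤ k := by exact_mod_cast hXk n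
      have h2 : (0:ℝ) ≤ r := Nat.cast_nonneg r
      linarith only [h1]
    · have h1 : X n + 1 ≤ r := by omega
      have h2 : ((X n : ℕ):ℝ) + 1 ≤ r := by exact_mod_cast h1
      exact mul_nonpos_of_nonpos_of_nonneg (by linarith only [h2]) hw0
  have hmain : c * ((N:ℝ) / W) * G * T ^ k ≤
      (B.card : ℝ) * ((k + 1) * ((E * C) ^ 2 * T ^ (2 * k))) := hsum.trans hsumle
  have hδle : (N:ℝ) ^ (min δ 1) ≤ (N:ℝ) ^ δ :=
    Real.rpow_le_rpow_of_exponent_le (by linarith only [hN4r]) (min_le_left _ _)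
  have hBsub : B ⊆ (Finset.Ioc N (2*N)).filter (fun n => n ≡ v [MOD W] ∧
        Rough ((N:ℝ) ^ (min δ 1)) h n ∧
        r ≤ (Finset.univ.filter (fun i => (n + h i).Prime)).card) := by
    intro n hn
    have hn1 := Finset.mem_filter.mp hn
    have hn2 := Finset.mem_filter.mp hn1.1
    refine Finset.mem_filter.mpr ⟨hn2.1, hn2.2.1, ?_, hn1.2⟩
    intro i p hp hpd
    exact hδle.trans_lt (hn2.2.2 i p hp hpd)
  have hcard : (B.card : ℝ) ≤ ((Finset.Ioc N (2*N)).filter (fun n => n ≡ v [MOD W] ∧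
        Rough ((N:ℝ) ^ (min δ 1)) h n ∧
        r ≤ (Finset.univ.filter (fun i => (n + h i).Prime)).card)).card := by
    exact_mod_cast Finset.card_le_card hBsub
  refine le_trans ?_ hcard
  have hTk : 0 < T ^ k := by (clear * - hdens hlog; positivity)
  -- division by `T ^ k`
  have h3 : c / ((k + 1) * (E * C) ^ 2) * ((N:ℝ) / W) * (G / T ^ k) ≤ B.card := by
    have h4 : c / ((k + 1) * (E * C) ^ 2) * ((N:ℝ) / W) * (G / T ^ k) =
        (c * ((N:ℝ) / W) * G * T ^ k) / ((k + 1) * ((E * C) ^ 2 * T ^ (2 * k))) := by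
      rw [two_mul, pow_add]
      field_simp
    rw [h4, div_le_iff₀ (by (clear * - hk hC hdens hlog; positivity))]
    exact hmain
  rcases le_or_gt G 0 with hG0 | hG0
  · have h5 : G / (DZ (zN N) * Real.log N) ^ k ≤ 0 :=
      div_nonpos_of_nonpos_of_nonneg hG0 (by (clear * - hDZ hlog; positivity))
    have h6 : 0 ≤ c / ((k + 1) * (E * C) ^ 2) * ((N:ℝ) / W) := by (clear * - hk hc hC hN4 hW1; positivity)
    exact (mul_nonpos_of_nonneg_of_nonpos h6 h5).trans (Nat.cast_nonneg _)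
  · refine le_trans ?_ h3
    refine mul_le_mul_of_nonneg_left ?_ (by (clear * - hk hc hC hN4 hW1; positivity))
    refine div_le_div_of_nonneg_left hG0.le hTk ?_
    exact pow_le_pow_left₀ hT0.le (mul_le_mul_of_nonneg_right hν2 hlog.le) k

end Pool.Agent.Lib.MP
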