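import Pool.Agent.Lib.MP.PDat
import Pool.Agent.Lib.MP.Params
import Pool.Agent.Lib.MP.PreOne
import Pool.Agent.Lib.MP.Ratio
import Pool.Agent.Lib.MP.RoughForm
import Pool.Agent.Lib.MT.Cheb
import Pool.Agent.Lib.MT.LamMax
import Pool.Agent.Lib.MT.NonRoughAux
import Pool.Agent.Lib.MT.Perturb
import Pool.Agent.Lib.MT.SOneUpper

/-!
# The weights live on rough integers

Analogue of MT.NonRough. W = primorial D, z = zN N, P = Pr (WN N h) R, ν = nuN N h, ℓ = 1 + log z,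
lam = lamOf (yOf (gst ρ J) R).

PROOF SKETCH. Union bound over the primes z < p ≤ N^δ (≤ ρ ≤ R because δ ≤ η) and i < k. If p ∤ Dl h
then p ∈ P: s1_pre_dvd (ε = 1) and rough_form_two; if p ∣ Dl h: s1_pre_ext, sOne_upper. With
B'' = sum1 P κ₂ g² ≤ exp(2/z) B ≤ 8 B (sum1_kappa2_le, sum_kappa1_sq_le), B ≤ 12 C₀ ν log ρ
(params_two; ℓ ≤ log ρ for N large):
(1) (N/W) GG · 2 k · 2 C₀ ν B''^(k-1) ∑_{p ≤ N^δ} (log p + ℓ)/p ≤ C (N/W) GG (ν log ρ)^(k-1) ν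
(δ log N + (1 + log z)(1 + log log N)) ≤ C' (N/W) GG (ν log ρ)^k (δ/η), as log ρ ≥ η log N and
log z ≤ log log N (MT.Cheb);
(2) (N/W) GG · 2 k · 2 k² B''^k ∑_{p > z} κ₁(p)²/p ≤ C (N/W) GG (ν log ρ)^k / z;
(3) p ∣ Dl h: (N/W) GG · 2 k B''^k ∑ 1/p, small by bad_sum;
(4) errors: 2 k N^δ (z+1)^K (∑|lam|)² ≤ N^(1/2) for N large (sum_abs_lam_le, R ≤ N^(1/100), last item
of params_two), and N^(1/2) ≤ (δ/η) (N/W) GG (ν log ρ)^k because W is fixed, GG ≥ c (DZ z)^k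
(GG_lower), DZ z ≥ 1/z ≥ 1/log N and ν ≥ DZ z/2.
-/

open Finset
open scoped Classical

namespace Pool.Agent.Lib.MP

open Pool.Agent.Lib.MT Pool.Agent.HLB

namespace NonRoughAux

/-- The primes in `(z, X]`. -/
noncomputable def QZ (z : ℕ) (X : ℝ) : Finset ℕ :=
  (Finset.Icc 1 ⌊X⌋₊).filter (fun p => p.Prime ∧ z < p)

theorem mem_QZ {z : ℕ} {X : ℝ} {p : ℕ} (hX : 0 ≤ X) :
    p ∈ QZ z X ↔ p.Prime ∧ z < p ∧ (p:ℝ) ≤ X := by
  unfold QZ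
  rw [mem_filter, mem_Icc]
  constructor
  · rintro ⟨⟨_, h2⟩, h3, h4⟩
    exact ⟨h3, h4, (Nat.le_floor_iff hX).1 h2⟩
  · rintro ⟨h1, h2, h3⟩
    exact ⟨⟨h1.one_lt.le, (Nat.le_floor_iff hX).2 h3⟩, h1, h2⟩

/-- The union bound. -/
theorem union_bound {P : Finset ℕ} {k : ℕ} (N W v z : ℕ) (X : ℝ) (hX : 0 ≤ X) (A : ℕ → Prop)
    (h : Fin k → ℕ) (lam : Asg P k → ℝ) :
    ∑ n ∈ (Finset.Ioc N (2*N)).filter (fun n => n ≡ v [MOD W] ∧ A n ∧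
        ∃ p : ℕ, p.Prime ∧ z < p ∧ (p:ℝ) ≤ X ∧ ∃ i, p ∣ n + h i), wn h lam n ≤
      ∑ p ∈ QZ z X, ∑ i₀ : Fin k,
        ∑ n ∈ (Finset.Ioc N (2*N)).filter (fun n => n ≡ v [MOD W] ∧ A n ∧ p ∣ n + h i₀),
          wn h lam n := by
  have hwn : ∀ n, 0 ≤ wn h lam n := fun n => by unfold wn; exact sq_nonneg _
  set Q := QZ z X with hQ
  have hterm0 : ∀ (p n : ℕ) (i₀ : Fin k), 0 ≤ (if p ∣ n + h i₀ then wn h lam n else 0) := by
    intro p n i₀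
    split_ifs
    · exact hwn n
    · exact le_refl _
  have h1 : ∀ n ∈ (Finset.Ioc N (2*N)).filter (fun n => n ≡ v [MOD W] ∧ A n ∧
        ∃ p : ℕ, p.Prime ∧ z < p ∧ (p:ℝ) ≤ X ∧ ∃ i, p ∣ n + h i), wn h lam n ≤
        ∑ p₀ ∈ Q, ∑ i₀ : Fin k, if p₀ ∣ n + h i₀ then wn h lam n else 0 := by
    intro n hn
    rw [mem_filter] at hn
    obtain ⟨_, _, _, p, hp, hpz, hpX, i, hi⟩ := hn
    have hpQ : p ∈ Q := by
      rw [hQ, mem_QZ hX]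
      exact ⟨hp, hpz, hpX⟩
    have h2 : ∀ p₀ ∈ Q, 0 ≤ ∑ i₀ : Fin k, if p₀ ∣ n + h i₀ then wn h lam n else 0 := by
      intro p₀ _
      exact Finset.sum_nonneg fun i₀ _ => hterm0 p₀ n i₀
    refine le_trans ?_ (Finset.single_le_sum h2 hpQ)
    refine le_trans ?_ (Finset.single_le_sum (s := (univ : Finset (Fin k)))
      (f := fun i₀ : Fin k => if p ∣ n + h i₀ then wn h lam n else 0)
      (fun i₀ _ => hterm0 p n i₀) (Finset.mem_univ i))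
    rw [if_pos hi]
  refine (Finset.sum_le_sum h1).trans ?_
  have hsub : (Finset.Ioc N (2*N)).filter (fun n => n ≡ v [MOD W] ∧ A n ∧
        ∃ p : ℕ, p.Prime ∧ z < p ∧ (p:ℝ) ≤ X ∧ ∃ i, p ∣ n + h i) ⊆
        (Finset.Ioc N (2*N)).filter (fun n => n ≡ v [MOD W] ∧ A n) := by
    intro n hn
    rw [mem_filter] at hn ⊢
    exact ⟨hn.1, hn.2.1, hn.2.2.1⟩
  refine (Finset.sum_le_sum_of_subset_of_nonneg hsub ?_).trans ?_
  · intro n _ _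
    exact Finset.sum_nonneg fun p₀ _ => Finset.sum_nonneg fun i₀ _ => hterm0 p₀ n i₀
  · rw [Finset.sum_comm]
    refine le_of_eq (Finset.sum_congr rfl fun p₀ _ => ?_)
    rw [Finset.sum_comm]
    refine Finset.sum_congr rfl fun i₀ _ => ?_
    rw [← Finset.sum_filter, Finset.filter_filter]
    refine Finset.sum_congr ?_ fun _ _ => rfl
    refine Finset.filter_congr fun n _ => ?_
    rw [and_assoc]

theorem sum_QZ_le (z : ℕ) (X : ℝ) (f : ℕ → ℝ) (hf : ∀ p, 1 ≤ p → 0 ≤ f p) :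
    ∑ p ∈ QZ z X, f p ≤ ∑ p ∈ (Finset.Icc 1 ⌊X⌋₊).filter Nat.Prime, f p := by
  refine Finset.sum_le_sum_of_subset_of_nonneg ?_ ?_
  · intro p hp
    unfold QZ at hp
    rw [mem_filter] at hp ⊢
    exact ⟨hp.1, hp.2.1⟩
  · intro p hp _
    rw [mem_filter, mem_Icc] at hp
    exact hf p hp.1.1

theorem card_QZ_le (z : ℕ) (X : ℝ) (hX : 0 ≤ X) : ((QZ z X).card : ℝ) ≤ X := by
  have h1 : (QZ z X).card ≤ ⌊X⌋₊ := by
    unfold QZ
    refine (Finset.card_filter_le _ _).trans ?_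
    rw [Nat.card_Icc, Nat.add_sub_cancel]
  calc ((QZ z X).card : ℝ) ≤ (⌊X⌋₊ : ℝ) := by exact_mod_cast h1
    _ ≤ X := Nat.floor_le hX

theorem Dl_ne_zero {k : ℕ} {h : Fin k → ℕ} (hinj : Function.Injective h) : Dl h ≠ 0 := by
  unfold Dl
  refine Finset.prod_ne_zero_iff.2 fun i _ => Finset.prod_ne_zero_iff.2 fun j _ => ?_
  split_ifs with hij
  · exact one_ne_zero
  · rw [Int.natAbs_ne_zero, sub_ne_zero]
    intro h1
    exact hij (hinj (by exact_mod_cast h1))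

theorem bad_le {z : ℕ} {X : ℝ} {k : ℕ} {h : Fin k → ℕ} (hinj : Function.Injective h) {ε : ℝ}
    (hb : ∑ p ∈ (Dl h).primeFactors.filter (fun p => z < p), 1 / (p:ℝ) ≤ ε) :
    ∑ p ∈ QZ z X, (if p ∣ Dl h then 1 / (p:ℝ) else 0) ≤ ε := by
  rw [← Finset.sum_filter]
  refine le_trans ?_ hb
  refine Finset.sum_le_sum_of_subset_of_nonneg ?_ fun p _ _ => by positivity
  intro p hp
  unfold QZ at hp
  rw [mem_filter, mem_filter] at hp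
  rw [mem_filter, Nat.mem_primeFactors]
  exact ⟨⟨hp.1.2.1, hp.2, Dl_ne_zero hinj⟩, hp.1.2.2⟩

theorem not_dvd_primorial {D p : ℕ} (hp : p.Prime) (h : D < p) : ¬ p ∣ primorial D := by
  intro h1
  have := (hp.dvd_primorial_iff).1 h1
  omega

theorem mem_Pr_of {N R p k : ℕ} {h : Fin k → ℕ} (hp : p.Prime) (hz : zN N < p) (hR : p ≤ R)
    (hD : ¬ p ∣ Dl h) : p ∈ Pr (WN N h) R := by
  unfold Pr WN
  rw [mem_filter, mem_Icc]
  refine ⟨⟨hp.one_lt.le, hR⟩, hp, ?_⟩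
  rw [hp.dvd_mul]
  rintro (h1 | h1)
  · exact not_dvd_primorial hp hz h1
  · exact hD h1

theorem notMem_Pr_of {N R p k : ℕ} {h : Fin k → ℕ} (hD : p ∣ Dl h) : p ∉ Pr (WN N h) R := by
  unfold Pr WN
  rw [mem_filter]
  rintro ⟨_, _, h1⟩
  exact h1 (Dvd.dvd.mul_left hD _)

/-- algebra for one prime of `P` -/
theorem alg_one {M p G C ν lp ℓ bm bm1 c κ E : ℝ} (hp : 1 ≤ p) (hM : 0 ≤ M) (hG : 0 ≤ G)
    (hb : 0 ≤ bm1) (x : ℝ)
    (hx : x ≤ 2 * C * ν * (lp + ℓ) * bm + 2 * (c * κ) ^ 2 * bm1) :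
    (1 + 1) * (M / p) * G * x + E ≤
      M * G * (4 * C * ν * bm * (lp / p + ℓ * (1 / p)) + 4 * c ^ 2 * bm1 * κ ^ 2
        + 2 * bm1 * 0) + E := by
  have hp0 : 0 < p := by linarith
  have h1 : (1 + 1) * (M / p) * G * x ≤ (1 + 1) * (M / p) * G *
      (2 * C * ν * (lp + ℓ) * bm + 2 * (c * κ) ^ 2 * bm1) :=
    mul_le_mul_of_nonneg_left hx (by positivity)
  have h2 : (1 + 1) * (M / p) * G * (2 * C * ν * (lp + ℓ) * bm + 2 * (c * κ) ^ 2 * bm1)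
      = M * G * (4 * C * ν * bm * (lp / p + ℓ * (1 / p)) + 4 * c ^ 2 * bm1 * κ ^ 2 * (1 / p)) := by
    field_simp
    ring
  have h3 : 1 / p ≤ 1 := by rw [div_le_one hp0]; exact hp
  have h4 : 4 * c ^ 2 * bm1 * κ ^ 2 * (1 / p) ≤ 4 * c ^ 2 * bm1 * κ ^ 2 * 1 :=
    mul_le_mul_of_nonneg_left h3 (by positivity)
  have h5 : M * G * (4 * C * ν * bm * (lp / p + ℓ * (1 / p)) + 4 * c ^ 2 * bm1 * κ ^ 2 * (1 / p))
      ≤ M * G * (4 * C * ν * bm * (lp / p + ℓ * (1 / p)) + 4 * c ^ 2 * bm1 * κ ^ 2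
        + 2 * bm1 * 0) :=
    mul_le_mul_of_nonneg_left (by linarith) (by positivity)
  linarith

/-- algebra for one prime outside `P` -/
theorem alg_two {M p G C ν lp ℓ bm bm1 c κ E : ℝ} (hp : 1 ≤ p) (hM : 0 ≤ M) (hG : 0 ≤ G)
    (hb : 0 ≤ bm1) (hC : 0 ≤ C) (hν : 0 ≤ ν) (hlp : 0 ≤ lp) (hℓ : 0 ≤ ℓ) (hbm : 0 ≤ bm) (x : ℝ)
    (hx : x ≤ bm1) :
    (1 + 1) * (M / p) * G * x + E ≤
      M * G * (4 * C * ν * bm * (lp / p + ℓ * (1 / p)) + 4 * c ^ 2 * bm1 * κ ^ 2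
        + 2 * bm1 * (1 / p)) + E := by
  have hp0 : 0 < p := by linarith
  have h1 : (1 + 1) * (M / p) * G * x ≤ (1 + 1) * (M / p) * G * bm1 :=
    mul_le_mul_of_nonneg_left hx (by positivity)
  have h2 : (1 + 1) * (M / p) * G * bm1 = M * G * (2 * bm1 * (1 / p)) := by
    field_simp
    ring
  have h3 : 0 ≤ 4 * C * ν * bm * (lp / p + ℓ * (1 / p)) := by positivity
  have h4 : 0 ≤ 4 * c ^ 2 * bm1 * κ ^ 2 := by positivity
  have h5 : M * G * (2 * bm1 * (1 / p)) ≤ M * G * (4 * C * ν * bm * (lp / p + ℓ * (1 / p))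
      + 4 * c ^ 2 * bm1 * κ ^ 2 + 2 * bm1 * (1 / p)) :=
    mul_le_mul_of_nonneg_left (by linarith only [h3, h4]) (by positivity)
  linarith only [h1, h2, h5]

theorem pair_bound (m : ℕ) : ∃ K : ℕ, ∀ (C₀ ν ℓ : ℝ) (N R ρ J D v : ℕ) (X : ℝ)
    (h : Fin (m + 1) → ℕ), 1 ≤ C₀ → PD C₀ (Pr (WN N h) R) R ν ℓ → 1 ≤ ρ → ρ ^ (2 ^ J) ≤ R →
    2 * (m + 1) ≤ D → D ≤ zN N → Function.Injective h → 0 ≤ X → X ≤ R →
    ∀ b : ℝ, sum1 (Pr (WN N h) R) κ₂ (fun a => (gst ρ J a) ^ 2) ≤ b →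
    ∀ p ∈ QZ (zN N) X, ∀ i₀ : Fin (m + 1),
    ∑ n ∈ (Finset.Ioc N (2*N)).filter (fun n => n ≡ v [MOD primorial D] ∧
        Avoid (zN N) (primorial D) h n ∧ p ∣ n + h i₀),
      wn h (lamOf (yOf (gst ρ J) R : Asg (Pr (WN N h) R) (m + 1) → ℝ)) n ≤
    ((N:ℝ) / primorial D) * GG (zN N) (primorial D) h *
      (4 * C₀ * ν * b ^ m * (Real.log p / (p:ℝ) + ℓ * (1 / (p:ℝ))) +
        4 * ((m + 1 : ℕ) : ℝ) ^ 2 * b ^ (m + 1) * (κ₁ p) ^ 2 +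
        2 * b ^ (m + 1) * (if p ∣ Dl h then 1 / (p:ℝ) else 0)) +
      ((zN N : ℝ) + 1) ^ K *
        (∑ s, |lamOf (yOf (gst ρ J) R : Asg (Pr (WN N h) R) (m + 1) → ℝ) s|) ^ 2 := by
  obtain ⟨K₁, hK₁⟩ := s1_pre_dvd (m + 1) (ε := 1) one_pos
  obtain ⟨K₂, hK₂⟩ := s1_pre_ext (m + 1) (ε := 1) one_pos
  refine ⟨max K₁ K₂, fun C₀ ν ℓ N R ρ J D v X h hC₀ H hρ hρR hD hDz hinj hX hXR b hb p hp i₀ => ?_⟩
  rw [mem_QZ hX] at hp
  obtain ⟨hpp, hpz, hpX⟩ := hp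
  set P := Pr (WN N h) R with hPdef
  set W := primorial D with hW
  have hW1 : 1 ≤ W := (primorial_pos D)
  have hPall : ∀ q ∈ P, q.Prime ∧ zN N < q ∧ ¬ q ∣ W := by
    intro q hq
    obtain ⟨h1, h2, _, _⟩ := mem_Pr_WN N R h hinj q hq
    exact ⟨h1, h2, not_dvd_primorial h1 (lt_of_le_of_lt hDz h2)⟩
  have hhP : ∀ q ∈ P, ∀ i j, i ≠ j → ¬ h i ≡ h j [MOD q] := fun q hq =>
    (mem_Pr_WN N R h hinj q hq).2.2.2
  have hPk : ∀ q ∈ P, m + 1 ≤ q := by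
    intro q hq
    have := (hPall q hq).2.1
    omega
  have hPk2 : ∀ q ∈ P, ((m + 1 : ℕ) : ℝ) ≤ (q : ℝ) ∧ (0:ℝ) < (q:ℝ) := by
    intro q hq
    have h1 := hPk q hq
    refine ⟨by exact_mod_cast h1, ?_⟩
    have : 0 < q := by omega
    exact_mod_cast this
  have hpR : p ≤ R := by exact_mod_cast hpX.trans hXR
  have hp1 : (1:ℝ) ≤ (p:ℝ) := by exact_mod_cast hpp.one_lt.le
  have hp0 : (0:ℝ) < (p:ℝ) := by linarith only [hp1]
  have hM : 0 ≤ (N:ℝ) / W := by (clear * - hW1; positivity)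
  have hG := (GG_le_one (zN N) W h).1
  set B2 := sum1 P κ₂ (fun a => (gst ρ J a) ^ 2) with hB2def
  have hB20 : 0 ≤ B2 := by
    rw [hB2def]
    unfold sum1
    exact Finset.sum_nonneg fun T _ => mul_nonneg (sq_nonneg _)
      (Finset.prod_nonneg fun p _ => RoughFormAux.kappa2_nonneg p)
  have hb0 : 0 ≤ b := hB20.trans hb
  have hpw1 : B2 ^ m ≤ b ^ m := pow_le_pow_left₀ hB20 hb m
  have hpw2 : B2 ^ (m + 1) ≤ b ^ (m + 1) := pow_le_pow_left₀ hB20 hb (m + 1)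
  have hlogp : 0 ≤ Real.log (p:ℝ) := Real.log_nonneg hp1
  have hν := H.νpos
  have hℓ := H.ℓge
  have hz1 : (1:ℝ) ≤ (zN N : ℝ) + 1 := by
    have : (0:ℝ) ≤ (zN N : ℝ) := Nat.cast_nonneg _
    linarith
  set lam := (lamOf (yOf (gst ρ J) R : Asg P (m + 1) → ℝ)) with hlam
  by_cases hpD : p ∣ Dl h
  · rw [if_pos hpD]
    have hpP : p ∉ P := notMem_Pr_of hpD
    have hform0 := formK_nonneg (fun q => (q:ℝ)) hPk2 lam
    have h1 := hK₂ (zN N) N W v P hW1 hPall h hhP lam hform0 p hpp hpz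
      (not_dvd_primorial hpp (lt_of_le_of_lt hDz hpz)) hpP i₀
    have h2 := sOne_upper (P := P) (k := m + 1) (fun q hq => ⟨(hPall q hq).1.two_le, hPk q hq⟩)
      (gst ρ J) (gst_nonneg ρ J) R
    refine h1.trans ?_
    have h3 : ((zN N : ℝ) + 1) ^ K₂ * (∑ s, |lam s|) ^ 2 ≤
        ((zN N : ℝ) + 1) ^ (max K₁ K₂) * (∑ s, |lam s|) ^ 2 :=
      mul_le_mul_of_nonneg_right (pow_le_pow_right₀ hz1 (le_max_right _ _)) (sq_nonneg _)
    refine (add_le_add (le_refl _) h3).trans ?_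
    have e1 : (N:ℝ) / (W * (p:ℝ)) = (N:ℝ) / W / p := by rw [div_div]
    rw [e1]
    exact alg_two hp1 hM hG (pow_nonneg hb0 _) (by linarith only [hC₀]) hν.le hlogp (by linarith only [hℓ])
      (pow_nonneg hb0 _) _ (h2.trans hpw2)
  · rw [if_neg hpD]
    have hpP : p ∈ P := mem_Pr_of hpp hpz hpR hpD
    have hform0 := formK_nonneg (fun q => (q:ℝ)) hPk2 (lamp ⟨p, hpP⟩ i₀ lam)
    have h1 := hK₁ (zN N) N W v P hW1 hPall h hhP lam ⟨p, hpP⟩ i₀ hform0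
    have h2 := rough_form_two hC₀ H (m + 1) ρ J (by omega) hρ hρR hPk ⟨p, hpP⟩ i₀
    simp only [Nat.add_sub_cancel] at h2
    refine h1.trans ?_
    have h3 : ((zN N : ℝ) + 1) ^ K₁ * (∑ s, |lam s|) ^ 2 ≤
        ((zN N : ℝ) + 1) ^ (max K₁ K₂) * (∑ s, |lam s|) ^ 2 :=
      mul_le_mul_of_nonneg_right (pow_le_pow_right₀ hz1 (le_max_left _ _)) (sq_nonneg _)
    refine (add_le_add (le_refl _) h3).trans ?_
    have e1 : (N:ℝ) / (W * (p:ℝ)) = (N:ℝ) / W / p := by rw [div_div]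
    rw [e1]
    refine alg_one hp1 hM hG (pow_nonneg hb0 _) _ (h2.trans (add_le_add ?_ ?_))
    · exact mul_le_mul_of_nonneg_left hpw1 (by (clear * - hC₀ hν hℓ; positivity))
    · exact mul_le_mul_of_nonneg_left hpw2 (by (clear * -; positivity))

/-- Summation over the primes and the components. -/
theorem total_sum (m : ℕ) (Q : Finset ℕ) (M a ℓ c d E : ℝ) (f u κ w : ℕ → ℝ) :
    ∑ p ∈ Q, ∑ _i : Fin (m + 1), (M * (a * (f p + ℓ * u p) + c * κ p + d * w p) + E) =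
      ((m + 1 : ℕ) : ℝ) * (M * (a * (∑ p ∈ Q, f p + ℓ * ∑ p ∈ Q, u p) + c * ∑ p ∈ Q, κ p
        + d * ∑ p ∈ Q, w p)) + ((m + 1 : ℕ) : ℝ) * ((Q.card : ℝ) * E) := by
  have h7 : ∀ p ∈ Q, ∑ _i : Fin (m + 1), (M * (a * (f p + ℓ * u p) + c * κ p + d * w p) + E) =
      ((m + 1 : ℕ) : ℝ) * (M * (a * (f p + ℓ * u p) + c * κ p + d * w p) + E) := by
    intro p _
    rw [Finset.sum_const, Finset.card_univ, Fintype.card_fin, nsmul_eq_mul]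
  rw [Finset.sum_congr rfl h7, ← Finset.mul_sum, Finset.sum_add_distrib, Finset.sum_const,
    nsmul_eq_mul, ← Finset.mul_sum, Finset.sum_add_distrib, Finset.sum_add_distrib,
    ← Finset.mul_sum, ← Finset.mul_sum, ← Finset.mul_sum, Finset.sum_add_distrib,
    ← Finset.mul_sum]
  ring

theorem sum_part {δ η ℓN ll ℓ C₃ C₄ S1 S2 lρ : ℝ} (hη : 0 < η) (hδ : 0 < δ) (hC₃ : 0 < C₃)
    (h1 : S1 ≤ C₃ * (δ * ℓN)) (h2 : S2 ≤ C₄ * (1 + ll))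
    (h2' : 0 ≤ S2) (hℓ0 : 0 ≤ ℓ) (hℓ : ℓ ≤ 1 + ll) (h3 : C₄ * (1 + ll) ^ 2 ≤ δ * ℓN)
    (h4 : η * ℓN ≤ lρ) : S1 + ℓ * S2 ≤ (C₃ + 1) * (δ / η) * lρ := by
  have h5 : ℓ * S2 ≤ δ * ℓN := by
    calc ℓ * S2 ≤ (1 + ll) * (C₄ * (1 + ll)) := mul_le_mul hℓ h2 h2' (hℓ0.trans hℓ)
      _ = C₄ * (1 + ll) ^ 2 := by ring
      _ ≤ δ * ℓN := h3
  calc S1 + ℓ * S2 ≤ C₃ * (δ * ℓN) + δ * ℓN := add_le_add h1 h5
    _ = (C₃ + 1) * (δ / η) * (η * ℓN) := by field_simp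
    _ ≤ (C₃ + 1) * (δ / η) * lρ := mul_le_mul_of_nonneg_left h4 (by positivity)

theorem main_alg {m : ℕ} {C₀ C₃ δη ν lρ L T κs w : ℝ} (hL : L = ν * lρ) (hν : 0 ≤ ν)
    (hC₀ : 0 ≤ C₀) (hL0 : 0 ≤ L)
    (hT : T ≤ (C₃ + 1) * δη * lρ) (hκ : κs ≤ δη) (hw : w ≤ δη) :
    4 * C₀ * ν * (96 * C₀ * L) ^ m * T + 4 * ((m + 1 : ℕ) : ℝ) ^ 2 * (96 * C₀ * L) ^ (m + 1) * κs
      + 2 * (96 * C₀ * L) ^ (m + 1) * w ≤
    (4 * C₀ * (96 * C₀) ^ m * (C₃ + 1) + 4 * ((m + 1 : ℕ) : ℝ) ^ 2 * (96 * C₀) ^ (m + 1)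
      + 2 * (96 * C₀) ^ (m + 1)) * δη * L ^ (m + 1) := by
  have h1 : 4 * C₀ * ν * (96 * C₀ * L) ^ m * T ≤
      4 * C₀ * ν * (96 * C₀ * L) ^ m * ((C₃ + 1) * δη * lρ) :=
    mul_le_mul_of_nonneg_left hT (by positivity)
  have h2 : 4 * C₀ * ν * (96 * C₀ * L) ^ m * ((C₃ + 1) * δη * lρ) =
      4 * C₀ * (96 * C₀) ^ m * (C₃ + 1) * δη * L ^ (m + 1) := by
    rw [mul_pow, pow_succ]
    have e : L ^ m * L = L ^ m * (ν * lρ) := by rw [hL]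
    rw [e]
    ring
  have h3 : 4 * ((m + 1 : ℕ) : ℝ) ^ 2 * (96 * C₀ * L) ^ (m + 1) * κs ≤
      4 * ((m + 1 : ℕ) : ℝ) ^ 2 * (96 * C₀ * L) ^ (m + 1) * δη :=
    mul_le_mul_of_nonneg_left hκ (by positivity)
  have h4 : 2 * (96 * C₀ * L) ^ (m + 1) * w ≤ 2 * (96 * C₀ * L) ^ (m + 1) * δη :=
    mul_le_mul_of_nonneg_left hw (by positivity)
  have h5 : (96 * C₀ * L) ^ (m + 1) = (96 * C₀) ^ (m + 1) * L ^ (m + 1) := mul_pow _ _ _
  rw [h5] at h3 h4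
  rw [h5]
  calc _ ≤ 4 * C₀ * (96 * C₀) ^ m * (C₃ + 1) * δη * L ^ (m + 1) +
        4 * ((m + 1 : ℕ) : ℝ) ^ 2 * ((96 * C₀) ^ (m + 1) * L ^ (m + 1)) * δη +
        2 * ((96 * C₀) ^ (m + 1) * L ^ (m + 1)) * δη := by linarith only [h1, h2, h3, h4]
    _ = _ := by ring

theorem err_bound {m K : ℕ} {N ℓ C z S c X : ℝ} (hN : 1 ≤ N) (hℓ : 0 ≤ ℓ) (hC : 0 ≤ C)
    (hz0 : 0 ≤ z) (hz : z + 1 ≤ 2 * ℓ) (hS0 : 0 ≤ S)
    (hS : S ≤ N ^ (1/100 : ℝ) * (2 * ℓ) ^ (m + 1) * (C * ℓ) ^ (m + 1))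
    (hc : c ≤ X) (hX : X ≤ N ^ (1/4 : ℝ))
    (h4 : (((m + 1 : ℕ) : ℝ) * 2 ^ K * (2 * C) ^ (2 * (m + 1))) * ℓ ^ (K + 4 * (m + 1)) ≤
      N ^ (23/100 : ℝ)) :
    ((m + 1 : ℕ) : ℝ) * (c * ((z + 1) ^ K * S ^ 2)) ≤ N ^ (1/2 : ℝ) := by
  have hN0 : 0 < N := by linarith
  have h1 : S ^ 2 ≤ (N ^ (1/100 : ℝ) * (2 * ℓ) ^ (m + 1) * (C * ℓ) ^ (m + 1)) ^ 2 :=
    pow_le_pow_left₀ hS0 hS 2
  have h2 : (z + 1) ^ K ≤ (2 * ℓ) ^ K := pow_le_pow_left₀ (by linarith only [hz0]) hz K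
  calc ((m + 1 : ℕ) : ℝ) * (c * ((z + 1) ^ K * S ^ 2))
      ≤ ((m + 1 : ℕ) : ℝ) * (N ^ (1/4 : ℝ) * ((2 * ℓ) ^ K *
        (N ^ (1/100 : ℝ) * (2 * ℓ) ^ (m + 1) * (C * ℓ) ^ (m + 1)) ^ 2)) := by
        refine mul_le_mul_of_nonneg_left ?_ (Nat.cast_nonneg _)
        refine mul_le_mul (hc.trans hX) (mul_le_mul h2 h1 (sq_nonneg _) (by positivity))
          (by positivity) (by positivity)
    _ = (N ^ (1/4 : ℝ) * (N ^ (1/100 : ℝ)) ^ 2) *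
        ((((m + 1 : ℕ) : ℝ) * 2 ^ K * (2 * C) ^ (2 * (m + 1))) * ℓ ^ (K + 4 * (m + 1))) := by
        rw [MT.NonRoughAux.pow_identity, mul_pow 2 ℓ K, pow_add]
        ring
    _ ≤ (N ^ (1/4 : ℝ) * (N ^ (1/100 : ℝ)) ^ 2) * N ^ (23/100 : ℝ) :=
        mul_le_mul_of_nonneg_left h4 (by positivity)
    _ = N ^ (1/2 : ℝ) := by
        rw [← Real.rpow_natCast (N ^ (1/100 : ℝ)) 2, ← Real.rpow_mul hN0.le,
          ← Real.rpow_add hN0, ← Real.rpow_add hN0]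
        norm_num

theorem low_bound {m : ℕ} {N ℓ c W G L q : ℝ} (hN : 1 ≤ N) (hℓ : 0 < ℓ) (hc : 0 < c) (hW : 0 < W)
    (hq : 0 < q) (hG : c * (1 / ℓ) ^ (m + 1) ≤ G) (hL : 1 / (2 * ℓ) ≤ L)
    (h5 : (W * 2 ^ (m + 1) / (q * c)) * ℓ ^ (2 * (m + 1)) ≤ N ^ (1/2 : ℝ)) :
    N ^ (1/2 : ℝ) ≤ q * (N / W) * G * L ^ (m + 1) := by
  have hN0 : 0 < N := by linarith
  have h1 : (1 / (2 * ℓ)) ^ (m + 1) ≤ L ^ (m + 1) := pow_le_pow_left₀ (by positivity) hL _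
  have h2 : 0 < c * (1 / ℓ) ^ (m + 1) := by positivity
  have h3 : q * (N / W) * (c * (1 / ℓ) ^ (m + 1)) * (1 / (2 * ℓ)) ^ (m + 1) ≤
      q * (N / W) * G * L ^ (m + 1) := by
    refine mul_le_mul ?_ h1 (by positivity) (by have := h2.le.trans hG; positivity)
    exact mul_le_mul_of_nonneg_left hG (by positivity)
  refine le_trans ?_ h3
  have e : q * (N / W) * (c * (1 / ℓ) ^ (m + 1)) * (1 / (2 * ℓ)) ^ (m + 1) =
      N / ((W * 2 ^ (m + 1) / (q * c)) * ℓ ^ (2 * (m + 1))) := by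
    have e1 : ℓ ^ (2 * (m + 1)) = ℓ ^ (m + 1) * ℓ ^ (m + 1) := by
      rw [← pow_add]; congr 1; ring
    rw [e1, one_div_pow, one_div_pow, mul_pow]
    field_simp
  rw [e, le_div_iff₀ (by positivity)]
  calc N ^ (1/2 : ℝ) * ((W * 2 ^ (m + 1) / (q * c)) * ℓ ^ (2 * (m + 1)))
      ≤ N ^ (1/2 : ℝ) * N ^ (1/2 : ℝ) := mul_le_mul_of_nonneg_left h5 (by positivity)
    _ = N := by rw [← Real.rpow_add hN0]; norm_num

end NonRoughAux

open NonRoughAux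

theorem nonrough_two (k J : ℕ) (hk : 1 ≤ k) : ∃ C : ℝ, 1 ≤ C ∧ ∀ (D : ℕ) (δ η : ℝ), 0 < δ →
    δ ≤ 1/4 → δ ≤ η → 2 * k ≤ D → ∃ N₀ : ℕ, ∀ N ≥ N₀, ∀ (v R ρ : ℕ),
    (N:ℝ) ^ η ≤ ρ → ρ ^ (2 ^ J) ≤ R → (R:ℝ) ≤ (N:ℝ) ^ (1/100 : ℝ) →
    ∀ h : Fin k → ℕ, Function.Injective h → (∀ i, h i ≤ N ^ 2) →
    ∑ n ∈ (Finset.Ioc N (2*N)).filter (fun n => n ≡ v [MOD primorial D] ∧
        Avoid (zN N) (primorial D) h n ∧
        ∃ p : ℕ, p.Prime ∧ zN N < p ∧ (p:ℝ) ≤ (N:ℝ) ^ δ ∧ ∃ i, p ∣ n + h i),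
      wn h (lamOf (yOf (gst ρ J) R : Asg (Pr (WN N h) R) k → ℝ)) n ≤
    C * (δ / η) * ((N:ℝ) / primorial D) * GG (zN N) (primorial D) h *
      (nuN N h * Real.log ρ) ^ k := by
  obtain ⟨C₀, hC₀1, hpd⟩ := pd_all
  obtain ⟨C₃, hC₃0, hC₃⟩ := sum_log_div_le
  obtain ⟨C₄, hC₄0, hC₄⟩ := sum_inv_le
  obtain ⟨m, rfl⟩ : ∃ m, k = m + 1 := ⟨k - 1, by omega⟩
  obtain ⟨K, hpair⟩ := pair_bound m
  obtain ⟨cG, hcG0, hGl⟩ := GG_lower (m + 1)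
  obtain ⟨Npd, hNpd⟩ := hpd (m + 1)
  obtain ⟨Nnu, hNnu⟩ := nuN_bounds (m + 1)
  set c₁ : ℝ := 4 * C₀ * (96 * C₀) ^ m * (C₃ + 1) + 4 * ((m + 1 : ℕ) : ℝ) ^ 2 *
    (96 * C₀) ^ (m + 1) + 2 * (96 * C₀) ^ (m + 1) with hc₁
  have hC₀0 : 0 < C₀ := by linarith only [hC₀1]
  have hc₁0 : 0 ≤ c₁ := by rw [hc₁]; positivity
  have hCm : 0 ≤ ((m + 1 : ℕ) : ℝ) * c₁ := mul_nonneg (Nat.cast_nonneg _) hc₁0
  refine ⟨((m + 1 : ℕ) : ℝ) * c₁ + 1, by linarith only [hCm], fun D δ η hδ hδ4 hδη hD => ?_⟩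
  have hη : 0 < η := lt_of_lt_of_le hδ hδη
  have hq0 : 0 < δ / η := div_pos hδ hη
  obtain ⟨Nbad, hNbad⟩ := bad_sum (m + 1) (ε := δ / η) hq0
  have hWpos : (0:ℝ) < (primorial D : ℝ) := by exact_mod_cast primorial_pos D
  -- the conditions on `N`
  have hlogT : Filter.Tendsto (fun N : ℕ => Real.log N) Filter.atTop Filter.atTop :=
    Real.tendsto_log_atTop.comp tendsto_natCast_atTop_atTop
  have hloglog : Filter.Tendsto (fun N : ℕ => Real.log (Real.log N)) Filter.atTop Filter.atTop :=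
    Real.tendsto_log_atTop.comp hlogT
  have ev1 : ∀ᶠ N : ℕ in Filter.atTop, (Real.log (Real.log N)) ^ 2 ≤
      ((min (δ / C₄) η) / 4) * Real.log N := by
    have hmin : 0 < (min (δ / C₄) η) / 4 := by
      have : 0 < min (δ / C₄) η := lt_min (div_pos hδ hC₄0) hη
      linarith only [this]
    have h1 := (Real.isLittleO_pow_log_id_atTop (n := 2)).bound hmin
    have h2 := hlogT.eventually h1
    filter_upwards [h2, hlogT.eventually_ge_atTop 0] with N hN hN0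
    have hN' : ‖(Real.log (Real.log N)) ^ 2‖ ≤ ((min (δ / C₄) η) / 4) * ‖Real.log N‖ := hN
    rw [Real.norm_of_nonneg hN0] at hN'
    exact (le_abs_self _).trans hN'
  have ev2 := hloglog.eventually_ge_atTop 1
  have ev3 := hlogT.eventually_ge_atTop (max ((D:ℝ) + 3) (max (2 * η / δ + 1) (2 / δ)))
  have ev4 := MT.NonRoughAux.log_pow_le_rpow (((m + 1 : ℕ) : ℝ) * 2 ^ K *
    (2 * (12 * C₀)) ^ (2 * (m + 1))) (23/100) (by (clear * - hC₀1; positivity)) (by norm_num) (K + 4 * (m + 1))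
  have ev5 := MT.NonRoughAux.log_pow_le_rpow ((primorial D : ℝ) * 2 ^ (m + 1) / ((δ / η) * cG))
    (1/2) (by (clear * - hcG0 hδ hη hWpos; positivity)) (by norm_num) (2 * (m + 1))
  obtain ⟨N₀, hN₀⟩ := Filter.eventually_atTop.1 (ev1.and (ev2.and (ev3.and (ev4.and (ev5.and
    ((Filter.eventually_ge_atTop 1).and ((Filter.eventually_ge_atTop Npd).and
    ((Filter.eventually_ge_atTop Nnu).and (Filter.eventually_ge_atTop Nbad)))))))))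
  refine ⟨N₀, fun N hN v R ρ hρ hρR hRN h hinj hhN => ?_⟩
  obtain ⟨h1, h2, h3, h4, h5, h6, h7, h8, h9⟩ := hN₀ N hN
  set ℓN := Real.log N with hℓN
  set ll := Real.log ℓN with hll
  have hℓD : (D:ℝ) + 3 ≤ ℓN := (le_max_left _ _).trans h3
  have hℓη : 2 * η / δ + 1 ≤ ℓN := (le_max_left _ _).trans ((le_max_right _ _).trans h3)
  have hℓδ : 2 / δ ≤ ℓN := (le_max_right _ _).trans ((le_max_right _ _).trans h3)
  have hD0 : (0:ℝ) ≤ D := Nat.cast_nonneg D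
  have hℓ0 : 0 < ℓN := by linarith only [hδ, hδ4, hℓD]
  have hδℓ : 2 ≤ δ * ℓN := by
    rw [div_le_iff₀ hδ] at hℓδ; linarith only [hℓδ]
  have hN0 : (0:ℝ) < N := by exact_mod_cast h6
  have hN1 : (1:ℝ) ≤ N := by exact_mod_cast h6
  -- `z`
  set z := zN N with hz
  have hzle : (z:ℝ) ≤ ℓN := by
    rw [hz]; unfold zN; exact Nat.floor_le hℓ0.le
  have hzge : ℓN - 1 < (z:ℝ) := by
    rw [hz]; unfold zN
    have := Nat.lt_floor_add_one (Real.log N)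
    rw [← hℓN] at this ⊢
    linarith only [this]
  have hDz : D ≤ z := by
    have : (D:ℝ) ≤ (z:ℝ) := by linarith only [hδ, hδ4, hℓD, hzge]
    exact_mod_cast this
  have hz2 : 2 ≤ z := by
    have : (2:ℝ) ≤ (z:ℝ) := by linarith only [hℓD, hzge]
    exact_mod_cast this
  have hz0 : (0:ℝ) < (z:ℝ) := by
    have : 0 < z := by omega
    exact_mod_cast this
  have hlogz : Real.log z ≤ ll := Real.log_le_log hz0 hzle
  have hlogz0 : 0 ≤ Real.log z := Real.log_natCast_nonneg z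
  have h2z : 2 / (z:ℝ) ≤ δ / η := by
    rw [div_le_div_iff₀ hz0 hη]
    have h10 : 2 * η / δ ≤ (z:ℝ) := by linarith only [hℓη, hzge]
    rw [div_le_iff₀ hδ] at h10
    linarith only [h10]
  -- the iterated logarithm
  have hll1 : 1 ≤ ll := h2
  have hll4 : (1 + ll) ^ 2 ≤ min (δ / C₄) η * ℓN := by
    have h10 : (1 + ll) ^ 2 ≤ 4 * ll ^ 2 := by
      calc (1 + ll) ^ 2 ≤ (2 * ll) ^ 2 := pow_le_pow_left₀ (by linarith only [hδ, hδ4, h2]) (by linarith only [h2]) 2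
        _ = 4 * ll ^ 2 := by ring
    linarith only [h1, h10]
  have h1a : C₄ * (1 + ll) ^ 2 ≤ δ * ℓN := by
    have h10 : (1 + ll) ^ 2 ≤ δ / C₄ * ℓN :=
      hll4.trans (mul_le_mul_of_nonneg_right (min_le_left _ _) hℓ0.le)
    calc C₄ * (1 + ll) ^ 2 ≤ C₄ * (δ / C₄ * ℓN) := mul_le_mul_of_nonneg_left h10 hC₄0.le
      _ = δ * ℓN := by field_simp
  have h1b : 1 + ll ≤ η * ℓN := by
    have h10 : (1 + ll) ^ 2 ≤ η * ℓN :=
      hll4.trans (mul_le_mul_of_nonneg_right (min_le_right _ _) hℓ0.le)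
    exact (le_self_pow₀ (by linarith only [hδ, hδ4, h2]) two_ne_zero).trans h10
  -- `ρ`
  have hNη0 : 0 < (N:ℝ) ^ η := Real.rpow_pos_of_pos hN0 η
  have hρ0 : (0:ℝ) < ρ := lt_of_lt_of_le hNη0 hρ
  have hlogρ : η * ℓN ≤ Real.log ρ := by
    have := Real.log_le_log hNη0 hρ
    rwa [Real.log_rpow hN0] at this
  have hlogρ0 : 1 ≤ Real.log ρ := by linarith only [hδ, hδ4, h2, h1b, hlogρ]
  have hρ2 : 2 ≤ ρ := by
    by_contra hcon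
    have h11 : ρ ≤ 1 := by omega
    have h12 : Real.log ρ ≤ 0 := by
      have : (ρ:ℝ) ≤ 1 := by exact_mod_cast h11
      exact Real.log_nonpos hρ0.le this
    linarith only [hδ, hδ4, h2, h1b, hlogρ, h12]
  have hℓlogρ : 1 + Real.log z ≤ Real.log ρ := by linarith only [hlogz, h1b, hlogρ]
  have hρR' : ρ ≤ R := le_trans (by
    calc ρ = ρ ^ 1 := (pow_one ρ).symm
      _ ≤ ρ ^ (2 ^ J) := Nat.pow_le_pow_right (by omega) (Nat.one_le_two_pow)) hρR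
  have hR1 : 1 ≤ R := by omega
  have hR1' : (1:ℝ) ≤ R := by exact_mod_cast hR1
  have hR0 : (0:ℝ) < R := by linarith only [hδ, hδ4, hR1']
  have hRN' : (R:ℝ) ≤ N := by
    refine hRN.trans ?_
    calc (N:ℝ) ^ (1/100 : ℝ) ≤ (N:ℝ) ^ (1:ℝ) :=
          Real.rpow_le_rpow_of_exponent_le hN1 (by norm_num)
      _ = N := Real.rpow_one _
  have hRNn : R ≤ N := by exact_mod_cast hRN'
  have hlogR0 : 0 ≤ Real.log R := Real.log_nonneg hR1'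
  have hlogR : Real.log R ≤ ℓN := Real.log_le_log hR0 hRN'
  -- the sieving primes
  have H := hNpd N h7 h hinj hhN R hR1 hRNn
  set P := Pr (WN N h) R with hP
  set ν := nuN N h with hνdef
  have hν0 := H.νpos
  have hν1 := H.νle
  have hνlow : DZ z / 2 ≤ ν := (hNnu N h8 h hinj hhN).1
  have hDZ : 1 / ℓN ≤ DZ z := by
    have h10 := DZ_ge z (by omega)
    refine le_trans ?_ h10
    rw [one_div]
    exact inv_anti₀ hz0 hzle
  set L := ν * Real.log ρ with hL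
  have hL0 : 0 ≤ L := mul_nonneg hν0.le (by linarith only [hδ, hδ4, h2, h1b, hlogρ])
  have hLlow : 1 / (2 * ℓN) ≤ L := by
    have h10 : 1 / (2 * ℓN) = (1 / ℓN) / 2 := by field_simp
    rw [h10]
    calc (1 / ℓN) / 2 ≤ DZ z / 2 := by linarith only [hDZ]
      _ ≤ ν := hνlow
      _ = ν * 1 := (mul_one ν).symm
      _ ≤ L := mul_le_mul_of_nonneg_left hlogρ0 hν0.le
  obtain ⟨_, _, hB, _, hF⟩ := params_two hC₀1 H ρ J hρ2 hρR hℓlogρ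
  set B := sum1 P κ₁ (fun a => (gst ρ J a) ^ 2) with hBdef
  set F := sum1 P κ₁ (fun a => if a ≤ R then 1 else 0) with hFdef
  have hPz : ∀ p ∈ P, z < p := fun p hp => (mem_Pr_WN N R h hinj p hp).2.1
  have hκsq := sum_kappa1_sq_le P z (by omega) hPz
  have hg2 : Antitone (fun a => (gst ρ J a) ^ 2) := fun a b hab =>
    pow_le_pow_left₀ (gst_nonneg ρ J b) (gst_antitone ρ J hab) 2
  have hκnn : ∀ T ∈ P.powerset, 0 ≤ ∏ p ∈ T, κ₁ p := fun T hT =>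
    Finset.prod_nonneg fun p hp => MT.RoughFormAux.kappa1_nonneg
      ((H.prime p (Finset.mem_powerset.1 hT hp)).one_lt.le)
  have hB2 : sum1 P κ₂ (fun a => (gst ρ J a) ^ 2) ≤ 96 * C₀ * L := by
    have h10 := sum1_kappa2_le P (fun p hp => (H.prime p hp).two_le)
      (fun a => (gst ρ J a) ^ 2) hg2 (fun a => sq_nonneg _)
    have h11 : Real.exp (∑ p ∈ P, (κ₁ p) ^ 2) ≤ 8 := by
      have h12 : ∑ p ∈ P, (κ₁ p) ^ 2 ≤ 2 := by
        refine hκsq.trans ?_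
        rw [div_le_iff₀ hz0]
        have : (2:ℝ) ≤ z := by exact_mod_cast hz2
        linarith only [hδ, hδ4, hℓD, hzge]
      exact (Real.exp_le_exp.2 h12).trans MT.NonRoughAux.exp_two_le
    have hB0 : 0 ≤ B := by
      rw [hBdef]
      unfold sum1
      exact Finset.sum_nonneg fun T hT => mul_nonneg (sq_nonneg _) (hκnn T hT)
    calc sum1 P κ₂ (fun a => (gst ρ J a) ^ 2) ≤ Real.exp (∑ p ∈ P, (κ₁ p) ^ 2) * B := h10
      _ ≤ 8 * B := mul_le_mul_of_nonneg_right h11 hB0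
      _ ≤ 8 * (12 * C₀ * ν * Real.log ρ) := by linarith only [hB]
      _ = 96 * C₀ * L := by rw [hL]; ring
  have hF0 : 0 ≤ F := by
    rw [hFdef]
    unfold sum1
    refine Finset.sum_nonneg fun T hT => mul_nonneg ?_ (hκnn T hT)
    simp only
    split_ifs <;> norm_num
  have hF1 : F ≤ 12 * C₀ * ℓN := by
    calc F ≤ 12 * C₀ * ν * Real.log R := hF
      _ ≤ 12 * C₀ * 1 * ℓN := by
          apply mul_le_mul (mul_le_mul_of_nonneg_left hν1 (by linarith only [hC₀1, hδ, hδ4])) hlogR hlogR0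
          linarith only [hC₀1, hδ, hδ4]
      _ = 12 * C₀ * ℓN := by ring
  -- the primes up to `X`
  set X := (N:ℝ) ^ δ with hX
  have hX0 : 0 < X := Real.rpow_pos_of_pos hN0 δ
  have hlogX : Real.log X = δ * ℓN := Real.log_rpow hN0 δ
  have hXR : X ≤ R := by
    calc X ≤ (N:ℝ) ^ η := Real.rpow_le_rpow_of_exponent_le hN1 hδη
      _ ≤ ρ := hρ
      _ ≤ R := by exact_mod_cast hρR'
  have hX4 : 4 ≤ X := by
    have h10 : Real.exp 2 ≤ X := by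
      rw [← Real.exp_log hX0, hlogX]
      exact Real.exp_le_exp.2 hδℓ
    exact MT.NonRoughAux.four_le_exp_two.trans h10
  have hX3 : 3 ≤ ⌊X⌋₊ := Nat.le_floor (by push_cast; linarith only [hδ, hδ4, hX4])
  have hfloorX : ((⌊X⌋₊ : ℕ) : ℝ) ≤ X := Nat.floor_le hX0.le
  have hfloor0 : (0:ℝ) < ((⌊X⌋₊ : ℕ) : ℝ) := by
    have : 0 < ⌊X⌋₊ := by omega
    exact_mod_cast this
  set Q := QZ z X with hQ
  have hsum1 : ∑ p ∈ Q, Real.log p / (p:ℝ) ≤ C₃ * (δ * ℓN) := by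
    have h10 := sum_QZ_le z X (fun p => Real.log p / (p:ℝ)) (fun p _ =>
      div_nonneg (Real.log_natCast_nonneg p) (Nat.cast_nonneg p))
    refine h10.trans ((hC₃ ⌊X⌋₊ (by omega)).trans ?_)
    refine mul_le_mul_of_nonneg_left ?_ hC₃0.le
    rw [← hlogX]
    exact Real.log_le_log hfloor0 hfloorX
  have hsum2 : ∑ p ∈ Q, 1 / (p:ℝ) ≤ C₄ * (1 + ll) := by
    have h10 := sum_QZ_le z X (fun p => 1 / (p:ℝ)) (fun p _ =>
      div_nonneg zero_le_one (Nat.cast_nonneg p))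
    refine h10.trans ((hC₄ ⌊X⌋₊ hX3).trans ?_)
    refine mul_le_mul_of_nonneg_left ?_ hC₄0.le
    have h11 : 0 < Real.log ((⌊X⌋₊ : ℕ) : ℝ) := Real.log_pos (by
      have : 1 < ⌊X⌋₊ := by omega
      exact_mod_cast this)
    have h12 : Real.log ((⌊X⌋₊ : ℕ) : ℝ) ≤ ℓN := by
      have h13 := Real.log_le_log hfloor0 hfloorX
      rw [hlogX] at h13
      have : δ * ℓN ≤ 1 * ℓN := mul_le_mul_of_nonneg_right (by linarith only [hδ, hδ4]) hℓ0.le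
      linarith only [h13, this]
    have h14 := Real.log_le_log h11 h12
    linarith only [h14]
  have hsum2' : 0 ≤ ∑ p ∈ Q, 1 / (p:ℝ) := Finset.sum_nonneg fun p _ => by (clear * -; positivity)
  have hsum3 : ∑ p ∈ Q, (κ₁ p) ^ 2 ≤ δ / η := by
    refine le_trans (sum_kappa1_sq_le Q z (by omega) fun p hp => ?_) h2z
    rw [hQ, mem_QZ hX0.le] at hp
    exact hp.2.1
  have hsum4 : ∑ p ∈ Q, (if p ∣ Dl h then 1 / (p:ℝ) else 0) ≤ δ / η :=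
    bad_le hinj (hNbad N h9 h hinj hhN)
  -- assembly
  set lam := (lamOf (yOf (gst ρ J) R : Asg P (m + 1) → ℝ)) with hlam
  set G := GG z (primorial D) h with hG
  have hG0 : 0 ≤ G := (GG_le_one z (primorial D) h).1
  have hGlow : cG * (1 / ℓN) ^ (m + 1) ≤ G := by
    refine le_trans (mul_le_mul_of_nonneg_left ?_ hcG0.le) (hGl D z (by omega) hDz h)
    exact pow_le_pow_left₀ (by (clear * - hℓ0; positivity)) hDZ _
  have hMnn : 0 ≤ (N:ℝ) / (primorial D : ℝ) := by (clear * - hWpos h6; positivity)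
  refine (union_bound N (primorial D) v z X hX0.le (Avoid z (primorial D) h) h lam).trans ?_
  refine (Finset.sum_le_sum fun p hp => Finset.sum_le_sum fun i₀ _ =>
    hpair C₀ ν (1 + Real.log z) N R ρ J D v X h hC₀1 H (by omega) hρR (by omega) hDz hinj
      hX0.le hXR _ hB2 p hp i₀).trans ?_
  have htot := total_sum m Q ((N:ℝ) / (primorial D : ℝ) * G)
    (4 * C₀ * ν * (96 * C₀ * L) ^ m) (1 + Real.log z)
    (4 * ((m + 1 : ℕ) : ℝ) ^ 2 * (96 * C₀ * L) ^ (m + 1)) (2 * (96 * C₀ * L) ^ (m + 1))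
    (((z : ℝ) + 1) ^ K * (∑ s, |lam s|) ^ 2)
    (fun p => Real.log p / (p:ℝ)) (fun p => 1 / (p:ℝ)) (fun p => (κ₁ p) ^ 2)
    (fun p => if p ∣ Dl h then 1 / (p:ℝ) else 0)
  refine (le_of_eq htot).trans ?_
  have hT := sum_part hη hδ hC₃0 hsum1 hsum2 hsum2' (by linarith only [hδ, hδ4, hlogz0] : 0 ≤ 1 + Real.log z)
    (by linarith only [hlogz]) h1a hlogρ
  have hmain := main_alg (m := m) (C₀ := C₀) hL hν0.le hC₀0.le hL0 hT hsum3 hsum4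
  have hSlam : ∑ s, |lam s| ≤ (N:ℝ) ^ (1/100 : ℝ) * (2 * ℓN) ^ (m + 1) *
      (12 * C₀ * ℓN) ^ (m + 1) := by
    have h10 := sum_abs_lam_le (k := m + 1) (fun p hp => H.prime p hp) (gst ρ J)
      (gst_nonneg ρ J) (gst_le_one ρ J) R hR1
    refine h10.trans ?_
    refine mul_le_mul (mul_le_mul hRN ?_ (by (clear * -; positivity)) (by (clear * - h6; positivity))) ?_ (by (clear * - hF0; positivity))
      (by (clear * - h6 hℓ0; positivity))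
    · exact pow_le_pow_left₀ (by linarith only [hδ, hδ4, hlogR0]) (by linarith only [hδ, hδ4, hℓD, hlogR]) _
    · exact pow_le_pow_left₀ hF0 hF1 _
  have hErr := err_bound (m := m) (K := K) hN1 hℓ0.le (by (clear * - hC₀1; positivity) : 0 ≤ 12 * C₀) hz0.le
    (by linarith only [hδ, hδ4, hℓD, hzle] : (z:ℝ) + 1 ≤ 2 * ℓN) (Finset.sum_nonneg fun s _ => abs_nonneg (lam s)) hSlam
    (card_QZ_le z X hX0.le) (Real.rpow_le_rpow_of_exponent_le hN1 hδ4) h4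
  have hlow := low_bound (m := m) hN1 hℓ0 hcG0 hWpos hq0 hGlow hLlow h5
  have hm0 : (0:ℝ) ≤ ((m + 1 : ℕ) : ℝ) := Nat.cast_nonneg _
  calc _ ≤ ((m + 1 : ℕ) : ℝ) * ((N:ℝ) / (primorial D : ℝ) * G * (c₁ * (δ / η) * L ^ (m + 1))) +
        (δ / η) * ((N:ℝ) / (primorial D : ℝ)) * G * L ^ (m + 1) := by
        refine add_le_add (mul_le_mul_of_nonneg_left (mul_le_mul_of_nonneg_left ?_
          (mul_nonneg hMnn hG0)) hm0) (hErr.trans hlow)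
        exact hmain
    _ = _ := by ring

end Pool.Agent.Lib.MP
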