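import Pool.Agent.Lib.HLB.T1Lower
import Pool.Agent.Lib.MP.Defs

/-!
# Pairs

PROOF SKETCH. (gw_two) By HLB.SZ_avg (PosDef.lean; see the proof of HLB.posdef) GW r z A 1 is the average
over u modulo the product of the primes ≤ z of Y(u)^r, Y(u) = (∑_a ic z (u + a))/DZ z ≥ 0, for every
r ≥ 1; power means: (E Y²)^r ≤ (E Y^r)² for r ≥ 2 (Real.inner_le_nnorm_mul_nnorm or
inner_le_Lp_mul_Lq; or Real.pow_arith_mean_le_arith_mean_pow with exponent r/2 in rpow form).
(pair_lower) SZ z ![a, b] = ∏_{p ≤ z} locI; if p ∣ dist a b then nuI = 1 and locI = (1 - 1/p)⁻¹ ≥ 1; else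
nuI = 2 and locI = (1 - 2/p)(1-1/p)⁻² = 1 - 1/(p-1)². The primes p ≤ D divide dist a b (dist = 0
included), 2 is one of them, and ∏_{3 ≤ p} (1 - 1/(p-1)²) ≥ ∏_{m ≥ 2} (1 - 1/m²) ≥ 1/2.
(ggd_compare) The primes zz r x < p dividing d, 0 < d ≤ x, are at most log x/log(zz r x) many, so their
factor is ≤ exp(2 log x/(zz r x log(zz r x))) ≤ 2 for x large (zz r x = floor(log x/(2(r+1)))).
-/

open Finset Filter

namespace Pool.Agent.Lib.MP

open Pool.Agent.HL Pool.Agent.HLB Pool.Agent.Lib.Sieve4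

namespace PairsAux

lemma GW_avg (r z : ℕ) (A : Finset ℕ) :
    (∏ p ∈ Nat.primesLE z, (p : ℝ)) * GW r z A (fun _ => 1) =
      ∑ u ∈ range (∏ p ∈ Nat.primesLE z, p), (∑ a ∈ A, ic z (u + a) / DZ z) ^ r := by
  classical
  have hpow : ∀ u, (∑ a ∈ A, ic z (u + a) / DZ z) ^ r =
      ∑ a ∈ Fintype.piFinset (fun _ : Fin r => A), ∏ i, (ic z (u + a i) / DZ z) := by
    intro u
    have h1 : (∑ a ∈ A, ic z (u + a) / DZ z) ^ r = ∏ _i : Fin r, (∑ a ∈ A, ic z (u + a) / DZ z) := by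
      simp
    rw [h1, Finset.prod_univ_sum]
  simp_rw [hpow]
  rw [Finset.sum_comm]
  unfold GW
  rw [Finset.mul_sum]
  refine Finset.sum_congr rfl fun a _ => ?_
  rw [SZ_avg]
  simp

/-- power mean inequality -/
lemma power_mean {ι : Type*} (s : Finset ι) (W : ℝ) (hW : W = s.card) (hW0 : 0 < W) (Y : ι → ℝ)
    (hY : ∀ i, 0 ≤ Y i) (G2 Gr : ℝ) (r : ℕ) (hr : 2 ≤ r)
    (h2 : W * G2 = ∑ i ∈ s, Y i ^ 2) (h3 : W * Gr = ∑ i ∈ s, Y i ^ r) : G2 ^ r ≤ Gr ^ 2 := by
  have e2 : G2 = ∑ i ∈ s, W⁻¹ * Y i ^ 2 := by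
    rw [← Finset.mul_sum, ← h2, inv_mul_cancel_left₀ hW0.ne']
  have e3 : Gr = ∑ i ∈ s, W⁻¹ * Y i ^ r := by
    rw [← Finset.mul_sum, ← h3, inv_mul_cancel_left₀ hW0.ne']
  have hG2 : 0 ≤ G2 := by
    rw [e2]
    exact Finset.sum_nonneg fun i _ => mul_nonneg (inv_pos.2 hW0).le (sq_nonneg _)
  have hGr : 0 ≤ Gr := by
    rw [e3]
    exact Finset.sum_nonneg fun i _ => mul_nonneg (inv_pos.2 hW0).le (pow_nonneg (hY i) _)
  have hp : (1:ℝ) ≤ (r:ℝ) / 2 := by
    have : (2:ℝ) ≤ r := by exact_mod_cast hr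
    linarith
  have key := Real.rpow_arith_mean_le_arith_mean_rpow s (fun _ => W⁻¹) (fun i => Y i ^ 2)
    (fun _ _ => (inv_pos.2 hW0).le)
    (by rw [Finset.sum_const, nsmul_eq_mul, ← hW, mul_inv_cancel₀ hW0.ne'])
    (fun i _ => sq_nonneg _) hp
  have hy : ∀ i, (Y i ^ 2) ^ ((r:ℝ) / 2) = Y i ^ r := by
    intro i
    rw [← Real.rpow_natCast (Y i) 2, ← Real.rpow_mul (hY i)]
    have : ((2:ℕ):ℝ) * ((r:ℝ) / 2) = (r:ℕ) := by push_cast; ring
    rw [this, Real.rpow_natCast]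
  simp_rw [hy] at key
  rw [← e2, ← e3] at key
  have h4 : (G2 ^ ((r:ℝ) / 2)) ^ 2 = G2 ^ r := by
    rw [← Real.rpow_natCast (G2 ^ ((r:ℝ) / 2)) 2, ← Real.rpow_mul hG2]
    have : ((r:ℝ) / 2) * ((2:ℕ):ℝ) = (r:ℕ) := by push_cast; ring
    rw [this, Real.rpow_natCast]
  rw [← h4]
  exact pow_le_pow_left₀ (Real.rpow_nonneg hG2 _) key 2

lemma loc_pair_dvd {a b p : ℕ} (hp : p.Prime) (h : p ∣ Nat.dist a b) :
    locI ![a, b] p = (1 - 1 / (p:ℝ))⁻¹ := by
  have hab : ((a : ℕ) : ZMod p) = ((b : ℕ) : ZMod p) := by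
    rw [ZMod.natCast_eq_natCast_iff]
    rcases le_total a b with hle | hle
    · rw [Nat.dist_eq_sub_of_le hle] at h
      exact (Nat.modEq_iff_dvd' hle).2 h
    · rw [Nat.dist_eq_sub_of_le_right hle] at h
      exact ((Nat.modEq_iff_dvd' hle).2 h).symm
  have hnu : nuI ![a, b] p = 1 := by
    unfold nuI
    rw [Finset.card_eq_one]
    refine ⟨((a : ℕ) : ZMod p), ?_⟩
    ext x
    simp only [Finset.mem_image, Finset.mem_univ, true_and, Finset.mem_singleton]
    constructor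
    · rintro ⟨i, rfl⟩
      fin_cases i
      · rfl
      · exact hab.symm
    · rintro rfl
      exact ⟨0, rfl⟩
  have hq := Pool.Agent.HL.one_sub_inv_pos hp
  unfold locI
  rw [hnu]
  simp only [Nat.cast_one, Fintype.card_fin]
  rw [pow_two, ← mul_assoc, mul_inv_cancel₀ hq.ne', one_mul]

lemma loc_pair_not {a b p : ℕ} (hp : p.Prime) (h3 : 3 ≤ p) :
    1 - 1 / ((p:ℝ) - 1) ^ 2 ≤ locI ![a, b] p := by
  have hnu : (nuI ![a, b] p : ℝ) ≤ 2 := by
    have := nuI_le ![a, b] p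
    rw [Fintype.card_fin] at this
    exact_mod_cast this
  have hp3 : (3:ℝ) ≤ p := by exact_mod_cast h3
  have hq := Pool.Agent.HL.one_sub_inv_pos hp
  unfold locI
  simp only [Fintype.card_fin]
  have e : 1 - 1 / ((p:ℝ) - 1) ^ 2 = (1 - 2 / (p:ℝ)) * ((1 - 1 / (p:ℝ))⁻¹) ^ 2 := by
    have h1 : (p:ℝ) - 1 ≠ 0 := by linarith
    have h2 : (p:ℝ) ≠ 0 := by linarith
    field_simp
    ring
  rw [e]
  refine mul_le_mul_of_nonneg_right ?_ (by positivity)
  have : (nuI ![a, b] p : ℝ) / p ≤ 2 / p := by gcongr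
  linarith

lemma tele (n : ℕ) (hn : 2 ≤ n) : (1:ℝ) / 2 ≤ ∏ m ∈ Finset.Icc 3 n, (1 - 1 / ((m:ℝ) - 1) ^ 2) := by
  have key : ∀ n : ℕ, 2 ≤ n →
      ∏ m ∈ Finset.Icc 3 n, (1 - 1 / ((m:ℝ) - 1) ^ 2) = n / (2 * ((n:ℝ) - 1)) := by
    intro n hn
    induction n, hn using Nat.le_induction with
    | base => norm_num
    | succ n hn ih =>
      rw [Finset.prod_Icc_succ_top (by omega), ih]
      have h2 : (2:ℝ) ≤ n := by exact_mod_cast hn
      have h1 : (n:ℝ) - 1 ≠ 0 := by linarith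
      have h0 : (n:ℝ) ≠ 0 := by linarith
      push_cast
      have : (n:ℝ) + 1 - 1 = n := by ring
      rw [this]
      field_simp
      ring
  rw [key n hn]
  have h2 : (2:ℝ) ≤ n := by exact_mod_cast hn
  rw [div_le_div_iff₀ (by norm_num) (by linarith)]
  linarith

end PairsAux

open PairsAux

theorem gw_two (r z : ℕ) (hr : 2 ≤ r) (A : Finset ℕ) :
    (GW 2 z A (fun _ => 1)) ^ r ≤ (GW r z A (fun _ => 1)) ^ 2 := by
  refine power_mean (range (∏ p ∈ Nat.primesLE z, p)) (∏ p ∈ Nat.primesLE z, (p : ℝ)) ?_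
    (primorial_pos' z) (fun u => ∑ a ∈ A, ic z (u + a) / DZ z) ?_ _ _ r hr (GW_avg 2 z A)
    (GW_avg r z A)
  · rw [card_range]; push_cast; rfl
  · exact fun u => Finset.sum_nonneg fun a _ => div_nonneg (ic_nonneg _ _) (DZ_pos z).le

theorem pair_lower (D z : ℕ) (hD : 2 ≤ D) (a b : ℕ) (hab : a ≡ b [MOD primorial D]) :
    (1/2 : ℝ) * ggd z D (Nat.dist a b) ≤ SZ z ![a, b] := by
  classical
  have hsmall : ∀ p, p.Prime → ¬ p ∣ Nat.dist a b → D < p := by
    intro p hp h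
    by_contra h1
    apply h
    have h2 : p ∣ primorial D := hp.dvd_primorial_iff.2 (not_lt.1 h1)
    have h3 : a ≡ b [MOD p] := hab.of_dvd h2
    rcases le_total a b with hle | hle
    · rw [Nat.dist_eq_sub_of_le hle]
      exact (Nat.modEq_iff_dvd' hle).1 h3
    · rw [Nat.dist_eq_sub_of_le_right hle]
      exact (Nat.modEq_iff_dvd' hle).1 h3.symm
  unfold SZ ggd
  rw [← Finset.prod_filter_mul_prod_filter_not (Nat.primesLE z) (fun p => p ∣ Nat.dist a b),
    mul_comm (1/2 : ℝ)]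
  have hge : ∀ p ∈ Nat.primesLE z, 1 ≤ (1 - 1 / (p:ℝ))⁻¹ := by
    intro p hp
    have hq := Pool.Agent.HL.one_sub_inv_pos (Nat.mem_primesLE.1 hp).2
    apply (one_le_inv₀ hq).2
    have : 0 ≤ 1 / (p:ℝ) := by positivity
    linarith
  refine mul_le_mul ?_ ?_ (by norm_num) ?_
  · -- the primes dividing the difference
    have h1 : ∏ p ∈ (Nat.primesLE z).filter (fun p => p ∣ Nat.dist a b), locI ![a, b] p =
        ∏ p ∈ (Nat.primesLE z).filter (fun p => p ∣ Nat.dist a b), (1 - 1 / (p:ℝ))⁻¹ := by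
      refine Finset.prod_congr rfl fun p hp => ?_
      obtain ⟨hp1, hp2⟩ := Finset.mem_filter.1 hp
      exact loc_pair_dvd (Nat.mem_primesLE.1 hp1).2 hp2
    rw [h1]
    have hsub : (Nat.primesLE z).filter (fun p => D < p ∧ p ∣ Nat.dist a b) ⊆
        (Nat.primesLE z).filter (fun p => p ∣ Nat.dist a b) := by
      intro p hp
      obtain ⟨hp1, hp2⟩ := Finset.mem_filter.1 hp
      exact Finset.mem_filter.2 ⟨hp1, hp2.2⟩
    rw [← Finset.prod_sdiff hsub]
    refine le_mul_of_one_le_left (Finset.prod_nonneg fun p hp =>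
      zero_le_one.trans (hge p (Finset.mem_filter.1 hp).1)) ?_
    refine le_of_eq_of_le (Finset.prod_const_one (s := (Nat.primesLE z).filter
      (fun p => p ∣ Nat.dist a b) \ (Nat.primesLE z).filter
        (fun p => D < p ∧ p ∣ Nat.dist a b))).symm
      (Finset.prod_le_prod (fun _ _ => zero_le_one) fun p hp => ?_)
    exact hge p (Finset.mem_filter.1 (Finset.mem_sdiff.1 hp).1).1
  · -- the other primes
    have h1 : ∏ p ∈ (Nat.primesLE z).filter (fun p => ¬ p ∣ Nat.dist a b),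
        (1 - 1 / ((p:ℝ) - 1) ^ 2) ≤
        ∏ p ∈ (Nat.primesLE z).filter (fun p => ¬ p ∣ Nat.dist a b), locI ![a, b] p := by
      refine Finset.prod_le_prod (fun p hp => ?_) fun p hp => ?_
      · obtain ⟨hp1, hp2⟩ := Finset.mem_filter.1 hp
        have h3 : D < p := hsmall p (Nat.mem_primesLE.1 hp1).2 hp2
        have h4 : (3:ℝ) ≤ p := by exact_mod_cast (by omega : 3 ≤ p)
        rw [sub_nonneg, div_le_one (by nlinarith)]
        nlinarith
      · obtain ⟨hp1, hp2⟩ := Finset.mem_filter.1 hp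
        have h3 : D < p := hsmall p (Nat.mem_primesLE.1 hp1).2 hp2
        exact loc_pair_not (Nat.mem_primesLE.1 hp1).2 (by omega)
    refine le_trans ?_ h1
    by_cases hz : 2 ≤ z
    · refine (tele z hz).trans ?_
      have hsub : (Nat.primesLE z).filter (fun p => ¬ p ∣ Nat.dist a b) ⊆ Finset.Icc 3 z := by
        intro p hp
        obtain ⟨hp1, hp2⟩ := Finset.mem_filter.1 hp
        have h3 : D < p := hsmall p (Nat.mem_primesLE.1 hp1).2 hp2
        exact Finset.mem_Icc.2 ⟨by omega, (Nat.mem_primesLE.1 hp1).1⟩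
      have hf0 : ∀ m ∈ Finset.Icc 3 z, (0:ℝ) ≤ 1 - 1 / ((m:ℝ) - 1) ^ 2 := by
        intro m hm
        have h4 : (3:ℝ) ≤ m := by exact_mod_cast (Finset.mem_Icc.1 hm).1
        rw [sub_nonneg, div_le_one (by nlinarith)]
        nlinarith
      rw [← Finset.prod_sdiff hsub]
      refine mul_le_of_le_one_left (Finset.prod_nonneg fun p hp => hf0 p (hsub hp)) ?_
      refine Finset.prod_le_one (fun m hm => hf0 m (Finset.mem_sdiff.1 hm).1) fun m hm => ?_
      have : 0 ≤ 1 / ((m:ℝ) - 1) ^ 2 := by positivity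
      linarith
    · have hempty : (Nat.primesLE z).filter (fun p => ¬ p ∣ Nat.dist a b) = ∅ := by
        rw [Finset.filter_eq_empty_iff]
        intro p hp
        have h1 := (Nat.mem_primesLE.1 hp).1
        have h2 := (Nat.mem_primesLE.1 hp).2.two_le
        omega
      rw [hempty, Finset.prod_empty]
      norm_num
  · refine Finset.prod_nonneg fun p hp => ?_
    exact locI_nonneg _ (Nat.mem_primesLE.1 (Finset.mem_filter.1 hp).1).2

theorem ggd_compare (r D : ℕ) : ∀ᶠ x : ℕ in atTop, ∀ d : ℕ, 0 < d → d ≤ x ^ 2 → ∀ z' : ℕ,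
    ggd z' D d ≤ 2 * ggd (zz r x) D d := by
  have hzz : Tendsto (fun x : ℕ => Real.log x / (2 * (r + 1))) atTop atTop :=
    (Real.tendsto_log_atTop.comp tendsto_natCast_atTop_atTop).atTop_div_const (by positivity)
  have hlogz : Tendsto (fun x : ℕ => Real.log (zz r x)) atTop atTop :=
    Real.tendsto_log_atTop.comp (tendsto_natCast_atTop_atTop.comp
      (tendsto_nat_floor_atTop.comp hzz))
  filter_upwards [hlogz.eventually_ge_atTop (16 * (r + 1)), Filter.eventually_ge_atTop 1] with x hx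
    hx1 d hd hdx z'
  set z := zz r x with hz
  have hlz : (0:ℝ) < Real.log z := lt_of_lt_of_le (by positivity) hx
  have hz1 : 1 < z := by
    by_contra h
    have : (z:ℝ) ≤ 1 := by exact_mod_cast not_lt.1 h
    have := Real.log_nonpos (Nat.cast_nonneg z) this
    linarith
  have hzr : (1:ℝ) < z := by exact_mod_cast hz1
  have hz0 : (0:ℝ) < z := by linarith
  have hge : ∀ p : ℕ, p.Prime → 1 ≤ (1 - 1 / (p:ℝ))⁻¹ := by
    intro p hp
    have hq := Pool.Agent.HL.one_sub_inv_pos hp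
    apply (one_le_inv₀ hq).2
    have : 0 ≤ 1 / (p:ℝ) := by positivity
    linarith
  -- the large prime divisors
  set B := d.primeFactors.filter (fun p => z < p) with hB
  have hBprod : (z:ℝ) ^ B.card ≤ d := by
    have h1 : ∏ p ∈ B, z ≤ ∏ p ∈ B, p :=
      Finset.prod_le_prod' fun p hp => (Finset.mem_filter.1 hp).2.le
    have h2 : ∏ p ∈ B, p ≤ ∏ p ∈ d.primeFactors, p :=
      Finset.prod_le_prod_of_subset_of_one_le' (Finset.filter_subset _ _)
        fun p hp _ => (Nat.prime_of_mem_primeFactors hp).one_lt.le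
    have h3 : ∏ p ∈ d.primeFactors, p ≤ d := Nat.le_of_dvd hd (Nat.prod_primeFactors_dvd d)
    rw [Finset.prod_const] at h1
    exact_mod_cast h1.trans (h2.trans h3)
  have hBcard : (B.card : ℝ) * Real.log z ≤ 2 * Real.log x := by
    have h1 : Real.log ((z:ℝ) ^ B.card) ≤ Real.log ((x:ℝ) ^ 2) := by
      apply Real.log_le_log (by positivity)
      exact hBprod.trans (by exact_mod_cast hdx)
    rw [Real.log_pow, Real.log_pow] at h1
    exact_mod_cast h1
  have hlogx : Real.log x ≤ 2 * (r + 1) * (z + 1) := by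
    have h1 := Nat.lt_floor_add_one (Real.log x / (2 * ((r:ℝ) + 1)))
    have h2 : ((⌊Real.log x / (2 * ((r:ℝ) + 1))⌋₊ : ℕ) : ℝ) = (z : ℝ) := rfl
    rw [h2, div_lt_iff₀ (by positivity)] at h1
    linarith
  have hBz : (B.card : ℝ) / z ≤ 1 / 2 := by
    have h1 : (B.card : ℝ) * (16 * (r + 1)) ≤ 2 * (2 * (r + 1) * (z + 1)) :=
      ((mul_le_mul_of_nonneg_left hx (Nat.cast_nonneg _)).trans hBcard).trans (by linarith)
    have h2 : (B.card : ℝ) * 8 ≤ 2 * (z + 1) := by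
      have hr : (0:ℝ) < r + 1 := by positivity
      have : (B.card : ℝ) * 8 * (r + 1) ≤ 2 * (z + 1) * (r + 1) := by linarith
      exact le_of_mul_le_mul_right this hr
    rw [div_le_div_iff₀ hz0 (by norm_num)]
    linarith
  have hBfac : ∏ p ∈ B, (1 - 1 / (p:ℝ))⁻¹ ≤ 2 := by
    have h1 : ∀ p ∈ B, (1 - 1 / (p:ℝ))⁻¹ ≤ Real.exp (1 / z) := by
      intro p hp
      obtain ⟨hp1, hp2⟩ := Finset.mem_filter.1 hp
      have hpp := Nat.prime_of_mem_primeFactors hp1
      have hq := Pool.Agent.HL.one_sub_inv_pos hpp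
      have hp3 : (z:ℝ) + 1 ≤ p := by exact_mod_cast hp2
      have h2 : (1 - 1 / (p:ℝ))⁻¹ ≤ 1 + 1 / z := by
        rw [inv_le_iff_one_le_mul₀ hq]
        have h4 : 1 / (p:ℝ) ≤ 1 / (z + 1) := one_div_le_one_div_of_le (by linarith) hp3
        have h5 : (1 + 1 / (z:ℝ)) * (1 - 1 / ((z:ℝ) + 1)) = 1 := by
          field_simp
          ring
        have h6 : 0 ≤ 1 + 1 / (z:ℝ) := by positivity
        nlinarith [mul_le_mul_of_nonneg_left h4 h6]
      refine h2.trans ?_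
      have := Real.add_one_le_exp (1 / (z:ℝ))
      linarith
    calc ∏ p ∈ B, (1 - 1 / (p:ℝ))⁻¹ ≤ ∏ _p ∈ B, Real.exp (1 / z) :=
          Finset.prod_le_prod (fun p hp => zero_le_one.trans
            (hge p (Nat.prime_of_mem_primeFactors (Finset.mem_filter.1 hp).1))) h1
      _ = Real.exp (B.card / z) := by
          rw [Finset.prod_const, ← Real.exp_nat_mul]
          congr 1
          ring
      _ ≤ Real.exp (1 / 2) := Real.exp_le_exp.2 hBz
      _ ≤ 2 := by
          have h7 : Real.exp (1 / 2) ^ 2 = Real.exp 1 := by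
            rw [← Real.exp_nat_mul]
            norm_num
          have h8 := Real.exp_one_lt_d9
          have h9 := Real.exp_pos (1 / 2 : ℝ)
          nlinarith
  -- compare
  have hsub : (Nat.primesLE z').filter (fun p => D < p ∧ p ∣ d) ⊆
      (Nat.primesLE z).filter (fun p => D < p ∧ p ∣ d) ∪ B := by
    intro p hp
    obtain ⟨hp1, hp2, hp3⟩ := Finset.mem_filter.1 hp
    have hpp := (Nat.mem_primesLE.1 hp1).2
    rw [Finset.mem_union]
    by_cases h : p ≤ z
    · left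
      exact Finset.mem_filter.2 ⟨Nat.mem_primesLE.2 ⟨h, hpp⟩, hp2, hp3⟩
    · right
      exact Finset.mem_filter.2 ⟨Nat.mem_primeFactors.2 ⟨hpp, hp3, hd.ne'⟩, not_le.1 h⟩
  have hdisj : Disjoint ((Nat.primesLE z).filter (fun p => D < p ∧ p ∣ d)) B := by
    rw [Finset.disjoint_left]
    intro p hp hp'
    have h1 := (Nat.mem_primesLE.1 (Finset.mem_filter.1 hp).1).1
    have h2 := (Finset.mem_filter.1 hp').2
    omega
  have hprime : ∀ p ∈ (Nat.primesLE z).filter (fun p => D < p ∧ p ∣ d) ∪ B, p.Prime := by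
    intro p hp
    rcases Finset.mem_union.1 hp with hp | hp
    · exact (Nat.mem_primesLE.1 (Finset.mem_filter.1 hp).1).2
    · exact Nat.prime_of_mem_primeFactors (Finset.mem_filter.1 hp).1
  unfold ggd
  calc ∏ p ∈ (Nat.primesLE z').filter (fun p => D < p ∧ p ∣ d), (1 - 1 / (p:ℝ))⁻¹
      ≤ ∏ p ∈ (Nat.primesLE z).filter (fun p => D < p ∧ p ∣ d) ∪ B, (1 - 1 / (p:ℝ))⁻¹ := by
        rw [← Finset.prod_sdiff hsub]
        refine le_mul_of_one_le_left (Finset.prod_nonneg fun p hp =>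
          zero_le_one.trans (hge p (hprime p (hsub hp)))) ?_
        refine le_of_eq_of_le (Finset.prod_const_one (s := ((Nat.primesLE z).filter
          (fun p => D < p ∧ p ∣ d) ∪ B) \ (Nat.primesLE z').filter
            (fun p => D < p ∧ p ∣ d))).symm
          (Finset.prod_le_prod (fun _ _ => zero_le_one) fun p hp => ?_)
        exact hge p (hprime p (Finset.mem_sdiff.1 hp).1)
    _ = (∏ p ∈ (Nat.primesLE z).filter (fun p => D < p ∧ p ∣ d), (1 - 1 / (p:ℝ))⁻¹) *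
          ∏ p ∈ B, (1 - 1 / (p:ℝ))⁻¹ := Finset.prod_union hdisj
    _ ≤ (∏ p ∈ (Nat.primesLE z).filter (fun p => D < p ∧ p ∣ d), (1 - 1 / (p:ℝ))⁻¹) * 2 := by
        refine mul_le_mul_of_nonneg_left hBfac (Finset.prod_nonneg fun p hp =>
          zero_le_one.trans (hge p (hprime p (Finset.mem_union_left _ hp))))
    _ = _ := mul_comm _ _

end Pool.Agent.Lib.MP
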