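import Pool.Agent.Lib.MP.Defs
import Pool.Agent.Lib.MP.Fund
import Pool.Agent.Lib.MP.PreHits

/-!
# Lower bound for the primes over the integers without small prime factors

PROOF SKETCH. L, K from `fund k ε` at z. With hit p as in MP.PreOne, F n = log(n + h m) wn h lam n ≥ 0:
∑_{n ≡ v, n + h m prime, Avoid} F n ≥ ∑_{s ⊆ primesLE z} L s ∑_{n ≡ v, n + h m prime, s hit} F n; the s
containing a prime dividing W contribute 0. pre_sum_primes for the others with ∏ s ≤ (z+1)^K (L s = 0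
otherwise). Main terms: ∑ L s ∏ g, g p = (nuI h p - 1)/(p - 1) for p ∤ W (between 0 and 1 since
1 ≤ nuI h p ≤ p), 0 for p ∣ W, times N/φ(W) formK ≥ 0: ≥ (1 - ε) GP N/φ(W) formK. Errors: |L s| ≤ 1 and
∏ nuI h p ≤ k^|s|.
-/

open Finset
open scoped Classical

namespace Pool.Agent.Lib.MP

open Pool.Agent.Lib.MT Pool.Agent.HLB

namespace PreTwo

variable {k : ℕ}

/-- The indicator of the event that `p` does not divide `W` and divides some `n + h i`. -/
noncomputable def hitI (W : ℕ) (h : Fin k → ℕ) (n p : ℕ) : ℝ :=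
  if ¬ p ∣ W ∧ ∃ i, p ∣ n + h i then 1 else 0

lemma hitI_mem (W : ℕ) (h : Fin k → ℕ) (n p : ℕ) : 0 ≤ hitI W h n p ∧ hitI W h n p ≤ 1 := by
  unfold hitI
  split_ifs <;> norm_num

lemma prod_hitI (W : ℕ) (h : Fin k → ℕ) (n : ℕ) (s : Finset ℕ) :
    ∏ p ∈ s, hitI W h n p = if ∀ p ∈ s, ¬ p ∣ W ∧ ∃ i, p ∣ n + h i then 1 else 0 := by
  unfold hitI
  rw [Finset.prod_ite_zero, Finset.prod_const_one]

lemma prod_one_sub_hitI (z W : ℕ) (h : Fin k → ℕ) (n : ℕ) :
    ∏ p ∈ Nat.primesLE z, (1 - hitI W h n p) = if Avoid z W h n then 1 else 0 := by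
  have h1 : ∀ p ∈ Nat.primesLE z, (1 - hitI W h n p) =
      if ¬ (¬ p ∣ W ∧ ∃ i, p ∣ n + h i) then (1:ℝ) else 0 := by
    intro p _
    unfold hitI
    by_cases hq : ¬ p ∣ W ∧ ∃ i, p ∣ n + h i
    · rw [if_pos hq, if_neg (not_not.2 hq)]; norm_num
    · rw [if_neg hq, if_pos hq]; norm_num
  rw [Finset.prod_congr rfl h1, Finset.prod_ite_zero, Finset.prod_const_one]
  refine if_congr ?_ rfl rfl
  unfold Avoid
  constructor
  · intro H p hp hpz hpW i hi
    exact H p (Nat.mem_primesLE.2 ⟨hpz, hp⟩) ⟨hpW, i, hi⟩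
  · rintro H p hp ⟨hpW, i, hi⟩
    rw [Nat.mem_primesLE] at hp
    exact H p hp.2 hp.1 hpW i hi

/-- Sums over sets of primes in which only the sets avoiding the divisors of `W` contribute. -/
lemma sum_powerset_filter (z W : ℕ) (f : Finset ℕ → ℝ)
    (hf : ∀ s, (∃ p ∈ s, p ∣ W) → f s = 0) :
    ∑ s ∈ (Nat.primesLE z).powerset, f s =
      ∑ s ∈ ((Nat.primesLE z).filter (fun p => ¬ p ∣ W)).powerset, f s := by
  symm
  apply Finset.sum_subset
  · exact Finset.powerset_mono.2 (Finset.filter_subset _ _)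
  · intro s hs hns
    apply hf
    by_contra hcon
    push Not at hcon
    apply hns
    rw [Finset.mem_powerset] at hs ⊢
    intro p hp
    exact Finset.mem_filter.2 ⟨hs hp, hcon p hp⟩

end PreTwo

open PreTwo

theorem s2_pre (k : ℕ) {ε : ℝ} (hε : 0 < ε) : ∃ K : ℕ, ∀ (z N W v : ℕ) (P : Finset ℕ), 1 ≤ N →
    1 ≤ W → z ≤ N → (∀ p ∈ P, p.Prime ∧ z < p ∧ ¬ p ∣ W ∧ p ≤ N) → ∀ h : Fin k → ℕ,
    (∀ p ∈ P, ∀ i j, i ≠ j → ¬ h i ≡ h j [MOD p]) → ∀ (m : Fin k) (Y : ℝ), ((2 * N + h m : ℕ) : ℝ) ≤ Y →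
    Nat.Coprime (v + h m) W → ∀ (lam : Asg P k → ℝ) (Err : ℕ → ℝ), (∀ q, 0 ≤ Err q) →
    (∀ s ⊆ (Nat.primesLE z).filter (fun p => ¬ p ∣ W), ∏ p ∈ s, p ≤ (z + 1) ^ K →
      ∀ r t, lam r ≠ 0 → lam t ≠ 0 → ∀ a : ℕ, a.Coprime (W * (∏ p ∈ s, p) * mpair r t) →
      ∀ y : ℝ, (N:ℝ) ≤ y → y ≤ Y →
      |SW.thetaAP y (W * (∏ p ∈ s, p) * mpair r t) a -
        y / ((W * (∏ p ∈ s, p) * mpair r t).totient : ℝ)| ≤ Err (W * (∏ p ∈ s, p) * mpair r t)) →
    0 ≤ formK (fun p => (p:ℝ) - 1) (lamm m lam) →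
    (1 - ε) * ((N:ℝ) / (W.totient : ℝ)) * GP z W h * formK (fun p => (p:ℝ) - 1) (lamm m lam) -
      2 * ∑ s ∈ ((Nat.primesLE z).filter (fun p => ¬ p ∣ W)).powerset.filter
          (fun s => ∏ p ∈ s, p ≤ (z + 1) ^ K), (k:ℝ) ^ s.card *
        ∑ r, ∑ t, |lam r| * |lam t| * Err (W * (∏ p ∈ s, p) * mpair r t) ≤
    ∑ n ∈ (Finset.Ioc N (2*N)).filter (fun n => n ≡ v [MOD W] ∧ (n + h m).Prime ∧ Avoid z W h n),
      Real.log ((n + h m : ℕ) : ℝ) * wn h lam n := by
  obtain ⟨K, hK⟩ := fund k hε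
  refine ⟨K, ?_⟩
  intro z N W v P hN hW hzN hP h hh m Y hm hcop lam Err hErr0 hErr hform
  obtain ⟨L, U, hL1, -, hlev, hlow, hg⟩ := hK z
  have hk : 0 < k := m.pos
  have : Nonempty (Fin k) := ⟨m⟩
  -- notation
  set T := (Nat.primesLE z).filter (fun p => ¬ p ∣ W) with hT
  set F : ℕ → ℝ := fun n => Real.log ((n + h m : ℕ) : ℝ) * wn h lam n with hF
  have hF0 : ∀ n, 0 ≤ F n := by
    intro n
    refine mul_nonneg (Real.log_natCast_nonneg _) ?_
    unfold wn
    exact sq_nonneg _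
  set S := (Finset.Ioc N (2*N)).filter (fun n => n ≡ v [MOD W] ∧ (n + h m).Prime) with hS
  set fK := formK (fun p => (p:ℝ) - 1) (lamm m lam) with hfK
  set M : ℝ := (N:ℝ) / (W.totient : ℝ) * fK with hM
  have hM0 : 0 ≤ M := by rw [hM]; positivity
  set A : Finset ℕ → ℝ := fun s => ∑ n ∈ (Finset.Ioc N (2*N)).filter
      (fun n => n ≡ v [MOD W] ∧ (n + h m).Prime ∧ ∀ p ∈ s, ∃ i, p ∣ n + h i), F n with hA
  set E : Finset ℕ → ℝ := fun s =>
    ∑ r, ∑ t, |lam r| * |lam t| * Err (W * (∏ p ∈ s, p) * mpair r t) with hE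
  have hE0 : ∀ s, 0 ≤ E s := fun s =>
    Finset.sum_nonneg fun r _ => Finset.sum_nonneg fun t _ =>
      mul_nonneg (mul_nonneg (abs_nonneg _) (abs_nonneg _)) (hErr0 _)
  -- the sum as a sum over `S`
  have hsum : ∑ n ∈ (Finset.Ioc N (2*N)).filter
      (fun n => n ≡ v [MOD W] ∧ (n + h m).Prime ∧ Avoid z W h n), F n =
      ∑ n ∈ S, (if Avoid z W h n then (1:ℝ) else 0) * F n := by
    have h1 : (Finset.Ioc N (2*N)).filter
        (fun n => n ≡ v [MOD W] ∧ (n + h m).Prime ∧ Avoid z W h n) =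
        S.filter (fun n => Avoid z W h n) := by
      rw [hS, Finset.filter_filter]
      apply Finset.filter_congr
      intro n _
      tauto
    rw [h1, Finset.sum_filter]
    apply Finset.sum_congr rfl
    intro n _
    split_ifs <;> ring
  -- the sum over the hits
  have hAs : ∀ s ∈ T.powerset, A s = ∑ n ∈ S, (∏ p ∈ s, hitI W h n p) * F n := by
    intro s hs
    have h1 : (Finset.Ioc N (2*N)).filter
        (fun n => n ≡ v [MOD W] ∧ (n + h m).Prime ∧ ∀ p ∈ s, ∃ i, p ∣ n + h i) =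
        S.filter (fun n => ∀ p ∈ s, ¬ p ∣ W ∧ ∃ i, p ∣ n + h i) := by
      rw [hS, Finset.filter_filter]
      apply Finset.filter_congr
      intro n _
      constructor
      · rintro ⟨h1, h2, h3⟩
        refine ⟨⟨h1, h2⟩, fun p hp => ⟨?_, h3 p hp⟩⟩
        have := (Finset.mem_powerset.1 hs) hp
        rw [hT, Finset.mem_filter] at this
        exact this.2
      · rintro ⟨⟨h1, h2⟩, h3⟩
        exact ⟨h1, h2, fun p hp => (h3 p hp).2⟩
    show ∑ n ∈ (Finset.Ioc N (2*N)).filter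
      (fun n => n ≡ v [MOD W] ∧ (n + h m).Prime ∧ ∀ p ∈ s, ∃ i, p ∣ n + h i), F n = _
    rw [h1, Finset.sum_filter]
    apply Finset.sum_congr rfl
    intro n _
    rw [prod_hitI]
    split_ifs <;> ring
  -- the sieve inequality
  have hsieve : ∑ s ∈ T.powerset, L s * A s ≤
      ∑ n ∈ S, (if Avoid z W h n then (1:ℝ) else 0) * F n := by
    have h1 : ∑ s ∈ T.powerset, L s * A s =
        ∑ s ∈ T.powerset, L s * ∑ n ∈ S, (∏ p ∈ s, hitI W h n p) * F n :=
      Finset.sum_congr rfl fun s hs => by rw [hAs s hs]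
    rw [h1, hT, ← sum_powerset_filter z W
      (fun s => L s * ∑ n ∈ S, (∏ p ∈ s, hitI W h n p) * F n)]
    · calc ∑ s ∈ (Nat.primesLE z).powerset, L s * ∑ n ∈ S, (∏ p ∈ s, hitI W h n p) * F n =
          ∑ n ∈ S, (∑ s ∈ (Nat.primesLE z).powerset, L s * ∏ p ∈ s, hitI W h n p) * F n := by
            simp only [Finset.mul_sum, Finset.sum_mul]
            rw [Finset.sum_comm]
            apply Finset.sum_congr rfl
            intro n _
            apply Finset.sum_congr rfl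
            intro s _
            ring
        _ ≤ _ := by
            apply Finset.sum_le_sum
            intro n _
            refine mul_le_mul_of_nonneg_right ?_ (hF0 n)
            rw [← prod_one_sub_hitI]
            exact (hlow _ (hitI_mem W h n)).1
    · rintro s ⟨p, hp, hpW⟩
      have h2 : ∀ n, ∏ p ∈ s, hitI W h n p = 0 := by
        intro n
        apply Finset.prod_eq_zero hp
        unfold hitI
        rw [if_neg]
        tauto
      simp [h2]
  -- the main term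
  have hmain : (1 - ε) * GP z W h ≤
      ∑ s ∈ T.powerset, L s * ∏ p ∈ s, ((nuI h p : ℝ) - 1) / ((p:ℝ) - 1) := by
    set g : ℕ → ℝ := fun p => if p ∣ W then 0 else ((nuI h p : ℝ) - 1) / ((p:ℝ) - 1) with hgdef
    have hnu1 : ∀ p, (1:ℝ) ≤ (nuI h p : ℝ) := fun p => by exact_mod_cast nuI_pos h p
    have hcond : ∀ p ∈ Nat.primesLE z, 0 ≤ g p ∧ g p ≤ 1 ∧ g p * ((p : ℝ) - 1) ≤ k := by
      intro p hp
      rw [Nat.mem_primesLE] at hp
      have hp1 : (1:ℝ) < p := by exact_mod_cast hp.2.one_lt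
      have hp2 : (0:ℝ) < (p:ℝ) - 1 := by linarith only [hp1]
      by_cases hpW : p ∣ W
      · simp only [hgdef, if_pos hpW]
        refine ⟨le_refl _, by norm_num, by simp⟩
      · simp only [hgdef, if_neg hpW]
        have h1 := hnu1 p
        have h2 : (nuI h p : ℝ) ≤ p := by exact_mod_cast nuI_le_prime h hp.2
        have h3 : (nuI h p : ℝ) ≤ k := by
          have := nuI_le h p
          rw [Fintype.card_fin] at this
          exact_mod_cast this
        refine ⟨div_nonneg (by linarith only [h1]) hp2.le, ?_, ?_⟩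
        · rw [div_le_one hp2]; linarith only [h2]
        · rw [div_mul_cancel₀ _ hp2.ne']; linarith only [h3]
    have h4 := (hg g hcond).1
    have h5 : ∏ p ∈ Nat.primesLE z, (1 - g p) = GP z W h := by
      unfold GP
      rw [Finset.prod_filter]
      apply Finset.prod_congr rfl
      intro p _
      by_cases hpW : p ∣ W
      · simp [hgdef, hpW]
      · simp [hgdef, hpW]
    have h6 : ∑ s ∈ (Nat.primesLE z).powerset, L s * ∏ p ∈ s, g p =
        ∑ s ∈ T.powerset, L s * ∏ p ∈ s, ((nuI h p : ℝ) - 1) / ((p:ℝ) - 1) := by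
      rw [sum_powerset_filter z W (fun s => L s * ∏ p ∈ s, g p)]
      · rw [← hT]
        apply Finset.sum_congr rfl
        intro s hs
        congr 1
        apply Finset.prod_congr rfl
        intro p hp
        have h7 := (Finset.mem_powerset.1 hs) hp
        rw [hT, Finset.mem_filter] at h7
        simp only [hgdef, if_neg h7.2]
      · rintro s ⟨p, hp, hpW⟩
        have : ∏ p ∈ s, g p = 0 := by
          apply Finset.prod_eq_zero hp
          simp only [hgdef, if_pos hpW]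
        simp [this]
    rw [h5, h6] at h4
    exact h4
  -- the comparison for every set of primes
  have hterm : ∀ s ∈ T.powerset,
      L s * (M * ∏ p ∈ s, ((nuI h p : ℝ) - 1) / ((p:ℝ) - 1)) - L s * A s ≤
        if ∏ p ∈ s, p ≤ (z + 1) ^ K then 2 * ((k:ℝ) ^ s.card * E s) else 0 := by
    intro s hs
    have hsT : s ⊆ T := Finset.mem_powerset.1 hs
    have hsz : s ∈ (Nat.primesLE z).powerset := by
      rw [Finset.mem_powerset]
      exact hsT.trans (Finset.filter_subset _ _)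
    by_cases hL0 : L s = 0
    · rw [hL0]
      split_ifs
      · simp only [zero_mul, sub_zero]
        have := hE0 s
        (clear * - hk this; positivity)
      · simp
    · have hle := hlev s hsz (Or.inl hL0)
      rw [if_pos hle]
      have hsp : ∀ p ∈ s, p.Prime ∧ ¬ p ∣ W ∧ p ∉ P ∧ p ≤ N := by
        intro p hp
        have h1 := hsT hp
        rw [hT, Finset.mem_filter, Nat.mem_primesLE] at h1
        refine ⟨h1.1.2, h1.2, fun hpP => ?_, h1.1.1.trans hzN⟩
        have := (hP p hpP).2.1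
        omega
      have h2 := pre_sum_primes (fun p hp => (hP p hp).1) N W v hN hW
        (fun p hp => (hP p hp).2.2.1) (fun p hp => (hP p hp).2.2.2) h hh m Y hm hcop lam s hsp Err
        (hErr s hsT hle)
      have h3 : |A s - M * ∏ p ∈ s, ((nuI h p : ℝ) - 1) / ((p:ℝ) - 1)| ≤
          2 * (∏ p ∈ s, (nuI h p : ℝ)) * E s := by
        have h4 : M * ∏ p ∈ s, ((nuI h p : ℝ) - 1) / ((p:ℝ) - 1) =
            (N:ℝ) / (W.totient : ℝ) * (∏ p ∈ s, ((nuI h p : ℝ) - 1) / ((p:ℝ) - 1)) *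
              formK (fun p => (p:ℝ) - 1) (lamm m lam) := by
          rw [hM, hfK]; ring
        rw [h4]
        exact h2
      have h5 : ∏ p ∈ s, (nuI h p : ℝ) ≤ (k:ℝ) ^ s.card := by
        rw [← Finset.prod_const]
        apply Finset.prod_le_prod
        · intro p _; (clear * -; positivity)
        · intro p _
          have := nuI_le h p
          rw [Fintype.card_fin] at this
          exact_mod_cast this
      have h6 : L s * (M * ∏ p ∈ s, ((nuI h p : ℝ) - 1) / ((p:ℝ) - 1)) - L s * A s ≤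
          |A s - M * ∏ p ∈ s, ((nuI h p : ℝ) - 1) / ((p:ℝ) - 1)| := by
        set x := A s - M * ∏ p ∈ s, ((nuI h p : ℝ) - 1) / ((p:ℝ) - 1) with hx
        have h7 : L s * (M * ∏ p ∈ s, ((nuI h p : ℝ) - 1) / ((p:ℝ) - 1)) - L s * A s =
            L s * (-x) := by rw [hx]; ring
        rw [h7]
        calc L s * (-x) ≤ |L s * (-x)| := le_abs_self _
          _ = |L s| * |x| := by rw [abs_mul, abs_neg]
          _ ≤ 1 * |x| := mul_le_mul_of_nonneg_right (hL1 s) (abs_nonneg _)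
          _ = |x| := one_mul _
      refine h6.trans (h3.trans ?_)
      have h8 := mul_le_mul_of_nonneg_right h5 (hE0 s)
      linarith only [h8]
  -- conclusion
  have hfin : M * ((1 - ε) * GP z W h) - ∑ s ∈ T.powerset, L s * A s ≤
      2 * ∑ s ∈ T.powerset.filter (fun s => ∏ p ∈ s, p ≤ (z + 1) ^ K), (k:ℝ) ^ s.card * E s := by
    calc M * ((1 - ε) * GP z W h) - ∑ s ∈ T.powerset, L s * A s ≤
        M * (∑ s ∈ T.powerset, L s * ∏ p ∈ s, ((nuI h p : ℝ) - 1) / ((p:ℝ) - 1)) -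
          ∑ s ∈ T.powerset, L s * A s := by
          have := mul_le_mul_of_nonneg_left hmain hM0
          linarith only [this]
      _ = ∑ s ∈ T.powerset, (L s * (M * ∏ p ∈ s, ((nuI h p : ℝ) - 1) / ((p:ℝ) - 1)) -
            L s * A s) := by
          rw [Finset.sum_sub_distrib, Finset.mul_sum]
          congr 1
          apply Finset.sum_congr rfl
          intro s _
          ring
      _ ≤ ∑ s ∈ T.powerset,
            (if ∏ p ∈ s, p ≤ (z + 1) ^ K then 2 * ((k:ℝ) ^ s.card * E s) else 0) :=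
          Finset.sum_le_sum hterm
      _ = _ := by
          rw [← Finset.sum_filter, Finset.mul_sum]
  have hlhs : (1 - ε) * ((N:ℝ) / (W.totient : ℝ)) * GP z W h * fK = M * ((1 - ε) * GP z W h) := by
    rw [hM]; ring
  rw [hlhs, hsum]
  linarith only [hsieve, hfin]

end Pool.Agent.Lib.MP
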