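import Pool.Agent.Lib.BV.Main
import Pool.Agent.Lib.MP.PDat
import Pool.Agent.Lib.MP.Params
import Pool.Agent.Lib.MP.PreTwo
import Pool.Agent.Lib.MP.RoughForm
import Pool.Agent.Lib.MT.BVSum
import Pool.Agent.Lib.MT.LamMax
import Pool.Agent.Lib.MT.PrimeSumAux
import Pool.Agent.Lib.MT.STwoLower

/-!
# Lower bound for the weighted number of primes

Analogue of MT.PrimeSum (copy it). W = primorial D, z = zN N, P = Pr (WN N h) R, ν = nuN N h.

PROOF SKETCH. s2_pre with ε = 1/2; Err from bv_weak at x = 3N (replaced by the minimum with the trivial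
bound as in MT.PrimeSum). For each of the sets s with ∏ s ≤ (z+1)^K, bv_sum with W ∏ s in place of W
(P is disjoint from s and from W; W ∏ s R² ≤ N^(1/20)) gives ≤ N/(log N)^(A + K'), and
∑_s k^|s| ≤ (z+1)^(K(k+1)) ≤ (log N)^K'. Main term: sTwo_lower (X = ρ^(2^J); 100 k² ∑_{P} κ₁² ≤ 1 for N
large since P > z; hM from params_two and the hypothesis, C₁ = 48 C₀), and
(N/φ(W)) GP z W h = (N/W) GG z W h / DZ z: for z ≥ D, W/φ(W) = ∏_{p ≤ D} (1-1/p)⁻¹ and
1 - (ν_p - 1)/(p-1) = (1 - ν_p/p)/(1 - 1/p). log(n + h m) ≤ log(3N).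
-/

open Finset
open scoped Classical

namespace Pool.Agent.Lib.MP

open Pool.Agent.Lib.MT Pool.Agent.HLB

namespace PrimeSumTwoAux

open Pool.Agent.Lib.MT.PrimeSumAux

variable {k : ℕ}

/-- The densities with and without a prime component. -/
theorem gg_gp (z D : ℕ) (hDz : D ≤ z) (h : Fin k → ℕ) :
    GG z (primorial D) h / DZ z = GP z (primorial D) h / dens (primorial D) := by
  have hfil : (Nat.primesLE z).filter (fun p => p ∣ primorial D) = Nat.primesLE D := by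
    ext p
    simp only [Finset.mem_filter, Nat.mem_primesLE]
    constructor
    · rintro ⟨⟨h1, h2⟩, h3⟩
      exact ⟨h2.dvd_primorial_iff.1 h3, h2⟩
    · rintro ⟨h1, h2⟩
      exact ⟨⟨h1.trans hDz, h2⟩, h2.dvd_primorial_iff.2 h1⟩
  have hDZ : DZ z = dens (primorial D) *
      ∏ p ∈ (Nat.primesLE z).filter (fun p => ¬ p ∣ primorial D), (1 - 1 / (p:ℝ)) := by
    unfold DZ
    rw [dens_primorial_eq, ← hfil]
    exact (Finset.prod_filter_mul_prod_filter_not _ _ _).symm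
  have hGG : GG z (primorial D) h = GP z (primorial D) h *
      ∏ p ∈ (Nat.primesLE z).filter (fun p => ¬ p ∣ primorial D), (1 - 1 / (p:ℝ)) := by
    unfold GG GP
    rw [← Finset.prod_mul_distrib]
    refine Finset.prod_congr rfl fun p hp => ?_
    simp only [Finset.mem_filter, Nat.mem_primesLE] at hp
    have h2 : (2:ℝ) ≤ p := by exact_mod_cast hp.1.2.two_le
    have h3 : (p:ℝ) - 1 ≠ 0 := by linarith
    have h4 : (p:ℝ) ≠ 0 := by linarith
    field_simp
    ring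
  have hne : ∏ p ∈ (Nat.primesLE z).filter (fun p => ¬ p ∣ primorial D), (1 - 1 / (p:ℝ)) ≠ 0 := by
    refine Finset.prod_ne_zero_iff.2 fun p hp => ?_
    simp only [Finset.mem_filter, Nat.mem_primesLE] at hp
    have h2 : (2:ℝ) ≤ p := by exact_mod_cast hp.1.2.two_le
    have h3 : 1 / (p:ℝ) ≤ 1 / 2 := one_div_le_one_div_of_le (by norm_num) h2
    intro h0
    linarith
  rw [hDZ, hGG, mul_div_mul_right _ _ hne]
where
  dens_primorial_eq {D : ℕ} : dens (primorial D) = ∏ p ∈ Nat.primesLE D, (1 - 1 / (p:ℝ)) := by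
    rw [OneDim.dens_eq (primorial_pos D)]
    refine Finset.prod_congr ?_ fun _ _ => rfl
    ext p
    simp only [Nat.mem_primeFactors, Nat.mem_primesLE]
    constructor
    · rintro ⟨h1, h2, -⟩
      exact ⟨h1.dvd_primorial_iff.1 h2, h1⟩
    · rintro ⟨h1, h2⟩
      exact ⟨h2, h2.dvd_primorial_iff.2 h1, (primorial_pos D).ne'⟩

/-- The number of the sets of primes, with weights. -/
theorem sum_sets_le (k M : ℕ) (A : Finset ℕ) (hA : ∀ p ∈ A, p.Prime) :
    ∑ s ∈ A.powerset.filter (fun s => ∏ p ∈ s, p ≤ M), (k:ℝ) ^ s.card ≤ (M:ℝ) ^ (k+1) := by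
  have h1 : ∀ s ∈ A.powerset.filter (fun s => ∏ p ∈ s, p ≤ M), (k:ℝ) ^ s.card ≤ (M:ℝ) ^ k := by
    intro s hs
    simp only [Finset.mem_filter, Finset.mem_powerset] at hs
    have e1 : 2 ^ s.card ≤ ∏ p ∈ s, p := by
      rw [← Finset.prod_const]
      exact Finset.prod_le_prod' fun p hp => (hA p (hs.1 hp)).two_le
    have e2 : k ^ s.card ≤ M ^ k := by
      calc k ^ s.card ≤ (2 ^ k) ^ s.card := Nat.pow_le_pow_left Nat.lt_two_pow_self.le _
        _ = (2 ^ s.card) ^ k := by rw [← pow_mul, ← pow_mul, mul_comm]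
        _ ≤ M ^ k := Nat.pow_le_pow_left (e1.trans hs.2) _
    exact_mod_cast e2
  have h2 : (A.powerset.filter (fun s => ∏ p ∈ s, p ≤ M)).card ≤ M := by
    have h3 : (A.powerset.filter (fun s => ∏ p ∈ s, p ≤ M)).card ≤ (Finset.Icc 1 M).card := by
      refine Finset.card_le_card_of_injOn (fun s => ∏ p ∈ s, p) ?_ ?_
      · intro s hs
        have hs := Finset.mem_coe.1 hs
        simp only [Finset.mem_filter, Finset.mem_powerset] at hs
        refine Finset.mem_coe.2 (Finset.mem_Icc.2 ⟨?_, hs.2⟩)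
        exact Finset.prod_pos fun p hp => (hA p (hs.1 hp)).pos
      · intro s hs t ht hst
        have hs := Finset.mem_coe.1 hs
        have ht := Finset.mem_coe.1 ht
        simp only [Finset.mem_filter, Finset.mem_powerset] at hs ht
        have e1 := congrArg Nat.primeFactors hst
        simp only at e1
        rwa [Nat.primeFactors_prod fun p hp => hA p (hs.1 hp),
          Nat.primeFactors_prod fun p hp => hA p (ht.1 hp)] at e1
    simpa using h3
  refine (Finset.sum_le_sum h1).trans ?_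
  rw [Finset.sum_const, nsmul_eq_mul, pow_succ, mul_comm]
  exact mul_le_mul_of_nonneg_left (by exact_mod_cast h2) (by positivity)

/-- Facts about the range of the shifts. -/
theorem shift_facts (K₀ : ℕ) : ∀ᶠ N : ℕ in Filter.atTop,
    Real.log N ^ K₀ ≤ (N:ℝ) ∧ Real.log (3 * (N * Real.log N ^ K₀)) ≤ 5 / 4 * Real.log N := by
  have t0 : Filter.Tendsto (fun N : ℕ => (N:ℝ)) Filter.atTop Filter.atTop :=
    tendsto_natCast_atTop_atTop
  have e2 : ∀ᶠ x : ℝ in Filter.atTop, (Real.log x) ^ K₀ ≤ x ^ (1/8 : ℝ) := by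
    have h := (isLittleO_log_rpow_rpow_atTop (K₀:ℝ) (by norm_num : (0:ℝ) < 1/8)).bound
      (c := 1) one_pos
    filter_upwards [h, Filter.eventually_ge_atTop 1] with x hx hx1
    have hl := Real.log_nonneg hx1
    rw [Real.rpow_natCast, Real.norm_eq_abs, Real.norm_eq_abs, abs_of_nonneg (by positivity),
      abs_of_nonneg (by positivity), one_mul] at hx
    exact hx
  have e3 : ∀ᶠ x : ℝ in Filter.atTop, 3 ≤ x ^ (1/8 : ℝ) :=
    (tendsto_rpow_atTop (by norm_num : (0:ℝ) < 1/8)).eventually_ge_atTop 3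
  filter_upwards [t0.eventually e2, t0.eventually e3, t0.eventually (Filter.eventually_gt_atTop 1)]
    with N h1 h2 h3
  have hN0 : (0:ℝ) < N := by linarith
  have hL : 0 < Real.log N := Real.log_pos h3
  constructor
  · refine h1.trans ?_
    calc (N:ℝ) ^ (1/8 : ℝ) ≤ (N:ℝ) ^ (1:ℝ) :=
          Real.rpow_le_rpow_of_exponent_le h3.le (by norm_num)
      _ = N := Real.rpow_one _
  · have h4 : 3 * (N * Real.log N ^ K₀) ≤ (N:ℝ) ^ (5/4 : ℝ) := by
      calc 3 * (N * Real.log N ^ K₀) ≤ (N:ℝ) ^ (1/8 : ℝ) * (N * (N:ℝ) ^ (1/8 : ℝ)) :=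
            mul_le_mul h2 (mul_le_mul_of_nonneg_left h1 hN0.le) (by positivity) (by positivity)
        _ = (N:ℝ) ^ (1:ℝ) * ((N:ℝ) ^ (1/8 : ℝ) * (N:ℝ) ^ (1/8 : ℝ)) := by
            rw [Real.rpow_one]; ring
        _ = (N:ℝ) ^ (5/4 : ℝ) := by
            rw [← Real.rpow_add hN0, ← Real.rpow_add hN0]
            norm_num
    have h5 := Real.log_le_log (by positivity) h4
    rwa [Real.log_rpow hN0] at h5

/-- The trivial bound for the error term. -/
lemma err_trivial2 (M : ℝ) (q a : ℕ) (hq : 1 ≤ q) (hqN : (q:ℝ) ≤ M) (y : ℝ) (hy1 : 1 ≤ y)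
    (hy : y ≤ 3 * M) (hL : 2 ≤ Real.log (10 * M)) :
    |SW.thetaAP y q a - y / (q.totient : ℝ)| ≤ (10 * M) * (Real.log (10 * M)) ^ 2 / q := by
  have hq0 : (0:ℝ) < q := by exact_mod_cast hq
  have hq1 : (1:ℝ) ≤ q := by exact_mod_cast hq
  have hN1 : (1:ℝ) ≤ M := hq1.trans hqN
  obtain ⟨L, hLdef⟩ : ∃ L : ℝ, L = Real.log (10 * M) := ⟨_, rfl⟩
  rw [← hLdef] at hL ⊢
  have h1 := theta_le y q a hq hy1
  have h2 := theta_nonneg y q a
  have h3 := BV.inv_totient_le q hq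
  have hlog1 : Real.log y ≤ L := by rw [hLdef]; exact Real.log_le_log (by linarith only [hy1]) (by linarith only [hqN, hy, hq0])
  have hlog2 : Real.log (q + 2) ≤ L := by
    rw [hLdef]; exact Real.log_le_log (by linarith only [hq0]) (by linarith only [hqN, hq0, hq1])
  have hlog0 : 0 ≤ Real.log y := Real.log_nonneg hy1
  have h4 : y / (q.totient : ℝ) ≤ 9 * M * L / q := by
    calc y / (q.totient : ℝ) = y * (1 / (q.totient : ℝ)) := by ring
      _ ≤ (3 * M) * (3 * Real.log (q + 2) / q) := by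
          apply mul_le_mul hy h3 (by positivity) (by positivity)
      _ = 9 * M * Real.log (q+2) / q := by ring
      _ ≤ 9 * M * L / q := by
          apply div_le_div_of_nonneg_right _ hq0.le
          apply mul_le_mul_of_nonneg_left hlog2 (by positivity)
  have h5 : SW.thetaAP y q a ≤ 4 * M * L / q := by
    refine h1.trans ?_
    have e1 : y / q + 1 ≤ 4 * M / q := by
      rw [div_add_one hq0.ne']
      apply div_le_div_of_nonneg_right _ hq0.le
      linarith only [hqN, hy]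
    calc (y / q + 1) * Real.log y ≤ (4 * M / q) * L :=
          mul_le_mul e1 hlog1 hlog0 (by positivity)
      _ = _ := by ring
  have h6 : 0 ≤ y / (q.totient : ℝ) := by positivity
  have h0 : 0 ≤ M * L := by positivity
  have h7 : 13 * M * L / q ≤ (10 * M) * L ^ 2 / q := by
    apply div_le_div_of_nonneg_right _ hq0.le
    have e := mul_le_mul_of_nonneg_left hL h0
    calc 13 * M * L = 13 * (M * L) := by ring
      _ ≤ 10 * (M * L * 2) := by linarith only [h0]
      _ ≤ 10 * (M * L * L) := by linarith only [e]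
      _ = _ := by ring
  have h8 : 9 * M * L / q ≤ 13 * M * L / q := by
    apply div_le_div_of_nonneg_right _ hq0.le
    calc 9 * M * L = 9 * (M * L) := by ring
      _ ≤ 13 * (M * L) := by linarith only [h0]
      _ = _ := by ring
  have h9 : 4 * M * L / q ≤ 13 * M * L / q := by
    apply div_le_div_of_nonneg_right _ hq0.le
    calc 4 * M * L = 4 * (M * L) := by ring
      _ ≤ 13 * (M * L) := by linarith only [h0]
      _ = _ := by ring
  rw [abs_le]
  constructor <;> linarith only [h2, h4, h7, h8, h5, h6, h9]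

lemma bv_alg {M' C : ℝ} {A' : ℕ} (hM' : 0 < M') (hM2 : 2 ≤ M') (hC : C * 2 ^ A' ≤ Real.log (3 * M')) :
    C * (3 * M') / (Real.log (3 * M')) ^ (A' + 1) ≤ (10 * M') / (Real.log (10 * M')) ^ A' := by
  obtain ⟨M, hMdef⟩ : ∃ M : ℝ, M = Real.log (3 * M') := ⟨_, rfl⟩
  obtain ⟨T, hTdef⟩ : ∃ T : ℝ, T = Real.log (10 * M') := ⟨_, rfl⟩
  have hM10 : T ≤ 2 * M := by
    have e1 : 2 * M = Real.log ((3 * M') ^ 2) := by
      rw [Real.log_pow, hMdef]; push_cast; ring
    rw [e1, hTdef]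
    apply Real.log_le_log (by positivity)
    nlinarith only [hM', hM2]
  have hM0 : 0 < M := by rw [hMdef]; exact Real.log_pos (by linarith)
  have hT0 : 0 < T := by rw [hTdef]; exact Real.log_pos (by linarith)
  rw [← hMdef] at hC ⊢
  rw [← hTdef]
  rw [div_le_div_iff₀ (by positivity) (by positivity)]
  rcases le_or_gt C 0 with hC0 | hC0
  · have e1 : C * (3 * M') * T ^ A' ≤ 0 :=
      mul_nonpos_of_nonpos_of_nonneg (mul_nonpos_of_nonpos_of_nonneg hC0 (by positivity))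
        (by positivity)
    exact e1.trans (by positivity)
  calc C * (3 * M') * T ^ A' ≤ C * (3 * M') * (2 * M) ^ A' := by
        apply mul_le_mul_of_nonneg_left _ (by positivity)
        exact pow_le_pow_left₀ hT0.le hM10 _
    _ = 3 * M' * M ^ A' * (C * 2 ^ A') := by rw [mul_pow]; ring
    _ ≤ 3 * M' * M ^ A' * M := mul_le_mul_of_nonneg_left hC (by positivity)
    _ ≤ 10 * M' * M ^ A' * M := by
        apply mul_le_mul_of_nonneg_right _ hM0.le
        apply mul_le_mul_of_nonneg_right _ (by positivity)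
        linarith
    _ = 10 * M' * M ^ (A'+1) := by rw [pow_succ]; ring

lemma err_alg {N L M' : ℝ} {K A K₀ k : ℕ} (hN0 : 0 < N) (hL20 : 20 ≤ L) (hM' : M' = N * L ^ K₀)
    (hL10 : L ≤ Real.log (10 * M')) :
    L ^ (2 * K * (k+1)) * ((10 * M') / (Real.log (10 * M')) ^ (A + 2 * K * (k+1) + 1 + K₀)) ≤
      N / L ^ A / 2 := by
  obtain ⟨T, hTdef⟩ : ∃ T : ℝ, T = Real.log (10 * M') := ⟨_, rfl⟩
  rw [← hTdef] at hL10 ⊢
  have hT0 : 0 < T := by linarith
  have hL0 : 0 < L := by linarith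
  rw [mul_div_assoc', div_div, div_le_div_iff₀ (by positivity) (by positivity)]
  have e2 : L ^ (A + 2 * K * (k+1) + 1 + K₀) ≤ T ^ (A + 2 * K * (k+1) + 1 + K₀) :=
    pow_le_pow_left₀ hL0.le hL10 _
  calc L ^ (2 * K * (k+1)) * (10 * M') * (L ^ A * 2) =
        N * (L ^ (A + 2 * K * (k+1)) * L ^ K₀ * 20) := by rw [hM', pow_add]; ring
    _ ≤ N * (L ^ (A + 2 * K * (k+1)) * L ^ K₀ * L) := by
        apply mul_le_mul_of_nonneg_left _ hN0.le
        apply mul_le_mul_of_nonneg_left hL20 (by positivity)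
    _ = N * L ^ (A + 2 * K * (k+1) + 1 + K₀) := by rw [pow_add _ _ K₀, pow_succ]; ring
    _ ≤ _ := mul_le_mul_of_nonneg_left e2 hN0.le

end PrimeSumTwoAux

open PrimeSumTwoAux Pool.Agent.Lib.MT.PrimeSumAux

theorem prime_sum_two : ∃ C₁ : ℝ, 1 ≤ C₁ ∧ ∀ (k J D A K₀ : ℕ) (η : ℝ), 1 ≤ k → 0 < η →
    2 * k ≤ D → ∃ N₀ : ℕ, ∀ N ≥ N₀, ∀ (v R ρ : ℕ),
    (N:ℝ) ^ η ≤ ρ → C₁ * k * (J+1) * Real.log ρ + 2 ^ J * Real.log ρ ≤ Real.log R →
    ρ ^ (2 ^ J) < R → (R:ℝ) ≤ (N:ℝ) ^ (1/100 : ℝ) →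
    ∀ h : Fin k → ℕ, Function.Injective h → (∀ i, (h i : ℝ) ≤ N * Real.log N ^ K₀) →
    (∀ i, Nat.Coprime (v + h i) (primorial D)) → ∀ m : Fin k,
    (1/8 : ℝ) * ((N:ℝ) / primorial D) * (GG (zN N) (primorial D) h / DZ (zN N)) *
        (sum1 (Pr (WN N h) R) κ₁ (gst ρ J)) ^ 2 *
        (sum1 (Pr (WN N h) R) κ₁ (fun a => (gst ρ J a) ^ 2)) ^ (k-1) - N / (Real.log N) ^ A ≤
    5 / 4 * Real.log N *
      ∑ n ∈ (Finset.Ioc N (2*N)).filter (fun n => n ≡ v [MOD primorial D] ∧ (n + h m).Prime ∧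
          Avoid (zN N) (primorial D) h n),
        wn h (lamOf (yOf (gst ρ J) R : Asg (Pr (WN N h) R) k → ℝ)) n := by
  obtain ⟨C₀, hC₀, hPD⟩ := pd_all
  refine ⟨48 * C₀, by linarith, ?_⟩
  intro k J D A K₀ η hk hη hD
  obtain ⟨K, hpre⟩ := s2_pre k (ε := 1/2) (by norm_num)
  obtain ⟨A', Nb, hbv⟩ := bv_sum k (A + 2 * K * (k+1) + 1 + K₀)
  obtain ⟨C, x₀, hC, hBV⟩ := BV.bv_weak (A'+1)
  obtain ⟨Np, hNp⟩ := hPD k
  set W := primorial D with hWdef
  have hW : 1 ≤ W := primorial_pos D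
  have hW0 : (0:ℝ) < W := by exact_mod_cast hW
  obtain ⟨N₁, hN₁⟩ := Filter.eventually_atTop.1
    (eventually_facts (2 * K + 1) η (max (max (max 20 (12 * C₀)) (max (W:ℝ) (200 * k ^ 2 + 1)))
      (max (max Nb x₀) (max (C * 2 ^ A') (D + 1)))) hη)
  obtain ⟨N₂, hN₂⟩ := Filter.eventually_atTop.1 (shift_facts K₀)
  refine ⟨max (max N₁ N₂) Np, fun N hN v R ρ hρη hRJ hρR hRN h hinj hh1 hcop m => ?_⟩
  obtain ⟨f1, f2, f3, f4⟩ := hN₁ N (((le_max_left _ _).trans (le_max_left _ _)).trans hN)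
  obtain ⟨g1, g2⟩ := hN₂ N (((le_max_right _ _).trans (le_max_left _ _)).trans hN)
  have hhsq : ∀ i, h i ≤ N ^ 2 := by
    intro i
    have e1 : (h i : ℝ) ≤ (N:ℝ) * N := (hh1 i).trans (mul_le_mul_of_nonneg_left g1 (Nat.cast_nonneg _))
    rw [pow_two]
    exact_mod_cast e1
  have hPDN := hNp N ((le_max_right _ _).trans hN) h hinj hhsq
  set L := Real.log N with hL
  have hL20 : 20 ≤ L :=
    (le_max_left _ _).trans ((le_max_left _ _).trans ((le_max_left _ _).trans f3))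
  have hLC₀ : 12 * C₀ ≤ L :=
    (le_max_right _ _).trans ((le_max_left _ _).trans ((le_max_left _ _).trans f3))
  have hLW : (W:ℝ) ≤ L :=
    (le_max_left _ _).trans ((le_max_right _ _).trans ((le_max_left _ _).trans f3))
  have hLk : 200 * (k:ℝ) ^ 2 + 1 ≤ L :=
    (le_max_right _ _).trans ((le_max_right _ _).trans ((le_max_left _ _).trans f3))
  have hNb : Nb ≤ N := (le_max_left _ _).trans ((le_max_left _ _).trans
    ((le_max_right _ _).trans f4))
  have hNx : x₀ ≤ N := (le_max_right _ _).trans ((le_max_left _ _).trans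
    ((le_max_right _ _).trans f4))
  have hLC : C * 2 ^ A' ≤ L :=
    (le_max_left _ _).trans ((le_max_right _ _).trans ((le_max_right _ _).trans f3))
  have hLD : (D:ℝ) + 1 ≤ L :=
    (le_max_right _ _).trans ((le_max_right _ _).trans ((le_max_right _ _).trans f3))
  have hN20 : (20:ℝ) ≤ N :=
    (le_max_left _ _).trans ((le_max_left _ _).trans ((le_max_left _ _).trans f4))
  have hN0 : (0:ℝ) < N := by linarith only [hN20]
  have hN1 : (1:ℝ) ≤ N := by linarith only [hN20]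
  have hNn : 1 ≤ N := by exact_mod_cast hN1
  clear f3 f4
  -- logarithms
  have hLL : 0 ≤ Real.log L := Real.log_nonneg (by linarith only [hL20])
  have f1' : 1 + Real.log L ≤ η * L := by
    have e : Real.log L ≤ ((2 * K + 1 : ℕ) : ℝ) * Real.log L := by
      have e1 : (1:ℝ) ≤ ((2 * K + 1 : ℕ) : ℝ) := by exact_mod_cast (by omega : 1 ≤ 2 * K + 1)
      exact le_mul_of_one_le_left hLL e1
    linarith only [f1, e]
  have hηL : 1 ≤ η * L := by linarith only [hLL, f1']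
  have hρ2' : (2:ℝ) ≤ ρ := by
    refine le_trans ?_ hρη
    have e : (N:ℝ) ^ η = Real.exp (η * L) := by
      rw [Real.rpow_def_of_pos hN0, hL, mul_comm]
    rw [e]
    have := Real.add_one_le_exp (η * L)
    linarith only [hLL, f1', this]
  have hρ2 : 2 ≤ ρ := by exact_mod_cast hρ2'
  have hρ0 : (0:ℝ) < ρ := by linarith only [hρ2']
  have hlρ : η * L ≤ Real.log ρ := by
    have := Real.log_le_log (by (clear * - hNn; positivity)) hρη
    rwa [Real.log_rpow hN0] at this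
  -- the range of the preliminary sieve
  set z := zN N with hz
  have hzL : (z:ℝ) ≤ L := Nat.floor_le (by linarith only [hL20])
  have hLz : L < z + 1 := Nat.lt_floor_add_one L
  have hz1 : (1:ℝ) ≤ z := by linarith only [hL20, hLz]
  have hz0 : (0:ℝ) < z := by linarith only [hL20, hLz]
  have hDz : D ≤ z := by
    have : (D:ℝ) ≤ z := by linarith only [hLD, hLz]
    exact_mod_cast this
  have hzN : z ≤ N := by
    have e1 : L ≤ N := by
      have := Real.log_le_sub_one_of_pos hN0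
      linarith only [this]
    have : (z:ℝ) ≤ N := hzL.trans e1
    exact_mod_cast this
  have hz1n : 1 ≤ z := by exact_mod_cast hz1
  have hkz : 200 * (k:ℝ) ^ 2 ≤ z := by linarith only [hLk, hLz]
  have hlog : 1 + Real.log z ≤ Real.log ρ := by
    have : Real.log z ≤ Real.log L := Real.log_le_log hz0 hzL
    linarith only [f1', hlρ, this]
  have hzM : (((z + 1) ^ K : ℕ) : ℝ) ≤ L ^ (2 * K) := by
    push_cast
    rw [pow_mul]
    apply pow_le_pow_left₀ (by (clear * - hz1n; positivity))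
    have e1 : L * 20 ≤ L * L := mul_le_mul_of_nonneg_left hL20 (by linarith only [hL20])
    rw [pow_two]
    linarith only [hL20, hzL, e1]
  have hzM1 : 1 ≤ (z + 1) ^ K := Nat.one_le_pow _ _ (by omega)
  -- the primes
  set P := Pr (WN N h) R with hPdef
  have hmem := fun p (hp : p ∈ P) => mem_Pr_WN N R h hinj p hp
  have hPp : ∀ p ∈ P, p.Prime := fun p hp => (hmem p hp).1
  have hPz : ∀ p ∈ P, z < p := fun p hp => (hmem p hp).2.1
  have hPR : ∀ p ∈ P, p ≤ R := fun p hp => (hmem p hp).2.2.1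
  have hPW : ∀ p ∈ P, ¬ p ∣ W := fun p hp hc => by
    have h1 := (hPp p hp).dvd_primorial_iff.1 hc
    have h2 := hPz p hp
    omega
  have hkn : 200 * k ^ 2 ≤ z := by exact_mod_cast hkz
  have hk2 : k ≤ k ^ 2 := Nat.le_self_pow (by norm_num) k
  have hP2 : ∀ p ∈ P, 2 ≤ p ∧ k + 1 ≤ p := by
    intro p hp
    have h1 := hPz p hp
    constructor <;> omega
  have hP1 : ∀ p ∈ P, 1 ≤ p := fun p hp => by have := (hP2 p hp).1; omega
  have hσ : 100 * (k:ℝ) ^ 2 * ∑ p ∈ P, (κ₁ p) ^ 2 ≤ 1 := by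
    have h1 := sum_kappa1_sq_le P z hz1n hPz
    calc 100 * (k:ℝ) ^ 2 * ∑ p ∈ P, (κ₁ p) ^ 2 ≤ 100 * (k:ℝ) ^ 2 * (2 / z) :=
          mul_le_mul_of_nonneg_left h1 (by (clear * - hk; positivity))
      _ = 200 * (k:ℝ) ^ 2 / z := by ring
      _ ≤ 1 := by rw [div_le_one hz0]; exact hkz
  have hRN' : (R:ℝ) ≤ N := hRN.trans (by
    calc (N:ℝ) ^ (1/100 : ℝ) ≤ (N:ℝ) ^ (1:ℝ) :=
          Real.rpow_le_rpow_of_exponent_le hN1 (by norm_num)
      _ = N := Real.rpow_one _)
  have hRNn : R ≤ N := by exact_mod_cast hRN'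
  have hX1 : 1 ≤ ρ ^ (2 ^ J) := Nat.one_le_pow _ _ (by omega)
  have hR1 : 1 ≤ R := by omega
  have hR0 : (0:ℝ) < R := by exact_mod_cast hR1
  have HPD : PD C₀ P R (nuN N h) (1 + Real.log z) := hPDN R hR1 hRNn
  obtain ⟨p1, p2, p3, p4, p5⟩ := params_two hC₀ HPD ρ J hρ2 hρR.le hlog
  have hφ0 : (0:ℝ) < (W.totient : ℝ) := by exact_mod_cast Nat.totient_pos.2 hW
  have hν0 := HPD.νpos
  have hν1 := HPD.νle
  have hlρ0 : 0 < Real.log ρ := by linarith only [hLL, f1', hlρ]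
  -- the main term
  have hB : 0 < sum1 P κ₁ (fun a => (gst ρ J a) ^ 2) :=
    lt_of_lt_of_le (by (clear * - hν0 hlρ0; positivity)) p2
  have hM : 4 * (k:ℝ) * sum1 P κ₁ (fun a => (gst ρ J a) ^ 2 * Real.log a) ≤
      sum1 P κ₁ (fun a => (gst ρ J a) ^ 2) *
        Real.log ((R:ℝ) / ((ρ ^ (2 ^ J) : ℕ) : ℝ)) := by
    have e1 : Real.log ((R:ℝ) / ((ρ ^ (2 ^ J) : ℕ) : ℝ)) = Real.log R - 2 ^ J * Real.log ρ := by
      push_cast
      rw [Real.log_div hR0.ne' (by (clear * - hρ2; positivity)), Real.log_pow]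
      push_cast
      ring
    have e2 : 48 * C₀ * k * (J+1) * Real.log ρ ≤ Real.log ((R:ℝ) / ((ρ ^ (2 ^ J) : ℕ) : ℝ)) := by
      rw [e1]; linarith only [hRJ]
    calc 4 * (k:ℝ) * sum1 P κ₁ (fun a => (gst ρ J a) ^ 2 * Real.log a)
        ≤ 4 * (k:ℝ) * (12 * C₀ * (J + 1) * nuN N h * (Real.log ρ) ^ 2) :=
          mul_le_mul_of_nonneg_left p4 (by (clear * - hk; positivity))
      _ = (nuN N h * Real.log ρ) * (48 * C₀ * k * (J+1) * Real.log ρ) := by ring
      _ ≤ _ := mul_le_mul p2 e2 (by (clear * - hC₀ hk hlρ0; positivity)) hB.le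
  have hform := sTwo_lower hP2 m (gst ρ J) (gst_nonneg ρ J) (gst_le_one ρ J) (gst_antitone ρ J)
    (ρ ^ (2 ^ J)) R hX1 (fun a ha => gst_eq_zero (by omega) ha) hρR hσ hB hM
  -- the error term
  obtain ⟨M', hM'⟩ : ∃ M' : ℝ, M' = N * L ^ K₀ := ⟨_, rfl⟩
  have hLK1 : 1 ≤ L ^ K₀ := one_le_pow₀ (by linarith only [hL20])
  have hNM : (N:ℝ) ≤ M' := by rw [hM']; exact le_mul_of_one_le_right hN0.le hLK1
  have hM'0 : 0 < M' := by linarith only [hN20, hNM]
  have hhM : ((2 * N + h m : ℕ) : ℝ) ≤ 3 * M' := by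
    have e1 := hh1 m
    rw [← hM'] at e1
    push_cast
    linarith only [hNM, e1]
  have h10 : (N:ℝ) ≤ 10 * M' := by linarith only [hN20, hNM]
  have hL10 : L ≤ Real.log (10 * M') := Real.log_le_log hN0 h10
  obtain ⟨E, hE0, hEs, hEb⟩ := hBV (3 * M') (by linarith only [hNx, hN20, hNM])
  set Q := ⌊(3 * M') ^ (1/20 : ℝ)⌋₊ with hQ
  set Err : ℕ → ℝ := fun q => min (E q) ((10 * M') * (Real.log (10 * M')) ^ 2 / q) with hErr
  have hErr0 : ∀ q, 0 ≤ Err q := fun q => le_min (hE0 q) (by (clear * - hM'0; positivity))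
  have hWsR : ∀ q : ℕ, q ≤ (z + 1) ^ K →
      ((W * q * R ^ 2 : ℕ) : ℝ) ≤ (N:ℝ) ^ (1/20 : ℝ) := by
    intro q hq
    have e0 : (q:ℝ) ≤ L ^ (2 * K) := (by exact_mod_cast hq : (q:ℝ) ≤ (((z+1)^K : ℕ) : ℝ)).trans hzM
    have e1 : (R:ℝ) ^ 2 ≤ ((N:ℝ) ^ (1/100 : ℝ)) ^ 2 := pow_le_pow_left₀ hR0.le hRN 2
    have e2 : (W:ℝ) * q ≤ (N:ℝ) ^ (3/100 : ℝ) := by
      refine le_trans ?_ f2
      rw [pow_succ, mul_comm]
      exact mul_le_mul e0 hLW hW0.le (by (clear * - hL20; positivity))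
    push_cast
    calc (W:ℝ) * q * (R:ℝ) ^ 2 ≤ (N:ℝ) ^ (3/100 : ℝ) * ((N:ℝ) ^ (1/100 : ℝ)) ^ 2 :=
          mul_le_mul e2 e1 (by (clear * - hR1; positivity)) (by (clear * - hNn; positivity))
      _ = (N:ℝ) ^ (1/20 : ℝ) := by
          rw [← Real.rpow_natCast, ← Real.rpow_mul hN0.le, ← Real.rpow_add hN0]
          norm_num
  have hWR : ∀ q : ℕ, q ≤ (z + 1) ^ K → W * q * R ^ 2 ≤ Q := by
    intro q hq
    apply Nat.le_floor
    exact (hWsR q hq).trans (Real.rpow_le_rpow hN0.le (by linarith only [hN20, hNM]) (by norm_num))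
  have hQN : (Q:ℝ) ≤ 3 * M' := by
    refine (Nat.floor_le (by (clear * - hM'0; positivity))).trans ?_
    calc (3 * M') ^ (1/20 : ℝ) ≤ (3 * M') ^ (1:ℝ) :=
          Real.rpow_le_rpow_of_exponent_le (by linarith only [hN20, hNM]) (by norm_num)
      _ = 3 * M' := Real.rpow_one _
  have hWRN : ∀ q : ℕ, q ≤ (z + 1) ^ K → W * q * R ^ 2 ≤ N := by
    intro q hq
    have : ((W * q * R ^ 2 : ℕ) : ℝ) ≤ N := by
      calc ((W * q * R ^ 2 : ℕ) : ℝ) ≤ (N:ℝ) ^ (1/20 : ℝ) := hWsR q hq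
        _ ≤ (N:ℝ) ^ (1:ℝ) := Real.rpow_le_rpow_of_exponent_le hN1 (by norm_num)
        _ = N := Real.rpow_one _
    exact_mod_cast this
  set lam : Asg P k → ℝ := lamOf (yOf (gst ρ J) R) with hlam
  have hlam0 : ∀ s : Asg P k, R < dtot s → lam s = 0 := fun s hs =>
    lam_eq_zero hPp (gst ρ J) R s hs
  have hlamb : ∀ s : Asg P k, |lam s| ≤ (Real.log (10 * M')) ^ (2 * k) := by
    intro s
    refine (lam_max hPp (gst ρ J) (gst_nonneg ρ J) (gst_le_one ρ J) R s).trans ?_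
    rw [pow_mul]
    have hF0 : 0 ≤ sum1 P κ₁ (fun a => if a ≤ R then 1 else 0) := by
      unfold sum1
      refine Finset.sum_nonneg fun T hT => ?_
      rw [Finset.mem_powerset] at hT
      apply mul_nonneg
      · dsimp only
        split_ifs <;> norm_num
      · refine Finset.prod_nonneg fun p hp => ?_
        have := (hP2 p (hT hp)).1
        have h2 : (2:ℝ) ≤ p := by exact_mod_cast this
        unfold κ₁
        apply div_nonneg zero_le_one
        linarith only [h2]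
    apply pow_le_pow_left₀ hF0
    refine p5.trans ?_
    have hlR : Real.log R ≤ L := Real.log_le_log hR0 hRN'
    have hlR0 : 0 ≤ Real.log R := Real.log_nonneg (by exact_mod_cast hR1)
    calc 12 * C₀ * nuN N h * Real.log R ≤ 12 * C₀ * 1 * L := by
          apply mul_le_mul _ hlR hlR0 (by linarith only [hC₀])
          apply mul_le_mul_of_nonneg_left hν1 (by linarith only [hC₀])
      _ ≤ L * L := by
          rw [mul_one]
          exact mul_le_mul_of_nonneg_right hLC₀ (by linarith only [hL20])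
      _ ≤ (Real.log (10 * M')) ^ 2 := by
          rw [pow_two]
          exact mul_le_mul hL10 hL10 (by linarith only [hL20]) (by linarith only [hL20, hL10])
  have hpair : ∀ q : ℕ, 1 ≤ q → ∀ r s : Asg P k, lam r ≠ 0 → lam s ≠ 0 →
      1 ≤ W * q * mpair r s ∧ W * q * mpair r s ≤ W * q * R ^ 2 := by
    intro q hq r s hr hs
    have e1 : dtot r ≤ R := by
      by_contra hc
      exact hr (hlam0 r (not_le.1 hc))
    have e2 : dtot s ≤ R := by
      by_contra hc
      exact hs (hlam0 s (not_le.1 hc))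
    have e3 := mpair_le hP1 r s
    have e4 := mpair_pos hP1 r s
    refine ⟨Nat.one_le_iff_ne_zero.2 (by (clear * - hW hq e4; positivity)), ?_⟩
    apply Nat.mul_le_mul_left
    refine e3.trans ?_
    rw [pow_two]
    exact Nat.mul_le_mul e1 e2
  -- the sets of primes of the preliminary sieve
  have hsp : ∀ s ⊆ (Nat.primesLE z).filter (fun p => ¬ p ∣ W), ∀ p ∈ s, p.Prime ∧ p ≤ z := by
    intro s hs p hp
    have h1 := hs hp
    simp only [Finset.mem_filter, Nat.mem_primesLE] at h1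
    exact ⟨h1.1.2, h1.1.1⟩
  have hs1 : ∀ s ⊆ (Nat.primesLE z).filter (fun p => ¬ p ∣ W), 1 ≤ ∏ p ∈ s, p :=
    fun s hs => Finset.prod_pos fun p hp => (hsp s hs p hp).1.pos
  have hErrb : ∀ s ⊆ (Nat.primesLE z).filter (fun p => ¬ p ∣ W), ∏ p ∈ s, p ≤ (z + 1) ^ K →
      ∀ r t : Asg P k, lam r ≠ 0 → lam t ≠ 0 → ∀ a : ℕ,
      a.Coprime (W * (∏ p ∈ s, p) * mpair r t) → ∀ y : ℝ, (N:ℝ) ≤ y → y ≤ 3 * M' →
      |SW.thetaAP y (W * (∏ p ∈ s, p) * mpair r t) a -
        y / ((W * (∏ p ∈ s, p) * mpair r t).totient : ℝ)| ≤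
        Err (W * (∏ p ∈ s, p) * mpair r t) := by
    intro s hs hsK r t hr ht a ha y hy1 hy2
    obtain ⟨e1, e2⟩ := hpair _ (hs1 s hs) r t hr ht
    apply le_min
    · exact hEb _ (Finset.mem_Icc.2 ⟨e1, e2.trans (hWR _ hsK)⟩) a ha y (by linarith only [hN20, hy1]) hy2
    · have e3 : ((W * (∏ p ∈ s, p) * mpair r t : ℕ) : ℝ) ≤ M' :=
        (by exact_mod_cast e2.trans (hWRN _ hsK) :
          ((W * (∏ p ∈ s, p) * mpair r t : ℕ) : ℝ) ≤ N).trans hNM
      exact err_trivial2 M' _ a e1 e3 y (by linarith only [hN20, hy1]) hy2 (by linarith only [hL20, hL10])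
  have hform0 : 0 ≤ formK (fun p => (p:ℝ) - 1) (lamm m lam) := by
    refine formK_nonneg _ (fun p hp => ?_) _
    have h1 : (k:ℝ) + 1 ≤ p := by exact_mod_cast (hP2 p hp).2
    have h2 : (2:ℝ) ≤ p := by exact_mod_cast (hP2 p hp).1
    constructor <;> linarith only [h1, h2]
  have hsum := hpre z N W v P hNn hW hzN
    (fun p hp => ⟨hPp p hp, hPz p hp, hPW p hp, (hPR p hp).trans hRNn⟩) h
    (fun p hp => (hmem p hp).2.2.2) m (3 * M') hhM (hcop m) lam Err hErr0 hErrb hform0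
  have hbvs : ∀ s ⊆ (Nat.primesLE z).filter (fun p => ¬ p ∣ W), ∏ p ∈ s, p ≤ (z + 1) ^ K →
      ∑ r, ∑ t, |lam r| * |lam t| * Err (W * (∏ p ∈ s, p) * mpair r t) ≤
      (10 * M') / (Real.log (10 * M')) ^ (A + 2 * K * (k+1) + 1 + K₀) := by
    intro s hs hsK
    have hs1' := hs1 s hs
    refine hbv (10 * M') (by linarith only [hNb, hN20, hNM]) (W * ∏ p ∈ s, p) R Q Err
      (Nat.one_le_iff_ne_zero.2 (by (clear * - hW hs1'; positivity))) hR1 (hWR _ hsK) (by linarith only [hN20, hNM, hQN]) hErr0 ?_ ?_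
      P (fun p hp => ⟨hPp p hp, fun hc => ?_⟩) lam hlamb hlam0
    · -- sum of the errors
      refine (Finset.sum_le_sum fun q _ => min_le_left _ _).trans (hEs.trans ?_)
      exact bv_alg hM'0 (by linarith only [hN20, hNM]) (hLC.trans (Real.log_le_log hN0 (by linarith only [hN20, hNM])))
    · intro q _
      exact min_le_right _ _
    · rcases (hPp p hp).dvd_mul.1 hc with hc | hc
      · exact hPW p hp hc
      · obtain ⟨q, hq, hpq⟩ := ((hPp p hp).prime.dvd_finsetProd_iff _).1 hc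
        have e1 := (Nat.prime_dvd_prime_iff_eq (hPp p hp) (hsp s hs q hq).1).1 hpq
        have e2 := (hsp s hs q hq).2
        have e3 := hPz p hp
        omega
  -- conclusion
  have hwn0 : ∀ n, 0 ≤ wn h lam n := fun n => by unfold wn; exact sq_nonneg _
  have hfin : ∑ n ∈ (Finset.Ioc N (2*N)).filter
        (fun n => n ≡ v [MOD W] ∧ (n + h m).Prime ∧ Avoid z W h n),
      Real.log ((n + h m : ℕ) : ℝ) * wn h lam n ≤ 5 / 4 * L *
      ∑ n ∈ (Finset.Ioc N (2*N)).filter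
        (fun n => n ≡ v [MOD W] ∧ (n + h m).Prime ∧ Avoid z W h n), wn h lam n := by
    rw [Finset.mul_sum]
    refine Finset.sum_le_sum fun n hn => ?_
    simp only [Finset.mem_filter, Finset.mem_Ioc] at hn
    apply mul_le_mul_of_nonneg_right _ (hwn0 n)
    have e1 : 0 < n + h m := by omega
    have e2 : ((n + h m : ℕ) : ℝ) ≤ 3 * M' := by
      refine le_trans ?_ hhM
      exact_mod_cast (by omega : n + h m ≤ 2 * N + h m)
    refine (Real.log_le_log (by exact_mod_cast e1) e2).trans ?_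
    rw [hM']
    exact g2
  have herr : 2 * ∑ s ∈ ((Nat.primesLE z).filter (fun p => ¬ p ∣ W)).powerset.filter
          (fun s => ∏ p ∈ s, p ≤ (z + 1) ^ K), (k:ℝ) ^ s.card *
        ∑ r, ∑ t, |lam r| * |lam t| * Err (W * (∏ p ∈ s, p) * mpair r t) ≤ N / L ^ A := by
    set T := (10 * M') / (Real.log (10 * M')) ^ (A + 2 * K * (k+1) + 1 + K₀) with hT
    have hl0 : 0 < Real.log (10 * M') := by linarith only [hL20, hL10]
    have hL0 : 0 < L := by linarith only [hL20]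
    have hT0 : 0 ≤ T := by (clear * - hM'0 hl0; positivity)
    have e0 : ∑ s ∈ ((Nat.primesLE z).filter (fun p => ¬ p ∣ W)).powerset.filter
          (fun s => ∏ p ∈ s, p ≤ (z + 1) ^ K), (k:ℝ) ^ s.card *
        ∑ r, ∑ t, |lam r| * |lam t| * Err (W * (∏ p ∈ s, p) * mpair r t) ≤
        L ^ (2 * K * (k+1)) * T := by
      refine (Finset.sum_le_sum (g := fun s => (k:ℝ) ^ s.card * T) fun s hs => ?_).trans ?_
      · simp only [Finset.mem_filter, Finset.mem_powerset] at hs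
        exact mul_le_mul_of_nonneg_left (hbvs s hs.1 hs.2) (by (clear * - hk; positivity))
      · rw [← Finset.sum_mul]
        apply mul_le_mul_of_nonneg_right _ hT0
        have e5 : (((z + 1) ^ K : ℕ) : ℝ) ^ (k+1) ≤ (L ^ (2 * K)) ^ (k+1) :=
          pow_le_pow_left₀ (by (clear * - hz1n; positivity)) hzM _
        rw [← pow_mul] at e5
        refine le_trans (sum_sets_le k _ _ fun p hp => ?_) e5
        simp only [Finset.mem_filter, Nat.mem_primesLE] at hp
        exact hp.1.2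
    have e1 : L ^ (2 * K * (k+1)) * T ≤ N / L ^ A / 2 := by
      exact err_alg hN0 hL20 hM' hL10
    linarith only [e0, e1]
  have hGP0 : 0 ≤ GP z W h := by
    unfold GP
    refine Finset.prod_nonneg fun p hp => ?_
    simp only [Finset.mem_filter, Nat.mem_primesLE] at hp
    have h2 : (2:ℝ) ≤ p := by exact_mod_cast hp.1.2.two_le
    have h3 : (nuI h p : ℝ) ≤ p := by exact_mod_cast nuI_le_prime h hp.1.2
    have h4 : ((nuI h p : ℝ) - 1) / ((p:ℝ) - 1) ≤ 1 := by
      rw [div_le_one (by linarith only [h2])]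
      linarith only [h3]
    linarith only [h4]
  have hmain : (1/8 : ℝ) * ((N:ℝ) / W) * (GG z W h / DZ z) *
        (sum1 P κ₁ (gst ρ J)) ^ 2 *
        (sum1 P κ₁ (fun a => (gst ρ J a) ^ 2)) ^ (k-1) ≤
      (1 - 1/2) * ((N:ℝ) / (W.totient : ℝ)) * GP z W h *
        formK (fun p => (p:ℝ) - 1) (lamm m lam) := by
    have e1 : ((N:ℝ) / W) * (GG z W h / DZ z) = ((N:ℝ) / (W.totient : ℝ)) * GP z W h := by
      rw [gg_gp z D hDz h]
      unfold Pool.Agent.Lib.MT.dens
      rw [← hWdef]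
      field_simp
    calc (1/8 : ℝ) * ((N:ℝ) / W) * (GG z W h / DZ z) *
        (sum1 P κ₁ (gst ρ J)) ^ 2 * (sum1 P κ₁ (fun a => (gst ρ J a) ^ 2)) ^ (k-1) =
        (1/2) * (((N:ℝ) / W) * (GG z W h / DZ z)) * ((1/4 : ℝ) * (sum1 P κ₁ (gst ρ J)) ^ 2 *
        (sum1 P κ₁ (fun a => (gst ρ J a) ^ 2)) ^ (k-1)) := by ring
      _ = (1/2) * (((N:ℝ) / (W.totient : ℝ)) * GP z W h) * ((1/4 : ℝ) *
        (sum1 P κ₁ (gst ρ J)) ^ 2 * (sum1 P κ₁ (fun a => (gst ρ J a) ^ 2)) ^ (k-1)) := by rw [e1]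
      _ ≤ (1/2) * (((N:ℝ) / (W.totient : ℝ)) * GP z W h) *
        formK (fun p => (p:ℝ) - 1) (lamm m lam) :=
          mul_le_mul_of_nonneg_left hform (by (clear * - hW hNn hGP0; positivity))
      _ = _ := by ring
  linarith only [hsum, hfin, herr, hmain]

end Pool.Agent.Lib.MP
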