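import Pool.Agent.Lib.MP.NonRough
import Pool.Agent.Lib.MP.PrimeSum
import Pool.Agent.Lib.MT.WeightedAux

/-!
# The weighted inequality for arbitrary shifts

Analogue of MT.Weighted. W = primorial D, z = zN N, P = Pr (WN N h) R, ν = nuN N h,
G = GG z W h > 0. With J + 1 ≥ 48000 c₁² (4r+5) (c₁ above 12 C₀ and C₁), k = 2^J,
S = c₁ k (J+1) + k + 1, ρ = floor(N^(1/(100 S))), R = ρ^S, η = 1/(200 S), M = (N/W) G B^k:
the first sum is ≤ 3 M, the prime part is ≥ 4 (r+1) M, (k+1) times the nonrough part is ≤ M.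
-/

open Finset
open scoped Classical

namespace Pool.Agent.Lib.MP

open Pool.Agent.Lib.MT Pool.Agent.HLB

namespace WtdTwoAux

/-- `exp x ≤ 4/3` for `x ≤ 1/4`. -/
lemma exp_le_four_thirds {x : ℝ} (hx : x ≤ 1/4) : Real.exp x ≤ 4/3 := by
  have h1 := Real.add_one_le_exp (-x)
  have h2 : (3/4 : ℝ) ≤ Real.exp (-x) := by linarith
  rw [Real.exp_neg] at h2
  have h3 := Real.exp_pos x
  have h4 : (3/4 : ℝ) * Real.exp x ≤ 1 := by
    calc (3/4 : ℝ) * Real.exp x ≤ (Real.exp x)⁻¹ * Real.exp x :=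
          mul_le_mul_of_nonneg_right h2 h3.le
      _ = 1 := inv_mul_cancel₀ h3.ne'
  linarith

lemma zN_le (N : ℕ) : (zN N : ℝ) ≤ Real.log N :=
  Nat.floor_le (Real.log_natCast_nonneg N)

lemma zN_large (D : ℕ) : ∀ᶠ N : ℕ in Filter.atTop, D ≤ zN N := by
  filter_upwards [Wtd.log_large D] with N hN
  exact Nat.le_floor hN

end WtdTwoAux

open WtdTwoAux Wtd in
theorem weighted_two : ∃ B : ℕ, ∀ r : ℕ, ∃ (k J : ℕ) (c C δ : ℝ), k ≤ B ^ (r + 1) ∧ r ≤ k ∧
    1 ≤ k ∧ 0 < c ∧ 0 < C ∧ 0 < δ ∧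
    ∀ K₀ D : ℕ, 2 * k ≤ D → ∃ N₀ : ℕ, ∀ N ≥ N₀, ∀ v : ℕ,
    ∀ h : Fin k → ℕ, Function.Injective h → (∀ i, (h i : ℝ) ≤ N * Real.log N ^ K₀) →
    (∀ i, Nat.Coprime (v + h i) (primorial D)) →
    ∃ R ρ : ℕ, (N:ℝ) ^ δ ≤ R ∧ R ≤ N ∧
    c * ((N:ℝ) / primorial D) * GG (zN N) (primorial D) h * (nuN N h * Real.log N) ^ k ≤
      ∑ n ∈ (Finset.Ioc N (2*N)).filter (fun n => n ≡ v [MOD primorial D] ∧
          Rough ((N:ℝ) ^ δ) h n),
      (((Finset.univ.filter (fun i => (n + h i).Prime)).card : ℝ) - ((r:ℝ) - 1)) *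
        wn h (lamOf (yOf (gst ρ J) R : Asg (Pr (WN N h) R) k → ℝ)) n ∧
    ∀ s, |lamOf (yOf (gst ρ J) R : Asg (Pr (WN N h) R) k → ℝ) s| ≤
      C * (nuN N h * Real.log N) ^ k := by
  obtain ⟨C₀, hC01, hpd⟩ := pd_all
  obtain ⟨Cq, hCq1, hprime⟩ := prime_sum_two
  obtain ⟨cD, hcD, hDZl⟩ := DZ_lower
  obtain ⟨Cp, hCp⟩ : ∃ Cp : ℝ, Cp = 12 * C₀ := ⟨_, rfl⟩
  have hCp1 : 1 ≤ Cp := by rw [hCp]; linarith
  obtain ⟨c1, hc1⟩ : ∃ c1 : ℕ, max Cp Cq ≤ c1 := exists_nat_ge _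
  have hCpc : Cp ≤ c1 := (le_max_left _ _).trans hc1
  have hCqc : Cq ≤ c1 := (le_max_right _ _).trans hc1
  have hc1R : (1:ℝ) ≤ c1 := hCp1.trans hCpc
  have hc1pos : 1 ≤ c1 := by exact_mod_cast hc1R
  refine ⟨2 ^ (48000 * c1 ^ 2 * 5), fun r => ?_⟩
  obtain ⟨J, hJ1, hrJ, hJB⟩ : ∃ J : ℕ, 48000 * c1 ^ 2 * (4 * r + 4 + 1) ≤ J + 1 ∧ r ≤ J ∧
      J ≤ 48000 * c1 ^ 2 * 5 * (r + 1) := by
    refine ⟨48000 * c1 ^ 2 * (4 * r + 4 + 1), by omega, ?_, ?_⟩
    · have : 1 ≤ c1 ^ 2 := Nat.one_le_pow _ _ hc1pos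
      exact le_trans (by omega : r ≤ 4 * r + 4 + 1)
        (Nat.le_mul_of_pos_left _ (Nat.mul_pos (by norm_num) (pow_pos hc1pos 2)))
    · calc 48000 * c1 ^ 2 * (4 * r + 4 + 1) ≤ 48000 * c1 ^ 2 * (5 * (r + 1)) :=
            Nat.mul_le_mul_left _ (by omega)
        _ = 48000 * c1 ^ 2 * 5 * (r + 1) := by ring
  obtain ⟨k, hkJ⟩ : ∃ k : ℕ, k = 2 ^ J := ⟨_, rfl⟩
  have hk1 : 1 ≤ k := by rw [hkJ]; exact Nat.one_le_two_pow
  have hrk : r ≤ k := by
    rw [hkJ]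
    exact hrJ.trans (Nat.lt_two_pow_self).le
  have hkB : k ≤ (2 ^ (48000 * c1 ^ 2 * 5)) ^ (r + 1) := by
    rw [hkJ, ← pow_mul]
    exact Nat.pow_le_pow_right (by norm_num) hJB
  obtain ⟨Cn, hCn1, hnon⟩ := nonrough_two k J hk1
  obtain ⟨K, hs1⟩ := s1_pre k (ε := 1/2) (by norm_num)
  obtain ⟨cG, hcG, hGGl⟩ := GG_lower k
  obtain ⟨S, hS⟩ : ∃ S : ℕ, S = c1 * k * (J+1) + k + 1 := ⟨_, rfl⟩
  have hS1 : 1 ≤ S := by omega
  have hSR : (S:ℝ) ≤ 3 * c1 * k * (J+1) := by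
    have h1 : k ≤ c1 * k * (J+1) := by
      calc k = 1 * k * 1 := by ring
        _ ≤ c1 * k * (J+1) := Nat.mul_le_mul (Nat.mul_le_mul hc1pos le_rfl) (by omega)
    have h2 : S ≤ 3 * c1 * k * (J+1) := by
      have : 3 * c1 * k * (J+1) = 3 * (c1 * k * (J+1)) := by ring
      rw [this, hS]
      omega
    exact_mod_cast h2
  have hSpos : (0:ℝ) < S := by exact_mod_cast hS1
  obtain ⟨η, hη⟩ : ∃ η : ℝ, η = 1 / (200 * S) := ⟨_, rfl⟩
  have hηpos : 0 < η := by rw [hη]; positivity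
  have hη200 : η ≤ 1 / 200 := by
    rw [hη]
    apply div_le_div_of_nonneg_left (by norm_num) (by norm_num)
    have : (1:ℝ) ≤ S := by exact_mod_cast hS1
    linarith
  have hkpos : (0:ℝ) < k := by exact_mod_cast hk1
  have hCnpos : 0 < Cn := by linarith
  have hCnk : (1:ℝ) ≤ (k+1) * Cn := one_le_mul_of_one_le_of_one_le (by linarith only [hkpos]) hCn1
  obtain ⟨δ, hδ⟩ : ∃ δ : ℝ, δ = η / ((k+1) * Cn) := ⟨_, rfl⟩
  have hδpos : 0 < δ := by rw [hδ]; positivity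
  have hδη : δ ≤ η := by
    rw [hδ]
    exact div_le_self hηpos.le hCnk
  have hδ4 : δ ≤ 1/4 := by linarith
  have hnr : (k+1) * (Cn * (δ / η)) = 1 := by
    rw [hδ]; field_simp
  refine ⟨k, J, η ^ k, Cp ^ k, δ, hkB, hrk, hk1, by positivity, by positivity, hδpos,
    fun K₀ D hkD => ?_⟩
  obtain ⟨N1, hN1⟩ := hprime k J D (2 * k + 1) K₀ η hk1 hηpos hkD
  obtain ⟨N2, hN2⟩ := hnon D δ η hδpos hδ4 hδη hkD
  obtain ⟨N3, hN3⟩ := hpd k
  obtain ⟨N4, hN4⟩ := nuN_bounds k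
  obtain ⟨W, hW⟩ : ∃ W : ℕ, W = primorial D := ⟨_, rfl⟩
  have hW0 : 0 < W := by rw [hW]; exact primorial_pos D
  have hWpos : (0:ℝ) < W := by exact_mod_cast hW0
  obtain ⟨c3, hc3⟩ : ∃ c3 : ℝ, c3 = cG * (cD ^ 2 / 2) ^ k / W := ⟨_, rfl⟩
  have hc3pos : 0 < c3 := by rw [hc3]; positivity
  have hD2 : 2 ≤ D := by omega
  -- eventual conditions
  have hev : ∀ᶠ N : ℕ in Filter.atTop, (N1 ≤ N ∧ N2 ≤ N ∧ N3 ≤ N ∧ N4 ≤ N) ∧ 81 ≤ N ∧
      (2:ℝ) ≤ (N:ℝ) ^ η ∧ Real.exp 1 * (Real.log N) ^ 1 ≤ (N:ℝ) ^ η ∧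
      (4 * k:ℝ) ≤ Real.log N ∧ 1 ≤ Real.log N ∧ 1 / c3 ≤ Real.log N ∧
      (2 ^ K * (2 * Cp) ^ (2 * k)) * (Real.log N) ^ (K + 4 * k + (2 * k + 1)) ≤
        (N:ℝ) ^ (49/50 : ℝ) ∧ D + 8 * k ≤ zN N ∧ 1 * (Real.log N) ^ 1 ≤ (N:ℝ) ^ δ := by
    filter_upwards [Filter.eventually_ge_atTop N1, Filter.eventually_ge_atTop N2,
      Filter.eventually_ge_atTop N3, Filter.eventually_ge_atTop N4,
      Filter.eventually_ge_atTop 81, rpow_large 2 η hηpos, log_pow_small 1 (Real.exp 1) η hηpos,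
      log_large (4 * k), log_large 1, log_large (1 / c3),
      log_pow_small (K + 4 * k + (2 * k + 1)) (2 ^ K * (2 * Cp) ^ (2 * k)) (49/50)
        (by norm_num), zN_large (D + 8 * k), log_pow_small 1 1 δ hδpos]
      with N h1 h2 h3 h4 h5 h6 h7 h8 h9 h10 h11 h12 h13
    exact ⟨⟨h1, h2, h3, h4⟩, h5, h6, h7, h8, h9, h10, h11, h12, h13⟩
  obtain ⟨N₀, hN₀⟩ := Filter.eventually_atTop.1 (hev.and (PrimeSumTwoAux.shift_facts K₀))
  refine ⟨N₀, fun N hN v h hinj hhN' hcop => ?_⟩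
  obtain ⟨⟨⟨hNN1, hNN2, hNN3, hNN4⟩, hN81, hN2η, hNK, hNk, hL1, hNc3, hNE, hzD, hNδ⟩, g1, -⟩ :=
    hN₀ N hN
  have hhN : ∀ i, h i ≤ N ^ 2 := by
    intro i
    have e1 : (h i : ℝ) ≤ (N:ℝ) * N :=
      (hhN' i).trans (mul_le_mul_of_nonneg_left g1 (Nat.cast_nonneg _))
    rw [pow_two]
    exact_mod_cast e1
  rw [← hW] at hcop
  rw [← hW]
  have hN1e := hN1 N hNN1
  have hN2e := hN2 N hNN2
  rw [← hW] at hN1e hN2e
  have hNpos : (0:ℝ) < N := by
    have : (81:ℝ) ≤ N := by exact_mod_cast hN81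
    linarith only [this]
  have hN1' : (1:ℝ) ≤ N := by
    have : (81:ℝ) ≤ N := by exact_mod_cast hN81
    linarith only [this]
  set L := Real.log N with hL
  have hLpos : 0 < L := by linarith only [hL1]
  set z := zN N with hz
  have hzL : (z:ℝ) ≤ L := zN_le N
  have hzD' : D ≤ z := by omega
  have hz2 : 2 ≤ z := by omega
  have hz1 : 1 ≤ z := by omega
  have hzpos : (0:ℝ) < z := by exact_mod_cast hz1
  have hlogz0 : 0 < Real.log z := Real.log_pos (by exact_mod_cast hz2)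
  have hlogzL : Real.log z ≤ L := (Real.log_le_self hzpos.le).trans hzL
  have hNδ' : L ≤ (N:ℝ) ^ δ := by rw [pow_one, one_mul] at hNδ; exact hNδ
  -- choice of ρ and R
  obtain ⟨ρ, hρ⟩ : ∃ ρ : ℕ, ρ = ⌊(N:ℝ) ^ (1 / (100 * (S:ℝ)))⌋₊ := ⟨_, rfl⟩
  obtain ⟨R, hR⟩ : ∃ R : ℕ, R = ρ ^ S := ⟨_, rfl⟩
  have hsq : (N:ℝ) ^ (1 / (100 * (S:ℝ))) = (N:ℝ) ^ η * (N:ℝ) ^ η := by
    rw [← Real.rpow_add hNpos]
    congr 1
    rw [hη]; field_simp; norm_num
  have hρη : (N:ℝ) ^ η ≤ ρ := by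
    have h1 : (N:ℝ) ^ (1 / (100 * (S:ℝ))) < ρ + 1 := by
      rw [hρ]; exact Nat.lt_floor_add_one _
    rw [hsq] at h1
    have h2 : (2:ℝ) * (N:ℝ) ^ η ≤ (N:ℝ) ^ η * (N:ℝ) ^ η :=
      mul_le_mul_of_nonneg_right hN2η (le_trans zero_le_two hN2η)
    linarith only [h1, h2, hN2η]
  have hρ2R : (2:ℝ) ≤ ρ := hN2η.trans hρη
  have hρ2 : 2 ≤ ρ := by exact_mod_cast hρ2R
  have hρle : (ρ:ℝ) ≤ (N:ℝ) ^ (1 / (100 * (S:ℝ))) := by
    rw [hρ]; exact Nat.floor_le (by positivity)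
  have hR100 : (R:ℝ) ≤ (N:ℝ) ^ (1/100 : ℝ) := by
    rw [hR]; push_cast
    calc (ρ:ℝ) ^ S ≤ ((N:ℝ) ^ (1 / (100 * (S:ℝ)))) ^ S :=
          pow_le_pow_left₀ (by positivity) hρle S
      _ = (N:ℝ) ^ (1/100 : ℝ) := by
          rw [← Real.rpow_natCast, ← Real.rpow_mul hNpos.le]
          congr 1
          field_simp
  have hRN : (R:ℝ) ≤ N := by
    refine hR100.trans ?_
    calc (N:ℝ) ^ (1/100 : ℝ) ≤ (N:ℝ) ^ (1:ℝ) :=
          Real.rpow_le_rpow_of_exponent_le hN1' (by norm_num)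
      _ = N := Real.rpow_one _
  have hRN' : R ≤ N := by exact_mod_cast hRN
  have hρR : ρ ≤ R := by
    rw [hR]
    exact Nat.le_self_pow (by omega) ρ
  have hR2 : 2 ≤ R := hρ2.trans hρR
  have hRR : (2:ℝ) ≤ R := by exact_mod_cast hR2
  have hδR : (N:ℝ) ^ δ ≤ R := by
    calc (N:ℝ) ^ δ ≤ (N:ℝ) ^ η := Real.rpow_le_rpow_of_exponent_le hN1' hδη
      _ ≤ ρ := hρη
      _ ≤ R := by exact_mod_cast hρR
  set ℓ := Real.log ρ with hℓ
  have hℓη : η * L ≤ ℓ := by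
    have := Real.log_le_log (by positivity) hρη
    rwa [Real.log_rpow hNpos] at this
  have hlogR : Real.log R = S * ℓ := by
    rw [hR]; push_cast; rw [Real.log_pow]
  have hρW : 1 + Real.log z ≤ ℓ := by
    have h1 : Real.exp 1 * z ≤ ρ := by
      refine le_trans (mul_le_mul_of_nonneg_left hzL (Real.exp_pos 1).le) ?_
      rw [pow_one] at hNK
      exact hNK.trans hρη
    have h2 := Real.log_le_log (by positivity) h1
    rwa [Real.log_mul (Real.exp_pos 1).ne' hzpos.ne', Real.log_exp] at h2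
  have hℓ1 : 1 ≤ ℓ := by linarith only [hρW, hlogz0]
  have hSk : 2 ^ J < S := by
    rw [← hkJ, hS]
    have : 0 ≤ c1 * k * (J+1) := Nat.zero_le _
    omega
  have hρJR : ρ ^ (2 ^ J) < R := by
    rw [hR]
    exact Nat.pow_lt_pow_right (by omega) hSk
  have hRJ : Cq * k * (J+1) * ℓ + 2 ^ J * ℓ ≤ Real.log R := by
    rw [hlogR, ← add_mul]
    apply mul_le_mul_of_nonneg_right _ (by linarith only [hℓ1])
    have h1 : ((2:ℝ) ^ J) = k := by rw [hkJ]; push_cast; rfl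
    have h2 : (S:ℝ) = c1 * k * (J+1) + k + 1 := by rw [hS]; push_cast; ring
    rw [h1, h2]
    have h3 : Cq * k * (J+1) ≤ c1 * k * (J+1) :=
      mul_le_mul_of_nonneg_right (mul_le_mul_of_nonneg_right hCqc hkpos.le)
        (Nat.cast_add_one_pos J).le
    linarith only [h3]
  -- abbreviations
  have hPDH := hN3 N hNN3 h hinj hhN R (by omega) hRN'
  obtain ⟨hnu1, hnu2⟩ := hN4 N hNN4 h hinj hhN
  obtain ⟨hpA, hpB1, hpB2, _, hpR⟩ := params_two hC01 hPDH ρ J hρ2 hρJR.le hρW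
  refine ⟨R, ρ, hδR, hRN', ?_⟩
  have hN1f := hN1e v R ρ hρη hRJ hρJR hR100 h hinj hhN' hcop
  have hN2f := hN2e v R ρ hρη hρJR.le hR100 h hinj hhN
  have hGGl' := hGGl D z hkD hzD' h
  have hPprime0 := hPDH.prime
  have hPz0 : ∀ p ∈ Pr (WN N h) R, z < p := fun p hp => (mem_Pr_WN N R h hinj p hp).2.1
  have hPdist0 : ∀ p ∈ Pr (WN N h) R, ∀ i j, i ≠ j → ¬ h i ≡ h j [MOD p] := fun p hp =>
    (mem_Pr_WN N R h hinj p hp).2.2.2
  have hkz0 : ∀ p ∈ Pr (WN N h) R, k ≤ p := fun p hp => by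
    have := hPz0 p hp
    omega
  have hPW0 : ∀ p ∈ Pr (WN N h) R, ¬ p ∣ W := by
    intro p hp hd
    rw [hW, (hPprime0 p hp).dvd_primorial_iff] at hd
    have := hPz0 p hp
    omega
  have hg0' : ∀ a, 0 ≤ gst ρ J a := fun a => gst_nonneg ρ J a
  have hg1' : ∀ a, gst ρ J a ≤ 1 := fun a => gst_le_one ρ J a
  have hga' : Antitone (gst ρ J) := gst_antitone ρ J
  have hlamsum := sum_abs_lam_le (k := k) hPprime0 (gst ρ J) hg0' hg1' R (by omega)
  have hlammax := fun s => lam_max (k := k) hPprime0 (gst ρ J) hg0' hg1' R s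
  have hform0' : 0 ≤ formK (fun p => (p:ℝ)) (lamOf (yOf (gst ρ J) R : Asg (Pr (WN N h) R) k → ℝ)) :=
    formK_nonneg _ (fun p hp => ⟨by exact_mod_cast hkz0 p hp,
      by exact_mod_cast (hPprime0 p hp).pos⟩) _
  have hs1' := hs1 z N W v (Pr (WN N h) R) hW0 (fun p hp => ⟨hPprime0 p hp, hPz0 p hp, hPW0 p hp⟩)
    h hPdist0 _ hform0'
  have hsOne' := sOne_upper (P := Pr (WN N h) R) (k := k)
    (fun p hp => ⟨(hPprime0 p hp).two_le, hkz0 p hp⟩) (gst ρ J) hg0' R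
  have hFpos : 0 < nuN N h := hPDH.νpos
  have hFle : nuN N h ≤ 1 := hPDH.νle
  clear hPDH
  set F := nuN N h with hF
  set G := GG z W h with hG
  have hDZ1 : cD / L ≤ DZ z :=
    (div_le_div_of_nonneg_left hcD.le hlogz0 hlogzL).trans (hDZl z hz2)
  have hDZpos : 0 < DZ z := DZ_pos z
  have hGge : cG * (cD / L) ^ k ≤ G := by
    have h1 := hGGl'
    rw [← hW] at h1
    refine le_trans (mul_le_mul_of_nonneg_left ?_ hcG.le) h1
    exact pow_le_pow_left₀ (div_pos hcD hLpos).le hDZ1 k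
  have hGpos : 0 < G :=
    lt_of_lt_of_le (mul_pos hcG (pow_pos (div_pos hcD hLpos) k)) hGge
  set g := gst ρ J with hg
  set P := Pr (WN N h) R with hP
  set A := sum1 P κ₁ g with hA
  set B := sum1 P κ₁ (fun a => (g a) ^ 2) with hB
  rw [← hCp] at hpB2 hpR
  set lam : Asg P k → ℝ := lamOf (yOf g R) with hlam
  -- properties of P
  clear_value lam B A P g G F
  have hPprime : ∀ p ∈ P, p.Prime := hPprime0
  have hPz : ∀ p ∈ P, z < p := hPz0
  have hFℓ : cD / (2 * L) ≤ F * ℓ := by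
    calc cD / (2 * L) = (cD / L) / 2 := by field_simp
      _ ≤ DZ z / 2 := by linarith only [hDZ1]
      _ ≤ F := hnu1
      _ ≤ F * ℓ := le_mul_of_one_le_right hFpos.le hℓ1
  have hFℓpos : 0 < F * ℓ := mul_pos hFpos (by linarith only [hℓ1])
  have hBpos : 0 < B := lt_of_lt_of_le hFℓpos hpB1
  set NW := (N:ℝ) / W with hNW
  clear_value NW
  have hNWpos : 0 < NW := by rw [hNW]; exact div_pos hNpos hWpos
  -- M
  set M := NW * G * B ^ k with hM
  clear_value M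
  have hM0 : NW * G * (F * ℓ) ^ k ≤ M := by
    rw [hM]
    exact mul_le_mul_of_nonneg_left (pow_le_pow_left₀ hFℓpos.le hpB1 k)
      (mul_pos hNWpos hGpos).le
  have hMge : N / L ^ (2 * k + 1) ≤ M := by
    refine le_trans ?_ hM0
    have h1 : NW * (cG * (cD / L) ^ k) * (cD / (2 * L)) ^ k ≤ NW * G * (F * ℓ) ^ k := by
      have hcDL : 0 ≤ cD / (2 * L) := (div_pos hcD (by linarith only [hLpos])).le
      apply mul_le_mul _ _ (pow_nonneg hcDL k) (mul_pos hNWpos hGpos).le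
      · exact mul_le_mul_of_nonneg_left hGge hNWpos.le
      · exact pow_le_pow_left₀ hcDL hFℓ k
    refine le_trans ?_ h1
    have h2 : NW * (cG * (cD / L) ^ k) * (cD / (2 * L)) ^ k = c3 * (N / L ^ (2 * k)) := by
      have h3 : (cD / L) ^ k * (cD / (2 * L)) ^ k = (cD ^ 2 / 2) ^ k / L ^ (2 * k) := by
        rw [← mul_pow, pow_mul, ← div_pow]
        congr 1
        field_simp
      calc NW * (cG * (cD / L) ^ k) * (cD / (2 * L)) ^ k
          = NW * cG * ((cD / L) ^ k * (cD / (2 * L)) ^ k) := by ring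
        _ = NW * cG * ((cD ^ 2 / 2) ^ k / L ^ (2 * k)) := by rw [h3]
        _ = _ := by rw [hNW, hc3]; ring
    rw [h2, pow_succ, ← div_div]
    rw [div_le_iff₀ hLpos]
    have h4 : 1 ≤ c3 * L := by
      rw [div_le_iff₀ hc3pos] at hNc3
      linarith only [hNc3]
    calc N / L ^ (2 * k) = 1 * (N / L ^ (2 * k)) := (one_mul _).symm
      _ ≤ (c3 * L) * (N / L ^ (2 * k)) :=
          mul_le_mul_of_nonneg_right h4 (div_pos hNpos (pow_pos hLpos _)).le
      _ = c3 * (N / L ^ (2 * k)) * L := by ring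
  have hMpos : 0 < M := by rw [hM]; exact mul_pos (mul_pos hNWpos hGpos) (pow_pos hBpos k)
  -- the size of the weights
  have hg0 : ∀ a, 0 ≤ g a := hg0'
  have hga : Antitone g := hga'
  have hgsq : Antitone (fun a => (g a) ^ 2) := fun a b hab =>
    pow_le_pow_left₀ (hg0 _) (hga hab) 2
  have hlogRL : Real.log R ≤ L := Real.log_le_log (by linarith only [hRR]) hRN
  have hlogR0 : 0 ≤ Real.log R := Real.log_nonneg (by linarith only [hRR])
  have hsumR0 : 0 ≤ sum1 P κ₁ (fun a => if a ≤ R then (1:ℝ) else 0) := by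
    apply sum1_nonneg
    · intro p hp
      have h2 : (2:ℝ) ≤ p := by exact_mod_cast (hPprime p hp).two_le
      unfold κ₁
      apply div_nonneg zero_le_one
      linarith only [h2]
    · intro a
      split_ifs <;> norm_num
  have hE1 : ((z:ℝ) + 1) ^ K * (∑ s, |lam s|) ^ 2 ≤ M := by
    have h1 := hlamsum
    have h2 : ∑ s, |lam s| ≤ (N:ℝ) ^ (1/100 : ℝ) * ((2 * Cp) ^ k * L ^ (2 * k)) := by
      refine h1.trans ?_
      have e1 : (1 + Real.log R) ^ k ≤ (2 * L) ^ k :=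
        pow_le_pow_left₀ (by linarith only [hlogR0]) (by linarith only [hlogRL, hL1]) k
      have e2 : (sum1 P κ₁ (fun a => if a ≤ R then (1:ℝ) else 0)) ^ k ≤ (Cp * L) ^ k := by
        apply pow_le_pow_left₀ hsumR0
        refine hpR.trans ?_
        calc Cp * F * Real.log R ≤ Cp * 1 * L := by
              apply mul_le_mul _ hlogRL hlogR0 (by linarith only [hCp1])
              exact mul_le_mul_of_nonneg_left hFle (by linarith only [hCp1])
          _ = Cp * L := by ring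
      calc (R:ℝ) * (1 + Real.log R) ^ k * (sum1 P κ₁ (fun a => if a ≤ R then (1:ℝ) else 0)) ^ k
          ≤ (N:ℝ) ^ (1/100 : ℝ) * (2 * L) ^ k * (Cp * L) ^ k := by
            apply mul_le_mul _ e2 (pow_nonneg hsumR0 k) (mul_nonneg
              (Real.rpow_nonneg hNpos.le _) (pow_nonneg (by linarith only [hLpos]) k))
            exact mul_le_mul hR100 e1 (pow_nonneg (by linarith only [hlogR0]) k)
              (Real.rpow_nonneg hNpos.le _)
        _ = (N:ℝ) ^ (1/100 : ℝ) * ((2 * Cp) ^ k * L ^ (2 * k)) := by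
            rw [mul_pow, mul_pow, mul_pow, two_mul, pow_add]; ring
    have h3 : (∑ s, |lam s|) ^ 2 ≤
        ((N:ℝ) ^ (1/100 : ℝ) * ((2 * Cp) ^ k * L ^ (2 * k))) ^ 2 :=
      pow_le_pow_left₀ (Finset.sum_nonneg fun _ _ => abs_nonneg _) h2 2
    have h3z : ((z:ℝ) + 1) ^ K ≤ (2 * L) ^ K :=
      pow_le_pow_left₀ (by linarith only [hzpos]) (by linarith only [hzL, hL1]) K
    have h3' : ((z:ℝ) + 1) ^ K * (∑ s, |lam s|) ^ 2 ≤ (2 * L) ^ K *
        ((N:ℝ) ^ (1/100 : ℝ) * ((2 * Cp) ^ k * L ^ (2 * k))) ^ 2 :=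
      mul_le_mul h3z h3 (sq_nonneg _) (pow_nonneg (by linarith only [hLpos]) K)
    refine h3'.trans (le_trans ?_ hMge)
    rw [le_div_iff₀ (pow_pos hLpos _)]
    have e3 : ((N:ℝ) ^ (1/100 : ℝ)) ^ 2 * (N:ℝ) ^ (49/50 : ℝ) = N := by
      rw [← Real.rpow_natCast, ← Real.rpow_mul hNpos.le, ← Real.rpow_add hNpos]
      norm_num
    calc (2 * L) ^ K * ((N:ℝ) ^ (1/100 : ℝ) * ((2 * Cp) ^ k * L ^ (2 * k))) ^ 2 *
          L ^ (2 * k + 1)
        = ((N:ℝ) ^ (1/100 : ℝ)) ^ 2 * ((2 ^ K * (2 * Cp) ^ (2 * k)) *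
            L ^ (K + 4 * k + (2 * k + 1))) := by
          rw [mul_pow, mul_pow, mul_pow, ← pow_mul, ← pow_mul, pow_add L (K + 4 * k),
            pow_add L K]
          rw [show k * 2 = 2 * k by ring, show 2 * k * 2 = 4 * k by ring]
          ring
      _ ≤ ((N:ℝ) ^ (1/100 : ℝ)) ^ 2 * (N:ℝ) ^ (49/50 : ℝ) :=
          mul_le_mul_of_nonneg_left hNE (sq_nonneg _)
      _ = N := e3
  -- first sum
  have hwn0 : ∀ n, 0 ≤ wn h lam n := fun n => by unfold wn; exact sq_nonneg _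
  set base := (Finset.Ioc N (2*N)).filter (fun n => n ≡ v [MOD W] ∧ Avoid z W h n) with hbase
  have hS1 : ∑ n ∈ base, wn h lam n ≤ 3 * M := by
    have h1 := hs1'
    have h2 := hsOne'
    have h3 := sum1_kappa2_le P (fun p hp => (hPprime p hp).two_le) (fun a => (g a) ^ 2) hgsq
      (fun a => sq_nonneg _)
    rw [← hB] at h3
    have h4 := sum_kappa1_sq_le P z hz1 hPz
    have h5 : sum1 P κ₂ (fun a => (g a) ^ 2) ≤ Real.exp (2 / z) * B :=
      h3.trans (mul_le_mul_of_nonneg_right (Real.exp_le_exp.2 h4) hBpos.le)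
    have h6 : 0 ≤ sum1 P κ₂ (fun a => (g a) ^ 2) :=
      sum1_nonneg (fun p _ => κ₂_nonneg p) fun a => sq_nonneg _
    have h7 : (sum1 P κ₂ (fun a => (g a) ^ 2)) ^ k ≤ 4/3 * B ^ k := by
      calc (sum1 P κ₂ (fun a => (g a) ^ 2)) ^ k ≤ (Real.exp (2 / z) * B) ^ k :=
            pow_le_pow_left₀ h6 h5 k
        _ = Real.exp (k * (2 / z)) * B ^ k := by rw [mul_pow, ← Real.exp_nat_mul]
        _ ≤ 4/3 * B ^ k := by
            apply mul_le_mul_of_nonneg_right _ (pow_pos hBpos k).le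
            apply exp_le_four_thirds
            rw [mul_div_assoc', div_le_div_iff₀ hzpos (by norm_num)]
            have e2 : 8 * k ≤ z := by omega
            have e3 : (8:ℝ) * k ≤ z := by exact_mod_cast e2
            linarith only [e3]
    have h8 : (1 + 1/2 : ℝ) * NW * G * formK (fun p => (p:ℝ)) lam ≤
        (1 + 1/2 : ℝ) * NW * G * (4/3 * B ^ k) :=
      mul_le_mul_of_nonneg_left (h2.trans h7)
        (mul_pos (mul_pos (by norm_num) hNWpos) hGpos).le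
    have h9 : (1 + 1/2 : ℝ) * NW * G * (4/3 * B ^ k) = 2 * M := by rw [hM]; ring
    linarith only [h1, h8, h9, hE1]
  -- the nonrough part
  have hNR : (k + 1) * ∑ n ∈ (Finset.Ioc N (2*N)).filter (fun n => n ≡ v [MOD W] ∧
        Avoid z W h n ∧
        ∃ p : ℕ, p.Prime ∧ z < p ∧ (p:ℝ) ≤ (N:ℝ) ^ δ ∧ ∃ i, p ∣ n + h i),
        wn h lam n ≤ M := by
    have h1 := hN2f
    have h2 : (k + 1) * ∑ n ∈ (Finset.Ioc N (2*N)).filter (fun n => n ≡ v [MOD W] ∧
        Avoid z W h n ∧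
        ∃ p : ℕ, p.Prime ∧ z < p ∧ (p:ℝ) ≤ (N:ℝ) ^ δ ∧ ∃ i, p ∣ n + h i), wn h lam n ≤
        (k + 1) * (Cn * (δ / η) * NW * G * (F * ℓ) ^ k) :=
      mul_le_mul_of_nonneg_left h1 (by linarith only [hkpos])
    refine h2.trans (le_trans ?_ hM0)
    calc (k + 1) * (Cn * (δ / η) * NW * G * (F * ℓ) ^ k)
        = ((k + 1) * (Cn * (δ / η))) * (NW * G * (F * ℓ) ^ k) := by ring
      _ = NW * G * (F * ℓ) ^ k := by rw [hnr, one_mul]
      _ ≤ _ := le_rfl
  -- the prime part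
  have hT : 4 * ((r:ℝ) + 1) * M ≤
      ∑ n ∈ base, ((Finset.univ.filter (fun i => (n + h i).Prime)).card : ℝ) * wn h lam n := by
    set T := ∑ n ∈ base, ((Finset.univ.filter (fun i => (n + h i).Prime)).card : ℝ) *
      wn h lam n with hTdef
    have hTm : T = ∑ m : Fin k, ∑ n ∈ (Finset.Ioc N (2*N)).filter
        (fun n => n ≡ v [MOD W] ∧ (n + h m).Prime ∧ Avoid z W h n), wn h lam n := by
      have e1 : ∀ m : Fin k, ∑ n ∈ (Finset.Ioc N (2*N)).filter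
          (fun n => n ≡ v [MOD W] ∧ (n + h m).Prime ∧ Avoid z W h n), wn h lam n =
          ∑ n ∈ base, if (n + h m).Prime then wn h lam n else 0 := by
        intro m
        rw [hbase, ← Finset.sum_filter, Finset.filter_filter]
        refine Finset.sum_congr (Finset.filter_congr fun n _ => ?_) fun _ _ => rfl
        exact ⟨fun ⟨a, b, c⟩ => ⟨⟨a, c⟩, b⟩, fun ⟨⟨a, c⟩, b⟩ => ⟨a, b, c⟩⟩
      simp only [e1]
      rw [Finset.sum_comm, hTdef]
      refine Finset.sum_congr rfl fun n _ => ?_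
      rw [← Finset.sum_filter, Finset.sum_const, nsmul_eq_mul]
    have hmk : ∀ m : Fin k, (1/8 : ℝ) * NW * (G / DZ z) * A ^ 2 * B ^ (k-1) -
        N / L ^ (2 * k + 1) ≤ 5 / 4 * L * ∑ n ∈ (Finset.Ioc N (2*N)).filter
        (fun n => n ≡ v [MOD W] ∧ (n + h m).Prime ∧ Avoid z W h n), wn h lam n := hN1f
    have hGD : G / (2 * F) ≤ G / DZ z := by
      apply div_le_div_of_nonneg_left hGpos.le hDZpos
      linarith only [hnu1]
    have hsum : (k:ℝ) * ((1/4 : ℝ) * ((NW * G / 4) / F) * A ^ 2 * B ^ (k-1) -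
        N / L ^ (2 * k + 1)) ≤ 5 / 4 * L * T := by
      rw [hTm, Finset.mul_sum]
      have e2 := Finset.sum_le_sum fun (m : Fin k) (_ : m ∈ Finset.univ) => hmk m
      rw [Finset.sum_const, Finset.card_univ, Fintype.card_fin, nsmul_eq_mul] at e2
      refine le_trans (mul_le_mul_of_nonneg_left ?_ hkpos.le) e2
      apply sub_le_sub_right
      apply mul_le_mul_of_nonneg_right _ (pow_pos hBpos _).le
      apply mul_le_mul_of_nonneg_right _ (sq_nonneg _)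
      calc (1/4 : ℝ) * ((NW * G / 4) / F) = (1/8 : ℝ) * NW * (G / (2 * F)) := by
            field_simp; norm_num
        _ ≤ (1/8 : ℝ) * NW * (G / DZ z) := 
            mul_le_mul_of_nonneg_left hGD (mul_pos (by norm_num) hNWpos).le
    have hL3pos : 0 < 5 / 4 * L := by linarith only [hLpos]
    have hL3k : (4 * k:ℝ) ≤ 5 / 4 * L := by linarith only [hNk, hLpos]
    obtain ⟨k', hk'⟩ : ∃ k', k = k' + 1 := ⟨k - 1, by omega⟩
    have hkk' : k - 1 = k' := by omega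
    have hMk : M / 4 = (NW * G / 4) * B ^ (k' + 1) := by rw [hM, ← hk']; ring
    rw [hkk'] at hsum
    have hmain : 4 * (((4 * r + 4 : ℕ) : ℝ) + 1) * (M / 4) - M / 4 ≤ T := by
      rw [hMk]
      apply prime_part (A := A) (Cp := Cp) (J := (J:ℝ)) (L3 := 5 / 4 * L)
        (k := (k:ℝ)) (E := N / L ^ (2 * k + 1)) hFpos (by linarith only [hℓ1])
        (div_pos (mul_pos hNWpos hGpos) (by norm_num)) (by linarith only [hCp1])
        (Nat.cast_nonneg J) hkpos hL3pos hpA hBpos.le hpB2 _ hsum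
      · rw [← hMk]
        calc (k:ℝ) * (N / L ^ (2 * k + 1)) ≤ k * M :=
              mul_le_mul_of_nonneg_left hMge hkpos.le
          _ = (4 * k) * (M / 4) := by ring
          _ ≤ 5 / 4 * L * (M / 4) := 
              mul_le_mul_of_nonneg_right hL3k (div_pos hMpos (by norm_num)).le
      · -- the key numerical inequality
        have hJ1R : 48000 * (c1:ℝ) ^ 2 * (((4 * r + 4 : ℕ) : ℝ) + 1) ≤ (J:ℝ) + 1 := by
          exact_mod_cast hJ1
        have hJpos : (0:ℝ) < (J:ℝ) + 1 := Nat.cast_add_one_pos J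
        have hr44 : (0:ℝ) < ((4 * r + 4 : ℕ) : ℝ) + 1 := Nat.cast_add_one_pos _
        have hc1p : (0:ℝ) < c1 := by linarith only [hc1R]
        have hprod : (0:ℝ) < 3 * c1 * k * ((J:ℝ) + 1) :=
          mul_pos (mul_pos (mul_pos (by norm_num) hc1p) hkpos) hJpos
        have e1 : L / (200 * S) ≤ ℓ := by
          refine le_trans (le_of_eq ?_) hℓη
          rw [hη]; ring
        have e2 : L / (200 * (3 * c1 * k * (J+1))) ≤ ℓ := by
          refine le_trans ?_ e1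
          apply div_le_div_of_nonneg_left hLpos.le (by linarith only [hSpos])
          linarith only [hSR]
        have e3 : ((J:ℝ)+1) ^ 2 / 4 ≤ ((J:ℝ) / 2 + 1) ^ 2 := by
          have e4 : ((J:ℝ) / 2 + 1) ^ 2 - ((J:ℝ)+1) ^ 2 / 4 = (J:ℝ) / 2 + 3 / 4 := by ring
          have e5 : (0:ℝ) ≤ (J:ℝ) := Nat.cast_nonneg J
          linarith only [e4, e5]
        calc 16 * (((4 * r + 4 : ℕ) : ℝ) + 1) * Cp * (5 / 4 * L)
            ≤ 16 * (((4 * r + 4 : ℕ) : ℝ) + 1) * c1 * (5/4 * L) := by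
              apply mul_le_mul_of_nonneg_right _ hL3pos.le
              exact mul_le_mul_of_nonneg_left hCpc (mul_pos (by norm_num) hr44).le
          _ = (48000 * (c1:ℝ) ^ 2 * (((4 * r + 4 : ℕ) : ℝ) + 1)) * (L / (2400 * c1)) := by
              field_simp; ring
          _ ≤ ((J:ℝ) + 1) * (L / (2400 * c1)) :=
              mul_le_mul_of_nonneg_right hJ1R (div_pos hLpos (by linarith only [hc1p])).le
          _ = (k * (((J:ℝ)+1) ^ 2 / 4)) * (L / (200 * (3 * c1 * k * (J+1)))) := by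
              field_simp; ring
          _ ≤ (k * ((J:ℝ) / 2 + 1) ^ 2) * ℓ := by
              apply mul_le_mul _ e2 (div_pos hLpos (mul_pos (by norm_num) hprod)).le
                (mul_nonneg hkpos.le (sq_nonneg _))
              exact mul_le_mul_of_nonneg_left e3 hkpos.le
    refine le_trans ?_ hmain
    have eM : 4 * (((4 * r + 4 : ℕ) : ℝ) + 1) * (M / 4) - M / 4 =
        4 * ((r:ℝ) + 1) * M + 3 / 4 * M := by push_cast; ring
    rw [eM]
    linarith only [hMpos]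
  refine ⟨?_, ?_⟩
  · -- assembly
    set good := (Finset.Ioc N (2*N)).filter (fun n => n ≡ v [MOD W] ∧
        Rough ((N:ℝ) ^ δ) h n) with hgood
    set bad := (Finset.Ioc N (2*N)).filter (fun n => n ≡ v [MOD W] ∧ Avoid z W h n ∧
        ∃ p : ℕ, p.Prime ∧ z < p ∧ (p:ℝ) ≤ (N:ℝ) ^ δ ∧ ∃ i, p ∣ n + h i) with hbad
    set X : ℕ → ℝ := fun n => ((Finset.univ.filter (fun i => (n + h i).Prime)).card : ℝ) with hX
    have hXk : ∀ n, X n ≤ k := by
      intro n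
      have : (Finset.univ.filter (fun i : Fin k => (n + h i).Prime)).card ≤ k := by
        calc _ ≤ (Finset.univ : Finset (Fin k)).card := Finset.card_filter_le _ _
          _ = k := by simp
      rw [hX]
      exact Nat.cast_le.2 this
    have hr0 : (0:ℝ) ≤ r := Nat.cast_nonneg r
    have hgoodbase : good = base.filter (fun n => Rough ((N:ℝ) ^ δ) h n) := by
      rw [hgood, hbase, Finset.filter_filter]
      apply Finset.filter_congr
      intro n _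
      constructor
      · rintro ⟨h1, h2⟩
        refine ⟨⟨h1, fun p hp hpz _ i hi => ?_⟩, h2⟩
        have h3 := h2 i p hp hi
        have h4 : (p:ℝ) ≤ z := by exact_mod_cast hpz
        linarith only [h3, h4, hzL, hNδ']
      · rintro ⟨⟨h1, _⟩, h2⟩
        exact ⟨h1, h2⟩
    have hbadbase : bad = base.filter (fun n => ¬ Rough ((N:ℝ) ^ δ) h n) := by
      rw [hbad, hbase, Finset.filter_filter]
      apply Finset.filter_congr
      intro n _
      constructor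
      · rintro ⟨h1, h2, p, hp, hzp, hpN, i, hi⟩
        refine ⟨⟨h1, h2⟩, fun hr => ?_⟩
        exact absurd (hr i p hp hi) (not_lt.2 hpN)
      · rintro ⟨⟨h1, h2⟩, h3⟩
        refine ⟨h1, h2, ?_⟩
        unfold Rough at h3
        push Not at h3
        obtain ⟨i, p, hp, hi, hpN⟩ := h3
        refine ⟨p, hp, ?_, hpN, i, hi⟩
        by_contra hpz
        refine h2 p hp (not_lt.1 hpz) (fun hpW => ?_) i hi
        have h4 : n + h i ≡ v + h i [MOD W] := Nat.ModEq.add_right _ h1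
        have h5 : n + h i ≡ v + h i [MOD p] := h4.of_dvd hpW
        have h6 : p ∣ v + h i := (Nat.ModEq.dvd_iff h5 (dvd_refl p)).1 hi
        have h7 : p ∣ Nat.gcd (v + h i) W := Nat.dvd_gcd h6 hpW
        rw [hcop i] at h7
        exact hp.one_lt.ne' (Nat.dvd_one.1 h7)
    have hsplit : ∑ n ∈ good, (X n - ((r:ℝ) - 1)) * wn h lam n +
        ∑ n ∈ bad, (X n - ((r:ℝ) - 1)) * wn h lam n =
        ∑ n ∈ base, (X n - ((r:ℝ) - 1)) * wn h lam n := by
      rw [hgoodbase, hbadbase, Finset.sum_filter_add_sum_filter_not]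
    have hbadle : ∑ n ∈ bad, (X n - ((r:ℝ) - 1)) * wn h lam n ≤
        (k + 1) * ∑ n ∈ bad, wn h lam n := by
      rw [Finset.mul_sum]
      refine Finset.sum_le_sum fun n _ => mul_le_mul_of_nonneg_right ?_ (hwn0 n)
      have := hXk n
      linarith only [this, hr0]
    have hbasege : ∑ n ∈ base, X n * wn h lam n - r * ∑ n ∈ base, wn h lam n ≤
        ∑ n ∈ base, (X n - ((r:ℝ) - 1)) * wn h lam n := by
      rw [Finset.mul_sum, ← Finset.sum_sub_distrib]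
      refine Finset.sum_le_sum fun n _ => ?_
      have e1 := hwn0 n
      have e2 : (X n - ((r:ℝ) - 1)) * wn h lam n - (X n * wn h lam n - r * wn h lam n) =
          wn h lam n := by ring
      linarith only [e1, e2]
    have hrS : (r:ℝ) * ∑ n ∈ base, wn h lam n ≤ r * (3 * M) :=
      mul_le_mul_of_nonneg_left hS1 hr0
    have hfinal : M ≤ ∑ n ∈ good, (X n - ((r:ℝ) - 1)) * wn h lam n := by
      have e1 : 0 ≤ (r:ℝ) * M := mul_nonneg hr0 hMpos.le
      linarith only [hsplit, hbadle, hNR, hbasege, hT, hrS, e1, hMpos]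
    refine le_trans ?_ hfinal
    refine le_trans ?_ hM0
    calc η ^ k * NW * G * (F * L) ^ k = NW * G * (F * (η * L)) ^ k := by
          rw [mul_pow, mul_pow, mul_pow]; ring
      _ ≤ NW * G * (F * ℓ) ^ k := by
          apply mul_le_mul_of_nonneg_left _ (mul_pos hNWpos hGpos).le
          apply pow_le_pow_left₀ (mul_pos hFpos (mul_pos hηpos hLpos)).le
          exact mul_le_mul_of_nonneg_left hℓη hFpos.le
  · intro s
    refine (hlammax s).trans ?_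
    rw [← mul_pow]
    apply pow_le_pow_left₀ hsumR0
    refine hpR.trans ?_
    rw [mul_assoc]
    apply mul_le_mul_of_nonneg_left _ (by linarith only [hCp1])
    exact mul_le_mul_of_nonneg_left hlogRL hFpos.le

end Pool.Agent.Lib.MP
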